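import Pool.Agent.H86.C.BcRng
import Pool.Agent.H86.C.K.T6
import Pool.Agent.H86.C.K.B15
import Pool.Agent.H86.C.K.B16

/-! # The base checks together -/

namespace H86C

theorem t6ok : T6OK := by
  intro o ho
  obtain ⟨h0, h1, h2, h3, h4, h5, h6, h7, h8, h9, h10, h11, h12, h13, h14, h15⟩ := tab6
  interval_cases o <;> assumption

theorem bk_all : ∀ q < 81, ∃ m k b : ℕ, m + k = jnT.getD q 0 ∧ b = jlT.getD q 0 + m ∧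
    chkO (13 + q) (jlT.getD q 0) m = true ∧ chkO (13 + q) b k = true := by
  obtain ⟨h0, g0, h1, g1, h2, g2, h3, g3, h4, g4, h5, g5, h6, g6⟩ := base01
  obtain ⟨h7, g7, h8, g8, h9, g9, h10, g10, h11, g11⟩ := base02
  obtain ⟨h12, g12, h13, g13, h14, g14, h15, g15, h16, g16⟩ := base03
  obtain ⟨h17, g17, h18, g18, h19, g19, h20, g20⟩ := base04
  obtain ⟨h21, g21, h22, g22, h23, g23, h24, g24, h25, g25⟩ := base05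
  obtain ⟨h26, g26, h27, g27, h28, g28, h29, g29, h30, g30⟩ := base06
  obtain ⟨h31, g31, h32, g32, h33, g33, h34, g34, h35, g35⟩ := base07
  obtain ⟨h36, g36, h37, g37, h38, g38, h39, g39, h40, g40⟩ := base08
  obtain ⟨h41, g41, h42, g42, h43, g43, h44, g44⟩ := base09
  obtain ⟨h45, g45, h46, g46, h47, g47, h48, g48, h49, g49⟩ := base10
  obtain ⟨h50, g50, h51, g51, h52, g52, h53, g53, h54, g54⟩ := base11
  obtain ⟨h55, g55, h56, g56, h57, g57, h58, g58, h59, g59⟩ := base12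
  obtain ⟨h60, g60, h61, g61, h62, g62, h63, g63⟩ := base13
  obtain ⟨h64, g64, h65, g65, h66, g66, h67, g67, h68, g68⟩ := base14
  obtain ⟨h69, g69, h70, g70, h71, g71, h72, g72, h73, g73⟩ := base15
  obtain ⟨h74, g74, h75, g75, h76, g76, h77, g77, h78, g78, h79, g79, h80, g80⟩ := base16
  intro q hq
  interval_cases q
  · exact ⟨1, 2, 1, rfl, rfl, h0, g0⟩
  · exact ⟨7, 8, 7, rfl, rfl, h1, g1⟩
  · exact ⟨14, 15, 14, rfl, rfl, h2, g2⟩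
  · exact ⟨21, 21, 21, rfl, rfl, h3, g3⟩
  · exact ⟨24, 25, 24, rfl, rfl, h4, g4⟩
  · exact ⟨26, 27, 26, rfl, rfl, h5, g5⟩
  · exact ⟨26, 27, 26, rfl, rfl, h6, g6⟩
  · exact ⟨26, 27, 26, rfl, rfl, h7, g7⟩
  · exact ⟨26, 27, 26, rfl, rfl, h8, g8⟩
  · exact ⟨26, 27, 26, rfl, rfl, h9, g9⟩
  · exact ⟨26, 27, 26, rfl, rfl, h10, g10⟩
  · exact ⟨26, 27, 26, rfl, rfl, h11, g11⟩
  · exact ⟨26, 27, 26, rfl, rfl, h12, g12⟩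
  · exact ⟨26, 27, 26, rfl, rfl, h13, g13⟩
  · exact ⟨26, 27, 26, rfl, rfl, h14, g14⟩
  · exact ⟨26, 27, 26, rfl, rfl, h15, g15⟩
  · exact ⟨26, 27, 26, rfl, rfl, h16, g16⟩
  · exact ⟨26, 27, 26, rfl, rfl, h17, g17⟩
  · exact ⟨26, 27, 26, rfl, rfl, h18, g18⟩
  · exact ⟨26, 27, 26, rfl, rfl, h19, g19⟩
  · exact ⟨26, 27, 26, rfl, rfl, h20, g20⟩
  · exact ⟨26, 27, 26, rfl, rfl, h21, g21⟩
  · exact ⟨26, 27, 26, rfl, rfl, h22, g22⟩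
  · exact ⟨26, 27, 26, rfl, rfl, h23, g23⟩
  · exact ⟨26, 27, 26, rfl, rfl, h24, g24⟩
  · exact ⟨26, 27, 26, rfl, rfl, h25, g25⟩
  · exact ⟨26, 27, 26, rfl, rfl, h26, g26⟩
  · exact ⟨26, 27, 26, rfl, rfl, h27, g27⟩
  · exact ⟨26, 27, 26, rfl, rfl, h28, g28⟩
  · exact ⟨26, 27, 26, rfl, rfl, h29, g29⟩
  · exact ⟨26, 27, 26, rfl, rfl, h30, g30⟩
  · exact ⟨26, 27, 26, rfl, rfl, h31, g31⟩
  · exact ⟨26, 27, 26, rfl, rfl, h32, g32⟩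
  · exact ⟨26, 27, 26, rfl, rfl, h33, g33⟩
  · exact ⟨26, 27, 26, rfl, rfl, h34, g34⟩
  · exact ⟨26, 27, 26, rfl, rfl, h35, g35⟩
  · exact ⟨26, 27, 26, rfl, rfl, h36, g36⟩
  · exact ⟨26, 27, 26, rfl, rfl, h37, g37⟩
  · exact ⟨26, 27, 26, rfl, rfl, h38, g38⟩
  · exact ⟨26, 27, 26, rfl, rfl, h39, g39⟩
  · exact ⟨26, 27, 26, rfl, rfl, h40, g40⟩
  · exact ⟨26, 27, 26, rfl, rfl, h41, g41⟩
  · exact ⟨26, 27, 26, rfl, rfl, h42, g42⟩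
  · exact ⟨26, 27, 26, rfl, rfl, h43, g43⟩
  · exact ⟨26, 27, 26, rfl, rfl, h44, g44⟩
  · exact ⟨26, 27, 26, rfl, rfl, h45, g45⟩
  · exact ⟨26, 27, 26, rfl, rfl, h46, g46⟩
  · exact ⟨26, 27, 26, rfl, rfl, h47, g47⟩
  · exact ⟨26, 27, 26, rfl, rfl, h48, g48⟩
  · exact ⟨26, 27, 26, rfl, rfl, h49, g49⟩
  · exact ⟨26, 27, 26, rfl, rfl, h50, g50⟩
  · exact ⟨26, 27, 26, rfl, rfl, h51, g51⟩
  · exact ⟨26, 27, 26, rfl, rfl, h52, g52⟩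
  · exact ⟨26, 27, 26, rfl, rfl, h53, g53⟩
  · exact ⟨26, 27, 26, rfl, rfl, h54, g54⟩
  · exact ⟨26, 27, 26, rfl, rfl, h55, g55⟩
  · exact ⟨26, 27, 26, rfl, rfl, h56, g56⟩
  · exact ⟨26, 27, 26, rfl, rfl, h57, g57⟩
  · exact ⟨26, 27, 26, rfl, rfl, h58, g58⟩
  · exact ⟨26, 27, 26, rfl, rfl, h59, g59⟩
  · exact ⟨26, 27, 26, rfl, rfl, h60, g60⟩
  · exact ⟨26, 27, 26, rfl, rfl, h61, g61⟩
  · exact ⟨26, 27, 26, rfl, rfl, h62, g62⟩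
  · exact ⟨26, 27, 26, rfl, rfl, h63, g63⟩
  · exact ⟨26, 27, 26, rfl, rfl, h64, g64⟩
  · exact ⟨26, 27, 26, rfl, rfl, h65, g65⟩
  · exact ⟨26, 27, 26, rfl, rfl, h66, g66⟩
  · exact ⟨26, 27, 26, rfl, rfl, h67, g67⟩
  · exact ⟨26, 27, 26, rfl, rfl, h68, g68⟩
  · exact ⟨26, 27, 26, rfl, rfl, h69, g69⟩
  · exact ⟨26, 27, 26, rfl, rfl, h70, g70⟩
  · exact ⟨26, 27, 26, rfl, rfl, h71, g71⟩
  · exact ⟨26, 27, 26, rfl, rfl, h72, g72⟩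
  · exact ⟨26, 27, 26, rfl, rfl, h73, g73⟩
  · exact ⟨26, 27, 26, rfl, rfl, h74, g74⟩
  · exact ⟨23, 24, 29, rfl, rfl, h75, g75⟩
  · exact ⟨17, 18, 35, rfl, rfl, h76, g76⟩
  · exact ⟨11, 12, 41, rfl, rfl, h77, g77⟩
  · exact ⟨6, 7, 46, rfl, rfl, h78, g78⟩
  · exact ⟨3, 3, 50, rfl, rfl, h79, g79⟩
  · exact ⟨1, 1, 52, rfl, rfl, h80, g80⟩

theorem baseAll : BaseAll := baseAll_of t6ok bk_all

end H86C
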