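import Pool.Agent.H86.C.BcLan

/-! # Module BcSpr: spreading the lanes

`ex t z b n` (with `b + n = t`) performs the stages `t - 1, .., b` : before the stage `β` the array consists of blocks of
`2^(β+1)` lanes at distance `2^(β+1+z)` lanes; the stage moves the upper half (`2^β` lanes) of each block up by
`(2^z - 1) 2^β` lanes, so that we get blocks of `2^β` lanes at distance `2^(β+z)`. `mkb t z β` is the mask of the upper halves:
`(2^(24 * 2^β) - 1) * 2^(24 * 2^β) * ∑_q 2^(24 * 2^(β+1+z) q)`, `q < 2^(t-β-1)`. With the block form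
`E β := pk (24 * 2^(β+z)) (fun q => pk 24 (fun r => f (q * 2^β + r)) (2^β)) (2^(t-β))` :
`ex1` maps `E (β+1)` to `E β` (`X land mask` = upper halves, `X - y + y << ..`).

`exm` : multiplication by `R = ∑_{i < 2^b} 2^(24 i (2^z - 1))` puts a copy of the lane `r` of each block at the lane
`r + i (2^z - 1)`; lanes `r + i (2^z - 1)` that are multiples of `2^z` have `r ≡ i mod 2^z`, i.e. `r = i` (`r, i < 2^b ≤ 2^z`),
and then it is the lane `r 2^z`. Two copies fall in the same lane only if `b = z`, `r = 2^z - 1`, `r' = 0`, `i' = i + 1`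
(never a multiple of `2^z` within the block, as `i' < 2^z`); the sums stay `< 2^24` because the entries are `< 2^23`; the
mask keeps the lanes `≡ 0 mod 2^z`. Simplest proof: `E b * R = ∑_q ∑_r ∑_i ..` as a `pk 24` vector of length `2^(t+z)` whose
entries are `< 2^24`, and compare the entries at the multiples of `2^z`. The divisions are exact geometric sums. -/

namespace H86C

open H1Col (pk)

/-- Blocks of `2^b` lanes at distance `2^(b+z)` lanes. -/
def Eb (t z b : ℕ) (f : ℕ → ℕ) : ℕ :=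
  pk (24 * 2 ^ (b + z)) (fun q => pk 24 (fun r => f (q * 2 ^ b + r)) (2 ^ b)) (2 ^ (t - b))

private theorem sp_allo (n : ℕ) : allo n = 2 ^ n - 1 := by
  show (1 <<< n) - 1 = 2 ^ n - 1
  rw [Nat.shiftLeft_eq, one_mul]

private theorem sp_one_shift (n : ℕ) : Nat.shiftLeft 1 n = 2 ^ n := by
  show (1 <<< n) = 2 ^ n
  rw [Nat.shiftLeft_eq, one_mul]

private theorem sp_ones (w n : ℕ) : pk w (fun _ => 1) n * (2 ^ w - 1) = 2 ^ (w * n) - 1 := by
  have h : pk w (fun _ => 1) n * (2 ^ w - 1) + 1 = 2 ^ (w * n) := by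
    induction n with
    | zero => simp
    | succ n ih =>
      rw [H1Col.pk_succ, Nat.mul_succ, pow_add]
      have h1 : 1 ≤ 2 ^ w := Nat.one_le_two_pow
      obtain ⟨c, hc⟩ : ∃ c, 2 ^ w = c + 1 := ⟨2 ^ w - 1, by omega⟩
      rw [hc] at ih ⊢
      simp only [Nat.add_sub_cancel] at ih ⊢
      nlinarith
  omega

private theorem sp_quot {w : ℕ} (hw : 0 < w) (n : ℕ) :
    (2 ^ (w * n) - 1) / (2 ^ w - 1) = pk w (fun _ => 1) n := by
  rw [← sp_ones]
  have : 1 < 2 ^ w := Nat.one_lt_two_pow (by omega)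
  exact Nat.mul_div_cancel _ (by omega)

/-- two levels of packing -/
private theorem sp_flat (w n : ℕ) {m : ℕ} (hm : 0 < m) (g : ℕ → ℕ → ℕ) :
    pk (w * m) (fun q => pk w (g q) m) n = pk w (fun P => g (P / m) (P % m)) (m * n) := by
  induction n with
  | zero => simp
  | succ n ih =>
    rw [H1Col.pk_succ, ih, Nat.mul_succ, H1Col.pk_append]
    have h1 : pk w (fun i => g ((i + m * n) / m) ((i + m * n) % m)) m = pk w (g n) m := by
      apply H1Col.pk_congr
      intro i hi
      rw [Nat.add_mul_div_left _ _ hm, Nat.add_mul_mod_self_left, Nat.div_eq_of_lt hi, Nat.mod_eq_of_lt hi,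
        Nat.zero_add]
    rw [h1, Nat.mul_assoc w m n, Nat.mul_comm (pk w (g n) m)]

private theorem sp_ext (w m k : ℕ) (g : ℕ → ℕ) :
    pk w g m = pk w (fun r => if r < m then g r else 0) (m + k) := by
  rw [H1Col.pk_append]
  have h1 : pk w (fun i => if i + m < m then g (i + m) else 0) k = 0 := by
    unfold H1Col.pk
    apply Finset.sum_eq_zero
    intro i _
    have e : (fun i => if i + m < m then g (i + m) else 0) i = 0 := if_neg (by omega)
    rw [e, zero_mul]
  rw [h1, mul_zero, add_zero]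
  apply H1Col.pk_congr
  intro i hi
  rw [if_pos hi]

private theorem sp_trunc (w n s : ℕ) (g : ℕ → ℕ) (h : ∀ i, n ≤ i → i < n + s → g i = 0) :
    pk w g (n + s) = pk w g n := by
  rw [H1Col.pk_append]
  have h1 : pk w (fun i => g (i + n)) s = 0 := by
    unfold H1Col.pk
    apply Finset.sum_eq_zero
    intro i hi
    have e : (fun i => g (i + n)) i = 0 := h (i + n) (by omega) (by have := Finset.mem_range.1 hi; omega)
    rw [e, zero_mul]
  rw [h1, mul_zero, add_zero]

private theorem sp_pair (W n : ℕ) (g : ℕ → ℕ) :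
    pk W g (2 * n) = pk (W * 2) (fun q => g (2 * q) + 2 ^ W * g (2 * q + 1)) n := by
  have h1 := sp_flat W n (m := 2) (by norm_num) (fun q r => g (2 * q + r))
  have h2 : pk W g (2 * n) = pk W (fun P => g (2 * (P / 2) + P % 2)) (2 * n) := by
    apply H1Col.pk_congr
    intro i _
    rw [Nat.div_add_mod]
  rw [h2, ← h1]
  apply H1Col.pk_congr
  intro q _
  rw [H1Col.pk_succ, H1Col.pk_succ, H1Col.pk_zero]
  simp only [mul_zero, pow_zero, mul_one, zero_add, add_zero]
  rw [Nat.mul_comm (g (2 * q + 1))]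

private theorem sp_land {a L U : ℕ} (hL : L < 2 ^ a) (hU : U < 2 ^ a) :
    (L + 2 ^ a * U) &&& ((2 ^ a - 1) * 2 ^ a) = 2 ^ a * U := by
  apply Nat.eq_of_testBit_eq
  intro j
  rw [Nat.testBit_and, Nat.add_comm L, Nat.testBit_two_pow_mul_add _ hL, Nat.mul_comm (2 ^ a - 1),
    Nat.testBit_two_pow_mul, Nat.testBit_two_pow_mul, Nat.testBit_two_pow_sub_one]
  by_cases h1 : j < a
  · have h2 : ¬ a ≤ j := by omega
    simp [h2]
  · rw [if_neg h1]
    have h2 : a ≤ j := by omega
    by_cases h3 : j - a < a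
    · simp [h2, h3]
    · have h4 : U.testBit (j - a) = false := by
        apply Nat.testBit_lt_two_pow
        exact lt_of_lt_of_le hU (Nat.pow_le_pow_right (by norm_num) (by omega))
      simp [h4]

private theorem sp_stage {t z β : ℕ} (hβ : β < t) {f : ℕ → ℕ} (hf : ∀ i, f i < 8388608) :
    ex1 z β (Eb t z (β + 1) f) (Nat.land (Eb t z (β + 1) f) (mkb t z β)) = Eb t z β f := by
  have hf' : ∀ i, f i < 2 ^ 24 := fun i => lt_trans (hf i) (by norm_num)
  set a := 24 * 2 ^ β with ha
  set n := 2 ^ (t - (β + 1)) with hn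
  set W := 24 * 2 ^ (β + 1 + z) with hW
  let L : ℕ → ℕ := fun q => pk 24 (fun r => f (q * 2 ^ (β + 1) + r)) (2 ^ β)
  let U : ℕ → ℕ := fun q => pk 24 (fun r => f (q * 2 ^ (β + 1) + (r + 2 ^ β))) (2 ^ β)
  have hL : ∀ q, L q < 2 ^ a := fun q => H1Col.pk_lt fun i _ => hf' _
  have hU : ∀ q, U q < 2 ^ a := fun q => H1Col.pk_lt fun i _ => hf' _
  have h2 : 2 ^ (β + 1) = 2 ^ β + 2 ^ β := by rw [pow_succ]; ring
  have haW : 2 * a ≤ W := by
    have : 2 ^ (β + 1) ≤ 2 ^ (β + 1 + z) := Nat.pow_le_pow_right (by norm_num) (by omega)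
    omega
  have hE : Eb t z (β + 1) f = pk W (fun q => L q + 2 ^ a * U q) n := by
    unfold Eb
    apply H1Col.pk_congr
    intro q _
    show pk 24 (fun r => f (q * 2 ^ (β + 1) + r)) (2 ^ (β + 1)) = L q + 2 ^ a * U q
    rw [h2, H1Col.pk_append, ← h2]
  have hlt : ∀ q, L q + 2 ^ a * U q < 2 ^ (2 * a) := by
    intro q
    have h3 : 2 ^ (2 * a) = 2 ^ a * 2 ^ a := by rw [two_mul, pow_add]
    have h4 := hL q
    have h5 : 2 ^ a * (U q + 1) ≤ 2 ^ a * 2 ^ a := Nat.mul_le_mul_left _ (hU q)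
    rw [h3]
    calc L q + 2 ^ a * U q < 2 ^ a + 2 ^ a * U q := by omega
      _ = 2 ^ a * (U q + 1) := by ring
      _ ≤ _ := h5
  have hpw : 2 ^ (2 * a) ≤ 2 ^ W := Nat.pow_le_pow_right (by norm_num) haW
  have hmk : mkb t z β = pk W (fun _ => (2 ^ a - 1) * 2 ^ a) n := by
    have h3 : mkb t z β = (allo (24 * Nat.shiftLeft 1 β) * Nat.shiftLeft 1 (24 * Nat.shiftLeft 1 β)) *
        (allo (24 * Nat.shiftLeft 1 (t + z)) / allo (24 * Nat.shiftLeft 1 (β + (z + 1)))) := rfl
    rw [h3]
    simp only [sp_one_shift, sp_allo]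
    have h4 : 24 * 2 ^ (t + z) = W * n := by
      rw [hW, hn, mul_assoc, ← pow_add]
      congr 2
      omega
    have h5 : 24 * 2 ^ (β + (z + 1)) = W := by
      rw [hW]
      congr 2
      omega
    rw [h4, h5, sp_quot (by rw [hW]; positivity), Nat.mul_comm, H1Col.pk_const_mul]
  have hmlt : ∀ q : ℕ, (2 ^ a - 1) * 2 ^ a < 2 ^ W := by
    intro _
    have h3 : 2 ^ (2 * a) = 2 ^ a * 2 ^ a := by rw [two_mul, pow_add]
    have h4 : 0 < 2 ^ a := by positivity
    have h5 : (2 ^ a - 1) * 2 ^ a < 2 ^ a * 2 ^ a := Nat.mul_lt_mul_of_pos_right (by omega) h4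
    omega
  have hland : Nat.land (Eb t z (β + 1) f) (mkb t z β) = pk W (fun q => 2 ^ a * U q) n := by
    show (Eb t z (β + 1) f) &&& (mkb t z β) = _
    rw [hE, hmk, H1Col.pk_land (fun q _ => lt_of_lt_of_le (hlt q) hpw) (fun q _ => hmlt q)]
    apply H1Col.pk_congr
    intro q _
    exact sp_land (hL q) (hU q)
  rw [hland, hE]
  have h6 : ex1 z β (pk W (fun q => L q + 2 ^ a * U q) n) (pk W (fun q => 2 ^ a * U q) n) =
      (pk W (fun q => L q + 2 ^ a * U q) n - pk W (fun q => 2 ^ a * U q) n) +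
        (pk W (fun q => 2 ^ a * U q) n) <<< (24 * (allo z * Nat.shiftLeft 1 β)) := rfl
  rw [h6, sp_one_shift, sp_allo, Nat.shiftLeft_eq, H1Col.pk_sub (fun q _ => Nat.le_add_left _ _), H1Col.pk_mul,
    H1Col.pk_add]
  have h7 : Eb t z β f = pk (24 * 2 ^ (β + z)) (fun q => pk 24 (fun r => f (q * 2 ^ β + r)) (2 ^ β)) (2 * n) := by
    unfold Eb
    congr 1
    rw [hn, ← pow_succ']
    congr 1
    omega
  have h8 : W = 24 * 2 ^ (β + z) * 2 := by
    rw [hW, show β + 1 + z = β + z + 1 by ring, pow_succ]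
    ring
  rw [h7, sp_pair, ← h8]
  apply H1Col.pk_congr
  intro q _
  have h9 : 2 ^ a * U q * 2 ^ (24 * ((2 ^ z - 1) * 2 ^ β)) = 2 ^ (24 * 2 ^ (β + z)) * U q := by
    have h10 : 24 * 2 ^ (β + z) = a + 24 * ((2 ^ z - 1) * 2 ^ β) := by
      have h11 : 1 ≤ 2 ^ z := Nat.one_le_two_pow
      obtain ⟨c, hc⟩ : ∃ c, 2 ^ z = c + 1 := ⟨2 ^ z - 1, by omega⟩
      rw [ha, pow_add, hc, Nat.add_sub_cancel]
      ring
    rw [h10, pow_add]
    ring
  show L q + 2 ^ a * U q - 2 ^ a * U q + 2 ^ a * U q * 2 ^ (24 * ((2 ^ z - 1) * 2 ^ β)) = _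
  rw [h9, Nat.add_sub_cancel]
  have h12 : L q = pk 24 (fun r => f (2 * q * 2 ^ β + r)) (2 ^ β) := by
    apply H1Col.pk_congr
    intro r _
    congr 1
    rw [pow_succ]
    ring
  have h13 : U q = pk 24 (fun r => f ((2 * q + 1) * 2 ^ β + r)) (2 ^ β) := by
    apply H1Col.pk_congr
    intro r _
    congr 1
    rw [pow_succ]
    ring
  rw [h12, h13]

private theorem sp_ex (t z b : ℕ) {f : ℕ → ℕ} (hf : ∀ i, f i < 8388608) (n : ℕ) (h : n + b ≤ t) :
    ex t z b n (Eb t z (n + b) f) = Eb t z b f := by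
  induction n with
  | zero =>
    rw [Nat.zero_add]
    rfl
  | succ n ih =>
    have h1 : ex t z b (n + 1) (Eb t z (n + 1 + b) f) =
        ex t z b n (ex1 z (n + b) (Eb t z (n + 1 + b) f) (Nat.land (Eb t z (n + 1 + b) f) (mkb t z (n + b)))) := rfl
    rw [h1, show n + 1 + b = n + b + 1 by ring, sp_stage (by omega) hf]
    exact ih (by omega)

theorem ex_eq {t z b n : ℕ} {f : ℕ → ℕ} (h : b + n = t) (hf : ∀ i, f i < 8388608) :
    ex t z b n (pk 24 f (2 ^ t)) = Eb t z b f := by
  have h1 : pk 24 f (2 ^ t) = Eb t z (n + b) f := by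
    have hp1 : ∀ (W : ℕ) (g : ℕ → ℕ), pk W g 1 = g 0 := by
      intro W g
      have e : pk W g (0 + 1) = pk W g 0 + g 0 * 2 ^ (W * 0) := H1Col.pk_succ W g 0
      rw [H1Col.pk_zero, mul_zero, pow_zero, mul_one, Nat.zero_add, Nat.zero_add] at e
      exact e
    unfold Eb
    rw [show n + b = t by omega, Nat.sub_self, pow_zero, hp1]
    apply H1Col.pk_congr
    intro i _
    rw [Nat.zero_mul, Nat.zero_add]
  rw [h1]
  exact sp_ex t z b hf n (by omega)

private theorem sp_sum (w N n : ℕ) (g : ℕ → ℕ → ℕ) :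
    ∑ i ∈ Finset.range n, pk w (g i) N = pk w (fun P => ∑ i ∈ Finset.range n, g i P) N := by
  unfold H1Col.pk
  rw [Finset.sum_comm]
  apply Finset.sum_congr rfl
  intro P _
  rw [Finset.sum_mul]

/-- entries of the array with blocks of `B` lanes at distance `A * B` lanes -/
private def spF (A B : ℕ) (f : ℕ → ℕ) (P : ℕ) : ℕ :=
  if P % (A * B) < B then f (P / (A * B) * B + P % (A * B)) else 0

private def spH (A B : ℕ) (f : ℕ → ℕ) (i P : ℕ) : ℕ := if P < (A - 1) * i then 0 else spF A B f (P - (A - 1) * i)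

private theorem spF_lt {A B : ℕ} {f : ℕ → ℕ} (hf : ∀ i, f i < 8388608) (P : ℕ) : spF A B f P ≤ 8388607 := by
  unfold spF
  split
  · have := hf (P / (A * B) * B + P % (A * B))
    omega
  · omega

/-- the position in the block of a term which is not zero -/
private theorem spH_pos {A B : ℕ} {f : ℕ → ℕ} (hA : 0 < A) (hBA : B ≤ A) {i : ℕ} (hi : i < B) {P : ℕ}
    (h : spH A B f i P ≠ 0) : (A - 1) * i ≤ P % (A * B) ∧ P % (A * B) < (A - 1) * i + B ∧
      spH A B f i P = f (P / (A * B) * B + (P % (A * B) - (A - 1) * i)) := by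
  unfold spH spF at h ⊢
  split at h
  · exact absurd rfl h
  rename_i h1
  split at h
  swap
  · exact absurd rfl h
  rename_i h2
  rw [if_neg h1, if_pos h2]
  obtain ⟨c, rfl⟩ : ∃ c, A = c + 1 := ⟨A - 1, by omega⟩
  simp only [Nat.add_sub_cancel] at h1 h2 ⊢
  have h3 : c * i + B ≤ (c + 1) * B := by
    have : c * i ≤ c * B := Nat.mul_le_mul_left _ (by omega)
    have e : (c + 1) * B = c * B + B := by ring
    omega
  have hpos : 0 < (c + 1) * B := Nat.mul_pos (by omega) (by omega)
  have hdm := Nat.div_add_mod P ((c + 1) * B)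
  have hm := Nat.mod_lt P hpos
  generalize hΛ : (c + 1) * B = Λ at *
  generalize hs : c * i = s at *
  generalize P % Λ = p at *
  generalize P / Λ = q at *
  by_cases h4 : s ≤ p
  · have h5 : P - s = (p - s) + Λ * q := by omega
    have h6 : (P - s) % Λ = p - s := by
      rw [h5, Nat.add_mul_mod_self_left, Nat.mod_eq_of_lt (by omega)]
    have h7 : (P - s) / Λ = q := by
      rw [h5, Nat.add_mul_div_left _ _ hpos, Nat.div_eq_of_lt (by omega), Nat.zero_add]
    rw [h6] at h2
    refine ⟨h4, by omega, ?_⟩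
    rw [h6, h7]
  · exfalso
    have hq : q ≠ 0 := by
      rintro rfl
      omega
    obtain ⟨q', rfl⟩ : ∃ q', q = q' + 1 := ⟨q - 1, by omega⟩
    have h5 : P - s = (Λ + p - s) + Λ * q' := by
      rw [Nat.mul_succ] at hdm
      omega
    have h6 : (P - s) % Λ = Λ + p - s := by
      rw [h5, Nat.add_mul_mod_self_left, Nat.mod_eq_of_lt (by omega)]
    rw [h6] at h2
    omega

private theorem spH_le {A B : ℕ} {f : ℕ → ℕ} (hf : ∀ i, f i < 8388608) (hA : 1 < A) (hBA : B ≤ A) {i : ℕ} (hi : i < B)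
    (P : ℕ) : spH A B f i P ≤ (if P % (A * B) / (A - 1) = i then 8388607 else 0) +
      (if P % (A * B) / (A - 1) = i + 1 then 8388607 else 0) := by
  by_cases h : spH A B f i P = 0
  · rw [h]
    exact Nat.zero_le _
  · obtain ⟨h1, h2, h3⟩ := spH_pos (by omega) hBA hi h
    have h4 : spH A B f i P ≤ 8388607 := by
      rw [h3]
      have := hf (P / (A * B) * B + (P % (A * B) - (A - 1) * i))
      omega
    have hc : 0 < A - 1 := by omega
    have h5 : i ≤ P % (A * B) / (A - 1) := (Nat.le_div_iff_mul_le hc).2 (by rw [Nat.mul_comm]; exact h1)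
    have h6 : P % (A * B) / (A - 1) < i + 2 := by
      rw [Nat.div_lt_iff_lt_mul hc]
      have e : (i + 2) * (A - 1) = (A - 1) * i + 2 * (A - 1) := by ring
      rw [e]
      omega
    by_cases h7 : P % (A * B) / (A - 1) = i
    · rw [if_pos h7]
      omega
    · rw [if_neg h7, if_pos (by omega)]
      omega

private theorem spH_sum_lt {A B : ℕ} {f : ℕ → ℕ} (hf : ∀ i, f i < 8388608) (hA : 1 < A) (hBA : B ≤ A) (P : ℕ) :
    ∑ i ∈ Finset.range B, spH A B f i P < 16777216 := by
  have h1 : ∑ i ∈ Finset.range B, spH A B f i P ≤ ∑ i ∈ Finset.range B,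
      ((if P % (A * B) / (A - 1) = i then 8388607 else 0) +
      (if P % (A * B) / (A - 1) = i + 1 then 8388607 else 0)) :=
    Finset.sum_le_sum fun i hi => spH_le hf hA hBA (Finset.mem_range.1 hi) P
  have h2 : ∀ x : ℕ, ∑ i ∈ Finset.range B, (if x = i then 8388607 else 0) ≤ 8388607 := by
    intro x
    rw [Finset.sum_ite_eq]
    split <;> omega
  have h3 : ∀ x : ℕ, ∑ i ∈ Finset.range B, (if x = i + 1 then 8388607 else 0) ≤ 8388607 := by
    intro x
    cases x with
    | zero =>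
      have : ∑ i ∈ Finset.range B, (if 0 = i + 1 then 8388607 else 0) = 0 :=
        Finset.sum_eq_zero fun i _ => if_neg (by omega)
      rw [this]
      omega
    | succ x =>
      have : ∑ i ∈ Finset.range B, (if x + 1 = i + 1 then 8388607 else 0) =
          ∑ i ∈ Finset.range B, (if x = i then 8388607 else 0) := by
        apply Finset.sum_congr rfl
        intro i _
        by_cases h : x = i
        · rw [if_pos h, if_pos (by omega)]
        · rw [if_neg h, if_neg (by omega)]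
      rw [this]
      exact h2 x
  rw [Finset.sum_add_distrib] at h1
  have h4 := h2 (P % (A * B) / (A - 1))
  have h5 := h3 (P % (A * B) / (A - 1))
  omega

private theorem spH_sum_eq {A B : ℕ} {f : ℕ → ℕ} (hA : 1 < A) (hB : 0 < B) (hBA : B ≤ A) (j : ℕ) :
    ∑ i ∈ Finset.range B, spH A B f i (A * j) = f j := by
  have hmod : A * j % (A * B) = A * (j % B) := Nat.mul_mod_mul_left _ _ _
  have hdiv : A * j / (A * B) = j / B := Nat.mul_div_mul_left _ _ (by omega)
  have hj := Nat.div_add_mod j B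
  have hr := Nat.mod_lt j hB
  rw [Finset.sum_eq_single (j % B)]
  · have h1 : ¬ A * j < (A - 1) * (j % B) := by
      have : (A - 1) * (j % B) ≤ A * j := Nat.mul_le_mul (by omega) (Nat.mod_le _ _)
      omega
    unfold spH
    rw [if_neg h1]
    have h2 : A * j - (A - 1) * (j % B) = j % B + (A * B) * (j / B) := by
      obtain ⟨c, rfl⟩ : ∃ c, A = c + 1 := ⟨A - 1, by omega⟩
      rw [Nat.add_sub_cancel]
      have e : (c + 1) * j = (c + 1) * (B * (j / B) + j % B) := by rw [hj]
      have e2 : (c + 1) * (B * (j / B) + j % B) = c * (j % B) + (j % B + (c + 1) * B * (j / B)) := by ring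
      rw [e, e2, Nat.add_sub_cancel_left]
    have hpos : 0 < A * B := Nat.mul_pos (by omega) hB
    have hlt : j % B < A * B := lt_of_lt_of_le hr (Nat.le_mul_of_pos_left _ (by omega))
    unfold spF
    rw [h2, Nat.add_mul_mod_self_left, Nat.add_mul_div_left _ _ hpos, Nat.mod_eq_of_lt hlt, Nat.div_eq_of_lt hlt,
      if_pos hr, Nat.zero_add, Nat.mul_comm (j / B), hj]
  · intro i hi hne
    by_contra h
    obtain ⟨h1, h2, -⟩ := spH_pos (by omega) hBA (Finset.mem_range.1 hi) h
    rw [hmod] at h1 h2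
    have hiB := Finset.mem_range.1 hi
    obtain ⟨c, rfl⟩ : ∃ c, A = c + 1 := ⟨A - 1, by omega⟩
    rw [Nat.add_sub_cancel] at h1 h2
    generalize j % B = r at *
    rcases lt_or_gt_of_ne hne with h3 | h3
    · -- i < r
      obtain ⟨d, rfl⟩ : ∃ d, r = i + 1 + d := ⟨r - (i + 1), by omega⟩
      have e : (c + 1) * (i + 1 + d) = c * i + (c + 1) + i + (c + 1) * d := by ring
      rw [e] at h2
      omega
    · obtain ⟨d, rfl⟩ : ∃ d, i = r + 1 + d := ⟨i - (r + 1), by omega⟩
      have e : c * (r + 1 + d) = c * r + c + c * d := by ring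
      have e2 : (c + 1) * r = c * r + r := by ring
      rw [e, e2] at h1
      have h4 : c ≤ r := by omega
      omega
  · intro h
    exact absurd (Finset.mem_range.2 hr) h

theorem exm_eq {t z b : ℕ} {f : ℕ → ℕ} (hz : 0 < z) (hb : b ≤ z) (hbt : b ≤ t) (hf : ∀ i, f i < 8388608) :
    exm t z b (Eb t z b f) = pk (24 * 2 ^ z) f (2 ^ t) := by
  have hA : 1 < 2 ^ z := Nat.one_lt_two_pow (by omega)
  have hB : 0 < 2 ^ b := by positivity
  have hBA : 2 ^ b ≤ 2 ^ z := Nat.pow_le_pow_right (by norm_num) hb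
  set A := 2 ^ z with hAdef
  set B := 2 ^ b with hBdef
  have hΛ : 2 ^ (b + z) = A * B := by rw [pow_add, Nat.mul_comm]
  have hN : A * B * 2 ^ (t - b) = A * 2 ^ t := by
    rw [mul_assoc, hBdef, ← pow_add]
    congr 2
    omega
  have hpos : 0 < A * B := Nat.mul_pos (by omega) hB
  have hE : Eb t z b f = pk 24 (spF A B f) (A * 2 ^ t) := by
    unfold Eb
    have h1 : ∀ q, pk 24 (fun r => f (q * 2 ^ b + r)) (2 ^ b) =
        pk 24 ((fun q r => if r < B then f (q * B + r) else 0) q) (A * B) := by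
      intro q
      have h2 : A * B = 2 ^ b + (A * B - 2 ^ b) := by
        have : B ≤ A * B := Nat.le_mul_of_pos_left _ (by omega)
        omega
      rw [h2]
      exact sp_ext 24 (2 ^ b) _ _
    rw [hΛ, ← hN, H1Col.pk_congr (fun q _ => h1 q), sp_flat 24 _ hpos]
    rfl
  have hex : exm t z b (Eb t z b f) =
      (Eb t z b f * (allo (24 * (allo z * Nat.shiftLeft 1 b)) / allo (24 * allo z))) &&&
        (16777215 * pat (t + z) t) := rfl
  have hR : allo (24 * (allo z * Nat.shiftLeft 1 b)) / allo (24 * allo z) =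
      ∑ i ∈ Finset.range B, 2 ^ (24 * ((A - 1) * i)) := by
    rw [sp_one_shift, sp_allo z, sp_allo, sp_allo, ← hAdef, ← hBdef, ← mul_assoc, sp_quot (by omega)]
    unfold H1Col.pk
    apply Finset.sum_congr rfl
    intro i _
    rw [one_mul, mul_assoc]
  have hmul : ∀ i < B, pk 24 (spF A B f) (A * 2 ^ t) * 2 ^ (24 * ((A - 1) * i)) =
      pk 24 (spH A B f i) (A * 2 ^ t) := by
    intro i hi
    rw [H1Col.pk_shift, Nat.add_comm]
    refine sp_trunc _ _ _ _ ?_
    intro P h1 h2
    by_contra hne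
    have h3 : spH A B f i P ≠ 0 := hne
    obtain ⟨h4, -, -⟩ := spH_pos (by omega) hBA hi h3
    have h5 : (A - 1) * i < A * B := by
      have : (A - 1) * i ≤ A * i := Nat.mul_le_mul_right _ (by omega)
      have : A * i < A * B := Nat.mul_lt_mul_of_pos_left hi (by omega)
      omega
    rw [← hN] at h1 h2
    have h6 : P % (A * B) = P - A * B * 2 ^ (t - b) := by
      have h7 : P = (P - A * B * 2 ^ (t - b)) + A * B * 2 ^ (t - b) := by omega
      rw [h7, Nat.add_mul_mod_self_left, Nat.mod_eq_of_lt (by omega)]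
      omega
    rw [h6] at h4
    omega
  have hprod : Eb t z b f * (allo (24 * (allo z * Nat.shiftLeft 1 b)) / allo (24 * allo z)) =
      pk 24 (fun P => ∑ i ∈ Finset.range B, spH A B f i P) (A * 2 ^ t) := by
    rw [hE, hR, Finset.mul_sum, ← sp_sum]
    apply Finset.sum_congr rfl
    intro i hi
    exact hmul i (Finset.mem_range.1 hi)
  have hone : ∀ x : ℕ, x = pk 24 (fun r => if r = 0 then x else 0) A := by
    intro x
    obtain ⟨c, hc⟩ : ∃ c, A = c + 1 := ⟨A - 1, by omega⟩
    rw [hc, H1Col.pk_succ']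
    have : pk 24 (fun i => if i + 1 = 0 then x else 0) c = 0 := by
      unfold H1Col.pk
      apply Finset.sum_eq_zero
      intro i _
      have e : (fun i => if i + 1 = 0 then x else 0) i = 0 := if_neg (by omega)
      rw [e, zero_mul]
    rw [this, if_pos rfl, mul_zero, add_zero]
  have hspread : ∀ g : ℕ → ℕ, pk (24 * A) g (2 ^ t) =
      pk 24 (fun P => if P % A = 0 then g (P / A) else 0) (A * 2 ^ t) := by
    intro g
    have h1 : pk (24 * A) g (2 ^ t) = pk (24 * A) (fun q => pk 24 ((fun q r => if r = 0 then g q else 0) q) A) (2 ^ t) := by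
      apply H1Col.pk_congr
      intro q _
      exact hone (g q)
    rw [h1, sp_flat 24 _ (by omega)]
  have hmask : 16777215 * pat (t + z) t = pk 24 (fun P => if P % A = 0 then 16777215 else 0) (A * 2 ^ t) := by
    rw [pat_eq (Nat.le_add_right t z), Nat.add_sub_cancel_left, ← hAdef, Nat.mul_comm, H1Col.pk_const_mul, hspread]
  rw [hex, hprod, hmask, H1Col.pk_land (fun P _ => spH_sum_lt hf hA hBA P) (by
    intro P _
    split <;> norm_num), hspread]
  apply H1Col.pk_congr
  intro P _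
  by_cases h : P % A = 0
  · simp only [if_pos h]
    have h1 : P = A * (P / A) := by
      have := Nat.div_add_mod P A
      omega
    have h2 : ∑ i ∈ Finset.range B, spH A B f i P = f (P / A) := by
      rw [h1, spH_sum_eq hA hB hBA, Nat.mul_div_cancel_left _ (by omega)]
    rw [h2]
    have h3 : f (P / A) &&& 16777215 = f (P / A) % 2 ^ 24 := Nat.and_two_pow_sub_one_eq_mod _ 24
    rw [h3, Nat.mod_eq_of_lt (lt_trans (hf _) (by norm_num))]
  · simp only [if_neg h]
    exact Nat.and_zero _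

end H86C
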