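import Pool.Agent.H86.C.BcGam
import Pool.Agent.H86.C.BcSpr

/-! # Module BcArr: the arrays computed by the check

`Arr t k s e = pk (24 * 2^(t-k)) (fun i => Vv k s (3^e i)) (2^k)`.

* `fr_eq` : `rfl`.
* `stF_eq` : `fr_eq`, `ra_eq`, `mrg_eq` with `γ = gam (o+d+1) mod 2^k`, then `arr_even`, `arr_odd` (positions `i = 2t`, `2t+1`).
* `f6_eq` : induction on `k` (level 0: `kv s`, one lane; `Arr 6 0 s e = kv s`).
* `tab_eq` : from `T6OK`: `chkT o 243` unfolds (induction on `n`) to the equality for every `s < 243` with `d = 0`, exponent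
  `o < 16`; for general `e` use `e % 16` : `3^16 ≡ 1 mod 64`, `Vv_mod` with `k = 6`; `Nat.land e 15 = e % 16`.
* `fA_eq` : `tab_eq`, `ex_eq`, `exm_eq` (`t = 6`, `z = 4`, `b = 3`) give `Arr 10 6`; then `stF_eq`.
* `fB_eq`, `fC_eq` : the same with `exm 10 2 2 (ex 10 2 2 8 ..)`, `exm 12 2 2 (ex 12 2 2 10 ..)`.
The depth condition: every rotation index `d' = d + 1 ≤ 23`. -/

namespace H86C

open H1Col (pk)

theorem fr_eq (x : ℕ) (f : ℕ → ℕ) : fr x f = f x := rfl

theorem stF_eq {o t k s d : ℕ} {F : ℕ → ℕ → ℕ} (hk : k < t) (hk' : k ≤ 22) (hs : s < 243) (hd : d + 1 < 24)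
    (h1 : F (en s) d = Arr t k (en s) (o + d)) (h2 : F (on s) (d + 1) = Arr t k (on s) (o + (d + 1))) :
    stF (gtab o 24) t k F s d = Arr t (k + 1) s (o + d) := by
  have he := en_lt s hs
  have ho := on_lt s hs
  have hkv : kv s < 8388608 := lt_of_le_of_lt (kv_bd s hs).2 (by norm_num)
  have e0 : stF (gtab o 24) t k F s d =
      mrg t k (kv s) (ra (gtab o 24) t k (d + 1)) (F (en s) d) (F (on s) (d + 1)) := rfl
  rw [e0, h1, h2, ra_eq hd hk.le hk']
  unfold Arr
  rw [mrg_eq hk (Nat.mod_lt _ (by positivity)) hkv (fun i => (Vv_bd he).2) (fun i => (Vv_bd ho).1)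
    (fun i => (Vv_bd ho).2)]
  apply H1Col.pk_congr
  intro i _
  rcases Nat.mod_two_eq_zero_or_one i with e | e
  · obtain ⟨j, rfl⟩ : ∃ j, i = 2 * j := ⟨i / 2, by omega⟩
    rw [arr_even, if_pos e, Nat.mul_div_cancel_left _ (by norm_num : 0 < 2)]
  · obtain ⟨j, rfl⟩ : ∃ j, i = 2 * j + 1 := ⟨i / 2, by omega⟩
    rw [arr_odd hk', if_neg (by omega), show (2 * j + 1) / 2 = j by omega, Nat.add_assoc o d 1]

private theorem ba_f6_succ (o g k s d : ℕ) : f6 o g (k + 1) s d = stF g 6 k (f6 o g k) s d := rfl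

private theorem ba_f6_zero (o g s d : ℕ) : f6 o g 0 s d = kv s := rfl

theorem f6_eq {o k s d : ℕ} (hk : k ≤ 6) (hs : s < 243) (hd : d + k < 24) :
    f6 o (gtab o 24) k s d = Arr 6 k s (o + d) := by
  induction k generalizing s d with
  | zero =>
    rw [ba_f6_zero]
    unfold Arr
    rw [pow_zero]
    show _ = pk _ _ (0 + 1)
    rw [H1Col.pk_succ, H1Col.pk_zero]
    simp [Vv]
  | succ k ih =>
    rw [ba_f6_succ]
    exact stF_eq (by omega) (by omega) hs (by omega) (ih (by omega) (en_lt s hs) (by omega))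
      (ih (by omega) (on_lt s hs) (by omega))

private theorem ba_rec (A B : ℕ → ℕ) : ∀ n, (@Nat.rec (fun _ => Bool) true (fun s ih =>
    @Bool.rec (fun _ => Bool) false ih (Nat.beq (A s) (B s))) n : Bool) = true → ∀ s < n, A s = B s := by
  intro n
  induction n with
  | zero => intro _ s hs; omega
  | succ n ih =>
    intro h s hs
    cases hb : Nat.beq (A n) (B n) with
    | false =>
      simp only [hb] at h
      exact absurd h (by decide)
    | true =>
      simp only [hb] at h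
      rcases Nat.lt_succ_iff_lt_or_eq.1 hs with h1 | h1
      · exact ih h s h1
      · rw [h1]
        exact Nat.eq_of_beq_eq_true hb

private theorem ba_gen (f : ℕ → ℕ → ℕ) (x z : ℕ) : ∀ n, (@Nat.rec (fun _ => Bool) true (fun s ih =>
    @Bool.rec (fun _ => Bool) false ih (Nat.beq (f s 0)
      (Nat.land (Nat.shiftRight x (Nat.mul 1536 s)) z))) n : Bool) = true →
    ∀ s < n, f s 0 = Nat.land (Nat.shiftRight x (Nat.mul 1536 s)) z :=
  ba_rec (fun s => f s 0) (fun s => Nat.land (Nat.shiftRight x (Nat.mul 1536 s)) z)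

private theorem ba_chkT0 {o : ℕ} (n : ℕ) : chkT o n = @Nat.rec (fun _ => Bool) true (fun s ih =>
    @Bool.rec (fun _ => Bool) false ih
      (Nat.beq (f6 o (gtab o 24) 6 s 0) (Nat.land (Nat.shiftRight (nth T6 o) (Nat.mul 1536 s)) (allo 1536)))) n := by
  delta chkT
  with_reducible rfl

private theorem ba_chkT {o : ℕ} (n : ℕ) (h : chkT o n = true) : ∀ s < n, f6 o (gtab o 24) 6 s 0 =
    Nat.land (Nat.shiftRight (nth T6 o) (Nat.mul 1536 s)) (allo 1536) := by
  rw [ba_chkT0] at h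
  exact ba_gen (f6 o (gtab o 24) 6) (nth T6 o) (allo 1536) n h

theorem tab_eq (h : T6OK) {e s : ℕ} (hs : s < 243) :
    Nat.land (Nat.shiftRight (nth T6 (Nat.land e 15)) (Nat.mul 1536 s)) (allo 1536)
      = pk 24 (fun i => Vv 6 s (3 ^ e * i)) 64 := by
  have h0 : Nat.land e 15 = e % 16 := Nat.and_two_pow_sub_one_eq_mod e 4
  have h1 : Nat.land e 15 < 16 := by rw [h0]; exact Nat.mod_lt _ (by norm_num)
  rw [← ba_chkT 243 (h _ h1) s hs, f6_eq le_rfl hs (by norm_num), h0]
  unfold Arr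
  rw [Nat.sub_self, pow_zero, mul_one, show (2 : ℕ) ^ 6 = 64 by norm_num, Nat.add_zero]
  apply H1Col.pk_congr
  intro i _
  apply Vv_mod
  apply Nat.ModEq.mul_right
  have h2 : 3 ^ e = 3 ^ (e % 16) * (3 ^ 16) ^ (e / 16) := by
    rw [← pow_mul, ← pow_add, Nat.mod_add_div]
  rw [h2]
  have h3 : (3 ^ 16) ^ (e / 16) ≡ 1 ^ (e / 16) [MOD 2 ^ 6] := Nat.ModEq.pow _ (by decide)
  rw [one_pow] at h3
  have h4 := (Nat.ModEq.mul_left (3 ^ (e % 16)) h3).symm
  rwa [mul_one] at h4

private theorem ba_fA_zero (o g s d : ℕ) : fA o g 0 s d = exm 6 4 3 (ex 6 4 3 3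
    (Nat.land (Nat.shiftRight (nth T6 (Nat.land (o + d) 15)) (Nat.mul 1536 s)) (allo 1536))) := rfl

private theorem ba_fA_succ (o g k s d : ℕ) : fA o g (k + 1) s d = stF g 10 (6 + k) (fA o g k) s d := rfl

private theorem ba_fB_zero (o g s d : ℕ) : fB o g 0 s d = exm 10 2 2 (ex 10 2 2 8 (fA o g 4 s d)) := rfl

private theorem ba_fB_succ (o g k s d : ℕ) : fB o g (k + 1) s d = stF g 12 (10 + k) (fB o g k) s d := rfl

private theorem ba_fC_zero (o g s d : ℕ) : fC o g 0 s d = exm 12 2 2 (ex 12 2 2 10 (fB o g 2 s d)) := rfl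

private theorem ba_fC_succ (o g k s d : ℕ) : fC o g (k + 1) s d = stF g 14 (12 + k) (fC o g k) s d := rfl

theorem fA_eq (h : T6OK) {o k s d : ℕ} (hk : k ≤ 4) (hs : s < 243) (hd : d + k < 24) :
    fA o (gtab o 24) k s d = Arr 10 (6 + k) s (o + d) := by
  induction k generalizing s d with
  | zero =>
    rw [ba_fA_zero, tab_eq h hs, show (64 : ℕ) = 2 ^ 6 by norm_num, ex_eq (by norm_num) (fun i => (Vv_bd hs).2),
      exm_eq (by norm_num) (by norm_num) (by norm_num) (fun i => (Vv_bd hs).2)]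
    rfl
  | succ k ih =>
    rw [ba_fA_succ]
    exact stF_eq (by omega) (by omega) hs (by omega) (ih (by omega) (en_lt s hs) (by omega))
      (ih (by omega) (on_lt s hs) (by omega))

theorem fB_eq (h : T6OK) {o k s d : ℕ} (hk : k ≤ 2) (hs : s < 243) (hd : d + k < 20) :
    fB o (gtab o 24) k s d = Arr 12 (10 + k) s (o + d) := by
  induction k generalizing s d with
  | zero =>
    rw [ba_fB_zero, fA_eq h le_rfl hs (by omega)]
    unfold Arr
    rw [show 10 - (6 + 4) = 0 by norm_num, show 6 + 4 = 10 by norm_num, pow_zero, mul_one,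
      ex_eq (by norm_num) (fun i => (Vv_bd hs).2),
      exm_eq (by norm_num) (by norm_num) (by norm_num) (fun i => (Vv_bd hs).2)]
  | succ k ih =>
    rw [ba_fB_succ]
    exact stF_eq (by omega) (by omega) hs (by omega) (ih (by omega) (en_lt s hs) (by omega))
      (ih (by omega) (on_lt s hs) (by omega))

private theorem ba_fC (h : T6OK) {o k s d : ℕ} (hk : k ≤ 2) (hs : s < 243) (hd : d + k < 18) :
    fC o (gtab o 24) k s d = Arr 14 (12 + k) s (o + d) := by
  induction k generalizing s d with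
  | zero =>
    rw [ba_fC_zero, fB_eq h le_rfl hs (by omega)]
    unfold Arr
    rw [show 12 - (10 + 2) = 0 by norm_num, show 10 + 2 = 12 by norm_num, pow_zero, mul_one,
      ex_eq (by norm_num) (fun i => (Vv_bd hs).2),
      exm_eq (by norm_num) (by norm_num) (by norm_num) (fun i => (Vv_bd hs).2)]
  | succ k ih =>
    rw [ba_fC_succ]
    exact stF_eq (by omega) (by omega) hs (by omega) (ih (by omega) (en_lt s hs) (by omega))
      (ih (by omega) (on_lt s hs) (by omega))

theorem fC_eq (h : T6OK) {o s d : ℕ} (hs : s < 243) (hd : d ≤ 8) :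
    fC o (gtab o 24) 2 s d = pk 24 (fun i => Vv 14 s (3 ^ (o + d) * i)) 16384 := by
  rw [ba_fC h le_rfl hs (by omega)]
  unfold Arr
  rw [show 14 - (12 + 2) = 0 by norm_num, show 12 + 2 = 14 by norm_num, pow_zero, mul_one,
    show (2 : ℕ) ^ 14 = 16384 by norm_num]

end H86C
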