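import Pool.Agent.H86.C.Grid

/-! # Module PotA: elementary facts on `K` and `nx`

COPY the lemmas of the same names in `Pool/Agent/H1/Col/Potential.lean` (there `27`, `135`, `nx = log2 (x/135)`;
here `243`, `nx x = log2 (x/243) + 11`, `al = 1610612737/1073741824`, the constant `524290` becomes `524289`).

* `nx_eq` : `Nat.log_eq_iff`, as there, `nx x = a + 11` when `243 * 2^a ≤ x < 243 * 2^(a+1)`.
* `nx_T` : `x ≤ 2 T x`, so the logarithm drops by at most one. -/

namespace H86C

theorem al_pos : 0 < al := by unfold al; norm_num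

theorem K_ge (n x : ℕ) : (m (kap (x % 243)) : ℝ) ≤ K n x := by
  cases n with
  | zero => exact le_refl _
  | succ n => exact le_max_left _ _

theorem K_nonneg (n x : ℕ) : 0 ≤ K n x := le_trans (by positivity) (K_ge n x)

private theorem K_succ_ge (n x : ℕ) : K n x ≤ K (n + 1) x := by
  induction n generalizing x with
  | zero => exact K_ge 1 x
  | succ n ih =>
      show max _ _ ≤ max _ _
      apply max_le_max (le_refl _)
      split_ifs
      · have := ih (x / 2); linarith
      · have := ih (H1Col.T x)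
        apply div_le_div_of_nonneg_right _ al_pos.le
        linarith

theorem K_mono {n n' : ℕ} (h : n ≤ n') (x : ℕ) : K n x ≤ K n' x := by
  induction h with
  | refl => exact le_refl _
  | step _ ih => exact le_trans ih (K_succ_ge _ _)

theorem nx_eq {x a : ℕ} (h1 : 243 * 2 ^ a ≤ x) (h2 : x < 243 * 2 ^ (a + 1)) : nx x = a + 11 := by
  unfold nx
  have h : Nat.log 2 (x / 243) = a := by
    rw [Nat.log_eq_iff (Or.inr ⟨by norm_num, ?_⟩)]
    · constructor
      · exact (Nat.le_div_iff_mul_le (by norm_num)).mpr (by linarith)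
      · exact (Nat.div_lt_iff_lt_mul (by norm_num)).mpr (by linarith)
    · have : 243 * 1 ≤ 243 * 2 ^ a := Nat.mul_le_mul_left _ (Nat.one_le_two_pow)
      have h3 : 0 < x / 243 := Nat.div_pos (by omega) (by norm_num)
      omega
  rw [h]

theorem le_nx {x a : ℕ} (h1 : 243 * 2 ^ a ≤ x) : a + 11 ≤ nx x := by
  unfold nx
  apply Nat.add_le_add_right
  apply Nat.le_log_of_pow_le (by norm_num)
  exact (Nat.le_div_iff_mul_le (by norm_num)).mpr (by linarith)

theorem nx_spec {x : ℕ} (h : 243 ≤ x) :
    ∃ a, nx x = a + 11 ∧ 243 * 2 ^ a ≤ x ∧ x < 243 * 2 ^ (a + 1) := by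
  have h3 : x / 243 ≠ 0 := by
    have : 0 < x / 243 := Nat.div_pos h (by norm_num)
    omega
  refine ⟨Nat.log 2 (x / 243), rfl, ?_, ?_⟩
  · have := Nat.pow_log_le_self 2 h3
    have h4 := (Nat.le_div_iff_mul_le (by norm_num)).mp this
    linarith
  · have := Nat.lt_pow_succ_log_self (b := 2) (by norm_num) (x / 243)
    have h4 := (Nat.div_lt_iff_lt_mul (by norm_num)).mp this
    rw [Nat.mul_comm] at h4
    exact h4

theorem nx_T {x : ℕ} (h : 243 ≤ x) : nx x ≤ nx (H1Col.T x) + 1 := by
  obtain ⟨a, ha, h1, -⟩ := nx_spec h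
  rcases Nat.eq_zero_or_pos a with h0 | h0
  · have h2 : 11 ≤ nx (H1Col.T x) := by unfold nx; omega
    omega
  · have h2 : 243 * 2 ^ (a - 1) ≤ H1Col.T x := by
      have e : 2 ^ a = 2 * 2 ^ (a - 1) := by
        rw [← pow_succ']; congr 1; omega
      have h3 := H1Col.le_two_T x
      rw [e] at h1
      have : 2 * (243 * 2 ^ (a - 1)) ≤ 2 * H1Col.T x := by linarith
      omega
    have := le_nx h2
    omega

private theorem T_add_mul (x k : ℕ) :
    H1Col.T (x + 2 * k) = if x % 2 = 0 then H1Col.T x + k else H1Col.T x + 3 * k := by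
  unfold H1Col.T
  rcases Nat.mod_two_eq_zero_or_one x with h | h
  · rw [if_pos (by omega), if_pos h, if_pos h]; omega
  · rw [if_neg (by omega), if_neg (by omega), if_neg (by omega)]; omega

private theorem K_per (n : ℕ) : ∀ x k, K n (x + 243 * 2 ^ n * k) = K n x := by
  induction n with
  | zero =>
      intro x k
      show (m (kap ((x + 243 * 2 ^ 0 * k) % 243)) : ℝ) = m (kap (x % 243))
      congr 3
      omega
  | succ n ih =>
      intro x k
      have e : 243 * 2 ^ (n + 1) * k = 2 * (243 * 2 ^ n * k) := by rw [pow_succ]; ring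
      have h27 : (x + 243 * 2 ^ (n + 1) * k) % 243 = x % 243 := by
        rw [show 243 * 2 ^ (n + 1) * k = 243 * (2 ^ (n + 1) * k) by ring, Nat.add_mul_mod_self_left]
      have h2 : (x + 243 * 2 ^ (n + 1) * k) % 2 = x % 2 := by rw [e]; omega
      have hd : (x + 243 * 2 ^ (n + 1) * k) / 2 = x / 2 + 243 * 2 ^ n * k := by rw [e]; omega
      show max _ _ = max _ _
      rw [h27, h2, hd]
      congr 1
      split_ifs with h
      · rw [ih]
      · have hT : H1Col.T (x + 243 * 2 ^ (n + 1) * k) = H1Col.T x + 243 * 2 ^ n * (3 * k) := by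
          rw [e, T_add_mul, if_neg h]; ring
        rw [hT, ih]

/-- `K` depends only on the class modulo `243 * 2^n` (`K_period`, `K_period'` in `Count.lean`). -/
theorem K_period {n x y : ℕ} (h : x ≡ y [MOD 243 * 2 ^ n]) : K n x = K n y := by
  have h1 : K n x = K n (x % (243 * 2 ^ n)) := by
    conv_lhs => rw [← Nat.mod_add_div x (243 * 2 ^ n)]
    rw [K_per]
  have h2 : K n y = K n (y % (243 * 2 ^ n)) := by
    conv_lhs => rw [← Nat.mod_add_div y (243 * 2 ^ n)]
    rw [K_per]
  rw [h1, h2, h]

end H86C
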