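import Pool.Agent.H86.C.Def
import Pool.Agent.H86.C.BcD
import Pool.Agent.H86.C.PotA

/-! Mathematical meaning of the base check: states, values, statements shared by the modules `Bc*`. -/

namespace H86C

open Finset
open scoped Classical
open H1Col (pk)

/-- Number of 3-adic digits known in the state `s < 243`. -/
def sj (s : ℕ) : ℕ :=
  if s = 0 then 0 else if s < 3 then 1 else if s < 9 then 2 else if s < 27 then 3 else if s < 81 then 4 else 5

/-- The residue modulo `3 ^ sj s` in the state `s`. -/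
def sz (s : ℕ) : ℕ := if s = 0 then 0 else 3 * ((s - 3 ^ (sj s - 1)) / 2) + (s - 3 ^ (sj s - 1)) % 2 + 1

/-- `x` is in the state `s`. -/
def Inst (s x : ℕ) : Prop := x % 3 ≠ 0 ∧ x % 3 ^ sj s = sz s

/-- The value `(87380 v - 22412970) / 2^17` modulo `2^23`. -/
def phv (v : ℕ) : ℕ := ((87380 * v - 22412970) / 131072) % 8388608

/-- Lower bound (scaled by `512`) of the potential with window `k` in the state `s`, 2-adic position `z`. -/
noncomputable def Vv : ℕ → ℕ → ℕ → ℕ
  | 0, s, _ => kv s
  | k + 1, s, z => max (kv s)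
      (if z % 2 = 0 then (2 * Vv k (en s) (z / 2)) % 8388608 else phv (Vv k (on s) ((3 * z + 1) / 2)))

/-- The array of the level `k`, state `s`, exponent `e`, in lanes at distance `2^(t-k)`. -/
noncomputable def Arr (t k s e : ℕ) : ℕ := pk (24 * 2 ^ (t - k)) (fun i => Vv k s (3 ^ e * i)) (2 ^ k)

/-- Verification of the table of level 6. -/
def T6OK : Prop := ∀ o < 16, chkT o 243 = true

/-- A node of the tree of the top levels: `i` levels above, numbers `2^i`, `3^(odd steps)`, constant `b`. -/
structure Node (i s d x p2 p3 b : ℕ) : Prop where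
  hs : s < 243
  hd : d ≤ i
  hx : x < 4194304
  h2 : p2 = 2 ^ i
  h3 : 0 < p3
  hb : p3 * 2 ^ 21 + b ≤ p2 * 2 ^ (21 + i)

/-- Meaning of a list of closures for a node from which `n` binary digits are natural (list entries) and `u` further
ones are summed: for the entry `h < 2^n` and the lane `j < 2^14`, the value `C` counts at least the members of
any family `Y` at the positions `v + 2^u (h + 2^n j)`, `v < 2^u`, for which the potential is below the transported
threshold. -/
def LfOK (o n u : ℕ) (s d x p2 p3 b lam : ℕ) (L : List Lf) : Prop :=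
  L.length = 2 ^ n ∧ ∀ h < 2 ^ n, ∃ (f : Lf) (C : ℕ → ℕ → ℕ), L[h]? = some f ∧
    (∀ τ acc, f τ acc = acc + pk 24 (fun j => 8388608 * C τ j) 16384) ∧
    (∀ τ j, C τ j ≤ 2 ^ u) ∧
    (∀ τ j, lam < τ → τ ≤ 2 ^ 21 → j < 16384 → ∀ Y : ℕ → ℕ,
      (∀ v < 2 ^ u, Inst s (Y v) ∧ Y v ≡ 3 ^ (o + d) * (v + 2 ^ u * (h + 2 ^ n * j) + x) [MOD 2 ^ (14 + n + u)]) →
      (((range (2 ^ u)).filter
        (fun v => K (14 + n + u) (Y v) * p2 < 2048 * ((p3 : ℝ) * τ + b))).card ≤ C τ j))

end H86C
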