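import Pool.Agent.H86.C.Def

/-! # Module ListS: the list functions in continuation style

All by induction on the lists; `@Bool.rec (fun _ => Bool) false x b = true` means `b = true` and `x = true` (cases on
`b`). `nth` out of range is `0`; `hd L = nth L 0`, `nth (tl L) i = nth L (i+1)`.
`ptr 9 L` is `[L, dr 18 L, .., dr 144 L]`, so `nth (nthL (ptr 9 L) (j/18)) (j%18) = nth L j` for `j < 162`. -/

namespace H86C

private theorem ls_nth_nil (i : ℕ) : nth [] i = 0 := rfl

private theorem ls_nth_zero (a : ℕ) (L : List ℕ) : nth (a :: L) 0 = a := rfl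

private theorem ls_nth_succ (a : ℕ) (L : List ℕ) (i : ℕ) : nth (a :: L) (i + 1) = nth L i := rfl

private theorem ls_hd (L : List ℕ) : hd L = nth L 0 := by
  cases L <;> rfl

private theorem ls_app_nil (M : List ℕ) : app [] M = M := rfl

private theorem ls_app_cons (a : ℕ) (L M : List ℕ) : app (a :: L) M = a :: app L M := rfl

private theorem ls_app_length (L M : List ℕ) : (app L M).length = L.length + M.length := by
  induction L with
  | nil => rw [ls_app_nil, List.length_nil, Nat.zero_add]
  | cons a L ih => rw [ls_app_cons, List.length_cons, List.length_cons, ih]; omega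

private theorem ls_nth_app (L M : List ℕ) (i : ℕ) :
    nth (app L M) i = if i < L.length then nth L i else nth M (i - L.length) := by
  induction L generalizing i with
  | nil => rw [ls_app_nil, if_neg (by simp), List.length_nil, Nat.sub_zero]
  | cons a L ih =>
    rw [ls_app_cons]
    cases i with
    | zero => rw [if_pos (by simp), ls_nth_zero, ls_nth_zero]
    | succ i =>
      rw [ls_nth_succ, ls_nth_succ, ih, List.length_cons]
      by_cases h : i < L.length
      · rw [if_pos h, if_pos (by omega)]
      · rw [if_neg h, if_neg (by omega)]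
        congr 1
        omega

private theorem ls_rec {b x : Bool} (h : @Bool.rec (fun _ => Bool) false x b = true) : x = true := by
  cases b
  · exact absurd h (by simp)
  · exact h

theorem nth_tl (L : List ℕ) (i : ℕ) : nth (tl L) i = nth L (i + 1) := by
  cases L <;> rfl

theorem nth_dr (n : ℕ) (L : List ℕ) (i : ℕ) : nth (dr n L) i = nth L (n + i) := by
  induction n generalizing L with
  | zero => rw [Nat.zero_add]; rfl
  | succ n ih =>
    have h1 : dr (n + 1) L = dr n (tl L) := rfl
    rw [h1, ih, nth_tl]
    congr 1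
    omega

private theorem ls_ptr (n : ℕ) (L : List ℕ) (q i : ℕ) (hq : q < n) :
    nth (nthL (ptr n L) q) i = nth L (18 * q + i) := by
  induction n generalizing L q with
  | zero => omega
  | succ n ih =>
    have h1 : ptr (n + 1) L = L :: ptr n (dr 18 L) := rfl
    rw [h1]
    cases q with
    | zero =>
      have h2 : nthL (L :: ptr n (dr 18 L)) 0 = L := rfl
      rw [h2]
      congr 1
      omega
    | succ q =>
      have h2 : nthL (L :: ptr n (dr 18 L)) (q + 1) = nthL (ptr n (dr 18 L)) q := rfl
      rw [h2, ih _ _ (by omega), nth_dr]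
      congr 1
      omega

theorem nth_ptr (L : List ℕ) {j : ℕ} (h : j < 162) :
    nth (nthL (ptr 9 L) (Nat.div j 18)) (Nat.mod j 18) = nth L j := by
  have h1 : Nat.div j 18 = j / 18 := rfl
  have h2 : Nat.mod j 18 = j % 18 := rfl
  rw [h1, h2, ls_ptr 9 L _ _ (by omega)]
  congr 1
  omega

theorem mapK_sound {B : ℕ} {f : ℕ → ℕ} {A : List ℕ} {k : List ℕ → Bool} (h : mapK B f A k = true) :
    ∃ R : List ℕ, R.length = A.length ∧ (∀ i < A.length, nth R i = f (nth A i)) ∧ k R = true := by
  induction A generalizing k with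
  | nil => exact ⟨[], rfl, fun i hi => absurd hi (by simp), h⟩
  | cons a A ih =>
    have h1 : mapK B f A (fun R =>
        @Bool.rec (fun _ => Bool) false (k (List.cons (f a) R)) (Nat.ble (f a) B)) = true := h
    obtain ⟨R, hR, hv, hk⟩ := ih h1
    refine ⟨f a :: R, by rw [List.length_cons, List.length_cons, hR], ?_, ls_rec hk⟩
    intro i hi
    cases i with
    | zero => rfl
    | succ i =>
      rw [ls_nth_succ, ls_nth_succ]
      rw [List.length_cons] at hi
      exact hv i (by omega)

theorem zipK_sound {B : ℕ} {f : ℕ → ℕ → ℕ → ℕ} {A Y Z : List ℕ} {k : List ℕ → Bool}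
    (h : zipK B f A Y Z k = true) :
    ∃ R : List ℕ, R.length = A.length ∧ (∀ i < A.length, nth R i = f (nth A i) (nth Y i) (nth Z i)) ∧
      k R = true := by
  induction A generalizing Y Z k with
  | nil => exact ⟨[], rfl, fun i hi => absurd hi (by simp), h⟩
  | cons a A ih =>
    have h1 : zipK B f A (tl Y) (tl Z) (fun R =>
        @Bool.rec (fun _ => Bool) false (k (List.cons (f a (hd Y) (hd Z)) R))
          (Nat.ble (f a (hd Y) (hd Z)) B)) = true := h
    obtain ⟨R, hR, hv, hk⟩ := ih h1
    refine ⟨f a (hd Y) (hd Z) :: R, by rw [List.length_cons, List.length_cons, hR], ?_, ls_rec hk⟩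
    intro i hi
    cases i with
    | zero => rw [ls_nth_zero, ls_nth_zero, ls_hd, ls_hd]
    | succ i =>
      rw [ls_nth_succ, ls_nth_succ]
      rw [List.length_cons] at hi
      rw [hv i (by omega), nth_tl, nth_tl]

theorem sel_sound {B : ℕ} {JL L : List ℕ} {k : List ℕ → Bool} (hJ : ∀ i < JL.length, nth JL i < 162)
    (h : sel B JL L k = true) :
    ∃ R : List ℕ, R.length = JL.length ∧ (∀ i < JL.length, nth R i = nth L (nth JL i)) ∧ k R = true := by
  have h1 : mapK B (fun j => nth (nthL (ptr 9 L) (Nat.div j 18)) (Nat.mod j 18)) JL k = true := h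
  obtain ⟨R, hR, hv, hk⟩ := mapK_sound h1
  refine ⟨R, hR, fun i hi => ?_, hk⟩
  rw [hv i hi]
  exact nth_ptr L (hJ i hi)

theorem rot_spec {L : List ℕ} (h : 0 < L.length) :
    (rot L).length = L.length ∧ ∀ i < L.length, nth (rot L) i = nth L ((i + 1) % L.length) := by
  cases L with
  | nil => exact absurd h (by simp)
  | cons a t =>
    have h1 : rot (a :: t) = app t [a] := rfl
    rw [h1]
    refine ⟨by rw [ls_app_length]; rfl, ?_⟩
    intro i hi
    rw [List.length_cons] at hi ⊢
    rw [ls_nth_app]
    by_cases h2 : i < t.length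
    · rw [if_pos h2, Nat.mod_eq_of_lt (by omega), ls_nth_succ]
    · have h3 : i = t.length := by omega
      rw [if_neg h2, h3, Nat.sub_self, Nat.mod_self]
      rfl

theorem app_three {G : List ℕ} {q : ℕ} (h : G.length = q) :
    ∀ i < 3 * q, nth (app G (app G G)) i = nth G (i % q) := by
  intro i hi
  rw [ls_nth_app, ls_nth_app, h]
  by_cases h1 : i < q
  · rw [if_pos h1, Nat.mod_eq_of_lt h1]
  · rw [if_neg h1]
    by_cases h2 : i - q < q
    · rw [if_pos h2]
      congr 1
      rw [Nat.mod_eq_sub_mod (by omega), Nat.mod_eq_of_lt h2]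
    · rw [if_neg h2]
      congr 1
      rw [Nat.mod_eq_sub_mod (by omega), Nat.mod_eq_sub_mod (by omega), Nat.mod_eq_of_lt (by omega)]

end H86C
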