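import Pool.Agent.H86.C.BcLan
import Pool.Agent.H86.C.ListS

/-! # Module BcSld: the sliding windows

Input: a list `L` of 16 numbers `L_i = pk 24 (E_i) 16384`, `E_i j = E (16 j + i) ≤ 16` : counts of the cells
`g = 16 j + i < 2^18`.  `Eh g` : the counts extended: `Eh g = E (g mod 2^18)` for `g < 16 * 16392`, `0` beyond.

* `ext` : `pk 24 (fun j => Eh (16 j + i)) 16400` (eight more lanes; fields beyond are zero; `16384 * 24 = 393216`).
* `rnds L 10 0` : element `k = 16 r + i < 160` is `pk 24 (fun j => Eh (16 j + k)) 16400` (shift by `r` lanes; the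
  sequence `Eh` vanishes from `16 * 16392` on).
* `dot PW L 0 >> 192` : `∑_i L_i * PW_i`, `PW_i = ∑_r Wd (16 r + i) 2^(24 (8 - r))` (`16 r + i ≤ 128`; kernel check of the
  packed lists, 16 entries); the lane `8 + j` of the sum is `∑_{k ≤ 128} Wd k * Eh (16 j + k) =: Wn (16 j)`; all lanes of the
  product are `< 2^24` (`≤ 16 * ∑_{k ≤ 128} Wd k = 1192064`), so `>> 192 = 24 * 8` gives `pk 24 (fun j => Wn (16 j)) 16400`.
  Similarly `PQ` : `Qn (16 j)`, `Qn g = ∑_{k=1}^{128} cn k * Eh (g + k)`, `cn k` = number of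
  `l ∈ {10, 27, 44, 79, 126, 128}` with `l ≥ k`.
* identities for all `g` : `Wn (g+1) + 830 Eh g = Wn g + Qn g + 416 Eh (g + 129)` (`Wd 0 = 830`, `Wd (k-1) = Wd k + cn k`,
  `Wd 128 = 416`); `Qn (g+1) + 6 Eh (g+1) = Qn g + ∑_l Eh (g + 1 + l)`.
* `slide` with 16 rounds, `g = 16 j + h`, `h = 0, .., 15`: the lists `L0, L1, ..` are the lists from the elements
  `0, 11, 28, 45, 80, 127, 129, 129` on (`chk3`: `dr`), `hd` = elements `h, h + 11, ..` in round `h`
  (`l + 1` for `l = 10, 27, 44, 79, 126, 128`; the last one `129` also for `416 Eh (g+129)`). No subtraction underflows.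
  The test `(W + C) land G = 0` with `C = (8388607 - U) P`, `G = 2^23 P`, `P = pat 14 14` : in each lane `j < 16384`
  `Wn g + 8388607 - U < 2^23`, i.e. `Wn g ≤ U` (lanes `≥ 16384` of `W` do not matter: `pk_land` needs the same length:
  write `W = pk 24 _ 16384 + 2^393216 * rest`). -/

namespace H86C

open Finset
open H1Col (pk)

private def Eh (E : ℕ → ℕ) (g : ℕ) : ℕ := if g < 262272 then E (g % 262144) else 0

private def win (ω E : ℕ → ℕ) (g : ℕ) : ℕ := ∑ k ∈ range 129, ω k * Eh E (g + k)

private def cq (k : ℕ) : ℕ := if k = 0 then 0 else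
  (if k ≤ 10 then 1 else 0) + (if k ≤ 27 then 1 else 0) + (if k ≤ 44 then 1 else 0) +
    (if k ≤ 79 then 1 else 0) + (if k ≤ 126 then 1 else 0) + (if k ≤ 128 then 1 else 0)

private theorem Eh_le {E : ℕ → ℕ} (hE : ∀ g, E g ≤ 16) (g : ℕ) : Eh E g ≤ 16 := by
  unfold Eh
  split_ifs
  · exact hE _
  · omega

private theorem Eh_zero {E : ℕ → ℕ} {g : ℕ} (h : 262272 ≤ g) : Eh E g = 0 := by
  unfold Eh
  rw [if_neg (by omega)]

private theorem win_le {ω E : ℕ → ℕ} (hE : ∀ g, E g ≤ 16) (hω : ∑ k ∈ range 129, ω k ≤ 100000)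
    (g : ℕ) : win ω E g ≤ 1600000 := by
  have h1 : win ω E g ≤ ∑ k ∈ range 129, ω k * 16 :=
    sum_le_sum fun k _ => Nat.mul_le_mul_left _ (Eh_le hE _)
  rw [← sum_mul] at h1
  omega

/-! ### Identities of the windows -/

private theorem sum_ind (F : ℕ → ℕ) {l : ℕ} (h : l ≤ 128) :
    ∑ k ∈ range 128, (if k + 1 ≤ l then 1 else 0) * F k = ∑ k ∈ range l, F k := by
  have h1 : ∑ k ∈ range l, F k = ∑ k ∈ range l, (if k + 1 ≤ l then 1 else 0) * F k := by
    refine sum_congr rfl fun k hk => ?_
    rw [mem_range] at hk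
    rw [if_pos (by omega), one_mul]
  rw [h1]
  symm
  apply sum_subset
  · intro k hk
    rw [mem_range] at hk ⊢
    omega
  · intro k _ hk
    rw [mem_range] at hk
    rw [if_neg (by omega), zero_mul]

private theorem cq_sum (F : ℕ → ℕ) : ∑ k ∈ range 128, cq (k + 1) * F k =
    ∑ k ∈ range 10, F k + ∑ k ∈ range 27, F k + ∑ k ∈ range 44, F k + ∑ k ∈ range 79, F k +
      ∑ k ∈ range 126, F k + ∑ k ∈ range 128, F k := by
  rw [← sum_ind F (l := 10) (by norm_num), ← sum_ind F (l := 27) (by norm_num),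
    ← sum_ind F (l := 44) (by norm_num), ← sum_ind F (l := 79) (by norm_num),
    ← sum_ind F (l := 126) (by norm_num)]
  have h1 : ∑ k ∈ range 128, F k = ∑ k ∈ range 128, (if k + 1 ≤ 128 then 1 else 0) * F k :=
    (sum_ind F le_rfl).symm
  rw [h1, ← sum_add_distrib, ← sum_add_distrib, ← sum_add_distrib, ← sum_add_distrib,
    ← sum_add_distrib]
  refine sum_congr rfl fun k _ => ?_
  unfold cq
  rw [if_neg (by omega)]
  ring

private theorem Wd_succ {k : ℕ} (h : k < 128) : Wd k = Wd (k + 1) + cq (k + 1) := by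
  unfold Wd cq
  rw [if_neg (by omega)]
  split_ifs <;> omega

private theorem id1 (E : ℕ → ℕ) (g : ℕ) :
    win Wd E (g + 1) + 830 * Eh E g = win Wd E g + win cq E g + 416 * Eh E (g + 129) := by
  unfold win
  rw [sum_range_succ (n := 128) (f := fun k => Wd k * Eh E (g + 1 + k)),
    sum_range_succ' (n := 128) (f := fun k => Wd k * Eh E (g + k)),
    sum_range_succ' (n := 128) (f := fun k => cq k * Eh E (g + k))]
  have h1 : ∑ k ∈ range 128, Wd k * Eh E (g + 1 + k) =
      ∑ k ∈ range 128, Wd (k + 1) * Eh E (g + (k + 1)) +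
        ∑ k ∈ range 128, cq (k + 1) * Eh E (g + (k + 1)) := by
    rw [← sum_add_distrib]
    refine sum_congr rfl fun k hk => ?_
    rw [mem_range] at hk
    rw [Wd_succ hk, show g + 1 + k = g + (k + 1) by omega]
    ring
  have h2 : Wd 128 = 416 := rfl
  have h3 : Wd 0 = 830 := rfl
  have h4 : cq 0 = 0 := rfl
  rw [h1, h2, h3, h4, show g + 1 + 128 = g + 129 by omega]
  simp only [Nat.add_zero]
  omega

private theorem tel (F : ℕ → ℕ) (l : ℕ) :
    ∑ k ∈ range l, F (k + 1) + F 0 = ∑ k ∈ range l, F k + F l := by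
  rw [← sum_range_succ' F l, sum_range_succ]

private theorem id2 (E : ℕ → ℕ) (g : ℕ) :
    win cq E (g + 1) + 6 * Eh E (g + 1) = win cq E g + Eh E (g + 11) + Eh E (g + 28) +
      Eh E (g + 45) + Eh E (g + 80) + Eh E (g + 127) + Eh E (g + 129) := by
  unfold win
  rw [sum_range_succ' (n := 128) (f := fun k => cq k * Eh E (g + 1 + k)),
    sum_range_succ' (n := 128) (f := fun k => cq k * Eh E (g + k))]
  have h4 : cq 0 = 0 := rfl
  rw [h4, zero_mul, zero_mul, add_zero, add_zero]
  have h5 := cq_sum fun k => Eh E (g + 1 + (k + 1))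
  have h6 := cq_sum fun k => Eh E (g + (k + 1))
  beta_reduce at h5 h6
  rw [h5, h6]
  have h8 : ∀ k, Eh E (g + 1 + (k + 1)) = Eh E (g + (k + 1 + 1)) := fun k => by
    rw [show g + 1 + (k + 1) = g + (k + 1 + 1) by omega]
  simp only [h8]
  have key : ∀ l n, n = g + (l + 1) → ∑ k ∈ range l, Eh E (g + (k + 1 + 1)) + Eh E (g + 1) =
      ∑ k ∈ range l, Eh E (g + (k + 1)) + Eh E n := by
    rintro l n rfl
    exact tel (fun k => Eh E (g + (k + 1))) l
  have k1 := key 10 (g + 11) rfl
  have k2 := key 27 (g + 28) rfl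
  have k3 := key 44 (g + 45) rfl
  have k4 := key 79 (g + 80) rfl
  have k5 := key 126 (g + 127) rfl
  have k6 := key 128 (g + 129) rfl
  omega

/-! ### Packed vectors -/

private theorem pk_ext {w n N : ℕ} {f : ℕ → ℕ} (h : n ≤ N) (hf : ∀ i, n ≤ i → f i = 0) :
    pk w f n = pk w f N := by
  unfold pk
  apply sum_subset
  · intro i hi
    rw [mem_range] at hi ⊢
    omega
  · intro i _ hi
    rw [mem_range] at hi
    rw [hf i (by omega), zero_mul]

private theorem pk_sum {ι : Type} (s : Finset ι) (w n : ℕ) (F : ι → ℕ → ℕ) :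
    ∑ i ∈ s, pk w (F i) n = pk w (fun v => ∑ i ∈ s, F i v) n := by
  unfold pk
  rw [sum_comm]
  exact sum_congr rfl fun v _ => by rw [sum_mul]

private theorem pk_mul' (w c : ℕ) (f : ℕ → ℕ) (n : ℕ) :
    c * pk w f n = pk w (fun i => c * f i) n := by
  rw [mul_comm, H1Col.pk_mul]
  exact H1Col.pk_congr fun i _ => mul_comm _ _

private theorem pk_eq_zero {w n : ℕ} {f : ℕ → ℕ} (h : pk w f n = 0) : ∀ i < n, f i = 0 := by
  intro i hi
  unfold pk at h
  have h1 := (sum_eq_zero_iff.1 h) i (mem_range.2 hi)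
  rcases mul_eq_zero.1 h1 with h2 | h2
  · exact h2
  · exact absurd h2 (by positivity)

private theorem pk_conv {w l n N : ℕ} (a b : ℕ → ℕ) (hN : l + n ≤ N) (hb : ∀ j, n ≤ j → b j = 0) :
    pk w a l * pk w b n =
      pk w (fun v => ∑ u ∈ range l, a u * (if v < u then 0 else b (v - u))) N := by
  have h1 : pk w a l * pk w b n =
      ∑ u ∈ range l, a u * pk w (fun v => if v < u then 0 else b (v - u)) N := by
    conv_lhs => rw [pk, sum_mul]
    refine sum_congr rfl fun u hu => ?_
    rw [mem_range] at hu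
    rw [mul_assoc, mul_comm (2 ^ (w * u)), H1Col.pk_shift]
    congr 1
    refine pk_ext (by omega) fun i hi => ?_
    rw [if_neg (by omega)]
    exact hb _ (by omega)
  rw [h1]
  simp only [pk_mul']
  rw [pk_sum]

private theorem sum_blocks (F : ℕ → ℕ) (n : ℕ) :
    ∑ k ∈ range (16 * n), F k = ∑ r ∈ range n, ∑ i ∈ range 16, F (16 * r + i) := by
  induction n with
  | zero => rfl
  | succ n ih =>
    rw [Nat.mul_succ, sum_range_add, ih]
    exact (sum_range_succ (fun r => ∑ i ∈ range 16, F (16 * r + i)) n).symm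

/-! ### Lists -/

private theorem rec_true {b x : Bool} (h : @Bool.rec (fun _ => Bool) false x b = true) :
    b = true ∧ x = true := by
  cases b
  · exact absurd h (by simp)
  · exact ⟨rfl, h⟩

private theorem hd_nth (L : List ℕ) : hd L = nth L 0 := by
  cases L <;> rfl

private theorem eL_nth (τ : ℕ) {L : List Lf} {i : ℕ} {f : Lf} (h : L[i]? = some f) :
    nth (eL τ L) i = f τ 0 >>> 23 := by
  induction L generalizing i with
  | nil => simp at h
  | cons a L ih =>
    cases i with
    | zero =>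
      simp only [List.getElem?_cons_zero, Option.some.injEq] at h
      subst h
      rfl
    | succ i =>
      rw [List.getElem?_cons_succ] at h
      exact ih h

private theorem eL_length (τ : ℕ) (L : List Lf) : (eL τ L).length = L.length := by
  induction L with
  | nil => rfl
  | cons a L ih => exact congrArg (· + 1) ih

private theorem extL_length (L : List ℕ) : (extL L).length = L.length := by
  induction L with
  | nil => rfl
  | cons a L ih => exact congrArg (· + 1) ih

private theorem extL_nth (L : List ℕ) {i : ℕ} (h : i < L.length) :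
    nth (extL L) i = ext (nth L i) := by
  induction L generalizing i with
  | nil => exact absurd h (by simp)
  | cons a L ih =>
    cases i with
    | zero => rfl
    | succ i =>
      rw [List.length_cons] at h
      exact ih (by omega)

private theorem rndL_nth (a : ℕ) (L M : List ℕ) (i : ℕ) :
    nth (rndL a L M) i = if i < L.length then nth L i >>> a else nth M (i - L.length) := by
  induction L generalizing i with
  | nil => rw [if_neg (by simp), List.length_nil, Nat.sub_zero]; rfl
  | cons x L ih =>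
    cases i with
    | zero => rw [if_pos (by simp)]; rfl
    | succ i =>
      have h1 : nth (rndL a (x :: L) M) (i + 1) = nth (rndL a L M) i := rfl
      have h2 : nth (x :: L) (i + 1) = nth L i := rfl
      rw [h1, ih, h2, List.length_cons]
      by_cases h : i < L.length
      · rw [if_pos h, if_pos (by omega)]
      · rw [if_neg h, if_neg (by omega)]
        congr 1
        omega

private theorem rnds_nth {L : List ℕ} (hL : L.length = 16) (n r k : ℕ) (hk : k < 16 * n) :
    nth (rnds L n r) k = nth L (k % 16) >>> (24 * (r + k / 16)) := by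
  induction n generalizing r k with
  | zero => omega
  | succ n ih =>
    have h1 : rnds L (n + 1) r = rndL (24 * r) L (rnds L n (r + 1)) := rfl
    rw [h1, rndL_nth, hL]
    by_cases h : k < 16
    · rw [if_pos h, Nat.mod_eq_of_lt h, Nat.div_eq_of_lt h, Nat.add_zero]
    · rw [if_neg h, ih _ _ (by omega)]
      have h2 : (k - 16) % 16 = k % 16 := by omega
      have h3 : r + 1 + (k - 16) / 16 = r + k / 16 := by omega
      rw [h2, h3]

private theorem dot_eq (L M : List ℕ) (acc : ℕ) :
    dot L M acc = acc + ∑ i ∈ range L.length, nth L i * nth M i := by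
  induction L generalizing M acc with
  | nil => rfl
  | cons x L ih =>
    have h1 : dot (x :: L) M acc = dot L (tl M) (acc + x * hd M) := rfl
    rw [h1, ih, List.length_cons, sum_range_succ']
    have h2 : ∀ i, nth (x :: L) (i + 1) * nth M (i + 1) = nth L i * nth (tl M) i := by
      intro i
      rw [nth_tl]
      rfl
    have h3 : nth (x :: L) 0 * nth M 0 = x * hd M := by
      rw [hd_nth]
      rfl
    rw [sum_congr rfl fun i _ => h2 i, h3]
    ring

/-! ### The extended counts -/

private theorem ext_eq {f : ℕ → ℕ} (hf : ∀ i, f i < 2 ^ 24) :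
    ext (pk 24 f 16384) = pk 24 (fun j => f (j % 16384)) 16392 := by
  have h1 : ext (pk 24 f 16384) = pk 24 f 16384 + (pk 24 f 16384 &&& allo 192) <<< 393216 := rfl
  have h2 : allo 192 = 2 ^ (24 * 8) - 1 := by decide +kernel
  have h3 : (393216 : ℕ) = 24 * 16384 := rfl
  have h4 : (16392 : ℕ) = 16384 + 8 := rfl
  have e1 : pk 24 (fun j => f (j % 16384)) 16384 = pk 24 f 16384 :=
    H1Col.pk_congr fun i hi => by rw [Nat.mod_eq_of_lt hi]
  have e2 : pk 24 (fun i => f ((i + 16384) % 16384)) 8 = pk 24 f 8 :=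
    H1Col.pk_congr fun i hi => by rw [Nat.add_mod_right, Nat.mod_eq_of_lt (by omega)]
  rw [h1, h2, Nat.and_two_pow_sub_one_eq_mod, H1Col.pk_mod (by omega) (fun i _ => hf i),
    Nat.shiftLeft_eq, h3, h4, H1Col.pk_append, mul_comm (pk 24 f 8), e1, e2]

private theorem first_eq {τ : ℕ} {LL : List Lf} {E : ℕ → ℕ} (hl : LL.length = 16)
    (hE : ∀ g, E g ≤ 16)
    (hL : ∀ h < 16, ∀ f, LL[h]? = some f →
      f τ 0 = pk 24 (fun j => 8388608 * E (16 * j + h)) 16384) {i : ℕ} (hi : i < 16) :
    nth (extL (eL τ LL)) i = pk 24 (fun j => Eh E (16 * j + i)) 16392 := by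
  have h1 : i < LL.length := by omega
  have h2 : LL[i]? = some LL[i] := List.getElem?_eq_getElem h1
  rw [extL_nth _ (by rw [eL_length]; exact h1), eL_nth τ h2, hL i hi _ h2]
  have h3 : pk 24 (fun j => 8388608 * E (16 * j + i)) 16384 >>> 23 =
      pk 24 (fun j => E (16 * j + i)) 16384 := by
    rw [Nat.shiftRight_eq_div_pow, ← pk_mul', show (2 : ℕ) ^ 23 = 8388608 by norm_num,
      Nat.mul_div_cancel_left _ (by norm_num)]
  rw [h3, ext_eq fun j => lt_of_le_of_lt (hE _) (by norm_num)]
  refine H1Col.pk_congr fun j hj => ?_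
  unfold Eh
  rw [if_pos (by omega)]
  congr 1
  omega

private theorem el_eq {X : List ℕ} {E : ℕ → ℕ} (hl : X.length = 16) (hE : ∀ g, E g ≤ 16)
    (hX : ∀ i < 16, nth X i = pk 24 (fun j => Eh E (16 * j + i)) 16392) {k : ℕ} (hk : k < 160) :
    nth (rnds X 10 0) k = pk 24 (fun j => Eh E (16 * j + k)) 16400 := by
  rw [rnds_nth hl 10 0 k hk, hX _ (Nat.mod_lt _ (by norm_num)), Nat.zero_add,
    Nat.shiftRight_eq_div_pow, H1Col.pk_div (by omega)
      (fun i _ => lt_of_le_of_lt (Eh_le hE _) (by norm_num))]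
  rw [pk_ext (N := 16400) (by omega)]
  · refine H1Col.pk_congr fun j _ => ?_
    congr 1
    omega
  · intro j hj
    exact Eh_zero (by omega)

/-! ### The first windows -/

private theorem dot_win {ω E : ℕ → ℕ} {P X : List ℕ} (hE : ∀ g, E g ≤ 16)
    (hω : ∑ k ∈ range 129, ω k ≤ 100000) (hP : P.length = 16)
    (hPi : ∀ i < 16, nth P i =
      pk 24 (fun u => if 16 * (8 - u) + i ≤ 128 then ω (16 * (8 - u) + i) else 0) 9)
    (hX : ∀ i < 16, nth X i = pk 24 (fun j => Eh E (16 * j + i)) 16392) :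
    dot P X 0 >>> 192 = pk 24 (fun j => win ω E (16 * j)) 16400 := by
  let ω' : ℕ → ℕ := fun k => if k ≤ 128 then ω k else 0
  have hsum : ∀ F : ℕ → ℕ, ∑ r ∈ range 9, ∑ i ∈ range 16, ω' (16 * r + i) * F (16 * r + i) =
      ∑ k ∈ range 129, ω k * F k := by
    intro F
    rw [← sum_blocks (fun k => ω' k * F k) 9]
    symm
    have h1 : ∑ k ∈ range 129, ω k * F k = ∑ k ∈ range 129, ω' k * F k := by
      refine sum_congr rfl fun k hk => ?_
      rw [mem_range] at hk
      change _ = (if k ≤ 128 then ω k else 0) * F k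
      rw [if_pos (by omega)]
    rw [h1]
    apply sum_subset
    · intro k hk
      rw [mem_range] at hk ⊢
      omega
    · intro k _ hk
      rw [mem_range] at hk
      change (if k ≤ 128 then ω k else 0) * F k = 0
      rw [if_neg (by omega), zero_mul]
  let lane : ℕ → ℕ := fun v => ∑ i ∈ range 16, ∑ u ∈ range 9,
    ω' (16 * (8 - u) + i) * (if v < u then 0 else Eh E (16 * (v - u) + i))
  have h1 : dot P X 0 = pk 24 lane 16408 := by
    rw [dot_eq, hP, Nat.zero_add, ← pk_sum]
    refine sum_congr rfl fun i hi => ?_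
    rw [mem_range] at hi
    rw [hPi i hi, hX i hi]
    exact pk_conv _ (fun j => Eh E (16 * j + i)) (by omega) fun j hj => Eh_zero (by omega)
  have hrefl : ∀ G : ℕ → ℕ, ∑ u ∈ range 9, G (8 - u) = ∑ r ∈ range 9, G r := fun G =>
    sum_range_reflect G 9
  have hb : ∀ v, lane v < 2 ^ 24 := by
    intro v
    have h2 : lane v ≤ ∑ i ∈ range 16, ∑ u ∈ range 9, ω' (16 * (8 - u) + i) * 16 := by
      refine sum_le_sum fun i _ => sum_le_sum fun u _ => Nat.mul_le_mul_left _ ?_
      split_ifs
      · omega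
      · exact Eh_le hE _
    have h3 : ∑ i ∈ range 16, ∑ u ∈ range 9, ω' (16 * (8 - u) + i) * 16 =
        ∑ k ∈ range 129, ω k * 16 := by
      rw [← hsum fun _ => 16, sum_comm]
      exact hrefl fun r => ∑ i ∈ range 16, ω' (16 * r + i) * 16
    rw [h3, ← sum_mul] at h2
    have h4 : (2 : ℕ) ^ 24 = 16777216 := by norm_num
    omega
  have h5 : (192 : ℕ) = 24 * 8 := rfl
  rw [h1, Nat.shiftRight_eq_div_pow, h5, H1Col.pk_div (by omega) fun i _ => hb i]
  refine H1Col.pk_congr fun j _ => ?_
  change ∑ i ∈ range 16, ∑ u ∈ range 9, ω' (16 * (8 - u) + i) *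
    (if j + 8 < u then 0 else Eh E (16 * (j + 8 - u) + i)) = win ω E (16 * j)
  rw [sum_comm]
  have h6 : ∀ u ∈ range 9, ∑ i ∈ range 16, ω' (16 * (8 - u) + i) *
      (if j + 8 < u then 0 else Eh E (16 * (j + 8 - u) + i)) =
      (fun r => ∑ i ∈ range 16, ω' (16 * r + i) * Eh E (16 * j + (16 * r + i))) (8 - u) := by
    intro u hu
    rw [mem_range] at hu
    refine sum_congr rfl fun i _ => ?_
    rw [if_neg (by omega)]
    congr 2
    omega
  rw [sum_congr rfl h6,
    hrefl (fun r => ∑ i ∈ range 16, ω' (16 * r + i) * Eh E (16 * j + (16 * r + i))),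
    hsum fun k => Eh E (16 * j + k)]
  rfl

private theorem PW_ok : ∀ i < 16, nth PW i =
    pk 24 (fun u => if 16 * (8 - u) + i ≤ 128 then Wd (16 * (8 - u) + i) else 0) 9 := by
  decide +kernel

private theorem PQ_ok : ∀ i < 16, nth PQ i =
    pk 24 (fun u => if 16 * (8 - u) + i ≤ 128 then cq (16 * (8 - u) + i) else 0) 9 := by
  decide +kernel

private theorem Wd_total : ∑ k ∈ range 129, Wd k ≤ 100000 := by decide +kernel

private theorem cq_total : ∑ k ∈ range 129, cq k ≤ 100000 := by decide +kernel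

/-! ### The test -/

private theorem pat_ones : pat 14 14 = pk 24 (fun _ => 1) 16384 := pat_eq (t := 14) (k := 14) le_rfl

private theorem test_sound {U : ℕ} {w : ℕ → ℕ} (hU : U ≤ 8388607) (hw : ∀ j, w j ≤ 1600000)
    (h : (pk 24 w 16400 + (8388607 - U) * pat 14 14) &&& (8388608 * pat 14 14) = 0) :
    ∀ j < 16384, w j ≤ U := by
  let c : ℕ → ℕ := fun j => if j < 16384 then 8388607 - U else 0
  let d : ℕ → ℕ := fun j => if j < 16384 then 8388608 else 0
  have h1 : (8388607 - U) * pat 14 14 = pk 24 c 16400 := by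
    rw [pat_ones, pk_mul', ← pk_ext (n := 16384) (by omega) fun i hi => if_neg (by omega)]
    refine H1Col.pk_congr fun i hi => ?_
    rw [mul_one]
    exact (if_pos hi).symm
  have h2 : 8388608 * pat 14 14 = pk 24 d 16400 := by
    rw [pat_ones, pk_mul', ← pk_ext (n := 16384) (by omega) fun i hi => if_neg (by omega)]
    refine H1Col.pk_congr fun i hi => ?_
    rw [mul_one]
    exact (if_pos hi).symm
  have hc : ∀ j, c j ≤ 8388607 := fun j => by
    change (if j < 16384 then 8388607 - U else 0) ≤ _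
    split_ifs <;> omega
  have hd' : ∀ j, d j ≤ 8388608 := fun j => by
    change (if j < 16384 then 8388608 else 0) ≤ _
    split_ifs <;> omega
  have e24 : (2 : ℕ) ^ 24 = 16777216 := by norm_num
  rw [h1, h2, H1Col.pk_add, H1Col.pk_land (fun i _ => by
    have := hw i
    have := hc i
    omega) (fun i _ => by
    have := hd' i
    omega)] at h
  intro j hj
  have h3 := pk_eq_zero h j (by omega)
  have h4 : c j = 8388607 - U := if_pos hj
  have h5 : d j = 2 ^ 23 := by
    have : d j = 8388608 := if_pos hj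
    rw [this]
    norm_num
  rw [h4, h5, Nat.and_two_pow] at h3
  have h6 : (w j + (8388607 - U)).testBit 23 = false := by
    by_contra hcon
    rw [Bool.not_eq_false] at hcon
    rw [hcon] at h3
    norm_num at h3
  rw [Nat.testBit_eq_decide_div_mod_eq, decide_eq_false_iff_not] at h6
  have e23 : (2 : ℕ) ^ 23 = 8388608 := by norm_num
  rw [e23] at h6
  have := hw j
  omega

/-! ### The slide -/

private def Off (E : ℕ → ℕ) (o : ℕ) (L : List ℕ) : Prop :=
  ∀ m, o + m < 160 → nth L m = pk 24 (fun j => Eh E (16 * j + (o + m))) 16400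

private theorem Off.tl {E : ℕ → ℕ} {o : ℕ} {L : List ℕ} (h : Off E o L) :
    Off E (o + 1) (tl L) := by
  intro m hm
  rw [nth_tl, h (m + 1) (by omega)]
  refine H1Col.pk_congr fun j _ => ?_
  congr 1
  omega

private theorem Off.dr {E : ℕ → ℕ} {o : ℕ} {L : List ℕ} (h : Off E o L) (n : ℕ) :
    Off E (o + n) (dr n L) := by
  intro m hm
  rw [nth_dr, h (n + m) (by omega)]
  refine H1Col.pk_congr fun j _ => ?_
  congr 1
  omega

private theorem Off.hd {E : ℕ → ℕ} {o : ℕ} {L : List ℕ} (h : Off E o L) (ho : o < 160) :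
    hd L = pk 24 (fun j => Eh E (16 * j + o)) 16400 := by
  rw [hd_nth, h 0 (by omega)]
  rfl

private theorem slide_step (G C f W Q : ℕ) (L0 L1 L2 L3 L4 L5 L6 L7 : List ℕ) :
    slide G C (f + 1) W Q L0 L1 L2 L3 L4 L5 L6 L7 =
      @Bool.rec (fun _ => Bool) false (@Bool.rec (fun _ => Bool) false
        (slide G C f (W + Q + 416 * hd L7 - 830 * hd L0)
          (Q + hd L1 + hd L2 + hd L3 + hd L4 + hd L5 + hd L6 - 6 * hd (tl L0))
          (tl L0) (tl L1) (tl L2) (tl L3) (tl L4) (tl L5) (tl L6) (tl L7)) (Nat.ble 0 Q))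
        (Nat.beq ((W + C) &&& G) 0) := rfl

private theorem slide_true {G C f W Q : ℕ} {L0 L1 L2 L3 L4 L5 L6 L7 : List ℕ}
    (h : slide G C (f + 1) W Q L0 L1 L2 L3 L4 L5 L6 L7 = true) :
    (W + C) &&& G = 0 ∧ slide G C f (W + Q + 416 * hd L7 - 830 * hd L0)
      (Q + hd L1 + hd L2 + hd L3 + hd L4 + hd L5 + hd L6 - 6 * hd (tl L0))
      (tl L0) (tl L1) (tl L2) (tl L3) (tl L4) (tl L5) (tl L6) (tl L7) = true := by
  rw [slide_step] at h
  have h1 := rec_true (b := Nat.beq ((W + C) &&& G) 0) h
  have h2 := rec_true (b := Nat.ble 0 Q) h1.2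
  exact ⟨Nat.eq_of_beq_eq_true h1.1, h2.2⟩

private theorem slide_sound {U : ℕ} {E : ℕ → ℕ} (hU : U ≤ 8388607) (hE : ∀ g, E g ≤ 16) :
    ∀ f h : ℕ, h + f ≤ 16 → ∀ L0 L1 L2 L3 L4 L5 L6 L7 : List ℕ, Off E h L0 → Off E (h + 11) L1 →
      Off E (h + 28) L2 → Off E (h + 45) L3 → Off E (h + 80) L4 → Off E (h + 127) L5 →
      Off E (h + 129) L6 → Off E (h + 129) L7 →
      slide (8388608 * pat 14 14) ((8388607 - U) * pat 14 14) f
        (pk 24 (fun j => win Wd E (16 * j + h)) 16400)
        (pk 24 (fun j => win cq E (16 * j + h)) 16400) L0 L1 L2 L3 L4 L5 L6 L7 = true →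
      ∀ h', h ≤ h' → h' < h + f → ∀ j < 16384, win Wd E (16 * j + h') ≤ U := by
  intro f
  induction f with
  | zero => intro h _ _ _ _ _ _ _ _ _ _ _ _ _ _ _ _ _ _ h' h1 h2; omega
  | succ f ih =>
    intro h hh L0 L1 L2 L3 L4 L5 L6 L7 o0 o1 o2 o3 o4 o5 o6 o7 hs h' h1 h2
    obtain ⟨ht, hs⟩ := slide_true hs
    rcases Nat.eq_or_lt_of_le h1 with rfl | h3
    · exact test_sound hU (fun j => win_le hE Wd_total _) ht
    · refine ih (h + 1) (by omega) (tl L0) (tl L1) (tl L2) (tl L3) (tl L4) (tl L5) (tl L6) (tl L7) o0.tl ?_ ?_ ?_ ?_ ?_ ?_ ?_ ?_ h' (by omega)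
        (by omega)
      · have := o1.tl; rwa [show h + 11 + 1 = h + 1 + 11 by omega] at this
      · have := o2.tl; rwa [show h + 28 + 1 = h + 1 + 28 by omega] at this
      · have := o3.tl; rwa [show h + 45 + 1 = h + 1 + 45 by omega] at this
      · have := o4.tl; rwa [show h + 80 + 1 = h + 1 + 80 by omega] at this
      · have := o5.tl; rwa [show h + 127 + 1 = h + 1 + 127 by omega] at this
      · have := o6.tl; rwa [show h + 129 + 1 = h + 1 + 129 by omega] at this
      · have := o7.tl; rwa [show h + 129 + 1 = h + 1 + 129 by omega] at this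
      · have e1 : pk 24 (fun j => win Wd E (16 * j + h)) 16400 +
            pk 24 (fun j => win cq E (16 * j + h)) 16400 + 416 * hd L7 - 830 * hd L0 =
            pk 24 (fun j => win Wd E (16 * j + (h + 1))) 16400 := by
          rw [o7.hd (by omega), o0.hd (by omega), pk_mul', pk_mul', H1Col.pk_add, H1Col.pk_add,
            H1Col.pk_sub fun j _ => ?_]
          · refine H1Col.pk_congr fun j _ => ?_
            have := id1 E (16 * j + h)
            rw [show 16 * j + (h + 1) = 16 * j + h + 1 by omega,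
              show 16 * j + (h + 129) = 16 * j + h + 129 by omega]
            omega
          · have := id1 E (16 * j + h)
            rw [show 16 * j + (h + 129) = 16 * j + h + 129 by omega]
            omega
        have e2 : pk 24 (fun j => win cq E (16 * j + h)) 16400 + hd L1 + hd L2 + hd L3 + hd L4 +
            hd L5 + hd L6 - 6 * hd (tl L0) =
            pk 24 (fun j => win cq E (16 * j + (h + 1))) 16400 := by
          rw [o1.hd (by omega), o2.hd (by omega), o3.hd (by omega), o4.hd (by omega),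
            o5.hd (by omega), o6.hd (by omega), o0.tl.hd (by omega), pk_mul', H1Col.pk_add,
            H1Col.pk_add, H1Col.pk_add, H1Col.pk_add, H1Col.pk_add, H1Col.pk_add,
            H1Col.pk_sub fun j _ => ?_]
          · refine H1Col.pk_congr fun j _ => ?_
            have := id2 E (16 * j + h)
            rw [show 16 * j + (h + 1) = 16 * j + h + 1 by omega,
              show 16 * j + (h + 11) = 16 * j + h + 11 by omega,
              show 16 * j + (h + 28) = 16 * j + h + 28 by omega,
              show 16 * j + (h + 45) = 16 * j + h + 45 by omega,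
              show 16 * j + (h + 80) = 16 * j + h + 80 by omega,
              show 16 * j + (h + 127) = 16 * j + h + 127 by omega,
              show 16 * j + (h + 129) = 16 * j + h + 129 by omega]
            omega
          · have := id2 E (16 * j + h)
            rw [show 16 * j + (h + 1) = 16 * j + h + 1 by omega,
              show 16 * j + (h + 11) = 16 * j + h + 11 by omega,
              show 16 * j + (h + 28) = 16 * j + h + 28 by omega,
              show 16 * j + (h + 45) = 16 * j + h + 45 by omega,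
              show 16 * j + (h + 80) = 16 * j + h + 80 by omega,
              show 16 * j + (h + 127) = 16 * j + h + 127 by omega,
              show 16 * j + (h + 129) = 16 * j + h + 129 by omega]
            omega
        rw [e1, e2] at hs
        exact hs

theorem chk1_sound {τ U : ℕ} {LL : List Lf} {E : ℕ → ℕ} (hU : U ≤ 8388607)
    (hl : LL.length = 16) (hE : ∀ g, E g ≤ 16)
    (hL : ∀ h < 16, ∀ f, LL[h]? = some f →
      f τ 0 = pk 24 (fun j => 8388608 * E (16 * j + h)) 16384)
    (h : chk1 τ U LL = true) :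
    ∀ g < 262144, ∑ k ∈ range 129, Wd k * E ((g + k) % 262144) ≤ U := by
  have hX := fun i (hi : i < 16) => first_eq hl hE hL hi
  have hXl : (extL (eL τ LL)).length = 16 := by rw [extL_length, eL_length, hl]
  have h0 : Off E 0 (rnds (extL (eL τ LL)) 10 0) := by
    intro m hm
    rw [Nat.zero_add] at hm ⊢
    exact el_eq hXl hE hX hm
  have hW := dot_win hE Wd_total rfl PW_ok hX
  have hQ := dot_win hE cq_total rfl PQ_ok hX
  have h1 : slide (8388608 * pat 14 14) ((8388607 - U) * pat 14 14) 16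
      (dot PW (extL (eL τ LL)) 0 >>> 192) (dot PQ (extL (eL τ LL)) 0 >>> 192)
      (rnds (extL (eL τ LL)) 10 0) (dr 11 (rnds (extL (eL τ LL)) 10 0))
      (dr 17 (dr 11 (rnds (extL (eL τ LL)) 10 0)))
      (dr 17 (dr 17 (dr 11 (rnds (extL (eL τ LL)) 10 0))))
      (dr 35 (dr 17 (dr 17 (dr 11 (rnds (extL (eL τ LL)) 10 0)))))
      (dr 47 (dr 35 (dr 17 (dr 17 (dr 11 (rnds (extL (eL τ LL)) 10 0))))))
      (dr 2 (dr 47 (dr 35 (dr 17 (dr 17 (dr 11 (rnds (extL (eL τ LL)) 10 0)))))))
      (dr 2 (dr 47 (dr 35 (dr 17 (dr 17 (dr 11 (rnds (extL (eL τ LL)) 10 0))))))) = true := h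
  rw [hW, hQ] at h1
  have o1 := h0.dr 11
  have o2 := o1.dr 17
  have o3 := o2.dr 17
  have o4 := o3.dr 35
  have o5 := o4.dr 47
  have o6 := o5.dr 2
  have key := slide_sound hU hE 16 0 (by omega) _ _ _ _ _ _ _ _ h0 o1 o2 o3 o4 o5 o6 o6 h1
  intro g hg
  have h2 := key (g % 16) (Nat.zero_le _) (by omega) (g / 16) (by omega)
  rw [show 16 * (g / 16) + g % 16 = g by omega] at h2
  refine le_trans (le_of_eq ?_) h2
  refine sum_congr rfl fun k hk => ?_
  rw [mem_range] at hk
  unfold Eh
  rw [if_pos (by omega)]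

end H86C
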