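import Pool.Agent.H86.C.Win

/-! # Module NwVW: the window counts are bounded by the recursion `VW`

`VW` is the integer recursion of `Def.lean`. The base is known only for the pairs (exponent `o`, threshold) that
are needed; `Inv k n o i` describes them: `k` is the number of steps already made from the start
(`o = 6`, index at most 2436, level `n + k`).

* Along an even step `(n, o, i, k) → (n-1, o, i-400, k+1)` the quantity `i + 400 k` is unchanged (`i ≥ 953` since
  otherwise the count vanishes, so `i - 400` is the true difference); along an odd step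
  `(n, o, i, k) → (n-1, o+1, J i, k+1)` it grows by `J i - i + 400 ∈ [634, 766]` (`J_bd`). So `Inv` is preserved.
* Base `n = 22`, `16 ≤ k ≤ 128`. If `i ≤ kap r` the count is zero (`K ≥ m (kap r)`). If `i > 5444` or `i ≥ 7600` use
  the trivial bound `Nw_le` (`1178784 * 4096 = 4828299264`). Else let `e` be the first element of `TU` with
  `i ≤ e.1`: `bs i = 4096 e.2`; the hypothesis `base` gives `BaseOK o t e.2` with `m e.1 ≤ 2048 t`, so
  `Nw 22 o c i ≤ e.2` (`Nw_base` and `m_mono`). The pairs needed: `o ≥ 13` because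
  `953 ≤ i ≤ 2436 + 766 (o-6) - 400 k` and `k ≥ 16`; `o ≤ 93` because `5444 ≥ i ≥ 953 + 634 (o-6) - 400 * 128`.
* Step: `Nw_succ`, `VW (l+1)` has the same shape; for `i ≥ 7600` the trivial bound; floors:
  `u + v ≤ 2 ((u+v)/2) + 1`. -/

namespace H86C

/-- `k` steps after the start (`o = 6`, index in `[953, 2436]`), at level `n`. -/
def Inv (k n o i : ℕ) : Prop :=
  6 ≤ o ∧ i + 400 * k + 766 * 6 ≤ 2436 + 766 * o ∧ 953 + 634 * o ≤ i + 400 * k + 634 * 6 ∧
    38 ≤ n + k ∧ n + k ≤ 150

/-- The base: for every needed exponent `o` and index `i` the first threshold above `i` is checked. -/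
def BaseAll : Prop := ∀ o i : ℕ, 13 ≤ o → o ≤ 93 → 953 ≤ i → i ≤ 5444 →
  i + 400 * 16 + 766 * 6 ≤ 2436 + 766 * o → 953 + 634 * o ≤ i + 400 * 128 + 634 * 6 →
  ∃ e ∈ TU, ∃ t : ℕ, bs i = 4096 * e.2 ∧ i ≤ e.1 ∧ m e.1 ≤ 2048 * t ∧ BaseOK o t e.2

private theorem TU_le : ∀ e ∈ TU, e.1 ≤ 5444 := by decide +kernel

private theorem foldr_big (L : List (ℕ × ℕ)) (i d : ℕ) (h : ∀ e ∈ L, e.1 < i) :
    L.foldr (fun e y => if i ≤ e.1 then 4096 * e.2 else y) d = d := by
  induction L with
  | nil => rfl
  | cons a L ih =>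
      rw [List.foldr_cons, ih (fun e he => h e (List.mem_cons_of_mem _ he)), if_neg]
      have := h a List.mem_cons_self
      omega

private theorem bs_big {i : ℕ} (h : 5444 < i) : bs i = 4828299264 := by
  unfold bs
  apply foldr_big
  intro e he
  have := TU_le e he
  omega

private theorem Nw_zero {n o c i : ℕ} (ho : 5 ≤ o) (h : i ≤ kap (c % 243)) : Nw n o c i = 0 := by
  unfold Nw
  apply Finset.sum_eq_zero
  intro p _
  rw [if_neg]
  intro hlt
  have h1 := K_ge n (c + 3 ^ o * p)
  have h2 : (c + 3 ^ o * p) % 243 = c % 243 := by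
    obtain ⟨q, rfl⟩ := Nat.exists_eq_add_of_le ho
    rw [pow_add, show (3 : ℕ) ^ 5 = 243 by norm_num, mul_assoc, Nat.add_mul_mod_self_left]
  rw [h2] at h1
  have h3 : (m i : ℝ) ≤ m (kap (c % 243)) := by exact_mod_cast m_mono h
  linarith

private theorem kap_ge {c : ℕ} (hc : c % 3 ≠ 0) : 952 ≤ kap (c % 243) :=
  (kap_bd (c % 243) (Nat.mod_lt _ (by norm_num)) (by omega)).1

private theorem ev1 {k o i : ℕ} (h : i + 400 * k + 766 * 6 ≤ 2436 + 766 * o) (hi : 953 ≤ i) :
    (i - 400) + 400 * (k + 1) + 766 * 6 ≤ 2436 + 766 * o := by omega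

private theorem ev2 {k o i : ℕ} (h : 953 + 634 * o ≤ i + 400 * k + 634 * 6) (hi : 953 ≤ i) :
    953 + 634 * o ≤ (i - 400) + 400 * (k + 1) + 634 * 6 := by omega

private theorem od1 {k o i j : ℕ} (h : i + 400 * k + 766 * 6 ≤ 2436 + 766 * o) (hj : j ≤ i + 366) :
    j + 400 * (k + 1) + 766 * 6 ≤ 2436 + 766 * (o + 1) := by omega

private theorem od2 {k o i j : ℕ} (h : 953 + 634 * o ≤ i + 400 * k + 634 * 6) (hj : i + 234 ≤ j) :
    953 + 634 * (o + 1) ≤ j + 400 * (k + 1) + 634 * 6 := by omega

private theorem lk1 {k l : ℕ} (h : 38 ≤ 22 + (l + 1) + k) : 38 ≤ 22 + l + (k + 1) := by omega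

private theorem lk2 {k l : ℕ} (h : 22 + (l + 1) + k ≤ 150) : 22 + l + (k + 1) ≤ 150 := by omega

private theorem inv_even {k l o i : ℕ} (h : Inv k (22 + (l + 1)) o i) (hi : 953 ≤ i) :
    Inv (k + 1) (22 + l) o (i - 400) :=
  ⟨h.1, ev1 h.2.1 hi, ev2 h.2.2.1 hi, lk1 h.2.2.2.1, lk2 h.2.2.2.2⟩

private theorem inv_odd {k l o i j : ℕ} (h : Inv k (22 + (l + 1)) o i)
    (hj : i + 234 ≤ j ∧ j ≤ i + 366) : Inv (k + 1) (22 + l) (o + 1) j :=
  ⟨Nat.le_succ_of_le h.1, od1 h.2.1 hj.2, od2 h.2.2.1 hj.1, lk1 h.2.2.2.1, lk2 h.2.2.2.2⟩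

private theorem arith (A u v l : ℕ) : A * (u + l) + A * (v + l) ≤ A * 2 * ((u + v) / 2 + (l + 1)) := by
  rw [← Nat.mul_add, mul_assoc]
  apply Nat.mul_le_mul_left
  omega

theorem Nw_le_VW (base : BaseAll) {l k o c i : ℕ} (hc : c % 3 ≠ 0) (h : Inv k (22 + l) o i) :
    Nw (22 + l) o c i * 4096 ≤ 2 ^ l * (VW l (c % 243) i + l) := by
  induction l generalizing k o c i with
  | zero =>
      obtain ⟨ho, h1, h2, h3, h4⟩ := h
      have hk := kap_ge hc
      rw [VW, Nat.add_zero, pow_zero, one_mul, Nat.add_zero]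
      split_ifs with c1 c2
      · have := Nw_le (n := 22) (o := o) (c := c) (i := i) le_rfl
        norm_num at this
        omega
      · rw [Nw_zero (by omega) c2]
      · by_cases c3 : 5444 < i
        · rw [bs_big c3]
          have := Nw_le (n := 22) (o := o) (c := c) (i := i) le_rfl
          norm_num at this
          omega
        · obtain ⟨e, he, t, hb, hi, hm, hok⟩ :=
            base o i (by omega) (by omega) (by omega) (by omega) (by omega) (by omega)
          have := Nw_base (i := i) hc hok (le_trans (m_mono hi) hm)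
          rw [hb]
          omega
  | succ l ih =>
      have ho : 6 ≤ o := h.1
      have hk := kap_ge hc
      rw [VW]
      split_ifs with c1 c2
      · have := Nw_le (n := 22 + (l + 1)) (o := o) (c := c) (i := i) (by omega)
        rw [show 22 + (l + 1) - 22 = l + 1 by omega] at this
        calc Nw (22 + (l + 1)) o c i * 4096 ≤ 2 ^ (l + 1) * 1178784 * 4096 :=
              Nat.mul_le_mul_right _ this
          _ = 2 ^ (l + 1) * 4828299264 := by ring
          _ ≤ _ := Nat.mul_le_mul_left _ (by omega)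
      · rw [Nw_zero (by omega) c2, Nat.zero_mul]
        exact Nat.zero_le _
      · obtain ⟨c0, c1', e0, e1, hle⟩ := Nw_succ (n := 22 + l) (o := o) (c := c) (i := i)
          (by omega) (by omega) hc
        rw [if_neg c2] at hle
        have u0 : c0 % 3 ≠ 0 := by
          have h5 := T0_unit (r := c % 243) (by omega)
          rw [← e0] at h5
          omega
        have u1 : c1' % 3 ≠ 0 := by
          have h5 := T1_unit (c % 243)
          rw [← e1] at h5
          omega
        have hi : 953 ≤ i := by omega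
        have g0 := ih (k := k + 1) (o := o) (c := c0) (i := i - 400) u0 (inv_even h hi)
        have g1 := ih (k := k + 1) (o := o + 1) (c := c1') (i := J i) u1 (inv_odd h (J_bd i))
        rw [e0] at g0
        rw [e1] at g1
        calc Nw (22 + (l + 1)) o c i * 4096
            ≤ (Nw (22 + l) o c0 (i - 400) + Nw (22 + l) (o + 1) c1' (J i)) * 4096 :=
              Nat.mul_le_mul_right _ hle
          _ = Nw (22 + l) o c0 (i - 400) * 4096 + Nw (22 + l) (o + 1) c1' (J i) * 4096 :=
              Nat.add_mul _ _ _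
          _ ≤ _ := Nat.add_le_add g0 g1
          _ ≤ _ := by
              rw [pow_succ]
              exact arith _ _ _ _

end H86C
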