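import Pool.Agent.H86.C.BcTree
import Pool.Agent.H86.C.BcSld
import Pool.Agent.H86.C.NwVW

/-! # Module BcFin: the base check proves `BaseOK`

* `chk LL T = true` is `chk1 e.1 e.2 LL = true` for every `e ∈ T` (induction). So `chkO o a n = true` gives
  `chk1 t u (kvs ..) = true` for every `(t, u) ∈ tke n (drp a TT)`, i.e. for `(t, u) = TT[j]`, `a ≤ j < a + n`.
* `baseOK_of_chk1` : let `LL` be the root list, `root_ok` gives for `h < 16` functions with counts `C h τ j ≤ 16` (`u = 4`: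
  `≤ 2^4`). Put `E g = C (g mod 16) t (g / 16)`, `g < 2^18`. `chk1_sound`: `∑_{k ≤ 128} Wd k * E ((g+k) mod 2^18) ≤ u` for all `g`.
  Given `c` prime to 3: `3` is invertible modulo `2^22`; let `t0 < 2^22` with `3^o t0 ≡ c mod 2^22`; then
  `c + 3^o p ≡ 3^o (t0 + p)`. Write `t0 = 16 g0 + ε`. The number `p < 2048` has `t0 + p = 16 (g0 + k) + v`,
  `k = (ε + p)/16 ≤ 128`, `v < 16`, `k ≤ p/16 + 1`, so `wt p = Wd (p/16 + 1) ≤ Wd k` (`Wd` antitone). For fixed `k` the `p` with
  this `k` have distinct `v`, and the family `Y v := c + 3^o p` for those `v` (for the other `v < 16` any number in the state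
  `0` with the right residue, e.g. `3^o (16 (g0+k) + v)` plus a multiple of `2^22` making it prime to 3: or extend the
  progression: `Y v := c + 3^o (p_v + 2^22 · 3)`-like with `p_v ≡ 16 (g0+k) + v - t0 mod 2^22`, all `≡ c` modulo 3 if `o ≥ 1`)
  satisfies the hypothesis of `LfOK` (`n = 4`, `u = 4`, `h + 16 j = g` with `g = (g0 + k) mod 2^18`, modulus `2^22`), so the number
  of those `p` with `K 22 < 2048 t` is at most `E g`. Sum over `k`.
* `baseAll_of` : from the checks for `o = 13, .., 93` with the ranges `jl o`, `jn o` (module `BcRng`). -/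

namespace H86C

open Finset
open scoped Classical

private theorem bf_Wd_anti {a b : ℕ} (h : a ≤ b) : Wd b ≤ Wd a := by unfold Wd; omega

private theorem bf_inst0 {x : ℕ} (h : x % 3 ≠ 0) : Inst 0 x := by
  refine ⟨h, ?_⟩
  simp [sj, sz, Nat.mod_one]

private theorem bf_t0 (o c : ℕ) : ∃ t0 : ℕ, 3 ^ o * t0 ≡ c [MOD 4194304] := by
  have h3 : Nat.Coprime (3 ^ o) 4194304 := by
    rw [show (4194304 : ℕ) = 2 ^ 22 by norm_num]
    exact Nat.Coprime.pow _ _ (by norm_num)
  obtain ⟨m, hm⟩ := Nat.exists_mul_mod_eq_one_of_coprime h3 (by norm_num)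
  refine ⟨m * c, ?_⟩
  have h1 : 3 ^ o * m ≡ 1 [MOD 4194304] := by
    show 3 ^ o * m % 4194304 = 1 % 4194304
    rw [hm.2]
  have h2 := h1.mul_right c
  rwa [one_mul, mul_assoc] at h2

/-- The count in one cell. -/
private theorem bf_cell {o t c t0 k Cv : ℕ} (ho : 1 ≤ o) (hc : c % 3 ≠ 0)
    (ht0 : 3 ^ o * t0 ≡ c [MOD 4194304])
    (hL : ∀ Y : ℕ → ℕ, (∀ v < 2 ^ 4, Inst 0 (Y v) ∧
      Y v ≡ 3 ^ (o + 0) * (v + 2 ^ 4 * (((t0 / 16 + k) % 262144) % 16 +
        2 ^ 4 * (((t0 / 16 + k) % 262144) / 16)) + 0) [MOD 2 ^ (14 + 4 + 4)]) →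
      (((range (2 ^ 4)).filter
        (fun v => K (14 + 4 + 4) (Y v) * ((1 : ℕ) : ℝ) < 2048 * (((1 : ℕ) : ℝ) * t + ((0 : ℕ) : ℝ)))).card ≤ Cv)) :
    ((range 2048).filter (fun p => (t0 % 16 + p) / 16 = k ∧ K 22 (c + 3 ^ o * p) < 2048 * (t : ℝ))).card ≤ Cv := by
  have hY := hL (fun v => c + 3 ^ o * ((16 * k + v + (4194304 - t0 % 16)) % 4194304)) ?_
  · refine le_trans ?_ hY
    refine card_le_card_of_injOn (fun p => (t0 % 16 + p) % 16) ?_ ?_
    · intro p hp
      rw [coe_filter, Set.mem_ofPred_eq, mem_range] at hp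
      rw [coe_filter, Set.mem_ofPred_eq, mem_range]
      obtain ⟨hp1, hp2, hp3⟩ := hp
      refine ⟨Nat.mod_lt _ (by norm_num), ?_⟩
      have e : (16 * k + (t0 % 16 + p) % 16 + (4194304 - t0 % 16)) % 4194304 = p := by
        omega
      show K (14 + 4 + 4) (c + 3 ^ o * ((16 * k + (t0 % 16 + p) % 16 + (4194304 - t0 % 16)) % 4194304)) *
        ((1 : ℕ) : ℝ) < 2048 * (((1 : ℕ) : ℝ) * t + ((0 : ℕ) : ℝ))
      rw [e]
      simpa using hp3
    · intro p hp q hq hpq
      rw [coe_filter, Set.mem_ofPred_eq, mem_range] at hp hq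
      obtain ⟨hp1, hp2, hp3⟩ := hp
      obtain ⟨hq1, hq2, hq3⟩ := hq
      have h1 : (t0 % 16 + p) % 16 = (t0 % 16 + q) % 16 := hpq
      omega
  · intro v hv
    have hpow : 3 ^ o = 3 * 3 ^ (o - 1) := by
      rw [← pow_succ']
      congr 1
      omega
    refine ⟨bf_inst0 ?_, ?_⟩
    · show (c + 3 ^ o * _) % 3 ≠ 0
      rw [hpow, mul_assoc, Nat.add_mul_mod_self_left]
      exact hc
    · show c + 3 ^ o * ((16 * k + v + (4194304 - t0 % 16)) % 4194304) ≡ _ [MOD 2 ^ (14 + 4 + 4)]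
      rw [show (2 : ℕ) ^ (14 + 4 + 4) = 4194304 by norm_num, add_zero, add_zero]
      have h1 : c + 3 ^ o * ((16 * k + v + (4194304 - t0 % 16)) % 4194304) ≡
          3 ^ o * t0 + 3 ^ o * (16 * k + v + (4194304 - t0 % 16)) [MOD 4194304] :=
        ht0.symm.add ((Nat.mod_modEq _ _).mul_left _)
      refine h1.trans ?_
      rw [← mul_add]
      refine Nat.ModEq.mul_left _ ?_
      show (t0 + (16 * k + v + (4194304 - t0 % 16))) % 4194304 =
        (v + 2 ^ 4 * (((t0 / 16 + k) % 262144) % 16 + 2 ^ 4 * (((t0 / 16 + k) % 262144) / 16))) % 4194304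
      norm_num
      omega

theorem baseOK_of_chk1 (h : T6OK) {o t u : ℕ} (ho : 5 ≤ o) (ht : 0 < t) (ht' : t ≤ 2 ^ 21) (hu : u ≤ 8388607)
    (hc : chk1 t u (kvs (pat 14 14) (Nat.mul 8388608 (pat 14 14)) o (gtab o 24) 4 0 0 0 1 1 0 0) = true) :
    BaseOK o t u := by
  have hroot := root_ok h o
  generalize kvs (pat 14 14) (Nat.mul 8388608 (pat 14 14)) o (gtab o 24) 4 0 0 0 1 1 0 0 = LL at hc hroot
  obtain ⟨hlen, hL⟩ := hroot
  have hL' : ∀ h : ℕ, ∃ (f : Lf) (C : ℕ → ℕ → ℕ), h < 2 ^ 4 → LL[h]? = some f ∧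
    (∀ τ acc : ℕ, f τ acc = acc + H1Col.pk 24 (fun j => 8388608 * C τ j) 16384) ∧
    (∀ τ j : ℕ, C τ j ≤ 2 ^ 4) ∧
    (∀ τ j : ℕ, 0 < τ → τ ≤ 2 ^ 21 → j < 16384 → ∀ Y : ℕ → ℕ,
      (∀ v < 2 ^ 4, Inst 0 (Y v) ∧ Y v ≡ 3 ^ (o + 0) * (v + 2 ^ 4 * (h + 2 ^ 4 * j) + 0) [MOD 2 ^ (14 + 4 + 4)]) →
      (((range (2 ^ 4)).filter
        (fun v => K (14 + 4 + 4) (Y v) * ((1 : ℕ) : ℝ) < 2048 * (((1 : ℕ) : ℝ) * τ + ((0 : ℕ) : ℝ)))).card ≤ C τ j)) := by
    intro h
    by_cases hh : h < 2 ^ 4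
    · obtain ⟨f, C, h1⟩ := hL h hh
      exact ⟨f, C, fun _ => h1⟩
    · exact ⟨fun _ _ => 0, fun _ _ => 0, fun hh' => absurd hh' hh⟩
  choose f C hfC using hL'
  have hE : ∀ g, C (g % 16) t (g / 16) ≤ 16 := fun g => (hfC (g % 16) (Nat.mod_lt _ (by norm_num))).2.2.1 _ _
  have hs := chk1_sound (τ := t) (U := u) (LL := LL) (E := fun g => C (g % 16) t (g / 16)) hu
    (by rw [hlen]; norm_num) hE (by
      intro h hh f' hf'
      obtain ⟨h1, h2, -⟩ := hfC h (by rw [show (2 : ℕ) ^ 4 = 16 by norm_num]; exact hh)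
      rw [hf'] at h1
      have h3 : f' = f h := Option.some.inj h1
      rw [h3, h2, zero_add]
      congr 1
      funext j
      have e1 : (16 * j + h) % 16 = h := by omega
      have e2 : (16 * j + h) / 16 = j := by omega
      simp only [e1, e2]) hc
  intro c hc3
  obtain ⟨t0, ht0⟩ := bf_t0 o c
  have hk : ∀ p ∈ range 2048, (t0 % 16 + p) / 16 ∈ range 129 := by
    intro p hp
    rw [mem_range] at hp ⊢
    omega
  calc (∑ p ∈ range 2048, if K 22 (c + 3 ^ o * p) < 2048 * (t : ℝ) then wt p else 0)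
      ≤ ∑ p ∈ range 2048, (if K 22 (c + 3 ^ o * p) < 2048 * (t : ℝ) then Wd ((t0 % 16 + p) / 16) else 0) := by
        refine sum_le_sum fun p hp => ?_
        split_ifs
        · exact bf_Wd_anti (by omega)
        · exact le_rfl
    _ = ∑ k ∈ range 129, ∑ p ∈ (range 2048).filter (fun p => (t0 % 16 + p) / 16 = k),
          (if K 22 (c + 3 ^ o * p) < 2048 * (t : ℝ) then Wd ((t0 % 16 + p) / 16) else 0) :=
        (sum_fiberwise_of_maps_to hk _).symm
    _ = ∑ k ∈ range 129, Wd k * ((range 2048).filter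
          (fun p => (t0 % 16 + p) / 16 = k ∧ K 22 (c + 3 ^ o * p) < 2048 * (t : ℝ))).card := by
        refine sum_congr rfl fun k _ => ?_
        rw [← sum_filter, filter_filter, card_eq_sum_ones, mul_sum]
        refine sum_congr rfl fun p hp => ?_
        rw [mem_filter] at hp
        rw [hp.2.1, mul_one]
    _ ≤ ∑ k ∈ range 129, Wd k * C (((t0 / 16 + k) % 262144) % 16) t (((t0 / 16 + k) % 262144) / 16) := by
        refine sum_le_sum fun k _ => Nat.mul_le_mul_left _ ?_
        refine bf_cell (by omega) hc3 ht0 ?_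
        obtain ⟨-, -, -, h4⟩ := hfC (((t0 / 16 + k) % 262144) % 16) (Nat.mod_lt _ (by norm_num))
        exact h4 t _ ht ht' (by omega)
    _ ≤ u := by
        have h1 := hs ((t0 / 16) % 262144) (Nat.mod_lt _ (by norm_num))
        refine le_trans (le_of_eq ?_) h1
        refine sum_congr rfl fun k _ => ?_
        have e : ((t0 / 16) % 262144 + k) % 262144 = (t0 / 16 + k) % 262144 := by omega
        simp only [e]

private theorem bf_drp (a : ℕ) (L : List (ℕ × ℕ)) : drp a L = L.drop a := by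
  induction a generalizing L with
  | zero => rfl
  | succ a ih =>
    cases L with
    | nil =>
      show drp a [] = _
      rw [ih]
      simp
    | cons x L =>
      show drp a L = _
      rw [ih]
      simp

private theorem bf_tke (n : ℕ) (L : List (ℕ × ℕ)) : tke n L = L.take n := by
  induction n generalizing L with
  | zero => rfl
  | succ n ih =>
    cases L with
    | nil => rfl
    | cons x L =>
      show x :: tke n L = _
      rw [ih]
      simp

private noncomputable def bf_G (F : ℕ → ℕ → List Lf → Bool) (LL : List Lf) (T : List (ℕ × ℕ)) : Bool :=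
  @List.rec (Nat × Nat) (fun _ => Bool) true
    (fun e _ ih => @Bool.rec (fun _ => Bool) false ih (F e.1 e.2 LL)) T

private theorem bf_gen {F : ℕ → ℕ → List Lf → Bool} {LL : List Lf} (T : List (ℕ × ℕ))
    (h : bf_G F LL T = true) : ∀ e ∈ T, F e.1 e.2 LL = true := by
  induction T with
  | nil => intro e he; simp at he
  | cons x T ih =>
    have h1 : (@Bool.rec (fun _ => Bool) false (bf_G F LL T) (F x.1 x.2 LL)) = true := h
    generalize hx : F x.1 x.2 LL = z at h1
    cases z with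
    | false => exact absurd (show false = true from h1) (by decide)
    | true =>
      intro e he
      rcases List.mem_cons.1 he with rfl | he
      · exact hx
      · exact ih h1 e he

seal chk1 kvs

private theorem bf_chk_eq : chk = bf_G chk1 := rfl

private theorem bf_chk {LL : List Lf} (T : List (ℕ × ℕ)) (h : chk LL T = true) :
    ∀ e ∈ T, chk1 e.1 e.2 LL = true := by
  rw [bf_chk_eq] at h
  exact bf_gen T h

private theorem bf_TT : ∀ e ∈ TT, 0 < e.1 ∧ e.1 ≤ 2097152 ∧ e.2 ≤ 8388607 := by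
  unfold TT
  decide

theorem chkO_sound (h : T6OK) {o a n : ℕ} (ho : 5 ≤ o) (hc : chkO o a n = true) :
    ∀ j, a ≤ j → j < a + n → ∀ e, TT[j]? = some e → BaseOK o e.1 e.2 := by
  intro j hj1 hj2 e he
  unfold chkO at hc
  have h1 := bf_chk _ hc e (by
    rw [bf_tke, bf_drp]
    refine List.mem_of_getElem? (i := j - a) ?_
    rw [List.getElem?_take, if_pos (by omega), List.getElem?_drop]
    rw [show a + (j - a) = j by omega]
    exact he)
  obtain ⟨h2, h3, h4⟩ := bf_TT e (List.mem_of_getElem? he)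
  exact baseOK_of_chk1 h ho h2 (by norm_num; exact h3) h4 h1

end H86C
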