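import Pool.Agent.H86.C.BcVal

/-! # Module BcGam: the rotation constants and the recursion of the arrays

* `gam_spec` : `2796203 * 3 = 2^23 + 1`, so `3^e * (2796203^e mod 2^23) ≡ 1` modulo `2^23`, the number is odd, and
  `2 gam e = (2796203^e mod 2^23) + 1`.
* `gtab_digit` : the summands are `< 2^24` (`gam ≤ 2^22 + ..`), digit `d` in base `2^24`.
* `arr_even`, `arr_odd` : `Vv (k+1) s (3^e (2t))`: even, half is `3^e t`. `Vv (k+1) s (3^e (2t+1))`: odd,
  `(3^(e+1) (2t+1) + 1)/2 ≡ 3^(e+1) (t + γ) mod 2^k` for `γ ≡ gam (e+1) mod 2^k`, `k ≤ 22` (`gam_spec` for `e+1`; then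
  `Vv_mod`). -/

namespace H86C

private theorem bg_odd (e : ℕ) : (2796203 ^ e % 8388608) % 2 = 1 := by
  rw [Nat.mod_mod_of_dvd _ (by norm_num : (2 : ℕ) ∣ 8388608), Nat.pow_mod]
  norm_num

private theorem bg_gam (e : ℕ) : gam e = (2796203 ^ e % 8388608 + 1) / 2 := rfl

private theorem bg_two (e : ℕ) : 2 * gam e = 2796203 ^ e % 8388608 + 1 := by
  have h := bg_odd e
  rw [bg_gam]
  omega

theorem gam_spec (e : ℕ) : 3 ^ e * (2 * gam e) ≡ 3 ^ e + 1 [MOD 8388608] := by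
  have h1 : 3 ^ e * (2796203 ^ e % 8388608) ≡ 1 [MOD 8388608] := by
    calc 3 ^ e * (2796203 ^ e % 8388608) ≡ 3 ^ e * 2796203 ^ e [MOD 8388608] :=
          (Nat.mod_modEq _ _).mul_left _
      _ = (3 * 2796203) ^ e := (mul_pow _ _ _).symm
      _ ≡ 1 ^ e [MOD 8388608] := Nat.ModEq.pow _ (by decide)
      _ = 1 := one_pow e
  rw [bg_two, mul_add, mul_one, add_comm (3 ^ e) 1]
  exact h1.add_right _

theorem gam_lt (e : ℕ) : gam e < 8388608 := by
  have h : 2796203 ^ e % 8388608 < 8388608 := Nat.mod_lt _ (by norm_num)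
  rw [bg_gam]
  omega

private theorem bg_succ (o n : ℕ) : gtab o (n + 1) = gtab o n + gam (o + n) * 2 ^ (24 * n) := by
  show gtab o n + (gam (o + n)) <<< (24 * n) = _
  rw [Nat.shiftLeft_eq]

private theorem bg_lt (o n : ℕ) : gtab o n < 2 ^ (24 * n) := by
  induction n with
  | zero => show 0 < _; positivity
  | succ n ih =>
      rw [bg_succ, show 24 * (n + 1) = 24 * n + 24 by ring, pow_add]
      have h := gam_lt (o + n)
      have h2 : gam (o + n) * 2 ^ (24 * n) ≤ 8388607 * 2 ^ (24 * n) := Nat.mul_le_mul_right _ (by omega)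
      have h3 : 0 < 2 ^ (24 * n) := by positivity
      have h4 : (2 : ℕ) ^ 24 = 16777216 := by norm_num
      rw [h4]
      omega

private theorem bg_dig (o d : ℕ) : ∀ n, d < n → gtab o n / 2 ^ (24 * d) % 2 ^ 24 = gam (o + d) := by
  intro n
  induction n with
  | zero => intro h; omega
  | succ n ih =>
      intro h
      rw [bg_succ]
      rcases Nat.lt_succ_iff_lt_or_eq.mp h with h1 | h1
      · have e1 : gam (o + n) * 2 ^ (24 * n)
            = 2 ^ (24 * d) * (2 ^ 24 * (gam (o + n) * 2 ^ (24 * (n - d - 1)))) := by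
          have : 24 * n = 24 * d + (24 + 24 * (n - d - 1)) := by omega
          rw [this, pow_add, pow_add]
          ring
        rw [e1, Nat.add_mul_div_left _ _ (by positivity), Nat.add_mul_mod_self_left]
        exact ih h1
      · subst h1
        rw [mul_comm (gam (o + d)), Nat.add_mul_div_left _ _ (by positivity),
          Nat.div_eq_of_lt (bg_lt o d), zero_add]
        exact Nat.mod_eq_of_lt (lt_trans (gam_lt _) (by norm_num))

private theorem bg_land (x n : ℕ) : Nat.land x (2 ^ n - 1) = x % 2 ^ n :=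
  Nat.and_two_pow_sub_one_eq_mod x n

theorem gtab_digit {o d : ℕ} (h : d < 24) :
    Nat.land (Nat.shiftRight (gtab o 24) (Nat.mul 24 d)) 16777215 = gam (o + d) := by
  have e1 : (16777215 : ℕ) = 2 ^ 24 - 1 := by norm_num
  rw [e1, bg_land]
  have e2 : Nat.shiftRight (gtab o 24) (Nat.mul 24 d) = gtab o 24 / 2 ^ (24 * d) :=
    Nat.shiftRight_eq_div_pow _ _
  rw [e2]
  exact bg_dig o d 24 h

theorem ra_eq {o t k d : ℕ} (h : d < 24) (hk : k ≤ t) (hk' : k ≤ 22) :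
    ra (gtab o 24) t k d = (gam (o + d) % 2 ^ k) * 2 ^ (t - k) := by
  have e1 : allo k = 2 ^ k - 1 := by
    show 1 <<< k - 1 = _
    rw [Nat.shiftLeft_eq, one_mul]
  have e2 : Nat.shiftRight (gtab o 24) (Nat.mul 24 d) = gtab o 24 / 2 ^ (24 * d) :=
    Nat.shiftRight_eq_div_pow _ _
  have e3 : gtab o 24 / 2 ^ (24 * d) % 2 ^ k = gam (o + d) % 2 ^ k := by
    rw [← bg_dig o d 24 h, Nat.mod_mod_of_dvd _ (pow_dvd_pow 2 (by omega : k ≤ 24))]
  show (Nat.land (Nat.shiftRight (gtab o 24) (Nat.mul 24 d)) (allo k)) <<< (t - k) = _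
  rw [e1, bg_land, e2, e3, Nat.shiftLeft_eq]

theorem arr_even (k s e t : ℕ) :
    Vv (k + 1) s (3 ^ e * (2 * t)) = max (kv s) ((2 * Vv k (en s) (3 ^ e * t)) % 8388608) := by
  have h1 : 3 ^ e * (2 * t) = 2 * (3 ^ e * t) := by ring
  rw [Vv, h1, if_pos (by omega), Nat.mul_div_cancel_left _ (by norm_num)]

theorem arr_odd {k : ℕ} (hk : k ≤ 22) (s e t : ℕ) :
    Vv (k + 1) s (3 ^ e * (2 * t + 1)) =
      max (kv s) (phv (Vv k (on s) (3 ^ (e + 1) * ((t + gam (e + 1) % 2 ^ k) % 2 ^ k)))) := by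
  have hodd : (3 ^ e * (2 * t + 1)) % 2 = 1 := by
    have h3 : (3 ^ e) % 2 = 1 := by rw [Nat.pow_mod]; norm_num
    rw [Nat.mul_mod, h3]
    omega
  rw [Vv, if_neg (by omega)]
  have key : (3 * (3 ^ e * (2 * t + 1)) + 1) / 2 ≡
      3 ^ (e + 1) * ((t + gam (e + 1) % 2 ^ k) % 2 ^ k) [MOD 2 ^ k] := by
    have h2 : 2 * ((3 * (3 ^ e * (2 * t + 1)) + 1) / 2) = 3 ^ (e + 1) * (2 * t) + (3 ^ (e + 1) + 1) := by
      have : 3 * (3 ^ e * (2 * t + 1)) + 1 = 3 ^ (e + 1) * (2 * t) + (3 ^ (e + 1) + 1) := by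
        rw [pow_succ]; ring
      rw [← this]
      omega
    have h4 : 2 * ((3 * (3 ^ e * (2 * t + 1)) + 1) / 2) ≡ 2 * (3 ^ (e + 1) * (t + gam (e + 1)))
        [MOD 2 * 4194304] := by
      rw [h2]
      have h5 : 3 ^ (e + 1) * (2 * t) + (3 ^ (e + 1) + 1) ≡
          3 ^ (e + 1) * (2 * t) + 3 ^ (e + 1) * (2 * gam (e + 1)) [MOD 8388608] :=
        (gam_spec (e + 1)).symm.add_left _
      have h6 : 3 ^ (e + 1) * (2 * t) + 3 ^ (e + 1) * (2 * gam (e + 1))
          = 2 * (3 ^ (e + 1) * (t + gam (e + 1))) := by ring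
      rw [h6] at h5
      exact h5
    have h7 : (3 * (3 ^ e * (2 * t + 1)) + 1) / 2 ≡ 3 ^ (e + 1) * (t + gam (e + 1)) [MOD 2 ^ k] := by
      refine (Nat.ModEq.mul_left_cancel' (by norm_num) h4).of_dvd ?_
      have : (4194304 : ℕ) = 2 ^ 22 := by norm_num
      rw [this]
      exact pow_dvd_pow 2 hk
    refine h7.trans (Nat.ModEq.mul_left _ ?_)
    calc t + gam (e + 1) ≡ t + gam (e + 1) % 2 ^ k [MOD 2 ^ k] :=
          (Nat.mod_modEq _ _).symm.add_left _
      _ ≡ (t + gam (e + 1) % 2 ^ k) % 2 ^ k [MOD 2 ^ k] := (Nat.mod_modEq _ _).symm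
  rw [Vv_mod key]

end H86C
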