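import Pool.Agent.H86.C.Def

/-! # Module Grid: the levels `m`, the table `kap`, the index map `J`

COPY `Pool/Agent/H1/Col/Grid.lean` (namespace `H1Col`; there the grid has 147 levels per octave, here 400;
residues modulo 27 there, 243 here) and adapt. Everything there is done with `allBelow` (kernel friendly bounded
quantifier, given here as `allB`) and `decide +kernel`.

* `m_add` : `base (i mod 400)` is unchanged, one more doubling.
* `m_mono` : `base k ≤ base (k+1)` for `k < 399` (kernel), `base 399 ≤ 2 * base 0`, then as in `m_step`.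
* `J_ok` : kernel check for `953 ≤ i < 6720` (5767 values; each costs 132 comparisons, about 2 s in total; if you
  like split it), and for `i ≥ 6720` induction `i = j + 400` : `cnt TH i = 0` for `i ≥ 6319`, so
  `J (j+400) = J j + 400`.
* `J_bd` : `cnt TH i ≤ 132` (length of the list), by induction on the list `cnt l i ≤ l.length`.
* `kap_bd`, `kap_T0`, `A_top` : kernel checks over `r < 243`. -/

namespace H86C

/-- Kernel friendly bounded universal quantifier. -/
def allB (p : ℕ → Bool) (n : ℕ) : Bool :=
  @Nat.rec (fun _ => Bool) true (fun k ih => and (p k) ih) n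

theorem allB_spec {p : ℕ → Bool} {n : ℕ} (h : allB p n = true) : ∀ k < n, p k = true := by
  induction n with
  | zero => intro k hk; omega
  | succ n ih =>
      have h' : (p n && allB p n) = true := h
      rw [Bool.and_eq_true] at h'
      intro k hk
      rcases Nat.lt_succ_iff_lt_or_eq.mp hk with h1 | h1
      · exact ih h'.2 k h1
      · rw [h1]; exact h'.1

theorem cnt_nil (i : ℕ) : cnt [] i = 0 := rfl

theorem cnt_cons (t : ℕ) (l : List ℕ) (i : ℕ) :
    cnt (t :: l) i = if i < t then cnt l i + 1 else cnt l i := by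
  show (bif Nat.ble (i + 1) t then cnt l i + 1 else cnt l i) = _
  by_cases h : i < t
  · rw [if_pos h]
    have : Nat.ble (i + 1) t = true := Nat.ble_eq.mpr h
    rw [this]; rfl
  · rw [if_neg h]
    have : Nat.ble (i + 1) t = false := by
      rw [Bool.eq_false_iff]
      intro hh
      exact h (Nat.ble_eq.mp hh)
    rw [this]; rfl

private theorem cnt_eq_zero {l : List ℕ} {i : ℕ} (h : ∀ t ∈ l, t ≤ i) : cnt l i = 0 := by
  induction l with
  | nil => rfl
  | cons t l ih =>
      rw [cnt_cons, if_neg (by have := h t (by simp); omega)]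
      exact ih (fun t ht => h t (by simp [ht]))

private theorem cnt_TH_eq_zero {i : ℕ} (h : 6319 ≤ i) : cnt TH i = 0 := by
  apply cnt_eq_zero
  have : ∀ t ∈ TH, t ≤ 6319 := by decide +kernel
  intro t ht
  exact le_trans (this t ht) h

private theorem cnt_le (l : List ℕ) (i : ℕ) : cnt l i ≤ l.length := by
  induction l with
  | nil => exact le_rfl
  | cons t l ih =>
      rw [cnt_cons, List.length_cons]
      split_ifs
      · omega
      · omega

private theorem m_eq (i : ℕ) : m i = base (i % 400) * 2 ^ (i / 400) := Nat.shiftLeft_eq _ _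

theorem m_add (i : ℕ) : m (i + 400) = 2 * m i := by
  rw [m_eq, m_eq, Nat.add_mod_right, Nat.add_div_right _ (by norm_num), pow_succ]
  ring

private theorem base_step : ∀ k < 399, base k ≤ base (k + 1) := by
  have h : allB (fun k => Nat.ble (base k) (base (k + 1))) 399 = true := by decide +kernel
  intro k hk
  exact Nat.ble_eq.mp (allB_spec h k hk)

private theorem base_wrap : base 399 ≤ 2 * base 0 := by decide +kernel

private theorem m_step (i : ℕ) : m i ≤ m (i + 1) := by
  have e : i = 400 * (i / 400) + i % 400 := (Nat.div_add_mod i 400).symm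
  have hlt : i % 400 < 400 := Nat.mod_lt _ (by norm_num)
  rcases Nat.lt_or_ge (i % 400) 399 with h | h
  · have h1 : (i + 1) % 400 = i % 400 + 1 := by omega
    have h2 : (i + 1) / 400 = i / 400 := by omega
    rw [m_eq, m_eq, h1, h2]
    exact Nat.mul_le_mul_right _ (base_step _ h)
  · have h0 : i % 400 = 399 := by omega
    have h1 : (i + 1) % 400 = 0 := by omega
    have h2 : (i + 1) / 400 = i / 400 + 1 := by omega
    rw [m_eq, m_eq, h0, h1, h2, pow_succ]
    have := base_wrap
    calc base 399 * 2 ^ (i / 400) ≤ (2 * base 0) * 2 ^ (i / 400) := Nat.mul_le_mul_right _ this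
      _ = base 0 * (2 ^ (i / 400) * 2) := by ring

theorem m_mono : Monotone m := monotone_nat_of_le_succ m_step

private theorem J_ok_small : ∀ i, 953 ≤ i → i < 6720 →
    1610612737 * m i + 524289 * 1073741824 ≤ 1073741824 * m (J i) := by
  have h : allB (fun k => Nat.ble (1610612737 * m (953 + k) + 524289 * 1073741824)
      (1073741824 * m (J (953 + k)))) 5767 = true := by decide +kernel
  intro i h1 h2
  have := Nat.ble_eq.mp (allB_spec h (i - 953) (by omega))
  rw [show 953 + (i - 953) = i by omega] at this
  exact this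

theorem J_ok : ∀ i, 953 ≤ i →
    1610612737 * m i + 524289 * 1073741824 ≤ 1073741824 * m (J i) := by
  intro i
  induction i using Nat.strong_induction_on with
  | _ i ih =>
    intro h1
    by_cases h2 : i < 6720
    · exact J_ok_small i h1 h2
    · obtain ⟨j, rfl⟩ : ∃ j, i = j + 400 := ⟨i - 400, by omega⟩
      have h3 := ih j (by omega) (by omega)
      have e1 : J (j + 400) = J j + 400 := by
        show j + 400 + 234 + cnt TH (j + 400) = j + 234 + cnt TH j + 400
        rw [cnt_TH_eq_zero (by omega), cnt_TH_eq_zero (i := j) (by omega)]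
      rw [e1, m_add, m_add]
      omega

theorem J_bd (i : ℕ) : i + 234 ≤ J i ∧ J i ≤ i + 366 := by
  have h1 : cnt TH i ≤ 132 := cnt_le TH i
  have h2 : J i = i + 234 + cnt TH i := rfl
  rw [h2]
  omega

theorem kap_bd : ∀ r < 243, r % 3 ≠ 0 → 952 ≤ kap r ∧ kap r ≤ 2184 := by
  have h : allB (fun r => (Nat.beq (r % 3) 0) || (Nat.ble 952 (kap r) && Nat.ble (kap r) 2184)) 243
    = true := by decide +kernel
  intro r hr h3
  have := allB_spec h r hr
  rw [Bool.or_eq_true, Bool.and_eq_true] at this
  rcases this with h | ⟨ha, hb⟩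
  · exact absurd (Nat.eq_of_beq_eq_true h) h3
  · exact ⟨Nat.ble_eq.mp ha, Nat.ble_eq.mp hb⟩

theorem kap_T0 : ∀ r < 243, r % 3 ≠ 0 → kap r ≤ kap (T0 r) + 400 := by
  have h : allB (fun r => (Nat.beq (r % 3) 0) || Nat.ble (kap r) (kap (T0 r) + 400)) 243
    = true := by decide +kernel
  intro r hr h3
  have := allB_spec h r hr
  rw [Bool.or_eq_true] at this
  rcases this with h | ha
  · exact absurd (Nat.eq_of_beq_eq_true h) h3
  · exact Nat.ble_eq.mp ha

/-- `Ar r ≤ g 2436`, in integers. -/
theorem A_top : ∀ r < 243, r % 3 ≠ 0 →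
    1610612737 * (3 * m (kap r) + 1048576) ≤ 3221225472 * m 2436 := by
  have h : allB (fun r => (Nat.beq (r % 3) 0) ||
      Nat.ble (1610612737 * (3 * m (kap r) + 1048576)) (3221225472 * m 2436)) 243
    = true := by decide +kernel
  intro r hr h3
  have := allB_spec h r hr
  rw [Bool.or_eq_true] at this
  rcases this with h | ha
  · exact absurd (Nat.eq_of_beq_eq_true h) h3
  · exact Nat.ble_eq.mp ha

theorem T0_lt (r : ℕ) : T0 r < 243 := Nat.mod_lt _ (by norm_num)
theorem T1_lt (r : ℕ) : T1 r < 243 := Nat.mod_lt _ (by norm_num)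
theorem T0_unit {r : ℕ} (h : r % 3 ≠ 0) : T0 r % 3 ≠ 0 := by unfold T0; omega
theorem T1_unit (r : ℕ) : T1 r % 3 ≠ 0 := by unfold T1; omega

end H86C
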