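import Pool.Agent.H86.C.BcDef
import Pool.Agent.H86.C.Grid

/-! # Module BcInst: the 243 states

All by kernel checks over `s < 243` (use `allB`), with `T x` for odd `x`: `2 T x = 3 x + 1`.
For `inst_even`: `x % 3^j = z`, `x` even: `2 (x/2) = x`, so `(x/2) % 3^j` is determined by `z`: kernel check
`sj (en s) = sj s` and `(2 * sz (en s)) % 3^(sj s) = sz s`; multiplication by `2` is injective modulo `3^j`
(`Nat.ModEq.cancel_left_of_coprime`). For `inst_odd`: kernel check `sj (on s) = min 5 (sj s + 1)` and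
`(2 * sz (on s)) % 3^j' = (3 * sz s + 1) % 3^j'`, `j' = sj (on s)` (`x ≡ z mod 3^j` gives `3x + 1 ≡ 3z + 1 mod 3^(j+1)`).
`kv_le` : `x mod 243` runs over the residues prime to 3 with `(x mod 243) % 3^(sj s) = sz s` (`sj s ≤ 5`): kernel
check over `s < 243`, `r < 243` (59049 pairs; use a nested `allB` or run over the lifts of `sz s`). -/

namespace H86C

private theorem bcoprime (j : ℕ) : Nat.Coprime (3 ^ j) 2 := Nat.Coprime.pow_left _ (by norm_num)

theorem inst_zero {x : ℕ} (h : x % 3 ≠ 0) : Inst 0 x := by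
  refine ⟨h, ?_⟩
  have h1 : sj 0 = 0 := by decide +kernel
  have h2 : sz 0 = 0 := by decide +kernel
  rw [h1, h2, pow_zero, Nat.mod_one]

theorem en_lt : ∀ s < 243, en s < 243 := by
  have h : allB (fun s => Nat.ble (en s + 1) 243) 243 = true := by decide +kernel
  intro s hs
  exact Nat.ble_eq.mp (allB_spec h s hs)

theorem on_lt : ∀ s < 243, on s < 243 := by
  have h : allB (fun s => Nat.ble (on s + 1) 243) 243 = true := by decide +kernel
  intro s hs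
  exact Nat.ble_eq.mp (allB_spec h s hs)

private theorem en_chk : ∀ s < 243, sj (en s) = sj s ∧ (2 * sz (en s)) % 3 ^ sj s = sz s ∧ sz (en s) < 3 ^ sj (en s) := by
  have h : allB (fun s => (Nat.beq (sj (en s)) (sj s) && Nat.beq ((2 * sz (en s)) % 3 ^ sj s) (sz s)) &&
    Nat.ble (sz (en s) + 1) (3 ^ sj (en s))) 243 = true := by decide +kernel
  intro s hs
  have h1 := allB_spec h s hs
  rw [Bool.and_eq_true, Bool.and_eq_true] at h1
  exact ⟨Nat.eq_of_beq_eq_true h1.1.1, Nat.eq_of_beq_eq_true h1.1.2, Nat.ble_eq.mp h1.2⟩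

private theorem on_chk : ∀ s < 243, sj (on s) ≤ sj s + 1 ∧
    (2 * sz (on s)) % 3 ^ sj (on s) = (3 * sz s + 1) % 3 ^ sj (on s) ∧ sz (on s) < 3 ^ sj (on s) := by
  have h : allB (fun s => (Nat.ble (sj (on s)) (sj s + 1) &&
    Nat.beq ((2 * sz (on s)) % 3 ^ sj (on s)) ((3 * sz s + 1) % 3 ^ sj (on s))) &&
    Nat.ble (sz (on s) + 1) (3 ^ sj (on s))) 243 = true := by decide +kernel
  intro s hs
  have h1 := allB_spec h s hs
  rw [Bool.and_eq_true, Bool.and_eq_true] at h1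
  exact ⟨Nat.ble_eq.mp h1.1.1, Nat.eq_of_beq_eq_true h1.1.2, Nat.ble_eq.mp h1.2⟩

theorem inst_even {s x : ℕ} (hs : s < 243) (h : Inst s x) (hx : x % 2 = 0) : Inst (en s) (x / 2) := by
  obtain ⟨h1, h2⟩ := h
  obtain ⟨e1, e2, e3⟩ := en_chk s hs
  refine ⟨by omega, ?_⟩
  have h3 : 2 * (x / 2) = x := by omega
  have h4 : 2 * (x / 2) ≡ 2 * sz (en s) [MOD 3 ^ sj (en s)] := by
    rw [h3]
    show x % 3 ^ sj (en s) = (2 * sz (en s)) % 3 ^ sj (en s)
    rw [e1, h2, e2]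
  have h5 : x / 2 ≡ sz (en s) [MOD 3 ^ sj (en s)] := Nat.ModEq.cancel_left_of_coprime (bcoprime _) h4
  have h6 : (x / 2) % 3 ^ sj (en s) = sz (en s) % 3 ^ sj (en s) := h5
  rw [h6, Nat.mod_eq_of_lt e3]

theorem inst_odd {s x : ℕ} (hs : s < 243) (h : Inst s x) (hx : x % 2 = 1) : Inst (on s) (H1Col.T x) := by
  obtain ⟨h1, h2⟩ := h
  obtain ⟨e1, e2, e3⟩ := on_chk s hs
  have hT : H1Col.T x = (3 * x + 1) / 2 := by
    unfold H1Col.T
    rw [if_neg (by omega)]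
  have h3 : 2 * H1Col.T x = 3 * x + 1 := by
    rw [hT]
    omega
  refine ⟨by omega, ?_⟩
  have h4 : 3 * x + 1 ≡ 3 * sz s + 1 [MOD 3 ^ (sj s + 1)] := by
    refine Nat.ModEq.add_right 1 ?_
    rw [pow_succ, Nat.mul_comm (3 ^ sj s) 3]
    refine Nat.ModEq.mul_left' 3 ?_
    show x % 3 ^ sj s = sz s % 3 ^ sj s
    rw [← h2, Nat.mod_mod]
  have h5 : 3 * x + 1 ≡ 3 * sz s + 1 [MOD 3 ^ sj (on s)] := Nat.ModEq.of_dvd (pow_dvd_pow 3 e1) h4
  have h6 : 2 * H1Col.T x ≡ 2 * sz (on s) [MOD 3 ^ sj (on s)] := by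
    rw [h3]
    exact h5.trans (Eq.symm e2)
  have h7 : H1Col.T x % 3 ^ sj (on s) = sz (on s) % 3 ^ sj (on s) := Nat.ModEq.cancel_left_of_coprime (bcoprime _) h6
  rw [h7, Nat.mod_eq_of_lt e3]

theorem kv_bd : ∀ s < 243, 257 ≤ kv s ∧ kv s ≤ 65535 := by
  have h : allB (fun s => Nat.ble 257 (kv s) && Nat.ble (kv s) 65535) 243 = true := by decide +kernel
  intro s hs
  have h1 := allB_spec h s hs
  rw [Bool.and_eq_true] at h1
  exact ⟨Nat.ble_eq.mp h1.1, Nat.ble_eq.mp h1.2⟩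

private theorem kv_chk : ∀ s < 243, 3 ^ sj s * (243 / 3 ^ sj s) = 243 ∧ ∀ i < 243 / 3 ^ sj s,
    (sz s + 3 ^ sj s * i) % 3 = 0 ∨ 2048 * kv s ≤ m (kap (sz s + 3 ^ sj s * i)) := by
  have h : allB (fun s => Nat.beq (3 ^ sj s * (243 / 3 ^ sj s)) 243 && allB (fun i => Nat.beq ((sz s + 3 ^ sj s * i) % 3) 0 ||
    Nat.ble (2048 * kv s) (m (kap (sz s + 3 ^ sj s * i)))) (243 / 3 ^ sj s)) 243 = true := by decide +kernel
  intro s hs
  have h1 := allB_spec h s hs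
  rw [Bool.and_eq_true] at h1
  refine ⟨Nat.eq_of_beq_eq_true h1.1, fun i hi => ?_⟩
  have h2 := allB_spec h1.2 i hi
  rw [Bool.or_eq_true] at h2
  rcases h2 with h2 | h2
  · exact Or.inl (Nat.eq_of_beq_eq_true h2)
  · exact Or.inr (Nat.ble_eq.mp h2)

theorem kv_le {s x : ℕ} (hs : s < 243) (h : Inst s x) : 2048 * kv s ≤ m (kap (x % 243)) := by
  obtain ⟨h1, h2⟩ := h
  obtain ⟨e1, e2⟩ := kv_chk s hs
  have hq : 3 ^ sj s ∣ 243 := Dvd.intro _ e1
  have h3 : x % 243 % 3 ^ sj s = sz s := by rw [Nat.mod_mod_of_dvd _ hq, h2]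
  have h4 : sz s + 3 ^ sj s * (x % 243 / 3 ^ sj s) = x % 243 := by
    rw [← h3]
    exact Nat.mod_add_div _ _
  have h5 : x % 243 / 3 ^ sj s < 243 / 3 ^ sj s := by
    apply Nat.div_lt_of_lt_mul
    rw [e1]
    exact Nat.mod_lt _ (by norm_num)
  have h6 := e2 _ h5
  rw [h4] at h6
  rcases h6 with h6 | h6
  · omega
  · exact h6

end H86C
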