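import Pool.Agent.H86.C.BcDef
import Pool.Agent.H1.Col.DP

/-! # Module BcLan: lane arithmetic of one level

`pk w f n = ∑ f i 2^(w i)` (`Pool/Agent/H1/Col/Pack.lean`). `Nat.land`, `Nat.shiftRight` as functions: start with `show`.

* `pat_eq` : `(2^(24 * 2^t) - 1) / (2^(24 * 2^(t-k)) - 1)` is the geometric sum with ratio `2^w`, `w = 24 * 2^(t-k)`, `2^k`
  terms (`pk_ones` in `Pool/Agent/H1/Col/DP.lean`).
* `mx_eq` : lanes `y = f + (2^23 - c) < 2^24 ≤ 2^w`; `b` = bit 23 of `y` (set iff `f ≥ c`); `b - (b >> 23)` has the lanes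
  `2^23 - 1` or `0` (shift inside the lanes, `pk_div`-like: the low 23 bits of `b` are zero); `land` gives
  `y mod 2^23 = f - c` when `f ≥ c`, else `0`; plus `c`.
* `phi_eq` : `87380 f < 2^40 ≤ 2^w`, no borrow since `f ≥ 257`; shifting right by 17 moves the low 17 bits of each lane
  to the top of the lane below (bits `w - 17, .., w - 1`, and `w - 17 ≥ 23`), removed by the mask `2^23 - 1`; and
  the lane value is `(87380 f - 22412970) / 2^17 mod 2^23 = phv f`.
* `rt_eq` : rotation by `γ` lanes of width `w = 24 * 2^(t-k)` (`γ < 2^k`), `a = γ * 2^(t-k)`: `pk_div`, `pk_mod`, `pk_shift`.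
* `mrg_eq` : combine: even positions `(2 f) mod 2^23` (`w ≥ 48`), odd positions shifted up by half a lane `w/2 = 24 * 2^(t-k-1)`;
  the interleaved sum is `pk (w/2) _ (2^(k+1))`. -/

namespace H86C

open H1Col (pk)

private theorem bl_allo (n : ℕ) : allo n = 2 ^ n - 1 := by
  show (1 <<< n) - 1 = _
  rw [Nat.one_shiftLeft]

private theorem bl_pow {t k : ℕ} (h : k ≤ t) : 24 * 2 ^ (t - k) * 2 ^ k = 24 * 2 ^ t := by
  rw [mul_assoc, ← pow_add, Nat.sub_add_cancel h]

theorem pat_eq {t k : ℕ} (h : k ≤ t) : pat t k = pk (24 * 2 ^ (t - k)) (fun _ => 1) (2 ^ k) := by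
  have e : pat t k = (2 ^ (24 * 2 ^ t) - 1) / (2 ^ (24 * 2 ^ (t - k)) - 1) := by
    show (allo (24 * (1 <<< t))) / (allo (24 * (1 <<< (t - k)))) = _
    rw [Nat.one_shiftLeft, Nat.one_shiftLeft]
    rw [bl_allo, bl_allo]
  have h1 := H1Col.pk_ones (24 * 2 ^ (t - k)) (2 ^ k)
  rw [bl_pow h] at h1
  rw [e, ← h1, Nat.add_sub_cancel]
  apply Nat.mul_div_cancel
  have h2 : 1 < 2 ^ (24 * 2 ^ (t - k)) := Nat.one_lt_two_pow (by positivity)
  omega

private theorem bl_mask (x : ℕ) : x &&& 8388607 = x % 8388608 := by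
  have h := Nat.and_two_pow_sub_one_eq_mod x 23
  norm_num at h
  exact h

private theorem bl_bit {y : ℕ} (hy : y < 16777216) : y &&& 8388608 = (y / 8388608) * 8388608 := by
  have h1 : y &&& 8388608 = 2 ^ 23 &&& y := by
    rw [Nat.and_comm]
    norm_num
  rw [h1, Nat.two_pow_and]
  have h2 : y / 8388608 < 2 := by omega
  rw [Nat.toNat_testBit]
  norm_num
  omega

theorem mx_eq {w n c : ℕ} {f : ℕ → ℕ} (hw : 24 ≤ w) (hc : c < 8388608) (hf : ∀ i, f i < 8388608) :
    mx (pk w (fun _ => 1) n) c (pk w f n) = pk w (fun i => max c (f i)) n := by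
  have h24 : 16777216 ≤ 2 ^ w := by
    calc 16777216 = 2 ^ 24 := by norm_num
      _ ≤ 2 ^ w := Nat.pow_le_pow_right (by norm_num) hw
  have e1 : pk w f n + (8388608 - c) * pk w (fun _ => 1) n = pk w (fun i => f i + (8388608 - c)) n := by
    rw [mul_comm, H1Col.pk_const_mul, H1Col.pk_add]
  show (let Y := pk w f n + (8388608 - c) * pk w (fun _ => 1) n
    let b := Y &&& (8388608 * pk w (fun _ => 1) n)
    (Y &&& (b - (b >>> 23))) + c * pk w (fun _ => 1) n) = _
  simp only [e1]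
  have e2 : 8388608 * pk w (fun _ => 1) n = pk w (fun _ => 8388608) n := by
    rw [mul_comm, H1Col.pk_const_mul]
  have e3 : c * pk w (fun _ => 1) n = pk w (fun _ => c) n := by
    rw [mul_comm, H1Col.pk_const_mul]
  have hy : ∀ i, f i + (8388608 - c) < 16777216 := fun i => by
    have := hf i
    omega
  have e4 : pk w (fun i => f i + (8388608 - c)) n &&& pk w (fun _ => 8388608) n =
      pk w (fun i => (f i + (8388608 - c)) / 8388608) n * 8388608 := by
    rw [H1Col.pk_land (fun i _ => lt_of_lt_of_le (hy i) h24) (fun i _ => by omega), H1Col.pk_mul]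
    apply H1Col.pk_congr
    intro i _
    exact bl_bit (hy i)
  rw [e2, e3, e4, Nat.shiftRight_eq_div_pow, show (2 : ℕ) ^ 23 = 8388608 by norm_num,
    Nat.mul_div_cancel _ (by norm_num : 0 < 8388608)]
  have e5 : pk w (fun i => (f i + (8388608 - c)) / 8388608) n * 8388608 -
      pk w (fun i => (f i + (8388608 - c)) / 8388608) n =
      pk w (fun i => (f i + (8388608 - c)) / 8388608 * 8388607) n := by
    rw [← H1Col.pk_mul]
    omega
  have hq : ∀ i, (f i + (8388608 - c)) / 8388608 ≤ 1 := fun i => by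
    have := hy i
    omega
  rw [e5, H1Col.pk_land (fun i _ => lt_of_lt_of_le (hy i) h24) (fun i _ => by have := hq i; omega),
    H1Col.pk_add]
  apply H1Col.pk_congr
  intro i _
  have hfi := hf i
  by_cases hci : c ≤ f i
  · have h1 : (f i + (8388608 - c)) / 8388608 = 1 := by omega
    rw [h1, one_mul, bl_mask]
    rw [max_eq_right hci]
    omega
  · have h1 : (f i + (8388608 - c)) / 8388608 = 0 := by omega
    rw [h1, zero_mul, Nat.and_zero, zero_add, max_eq_left (by omega)]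

theorem phi_eq {w n : ℕ} {f : ℕ → ℕ} (hw : 48 ≤ w) (h1 : ∀ i, 257 ≤ f i) (h2 : ∀ i, f i < 8388608) :
    phi (pk w (fun _ => 1) n) (pk w f n) = pk w (fun i => phv (f i)) n := by
  have h48 : 281474976710656 ≤ 2 ^ w := by
    calc 281474976710656 = 2 ^ 48 := by norm_num
      _ ≤ 2 ^ w := Nat.pow_le_pow_right (by norm_num) hw
  show ((pk w f n * 87380 - 22412970 * pk w (fun _ => 1) n) >>> 17) &&& (8388607 * pk w (fun _ => 1) n) = _
  have e1 : 22412970 * pk w (fun _ => 1) n = pk w (fun _ => 22412970) n := by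
    rw [mul_comm, H1Col.pk_const_mul]
  have e2 : 8388607 * pk w (fun _ => 1) n = pk w (fun _ => 8388607) n := by
    rw [mul_comm, H1Col.pk_const_mul]
  have e3 : pk w f n * 87380 - pk w (fun _ => 22412970) n = pk w (fun i => f i * 87380 - 22412970) n := by
    rw [H1Col.pk_mul, H1Col.pk_sub]
    intro i _
    have := h1 i
    omega
  rw [e1, e2, e3]
  have ha : ∀ i < n, f i * 87380 - 22412970 < 2 ^ w := fun i _ => by
    have := h2 i
    omega
  have hm : ∀ i < n, (8388607 : ℕ) < 2 ^ w := fun i _ => by omega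
  have hp : ∀ i < n, phv (f i) < 2 ^ w := fun i _ => by
    have : phv (f i) < 8388608 := Nat.mod_lt _ (by norm_num)
    omega
  apply Nat.eq_of_testBit_eq
  intro j
  rw [Nat.testBit_and, Nat.testBit_shiftRight]
  by_cases hj : w * n ≤ j
  · rw [H1Col.pk_testBit_ge hm hj, H1Col.pk_testBit_ge hp hj, Bool.and_false]
  · push Not at hj
    have hw0 : 0 < w := by omega
    have e : j = w * (j / w) + j % w := (Nat.div_add_mod j w).symm
    have hi : j / w < n := Nat.div_lt_of_lt_mul hj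
    have hb : j % w < w := Nat.mod_lt _ hw0
    rw [e, H1Col.pk_testBit hm _ hi _ hb, H1Col.pk_testBit hp _ hi _ hb]
    by_cases hb2 : j % w < 23
    · have e4 : 17 + (w * (j / w) + j % w) = w * (j / w) + (17 + j % w) := by ring
      rw [e4, H1Col.pk_testBit ha _ hi _ (by omega)]
      have e5 : (8388607 : ℕ).testBit (j % w) = true := by
        have h3 := Nat.testBit_two_pow_sub_one 23 (j % w)
        norm_num at h3
        rw [h3]
        simpa using hb2
      rw [e5, Bool.and_true]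
      unfold phv
      have e6 : (8388608 : ℕ) = 2 ^ 23 := by norm_num
      have e7 : (131072 : ℕ) = 2 ^ 17 := by norm_num
      rw [e6, e7, Nat.testBit_mod_two_pow, Nat.testBit_div_two_pow, mul_comm (f (j / w)) 87380,
        Nat.add_comm 17 (j % w)]
      simp [hb2]
    · have e5 : (8388607 : ℕ).testBit (j % w) = false := by
        apply Nat.testBit_lt_two_pow
        calc (8388607 : ℕ) < 2 ^ 23 := by norm_num
          _ ≤ 2 ^ (j % w) := Nat.pow_le_pow_right (by norm_num) (by omega)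
      have e6 : (phv (f (j / w))).testBit (j % w) = false := by
        apply Nat.testBit_lt_two_pow
        calc phv (f (j / w)) < 2 ^ 23 := by
              have : phv (f (j / w)) < 8388608 := Nat.mod_lt _ (by norm_num)
              norm_num
              exact this
          _ ≤ 2 ^ (j % w) := Nat.pow_le_pow_right (by norm_num) (by omega)
      rw [e5, e6, Bool.and_false]

theorem rt_eq {t k γ : ℕ} {f : ℕ → ℕ} (hk : k ≤ t) (hγ : γ < 2 ^ k) (hf : ∀ i, f i < 8388608) :
    rt t (γ * 2 ^ (t - k)) (pk (24 * 2 ^ (t - k)) f (2 ^ k)) =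
      pk (24 * 2 ^ (t - k)) (fun i => f ((i + γ) % 2 ^ k)) (2 ^ k) := by
  obtain ⟨w, hwdef⟩ : ∃ w, w = 24 * 2 ^ (t - k) := ⟨_, rfl⟩
  have hw : 24 ≤ w := by
    have : 1 ≤ 2 ^ (t - k) := Nat.one_le_two_pow
    omega
  have h24 : 16777216 ≤ 2 ^ w := by
    calc 16777216 = 2 ^ 24 := by norm_num
      _ ≤ 2 ^ w := Nat.pow_le_pow_right (by norm_num) hw
  have hf' : ∀ i < 2 ^ k, f i < 2 ^ w := fun i _ => by
    have := hf i
    omega
  have e1 : 24 * (γ * 2 ^ (t - k)) = w * γ := by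
    rw [hwdef]
    ring
  have e2 : 24 * (1 <<< t - γ * 2 ^ (t - k)) = w * (2 ^ k - γ) := by
    rw [Nat.one_shiftLeft, Nat.mul_sub, Nat.mul_sub, e1, hwdef, bl_pow hk]
  have hgoal : rt t (γ * 2 ^ (t - k)) (pk w f (2 ^ k)) =
      (pk w f (2 ^ k)) >>> (w * γ) + ((pk w f (2 ^ k)) &&& (allo (w * γ))) <<< (w * (2 ^ k - γ)) := by
    show (pk w f (2 ^ k)) >>> (24 * (γ * 2 ^ (t - k))) + ((pk w f (2 ^ k)) &&& (allo (24 * (γ * 2 ^ (t - k))))) <<<
      (24 * (1 <<< t - γ * 2 ^ (t - k))) = _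
    rw [e2, e1]
  rw [← hwdef, hgoal, bl_allo, Nat.and_two_pow_sub_one_eq_mod,
    H1Col.pk_mod hγ.le (fun i hi => hf' i (by omega)), Nat.shiftRight_eq_div_pow,
    H1Col.pk_div hγ.le (fun i hi => hf' i (by omega)), Nat.shiftLeft_eq, H1Col.pk_shift]
  have e3 : 2 ^ k - γ + γ = 2 ^ k := Nat.sub_add_cancel hγ.le
  rw [H1Col.pk_extend (n := 2 ^ k - γ) (k := γ), e3, H1Col.pk_add]
  apply H1Col.pk_congr
  intro i hi
  by_cases h : i < 2 ^ k - γ
  · rw [if_pos h, if_pos h, add_zero, Nat.mod_eq_of_lt (by omega)]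
  · rw [if_neg h, if_neg h, zero_add]
    congr 1
    have h5 : i + γ = (i - (2 ^ k - γ)) + 2 ^ k := by omega
    rw [h5, Nat.add_mod_right, Nat.mod_eq_of_lt (by omega)]

private theorem bl_il (v : ℕ) (A B : ℕ → ℕ) (N : ℕ) :
    pk (2 * v) A N + pk (2 * v) B N * 2 ^ v =
      pk v (fun i => if i % 2 = 0 then A (i / 2) else B (i / 2)) (2 * N) := by
  induction N with
  | zero => simp
  | succ N ih =>
    rw [show 2 * (N + 1) = 2 * N + 1 + 1 by ring, H1Col.pk_succ v, H1Col.pk_succ v, ← ih, H1Col.pk_succ, H1Col.pk_succ]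
    have h1 : (2 * N) % 2 = 0 := by omega
    have h2 : (2 * N + 1) % 2 ≠ 0 := by omega
    have h3 : 2 * N / 2 = N := by omega
    have h4 : (2 * N + 1) / 2 = N := by omega
    simp only [h1, h2, h3, h4, if_true, if_false]
    have h5 : 2 ^ (v * (2 * N + 1)) = 2 ^ (2 * v * N) * 2 ^ v := by
      rw [← pow_add]
      congr 1
      ring
    have h6 : 2 ^ (v * (2 * N)) = 2 ^ (2 * v * N) := by
      congr 1
      ring
    rw [h5, h6]
    ring

theorem mrg_eq {t k c γ : ℕ} {f h : ℕ → ℕ} (hk : k < t) (hγ : γ < 2 ^ k) (hc : c < 8388608)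
    (hf : ∀ i, f i < 8388608) (h1 : ∀ i, 257 ≤ h i) (h2 : ∀ i, h i < 8388608) :
    mrg t k c (γ * 2 ^ (t - k)) (pk (24 * 2 ^ (t - k)) f (2 ^ k)) (pk (24 * 2 ^ (t - k)) h (2 ^ k)) =
      pk (24 * 2 ^ (t - (k + 1))) (fun i => max c (if i % 2 = 0 then (2 * f (i / 2)) % 8388608
        else phv (h ((i / 2 + γ) % 2 ^ k)))) (2 ^ (k + 1)) := by
  have e0 : mrg t k c (γ * 2 ^ (t - k)) (pk (24 * 2 ^ (t - k)) f (2 ^ k)) (pk (24 * 2 ^ (t - k)) h (2 ^ k)) =
      mx (pat t (k + 1)) c (((pk (24 * 2 ^ (t - k)) f (2 ^ k)) <<< 1 &&& (8388607 * pat t k)) +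
        (phi (pat t k) (rt t (γ * 2 ^ (t - k)) (pk (24 * 2 ^ (t - k)) h (2 ^ k)))) <<< (24 * (1 <<< (t - (k + 1))))) := rfl
  rw [e0, rt_eq hk.le hγ h2, pat_eq hk.le, pat_eq (Nat.succ_le_of_lt hk)]
  obtain ⟨v, hv⟩ : ∃ v, v = 24 * 2 ^ (t - (k + 1)) := ⟨_, rfl⟩
  have hw : 24 * 2 ^ (t - k) = 2 * v := by
    rw [hv, show t - k = (t - (k + 1)) + 1 by omega, pow_succ]
    ring
  have hv24 : 24 ≤ v := by
    have : 1 ≤ 2 ^ (t - (k + 1)) := Nat.one_le_two_pow
    omega
  have h24 : 16777216 ≤ 2 ^ (2 * v) := by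
    calc 16777216 = 2 ^ 24 := by norm_num
      _ ≤ 2 ^ (2 * v) := Nat.pow_le_pow_right (by norm_num) (by omega)
  rw [Nat.one_shiftLeft, ← hv, hw, phi_eq (by omega) (fun i => h1 _) (fun i => h2 _), Nat.shiftLeft_eq, Nat.shiftLeft_eq,
    H1Col.pk_mul]
  have e2 : 8388607 * pk (2 * v) (fun _ => 1) (2 ^ k) = pk (2 * v) (fun _ => 8388607) (2 ^ k) := by
    rw [mul_comm, H1Col.pk_const_mul]
  rw [e2, H1Col.pk_land (fun i _ => by have := hf i; omega) (fun i _ => by omega), bl_il,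
    show 2 * 2 ^ k = 2 ^ (k + 1) by rw [pow_succ]; ring, mx_eq hv24 hc]
  · apply H1Col.pk_congr
    intro i _
    by_cases h5 : i % 2 = 0
    · simp only [h5, if_true]
      rw [bl_mask]
      congr 2
      ring
    · simp only [h5, if_false]
  · intro i
    by_cases h5 : i % 2 = 0
    · simp only [h5, if_true]
      rw [bl_mask]
      exact Nat.mod_lt _ (by norm_num)
    · simp only [h5, if_false]
      exact Nat.mod_lt _ (by norm_num)

end H86C
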