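import Pool.Agent.H86.C.BcArr

/-! # Module BcLf: one leaf

`P = pat 14 14 = pk 24 1 2^14`, `G = 2^23 P`. The rotated array: `rt 14 (x mod 2^14) (fC ..) = pk 24 (fun j => v j) 2^14` with
`v j = Vv 14 s (3^(o+d) ((j + x) mod 2^14)) = Vv 14 s (3^(o+d) (j + x))` (`rt_eq` with `k = t = 14`; `Vv_mod`);
`V = G - that` has the lanes `2^23 - v j`. For the threshold `τ` let `c = (p3 τ + b) / 256`. If `c ≥ 2^23 - 1` all lanes are
counted, else `2^23 - v j + c < 2^24` has bit 23 set iff `v j ≤ c`. So the leaf adds `2^23 * C τ j`, with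
`C τ j = if τ ≤ lam then 0 else if v j ≤ c then 1 else 0` (`v j < 2^23`).
For `LfOK` with `n = u = 0`: the family has one member `Y 0 ≡ 3^(o+d) (j + x)` modulo `2^14`, in the state `s`. If
`K 14 (Y 0) * 256 < 2048 (p3 τ + b)` (`p2 = 2^8`) then by `K_ge_Vv` `Vv 14 s (Y 0) * 256 < p3 τ + b`, hence `v j ≤ c`. -/

namespace H86C

open H1Col (pk)
open Finset

private theorem lf_mul (a c : ℕ) : Nat.mul a c = a * c := rfl
private theorem lf_add (a c : ℕ) : Nat.add a c = a + c := rfl
private theorem lf_sub (a c : ℕ) : Nat.sub a c = a - c := rfl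
private theorem lf_land (a c : ℕ) : Nat.land a c = a &&& c := rfl
private theorem lf_shr (a c : ℕ) : Nat.shiftRight a c = a >>> c := rfl
private theorem lf_rt (X Y : ℕ) {q c : ℕ} (h : q ≤ c) : @Bool.rec (fun _ => ℕ) X Y (Nat.ble q c) = Y := by
  rw [Nat.ble_eq_true_of_le h]
private theorem lf_rf (X Y : ℕ) {q c : ℕ} (h : ¬ q ≤ c) : @Bool.rec (fun _ => ℕ) X Y (Nat.ble q c) = X := by
  have h1 : Nat.ble q c = false := by
    rw [← Bool.not_eq_true, Nat.ble_eq]
    exact h
  rw [h1]

private theorem lf_val {V0 p2 p3 τ b : ℕ} {k : ℝ} (h1 : 2048 * (V0 : ℝ) ≤ k) (h2 : p2 = 256)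
    (hK : k * p2 < 2048 * ((p3 : ℝ) * τ + b)) : V0 ≤ (p3 * τ + b) / 256 := by
  have h3 : (V0 : ℝ) * 256 < (p3 : ℝ) * τ + b := by
    rw [h2] at hK
    push_cast at hK
    nlinarith
  have h4 : V0 * 256 < p3 * τ + b := by
    exact_mod_cast h3
  rw [Nat.le_div_iff_mul_le (by norm_num)]
  exact h4.le

private theorem lf_mask (y : ℕ) (hy : y < 16777216) : Nat.land y 8388608 = if 8388608 ≤ y then 8388608 else 0 := by
  rw [lf_land]
  have h0 : (8388608 : ℕ) = 2 ^ 23 := by norm_num
  apply Nat.eq_of_testBit_eq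
  intro i
  rw [Nat.testBit_and, h0, Nat.testBit_two_pow]
  by_cases hi : 23 = i
  · subst hi
    by_cases hle : 2 ^ 23 ≤ y
    · rw [if_pos hle, Nat.testBit_two_pow]
      have : y.testBit 23 = true := by
        rw [Nat.testBit_eq_decide_div_mod_eq]
        have h1 : y / 2 ^ 23 = 1 := by
          apply Nat.div_eq_of_lt_le
          · simpa using hle
          · norm_num; exact hy
        rw [h1]; simp
      simp [this]
    · rw [if_neg hle]
      have : y.testBit 23 = false := Nat.testBit_lt_two_pow (not_le.1 hle)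
      simp [this]
  · have : decide (23 = i) = false := by simp [hi]
    rw [this, Bool.and_false]
    split_ifs with hle
    · rw [Nat.testBit_two_pow, this]
    · simp

theorem leaf_ok (h : T6OK) {o s d x p2 p3 b lam : ℕ} (hN : Node 8 s d x p2 p3 b) :
    LfOK o 0 0 s d x p2 p3 b lam
      [leaf (pat 14 14) (Nat.mul 8388608 (pat 14 14))
        (Nat.sub (Nat.mul 8388608 (pat 14 14)) (rt 14 (Nat.land x 16383) (fC o (gtab o 24) 2 s d))) p3 b lam] := by
  classical
  have hP : pat 14 14 = pk 24 (fun _ => 1) 16384 := pat_eq (le_refl 14)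
  have hvb : ∀ j, 257 ≤ Vv 14 s (3 ^ (o + d) * (j + x)) ∧ Vv 14 s (3 ^ (o + d) * (j + x)) < 8388608 :=
    fun j => Vv_bd hN.hs
  have hland : Nat.land x 16383 = x % 2 ^ 14 := Nat.and_two_pow_sub_one_eq_mod x 14
  have hR : rt 14 (Nat.land x 16383) (fC o (gtab o 24) 2 s d)
      = pk 24 (fun j => Vv 14 s (3 ^ (o + d) * (j + x))) 16384 := by
    rw [fC_eq h hN.hs hN.hd, hland]
    have h1 := rt_eq (t := 14) (k := 14) (γ := x % 2 ^ 14) (f := fun i => Vv 14 s (3 ^ (o + d) * i)) (le_refl 14)
      (Nat.mod_lt _ (by norm_num)) (fun i => (Vv_bd hN.hs).2)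
    have h2 : x % 2 ^ 14 * 2 ^ (14 - 14) = x % 2 ^ 14 := by simp
    rw [h2] at h1
    refine h1.trans ?_
    refine H1Col.pk_congr fun i _ => ?_
    refine Vv_mod ?_
    refine Nat.ModEq.mul_left _ ?_
    refine (Nat.mod_modEq _ _).trans ?_
    exact Nat.ModEq.add_left _ (Nat.mod_modEq _ _)
  have hG : Nat.mul 8388608 (pat 14 14) = pk 24 (fun _ => 8388608) 16384 := by
    rw [hP, lf_mul, mul_comm, H1Col.pk_const_mul]
  refine ⟨by simp, ?_⟩
  intro h' hh'
  have hh0 : h' = 0 := by
    rw [pow_zero] at hh'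
    omega
  subst hh0
  refine ⟨_, fun τ j => if τ ≤ lam then 0 else
    if Vv 14 s (3 ^ (o + d) * (j + x)) ≤ (p3 * τ + b) / 256 then 1 else 0, rfl, ?_, ?_, ?_⟩
  · intro τ acc
    rw [hR, hG, hP]
    unfold leaf
    by_cases hτ : τ ≤ lam
    · have h2 : pk 24 (fun j => 8388608 * (if τ ≤ lam then 0 else
          if Vv 14 s (3 ^ (o + d) * (j + x)) ≤ (p3 * τ + b) / 256 then 1 else 0)) 16384 = 0 := by
        unfold H1Col.pk
        refine sum_eq_zero fun i _ => ?_
        dsimp only
        rw [if_pos hτ, mul_zero, zero_mul]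
      rw [h2, add_zero]
      exact lf_rt _ _ hτ
    · have hc : Nat.shiftRight (Nat.add (Nat.mul p3 τ) b) 8 = (p3 * τ + b) / 256 := by
        rw [lf_shr, lf_add, lf_mul, Nat.shiftRight_eq_div_pow]
      rw [hc]
      simp only [if_neg hτ]
      refine (lf_rf _ _ hτ).trans ?_
      generalize hcc : (p3 * τ + b) / 256 = c
      by_cases hbig : 8388607 ≤ c
      · refine (lf_rt _ _ hbig).trans ?_
        rw [lf_add]
        refine congrArg (fun z => acc + z) ?_
        refine H1Col.pk_congr fun i _ => ?_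
        have := hvb i
        rw [if_pos (by omega)]
      · refine (lf_rf _ _ hbig).trans ?_
        rw [lf_add]
        refine congrArg (fun z => acc + z) ?_
        have h4 : Nat.sub (pk 24 (fun _ => 8388608) 16384)
            (pk 24 (fun j => Vv 14 s (3 ^ (o + d) * (j + x))) 16384) =
            pk 24 (fun j => 8388608 - Vv 14 s (3 ^ (o + d) * (j + x))) 16384 :=
          H1Col.pk_sub fun i _ => (hvb i).2.le
        have h5 : Nat.mul c (pk 24 (fun _ => 1) 16384) = pk 24 (fun _ => c) 16384 := by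
          rw [lf_mul, mul_comm, H1Col.pk_const_mul]
        rw [h4, h5, lf_land, lf_add, H1Col.pk_add, H1Col.pk_land]
        · refine H1Col.pk_congr fun i _ => ?_
          have h6 := hvb i
          have h7 := lf_mask (8388608 - Vv 14 s (3 ^ (o + d) * (i + x)) + c) (by omega)
          rw [lf_land] at h7
          rw [h7]
          by_cases h8 : Vv 14 s (3 ^ (o + d) * (i + x)) ≤ c
          · rw [if_pos (by omega), if_pos h8]
          · rw [if_neg (by omega), if_neg h8]
        · intro i _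
          have h6 := hvb i
          show 8388608 - Vv 14 s (3 ^ (o + d) * (i + x)) + c < 2 ^ 24
          norm_num
          omega
        · intro i _
          norm_num
  · intro τ j
    dsimp only
    split_ifs <;> simp
  · intro τ j hτ _ _ Y hY
    obtain ⟨hI, hmod⟩ := hY 0 (by norm_num)
    have hmod' : Y 0 ≡ 3 ^ (o + d) * (j + x) [MOD 2 ^ 14] := by
      simpa using hmod
    have hVv : Vv 14 s (Y 0) = Vv 14 s (3 ^ (o + d) * (j + x)) := Vv_mod hmod'
    have hle : τ ≤ lam ↔ False := by
      constructor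
      · intro h1; omega
      · exact False.elim
    dsimp only
    rw [if_neg (by omega)]
    by_cases hK : K 14 (Y 0) * p2 < 2048 * ((p3 : ℝ) * τ + b)
    · have h1 := K_ge_Vv (k := 14) hN.hs hI
      have h2 : p2 = 256 := hN.h2
      have h5 : Vv 14 s (3 ^ (o + d) * (j + x)) ≤ (p3 * τ + b) / 256 := by
        rw [← hVv]
        exact lf_val h1 h2 hK
      rw [if_pos h5]
      refine (card_filter_le _ _).trans ?_
      simp
    · have h1 : (range (2 ^ 0)).filter
          (fun v => K (14 + 0 + 0) (Y v) * p2 < 2048 * ((p3 : ℝ) * τ + b)) = ∅ := by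
        refine filter_eq_empty_iff.2 fun v hv => ?_
        have hv0 : v = 0 := by simpa using hv
        subst hv0
        exact hK
      rw [h1]
      simp

end H86C
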