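import Pool.Agent.H86.C.BcFin

/-! # Module BcRng: the ranges of thresholds for each exponent

For `o = 13 + q` (`q < 81`) the checks `chkO o (jl o) m`, `chkO o (jl o + m) (jn o - m)` cover the thresholds `TU[j]`,
`jl o ≤ j < jl o + jn o`.
Kernel checks over `q < 81`: with `lo = 953 + 634 * 13 + 634 q - 634 * 6 - 51200` (natural subtraction) and
`hi = 2436 + 766 * (7 + q) - 6400`: either `jl o = 0` or `TU[jl o - 1].1 < max 953 lo`; either `jl o + jn o = 53` or
`hi ≤ TU[jl o + jn o - 1].1`; `TU` has 53 elements, the last threshold is `5444`.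
For `i` as in `BaseAll` let `j` be the first index with `i ≤ TU[j].1` (exists since `i ≤ 5444`): `bs i = 4096 * TU[j].2`,
and `jl o ≤ j < jl o + jn o` by the checks and the monotonicity of `TU`. `TT[j] = (t, TU[j].2)` and
`m TU[j].1 ≤ 2048 t` for `j < 53` (kernel check). Then `chkO_sound`. -/

namespace H86C

/-- First threshold and number of thresholds, `o = 13, .., 93`. -/
def jlT : List ℕ := [0, 0, 0, 0, 0, 0, 0, 0, 0, 0, 0, 0, 0, 0, 0, 0, 0, 0, 0, 0, 0, 0, 0, 0, 0, 0, 0, 0, 0, 0, 0, 0, 0, 0, 0, 0, 0, 0, 0, 0, 0, 0, 0, 0, 0, 0, 0, 0, 0, 0, 0, 0, 0, 0, 0, 0, 0, 0, 0, 0, 0, 0, 0, 0, 0, 0, 0, 0, 0, 0, 0, 0, 0, 0, 0, 6, 18, 30, 40, 47, 51]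
def jnT : List ℕ := [3, 15, 29, 42, 49, 53, 53, 53, 53, 53, 53, 53, 53, 53, 53, 53, 53, 53, 53, 53, 53, 53, 53, 53, 53, 53, 53, 53, 53, 53, 53, 53, 53, 53, 53, 53, 53, 53, 53, 53, 53, 53, 53, 53, 53, 53, 53, 53, 53, 53, 53, 53, 53, 53, 53, 53, 53, 53, 53, 53, 53, 53, 53, 53, 53, 53, 53, 53, 53, 53, 53, 53, 53, 53, 53, 47, 35, 23, 13, 6, 2]

private theorem br_first (L : List (ℕ × ℕ)) (i d : ℕ) (h : ∃ e ∈ L, i ≤ e.1) :
    ∃ j, j < L.length ∧ i ≤ (L.getD j (0, 0)).1 ∧ (∀ j' < j, (L.getD j' (0, 0)).1 < i) ∧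
      L.foldr (fun e y => if i ≤ e.1 then 4096 * e.2 else y) d = 4096 * (L.getD j (0, 0)).2 := by
  induction L with
  | nil =>
      obtain ⟨e, he, -⟩ := h
      exact absurd he List.not_mem_nil
  | cons a L ih =>
      by_cases ha : i ≤ a.1
      · refine ⟨0, by simp, ha, fun j' hj' => absurd hj' (Nat.not_lt_zero _), ?_⟩
        rw [List.foldr_cons, if_pos ha]
        rfl
      · have h' : ∃ e ∈ L, i ≤ e.1 := by
          obtain ⟨e, he, hi⟩ := h
          rcases List.mem_cons.1 he with rfl | he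
          · exact absurd hi ha
          · exact ⟨e, he, hi⟩
        obtain ⟨j, h1, h2, h3, h4⟩ := ih h'
        refine ⟨j + 1, by simpa using h1, h2, ?_, ?_⟩
        · intro j' hj'
          rcases j' with _ | j'
          · exact not_le.mp ha
          · exact h3 j' (by omega)
        · rw [List.foldr_cons, if_neg ha, h4]
          rfl

private theorem br_len : TU.length = 53 := by decide +kernel

private theorem br_last : ∃ e ∈ TU, e.1 = 5444 := by decide +kernel

private theorem br_mono : ∀ j < 53, ∀ j' < 53, j ≤ j' → (TU.getD j (0, 0)).1 ≤ (TU.getD j' (0, 0)).1 := by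
  decide +kernel

private theorem br_TT : ∀ j < 53, TT[j]? = some ((TT.getD j (0, 0)).1, (TU.getD j (0, 0)).2) ∧
    m (TU.getD j (0, 0)).1 ≤ 2048 * (TT.getD j (0, 0)).1 := by
  decide +kernel

private theorem br_lo : ∀ q < 81, jlT.getD q 0 = 0 ∨ jlT.getD q 0 ≤ 53 ∧
    (TU.getD (jlT.getD q 0 - 1) (0, 0)).1 < max 953 (953 + 634 * (13 + q) - (400 * 128 + 634 * 6)) := by
  decide +kernel

private theorem br_hi : ∀ q < 81, 1 ≤ jnT.getD q 0 ∧ (53 ≤ jlT.getD q 0 + jnT.getD q 0 ∨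
    2436 + 766 * (13 + q) - (400 * 16 + 766 * 6) ≤ (TU.getD (jlT.getD q 0 + jnT.getD q 0 - 1) (0, 0)).1) := by
  decide +kernel

theorem baseAll_of (h : T6OK)
    (hc : ∀ q < 81, ∃ m k b : ℕ, m + k = jnT.getD q 0 ∧ b = jlT.getD q 0 + m ∧
      chkO (13 + q) (jlT.getD q 0) m = true ∧ chkO (13 + q) b k = true) : BaseAll := by
  intro o i ho1 ho2 hi1 hi2 h1 h2
  obtain ⟨q, rfl⟩ := Nat.exists_eq_add_of_le ho1
  have hq : q < 81 := by omega
  obtain ⟨j, hj, hj1, hj2, hj3⟩ := br_first TU i 4828299264 (by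
    obtain ⟨e, he, he'⟩ := br_last
    exact ⟨e, he, by omega⟩)
  rw [br_len] at hj
  obtain ⟨t1, t2⟩ := br_TT j hj
  have hlo := br_lo q hq
  obtain ⟨hn, hhi⟩ := br_hi q hq
  obtain ⟨m', k', b', hm, hb', hcq, hcq'⟩ := hc q hq
  generalize jlT.getD q 0 = a at hlo hhi hcq hb'
  generalize jnT.getD q 0 = n at hn hhi hm
  have hja : a ≤ j := by
    by_contra hlt
    rcases hlo with hlo | ⟨hlo1, hlo⟩
    · omega
    · have := br_mono j hj (a - 1) (by omega) (by omega)
      rcases lt_max_iff.mp hlo with h3 | h3 <;> omega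
  have hjn : j < a + n := by
    by_contra hlt
    rcases hhi with hhi | hhi
    · omega
    · have := hj2 (a + n - 1) (by omega)
      omega
  have hb : BaseOK (13 + q) (TT.getD j (0, 0)).1 (TU.getD j (0, 0)).2 := by
    rcases Nat.lt_or_ge j (a + m') with hs | hs
    · exact chkO_sound h (by omega) hcq j hja hs _ t1
    · exact chkO_sound h (by omega) hcq' j (by omega) (by omega) _ t1
  refine ⟨TU.getD j (0, 0), ?_, (TT.getD j (0, 0)).1, ?_, hj1, t2, hb⟩
  · rw [List.getD_eq_getElem _ _ (by rw [br_len]; exact hj)]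
    exact List.getElem_mem _
  · exact hj3

end H86C
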