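import Pool.Agent.H86.C.BcLf

/-! # Module BcTree: the tree of the top eight levels

`frL x f = f x` is `rfl`. `il A B` : entries alternate; `zc A B` : entries are composed.

A node at depth `i` with the class `(s, d, x, p2, p3, b)`: a member at position `w` (`Y ≡ 3^(o+d) (w + x)` modulo `2^(22-i)`),
next binary digit `e = w mod 2`, `w = 2 w' + e`, `x' = x + e`: `Y ≡ 3^(o+d) (2 w' + x')`, parity of `Y` = parity of `x'`.
* `x'` even: `Y/2 ≡ 3^(o+d) (w' + x'/2)` modulo `2^(21-i)`, state `en s` (`inst_even`), threshold `tr_even`.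
* `x'` odd: `T Y = (3Y+1)/2 ≡ 3^(o+d+1) (w' + (x'-1)/2 + gam (o+d+1))` (`gam_spec`), state `on s`, threshold `tr_odd`
  (its condition follows from `Node.hb` and `τ ≤ 2^21`: `p3 τ + b ≤ p2 2^(21+i) ≤ p2 2^29`, `i ≤ 8`). The new position
  `Nat.land (x'/2 + gam) 4194303` is taken modulo `2^22`, harmless.
`chd_node` : the child of a `Node i` is a `Node (i+1)`.
`step_il` (digit natural: the entry `h` of the interleaved list is the entry `h/2` of the child `h mod 2`), `step_zc` (digit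
summed: `C = C0 + C1`; the family `Y` splits into even and odd indices `v`). In both, the bound `l = max lam (..)`:
for `lam < τ ≤ l` the set of the family is empty by `tr_stop` (`τ > 0`), for `τ > l` use the children.
Then `lvs_ok` by induction on `n ≤ 4` (depth `8 - n`, entries of `2^n` leaves), `kvs_ok` by induction on `u` (depth `4 - u`).
The root: `s = 0`, `d = 0`, `x = 0`, `p2 = p3 = 1`, `b = lam = 0`. -/

namespace H86C

open H1Col (pk)
open Finset
open scoped Classical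

private theorem bt_frL (x : ℕ) (f : ℕ → List Lf) : frL x f = f x := rfl

private theorem bt_mxs (a b : ℕ) : mxs a b = max a b := by
  unfold mxs
  by_cases h : a ≤ b
  · rw [Nat.ble_eq_true_of_le h]
    exact (max_eq_right h).symm
  · have h1 : Nat.ble a b = false := by
      rw [← Bool.not_eq_true, Nat.ble_eq]
      exact h
    rw [h1]
    have h2 : b ≤ a := by omega
    exact (max_eq_left h2).symm

private theorem bt_il_cons (a b : Lf) (A B : List Lf) : il (a :: A) (b :: B) = a :: b :: il A B := rfl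
private theorem bt_zc_cons (a b : Lf) (A B : List Lf) : zc (a :: A) (b :: B) = cmp a b :: zc A B := rfl

private theorem bt_il (A : List Lf) : ∀ B : List Lf, A.length = B.length →
    (il A B).length = 2 * A.length ∧ ∀ h, (il A B)[2 * h]? = A[h]? ∧ (il A B)[2 * h + 1]? = B[h]? := by
  induction A with
  | nil =>
      intro B hB
      have : B = [] := List.length_eq_zero_iff.mp (by simpa using hB.symm)
      subst this
      refine ⟨rfl, fun h => ?_⟩
      have : il [] ([] : List Lf) = [] := rfl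
      rw [this]
      simp
  | cons a A ih =>
      intro B hB
      cases B with
      | nil => simp at hB
      | cons b B =>
          have hl : A.length = B.length := by simpa using hB
          obtain ⟨h1, h2⟩ := ih B hl
          rw [bt_il_cons]
          refine ⟨by simp only [List.length_cons, h1]; omega, fun h => ?_⟩
          cases h with
          | zero => exact ⟨by simp, by simp⟩
          | succ h =>
              obtain ⟨h3, h4⟩ := h2 h
              refine ⟨?_, ?_⟩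
              · have e : 2 * (h + 1) = 2 * h + 1 + 1 := by ring
                rw [e, List.getElem?_cons_succ, List.getElem?_cons_succ, List.getElem?_cons_succ, h3]
              · have e : 2 * (h + 1) + 1 = (2 * h + 1) + 1 + 1 := by ring
                rw [e, List.getElem?_cons_succ, List.getElem?_cons_succ, List.getElem?_cons_succ, h4]

private theorem bt_zc (A : List Lf) : ∀ B : List Lf, A.length = B.length →
    (zc A B).length = A.length ∧ ∀ (h : ℕ) (a b : Lf), A[h]? = some a → B[h]? = some b →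
      (zc A B)[h]? = some (cmp a b) := by
  induction A with
  | nil =>
      intro B hB
      refine ⟨rfl, fun h a b ha _ => ?_⟩
      simp at ha
  | cons a A ih =>
      intro B hB
      cases B with
      | nil => simp at hB
      | cons b B =>
          have hl : A.length = B.length := by simpa using hB
          obtain ⟨h1, h2⟩ := ih B hl
          rw [bt_zc_cons]
          refine ⟨by simp only [List.length_cons, h1], fun h a' b' ha hb => ?_⟩
          cases h with
          | zero =>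
              simp only [List.getElem?_cons_zero, Option.some.injEq] at ha hb ⊢
              rw [ha, hb]
          | succ h =>
              rw [List.getElem?_cons_succ] at ha hb ⊢
              exact h2 h a' b' ha hb

/-- The child for one digit, position `x` (digit included). -/
private def ChOK (o n u s d x p2 p3 b lam : ℕ) (L : List Lf) : Prop :=
  L.length = 2 ^ n ∧ ∀ h < 2 ^ n, ∃ (f : Lf) (C : ℕ → ℕ → ℕ), L[h]? = some f ∧
    (∀ τ acc, f τ acc = acc + pk 24 (fun j => 8388608 * C τ j) 16384) ∧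
    (∀ τ j, C τ j ≤ 2 ^ u) ∧
    (∀ τ j, lam < τ → τ ≤ 2 ^ 21 → j < 16384 → ∀ Y : ℕ → ℕ,
      (∀ v < 2 ^ u, Inst s (Y v) ∧
        Y v ≡ 3 ^ (o + d) * (2 * (v + 2 ^ u * (h + 2 ^ n * j)) + x) [MOD 2 ^ (14 + n + u + 1)]) →
      (((range (2 ^ u)).filter
        (fun v => K (14 + n + u + 1) (Y v) * p2 < 2048 * ((p3 : ℝ) * τ + b))).card ≤ C τ j))

private theorem bt_odd3 (e : ℕ) : 3 ^ e % 2 = 1 := by
  rw [Nat.pow_mod]
  simp

private theorem bt_half {k a c : ℕ} (h : 2 * a ≡ 2 * c [MOD 2 ^ (k + 1)]) : a ≡ c [MOD 2 ^ k] := by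
  rw [pow_succ, Nat.mul_comm (2 ^ k) 2] at h
  exact Nat.ModEq.mul_left_cancel' (by norm_num) h

private theorem bt_par {k y z : ℕ} (h : y ≡ z [MOD 2 ^ (k + 1)]) : y % 2 = z % 2 :=
  Nat.ModEq.of_dvd (Dvd.intro_left (2 ^ k) (by rw [pow_succ])) h

private theorem bt_even {k y e w q : ℕ} (h : y ≡ 3 ^ e * (2 * w + 2 * q) [MOD 2 ^ (k + 1)]) :
    y % 2 = 0 ∧ y / 2 ≡ 3 ^ e * (w + q) [MOD 2 ^ k] := by
  have h1 := bt_par h
  have h0 : 3 ^ e * (2 * w + 2 * q) = 2 * (3 ^ e * (w + q)) := by ring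
  rw [h0] at h h1
  have h2 : y % 2 = 0 := by omega
  refine ⟨h2, bt_half ?_⟩
  have h3 : 2 * (y / 2) = y := by omega
  rw [h3]
  exact h

private theorem bt_odd {k y e w q : ℕ} (hk : k + 1 ≤ 23)
    (h : y ≡ 3 ^ e * (2 * w + (2 * q + 1)) [MOD 2 ^ (k + 1)]) :
    y % 2 = 1 ∧ H1Col.T y ≡ 3 ^ (e + 1) * (w + (q + gam (e + 1))) [MOD 2 ^ k] := by
  have h1 := bt_par h
  have h4 : (3 ^ e * (2 * w + (2 * q + 1))) % 2 = 1 := by
    rw [Nat.mul_mod, bt_odd3]
    omega
  rw [h4] at h1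
  refine ⟨h1, bt_half ?_⟩
  have h5 : 2 * H1Col.T y = 3 * y + 1 := by
    have : H1Col.T y = (3 * y + 1) / 2 := by
      unfold H1Col.T
      rw [if_neg (by omega)]
    rw [this]
    omega
  rw [h5]
  have h6 : 3 ^ (e + 1) * (2 * gam (e + 1)) ≡ 3 ^ (e + 1) + 1 [MOD 2 ^ (k + 1)] := by
    have h7 := gam_spec (e + 1)
    have h8 : (8388608 : ℕ) = 2 ^ 23 := by norm_num
    rw [h8] at h7
    exact h7.of_dvd (pow_dvd_pow 2 hk)
  have h9 : 3 * y + 1 ≡ 3 * (3 ^ e * (2 * w + (2 * q + 1))) + 1 [MOD 2 ^ (k + 1)] :=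
    (h.mul_left 3).add_right 1
  refine h9.trans ?_
  have h10 : 3 * (3 ^ e * (2 * w + (2 * q + 1))) + 1 = 3 ^ (e + 1) * (2 * w + 2 * q) + (3 ^ (e + 1) + 1) := by
    rw [pow_succ]
    ring
  have h11 : 2 * (3 ^ (e + 1) * (w + (q + gam (e + 1)))) =
      3 ^ (e + 1) * (2 * w + 2 * q) + 3 ^ (e + 1) * (2 * gam (e + 1)) := by ring
  rw [h10, h11]
  exact h6.symm.add_left _

private theorem bt_hb1 {i p2 p3 b : ℕ} (hb : p3 * 2 ^ 21 + b ≤ p2 * 2 ^ (21 + i)) :
    p3 * 2 ^ 21 + b ≤ 2 * p2 * 2 ^ (21 + (i + 1)) := by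
  refine hb.trans ?_
  have h1 : 2 ^ (21 + (i + 1)) = 2 ^ (21 + i) * 2 := by rw [← add_assoc, pow_succ]
  rw [h1]
  have h2 : 2 * p2 * (2 ^ (21 + i) * 2) = 4 * (p2 * 2 ^ (21 + i)) := by ring
  rw [h2]
  omega

private theorem bt_hb2 {i p2 p3 b : ℕ} (hb : p3 * 2 ^ 21 + b ≤ p2 * 2 ^ (21 + i)) :
    3 * p3 * 2 ^ 21 + (3 * b + 514 * p2) ≤ 2 * p2 * 2 ^ (21 + (i + 1)) := by
  have h1 : 2 ^ (21 + (i + 1)) = 2 ^ (21 + i) * 2 := by rw [← add_assoc, pow_succ]
  rw [h1]
  have h2 : 2 * p2 * (2 ^ (21 + i) * 2) = 4 * (p2 * 2 ^ (21 + i)) := by ring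
  rw [h2]
  have h3 : 514 * p2 ≤ p2 * 2 ^ (21 + i) := by
    rw [Nat.mul_comm]
    refine Nat.mul_le_mul_left _ ?_
    have : 2 ^ 21 ≤ 2 ^ (21 + i) := Nat.pow_le_pow_right (by norm_num) (by omega)
    omega
  have h4 : 3 * p3 * 2 ^ 21 + (3 * b + 514 * p2) = 3 * (p3 * 2 ^ 21 + b) + 514 * p2 := by ring
  rw [h4]
  omega

private theorem bt_hq {i p2 p3 b τ : ℕ} (hi : i ≤ 8) (hτ : τ ≤ 2 ^ 21)
    (hb : p3 * 2 ^ 21 + b ≤ p2 * 2 ^ (21 + i)) : p3 * τ + b ≤ p2 * 2 ^ 29 := by
  have h1 : p3 * τ ≤ p3 * 2 ^ 21 := Nat.mul_le_mul_left _ hτ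
  have h2 : p2 * 2 ^ (21 + i) ≤ p2 * 2 ^ 29 :=
    Nat.mul_le_mul_left _ (Nat.pow_le_pow_right (by norm_num) (by omega))
  omega

private theorem chd_even (g : ℕ) (F : NF) (s d x p2 p3 b lam : ℕ) (hx : x % 2 = 0) :
    chd g F s d x p2 p3 b lam = F (en s) d (x / 2) (2 * p2) p3 b lam := by
  unfold chd
  have h1 : Nat.beq (Nat.land x 1) 0 = true := by
    have h2 : Nat.land x 1 = x % 2 := Nat.and_one_is_mod x
    rw [h2, hx]
    rfl
  rw [h1]
  have h3 : x / 2 = Nat.shiftRight x 1 := (Nat.shiftRight_eq_div_pow x 1).symm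
  rw [h3]
  rfl

private theorem chd_odd (g : ℕ) (F : NF) (s d x p2 p3 b lam : ℕ) (hx : x % 2 = 1) :
    chd g F s d x p2 p3 b lam = F (on s) (d + 1)
      (Nat.land (Nat.add (x / 2) (Nat.land (Nat.shiftRight g (Nat.mul 24 (d + 1))) 16777215)) 4194303)
      (2 * p2) (3 * p3) (3 * b + 514 * p2) lam := by
  unfold chd
  have h1 : Nat.beq (Nat.land x 1) 0 = false := by
    have h2 : Nat.land x 1 = x % 2 := Nat.and_one_is_mod x
    rw [h2, hx]
    rfl
  rw [h1]
  have h3 : x / 2 = Nat.shiftRight x 1 := (Nat.shiftRight_eq_div_pow x 1).symm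
  rw [h3]
  rfl

private theorem bt_card {P Q : ℕ → Prop} {N c : ℕ} (h : ∀ v < N, P v → Q v)
    (hc : ((range N).filter Q).card ≤ c) : ((range N).filter P).card ≤ c := by
  refine le_trans (card_le_card ?_) hc
  intro v hv
  rw [mem_filter, mem_range] at hv ⊢
  exact ⟨hv.1, h v hv.1 hv.2⟩

private theorem chd_ok {o n u i s d x p2 p3 b l : ℕ} (F : NF) (hi : i + 1 + n + u = 8)
    (hs : s < 243) (hd : d ≤ i) (hx : x ≤ 4194304) (h2 : p2 = 2 ^ i) (h3 : 0 < p3)
    (hb : p3 * 2 ^ 21 + b ≤ p2 * 2 ^ (21 + i))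
    (ih : ∀ {s d x p2 p3 b lam : ℕ}, Node (i + 1) s d x p2 p3 b →
      LfOK o n u s d x p2 p3 b lam (F s d x p2 p3 b lam)) :
    ChOK o n u s d x p2 p3 b l (chd (gtab o 24) F s d x p2 p3 b l) := by
  rcases Nat.mod_two_eq_zero_or_one x with hx0 | hx1
  · rw [chd_even _ _ _ _ _ _ _ _ _ hx0]
    have hN : Node (i + 1) (en s) d (x / 2) (2 * p2) p3 b :=
      ⟨en_lt s hs, by omega, by omega, by rw [h2, pow_succ, Nat.mul_comm], h3, bt_hb1 hb⟩
    obtain ⟨hl, hf⟩ := ih (lam := l) hN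
    refine ⟨hl, fun h hh => ?_⟩
    obtain ⟨f, C, e1, e2, e3, e4⟩ := hf h hh
    refine ⟨f, C, e1, e2, e3, fun τ j hlt hτ hj Y hY => ?_⟩
    have hY' : ∀ v < 2 ^ u, Inst (en s) (Y v / 2) ∧
        Y v / 2 ≡ 3 ^ (o + d) * (v + 2 ^ u * (h + 2 ^ n * j) + x / 2) [MOD 2 ^ (14 + n + u)] := by
      intro v hv
      obtain ⟨a1, a2⟩ := hY v hv
      have hx' : x = 2 * (x / 2) := by omega
      rw [hx'] at a2
      have a3 := bt_even a2
      exact ⟨inst_even hs a1 a3.1, by simpa using a3.2⟩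
    refine bt_card ?_ (e4 τ j hlt hτ hj (fun v => Y v / 2) hY')
    intro v hv hK
    have hx' : x = 2 * (x / 2) := by omega
    have a2 := (hY v hv).2
    rw [hx'] at a2
    exact tr_even (bt_even a2).1 hK
  · rw [chd_odd _ _ _ _ _ _ _ _ _ hx1, gtab_digit (show d + 1 < 24 by omega)]
    have hE : o + (d + 1) = o + d + 1 := by omega
    have hland : Nat.land (Nat.add (x / 2) (gam (o + (d + 1)))) 4194303 = (x / 2 + gam (o + d + 1)) % 2 ^ 22 := by
      rw [hE]
      exact Nat.and_two_pow_sub_one_eq_mod (x / 2 + gam (o + d + 1)) 22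
    rw [hland]
    have hN : Node (i + 1) (on s) (d + 1) ((x / 2 + gam (o + d + 1)) % 2 ^ 22) (2 * p2) (3 * p3)
        (3 * b + 514 * p2) := by
      refine ⟨on_lt s hs, by omega, ?_, by rw [h2, pow_succ, Nat.mul_comm], by omega, bt_hb2 hb⟩
      have := Nat.mod_lt (x / 2 + gam (o + d + 1)) (show 2 ^ 22 > 0 by norm_num)
      norm_num at this ⊢
      exact this
    obtain ⟨hl, hf⟩ := ih (lam := l) hN
    refine ⟨hl, fun h hh => ?_⟩
    obtain ⟨f, C, e1, e2, e3, e4⟩ := hf h hh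
    refine ⟨f, C, e1, e2, e3, fun τ j hlt hτ hj Y hY => ?_⟩
    have key : ∀ v < 2 ^ u, Y v % 2 = 1 ∧ H1Col.T (Y v) ≡
        3 ^ (o + d + 1) * (v + 2 ^ u * (h + 2 ^ n * j) + (x / 2 + gam (o + d + 1))) [MOD 2 ^ (14 + n + u)] := by
      intro v hv
      have hx' : x = 2 * (x / 2) + 1 := by omega
      have a2 := (hY v hv).2
      rw [hx'] at a2
      exact bt_odd (by omega) a2
    have hY' : ∀ v < 2 ^ u, Inst (on s) (H1Col.T (Y v)) ∧
        H1Col.T (Y v) ≡ 3 ^ (o + (d + 1)) *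
          (v + 2 ^ u * (h + 2 ^ n * j) + (x / 2 + gam (o + d + 1)) % 2 ^ 22) [MOD 2 ^ (14 + n + u)] := by
      intro v hv
      obtain ⟨a3, a4⟩ := key v hv
      refine ⟨inst_odd hs (hY v hv).1 a3, ?_⟩
      rw [hE]
      refine a4.trans ?_
      refine Nat.ModEq.mul_left _ ?_
      refine Nat.ModEq.add_left _ ?_
      exact ((Nat.mod_modEq _ _).of_dvd (pow_dvd_pow 2 (by omega))).symm
    refine bt_card ?_ (e4 τ j hlt hτ hj (fun v => H1Col.T (Y v)) hY')
    intro v hv hK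
    exact tr_odd (key v hv).1 (bt_hq (by omega) hτ hb) hK

private theorem bt_empty {k s p2 p3 b τ N : ℕ} {Y : ℕ → ℕ} (hs : s < 243) (h : ∀ v < N, Inst s (Y v))
    (h3 : 0 < p3) (hτ : 0 < τ) (ht : τ ≤ (kv s * p2 - b) / p3) :
    ((range N).filter (fun v => K k (Y v) * p2 < 2048 * ((p3 : ℝ) * τ + b))).card = 0 := by
  rw [card_eq_zero, filter_eq_empty_iff]
  intro v hv
  exact tr_stop hs (h v (mem_range.mp hv)) h3 hτ ht

private theorem step_il {o n s d x p2 p3 b lam l : ℕ} {A B : List Lf} (hs : s < 243) (h3 : 0 < p3)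
    (hl : l = max lam ((kv s * p2 - b) / p3))
    (hA : ChOK o n 0 s d x p2 p3 b l A) (hB : ChOK o n 0 s d (x + 1) p2 p3 b l B) :
    LfOK o (n + 1) 0 s d x p2 p3 b lam (il A B) := by
  obtain ⟨lA, fA⟩ := hA
  obtain ⟨lB, fB⟩ := hB
  obtain ⟨i1, i2⟩ := bt_il A B (lA.trans lB.symm)
  refine ⟨by rw [i1, lA, pow_succ, Nat.mul_comm], fun h hh => ?_⟩
  have hh' : h / 2 < 2 ^ n := by
    rw [pow_succ] at hh
    omega
  rcases Nat.mod_two_eq_zero_or_one h with h0 | h1
  · obtain ⟨f, C, e1, e2, e3, e4⟩ := fA (h / 2) hh'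
    have hd : h = 2 * (h / 2) := by omega
    refine ⟨f, C, ?_, e2, e3, fun τ j hlt hτ hj Y hY => ?_⟩
    · rw [hd, (i2 (h / 2)).1]
      exact e1
    · by_cases hτl : τ ≤ l
      · have ht : τ ≤ (kv s * p2 - b) / p3 := by
          rw [hl] at hτl
          rcases le_max_iff.mp hτl with h5 | h5
          · omega
          · exact h5
        rw [bt_empty hs (fun v hv => (hY v hv).1) h3 (by omega) ht]
        exact Nat.zero_le _
      · refine e4 τ j (by omega) hτ hj Y (fun v hv => ⟨(hY v hv).1, ?_⟩)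
        have h6 := (hY v hv).2
        have hv0 : v = 0 := by simpa using hv
        subst hv0
        have h7 : 0 + 2 ^ 0 * (h + 2 ^ (n + 1) * j) + x = 2 * (0 + 2 ^ 0 * (h / 2 + 2 ^ n * j)) + x := by
          rw [pow_succ]
          have : 2 ^ n * 2 * j = 2 * (2 ^ n * j) := by ring
          rw [this]
          omega
        rw [h7] at h6
        exact h6
  · obtain ⟨f, C, e1, e2, e3, e4⟩ := fB (h / 2) hh'
    have hd : h = 2 * (h / 2) + 1 := by omega
    refine ⟨f, C, ?_, e2, e3, fun τ j hlt hτ hj Y hY => ?_⟩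
    · rw [hd, (i2 (h / 2)).2]
      exact e1
    · by_cases hτl : τ ≤ l
      · have ht : τ ≤ (kv s * p2 - b) / p3 := by
          rw [hl] at hτl
          rcases le_max_iff.mp hτl with h5 | h5
          · omega
          · exact h5
        rw [bt_empty hs (fun v hv => (hY v hv).1) h3 (by omega) ht]
        exact Nat.zero_le _
      · refine e4 τ j (by omega) hτ hj Y (fun v hv => ⟨(hY v hv).1, ?_⟩)
        have h6 := (hY v hv).2
        have hv0 : v = 0 := by simpa using hv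
        subst hv0
        have h7 : 0 + 2 ^ 0 * (h + 2 ^ (n + 1) * j) + x = 2 * (0 + 2 ^ 0 * (h / 2 + 2 ^ n * j)) + (x + 1) := by
          rw [pow_succ]
          have : 2 ^ n * 2 * j = 2 * (2 ^ n * j) := by ring
          rw [this]
          omega
        rw [h7] at h6
        exact h6

private theorem bt_split {P : ℕ → Prop} {N a c : ℕ}
    (h0 : ((range N).filter (fun v => P (2 * v))).card ≤ a)
    (h1 : ((range N).filter (fun v => P (2 * v + 1))).card ≤ c) :
    ((range (2 * N)).filter P).card ≤ a + c := by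
  have hsub : (range (2 * N)).filter P ⊆
      ((range N).filter (fun v => P (2 * v))).image (fun v => 2 * v) ∪
      ((range N).filter (fun v => P (2 * v + 1))).image (fun v => 2 * v + 1) := by
    intro v hv
    rw [mem_filter, mem_range] at hv
    rw [mem_union]
    rcases Nat.mod_two_eq_zero_or_one v with h | h
    · left
      have hd : 2 * (v / 2) = v := by omega
      refine mem_image.mpr ⟨v / 2, ?_, hd⟩
      rw [mem_filter, mem_range]
      refine ⟨by omega, ?_⟩
      rw [hd]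
      exact hv.2
    · right
      have hd : 2 * (v / 2) + 1 = v := by omega
      refine mem_image.mpr ⟨v / 2, ?_, hd⟩
      rw [mem_filter, mem_range]
      refine ⟨by omega, ?_⟩
      rw [hd]
      exact hv.2
  refine (card_le_card hsub).trans ((card_union_le _ _).trans ?_)
  exact Nat.add_le_add (card_image_le.trans h0) (card_image_le.trans h1)

private theorem step_zc {o n u s d x p2 p3 b lam l : ℕ} {A B : List Lf} (hs : s < 243) (h3 : 0 < p3)
    (hl : l = max lam ((kv s * p2 - b) / p3))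
    (hA : ChOK o n u s d x p2 p3 b l A) (hB : ChOK o n u s d (x + 1) p2 p3 b l B) :
    LfOK o n (u + 1) s d x p2 p3 b lam (zc A B) := by
  obtain ⟨lA, fA⟩ := hA
  obtain ⟨lB, fB⟩ := hB
  obtain ⟨i1, i2⟩ := bt_zc A B (lA.trans lB.symm)
  refine ⟨by rw [i1, lA], fun h hh => ?_⟩
  obtain ⟨f, C, e1, e2, e3, e4⟩ := fA h hh
  obtain ⟨f', C', e1', e2', e3', e4'⟩ := fB h hh
  refine ⟨cmp f f', fun τ j => C' τ j + C τ j, i2 h f f' e1 e1', ?_, ?_, ?_⟩
  · intro τ acc
    show f τ (f' τ acc) = _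
    rw [e2, e2', add_assoc, H1Col.pk_add]
    refine congrArg (fun z => acc + z) (H1Col.pk_congr fun i _ => ?_)
    ring
  · intro τ j
    have := e3 τ j
    have := e3' τ j
    show C' τ j + C τ j ≤ 2 ^ (u + 1)
    rw [pow_succ]
    omega
  · intro τ j hlt hτ hj Y hY
    show _ ≤ C' τ j + C τ j
    by_cases hτl : τ ≤ l
    · have ht : τ ≤ (kv s * p2 - b) / p3 := by
        rw [hl] at hτl
        rcases le_max_iff.mp hτl with h5 | h5
        · omega
        · exact h5
      rw [bt_empty hs (fun v hv => (hY v hv).1) h3 (by omega) ht]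
      exact Nat.zero_le _
    · have hpow : (2 : ℕ) ^ (u + 1) = 2 * 2 ^ u := by rw [pow_succ, Nat.mul_comm]
      have hk : 14 + n + (u + 1) = 14 + n + u + 1 := by omega
      rw [hpow] at hY ⊢
      rw [hk] at hY ⊢
      rw [Nat.add_comm (C' τ j)]
      refine bt_split ?_ ?_
      · refine e4 τ j (by omega) hτ hj (fun v => Y (2 * v)) (fun v hv => ?_)
        obtain ⟨a1, a2⟩ := hY (2 * v) (by omega)
        refine ⟨a1, ?_⟩
        have h7 : 2 * v + 2 * 2 ^ u * (h + 2 ^ n * j) + x = 2 * (v + 2 ^ u * (h + 2 ^ n * j)) + x := by ring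
        rw [h7] at a2
        exact a2
      · refine e4' τ j (by omega) hτ hj (fun v => Y (2 * v + 1)) (fun v hv => ?_)
        obtain ⟨a1, a2⟩ := hY (2 * v + 1) (by omega)
        refine ⟨a1, ?_⟩
        have h7 : 2 * v + 1 + 2 * 2 ^ u * (h + 2 ^ n * j) + x =
            2 * (v + 2 ^ u * (h + 2 ^ n * j)) + (x + 1) := by ring
        rw [h7] at a2
        exact a2

private theorem lvs_succ (P G o g n s d x p2 p3 b lam : ℕ) :
    lvs P G o g (n + 1) s d x p2 p3 b lam =
      il (chd g (lvs P G o g n) s d x p2 p3 b (mxs lam (Nat.div (Nat.sub (Nat.mul (kv s) p2) b) p3)))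
        (chd g (lvs P G o g n) s d (x + 1) p2 p3 b (mxs lam (Nat.div (Nat.sub (Nat.mul (kv s) p2) b) p3))) := rfl

private theorem kvs_succ (P G o g n s d x p2 p3 b lam : ℕ) :
    kvs P G o g (n + 1) s d x p2 p3 b lam =
      zc (chd g (kvs P G o g n) s d x p2 p3 b (mxs lam (Nat.div (Nat.sub (Nat.mul (kv s) p2) b) p3)))
        (chd g (kvs P G o g n) s d (x + 1) p2 p3 b (mxs lam (Nat.div (Nat.sub (Nat.mul (kv s) p2) b) p3))) := rfl

private theorem lvs_gen {o P G : ℕ}
    (h0 : ∀ {s d x p2 p3 b lam : ℕ}, Node 8 s d x p2 p3 b →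
      LfOK o 0 0 s d x p2 p3 b lam (lvs P G o (gtab o 24) 0 s d x p2 p3 b lam))
    (n : ℕ) (hn : n ≤ 4) : ∀ {s d x p2 p3 b lam : ℕ},
    Node (8 - n) s d x p2 p3 b →
    LfOK o n 0 s d x p2 p3 b lam (lvs P G o (gtab o 24) n s d x p2 p3 b lam) := by
  induction n with
  | zero =>
      intro s d x p2 p3 b lam hN
      exact h0 hN
  | succ n ih =>
      intro s d x p2 p3 b lam hN
      have hi : 8 - n = 8 - (n + 1) + 1 := by omega
      have ih' : ∀ {s d x p2 p3 b lam : ℕ}, Node (8 - (n + 1) + 1) s d x p2 p3 b →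
          LfOK o n 0 s d x p2 p3 b lam (lvs P G o (gtab o 24) n s d x p2 p3 b lam) := by
        intro s d x p2 p3 b lam hN'
        rw [← hi] at hN'
        exact ih (by omega) hN'
      rw [lvs_succ]
      have hx := hN.hx
      exact step_il hN.hs hN.h3 (bt_mxs _ _)
        (chd_ok (i := 8 - (n + 1)) _ (by omega) hN.hs hN.hd (by omega) hN.h2 hN.h3 hN.hb ih')
        (chd_ok (i := 8 - (n + 1)) _ (by omega) hN.hs hN.hd (by omega) hN.h2 hN.h3 hN.hb ih')

private theorem kvs_gen {o P G : ℕ}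
    (h0 : ∀ {s d x p2 p3 b lam : ℕ}, Node 4 s d x p2 p3 b →
      LfOK o 4 0 s d x p2 p3 b lam (lvs P G o (gtab o 24) 4 s d x p2 p3 b lam))
    (u : ℕ) (hu : u ≤ 4) : ∀ {s d x p2 p3 b lam : ℕ},
    Node (4 - u) s d x p2 p3 b →
    LfOK o 4 u s d x p2 p3 b lam (kvs P G o (gtab o 24) u s d x p2 p3 b lam) := by
  induction u with
  | zero =>
      intro s d x p2 p3 b lam hN
      exact h0 hN
  | succ u ih =>
      intro s d x p2 p3 b lam hN
      have hi : 4 - u = 4 - (u + 1) + 1 := by omega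
      have ih' : ∀ {s d x p2 p3 b lam : ℕ}, Node (4 - (u + 1) + 1) s d x p2 p3 b →
          LfOK o 4 u s d x p2 p3 b lam (kvs P G o (gtab o 24) u s d x p2 p3 b lam) := by
        intro s d x p2 p3 b lam hN'
        rw [← hi] at hN'
        exact ih (by omega) hN'
      rw [kvs_succ]
      have hx := hN.hx
      exact step_zc hN.hs hN.h3 (bt_mxs _ _)
        (chd_ok (i := 4 - (u + 1)) _ (by omega) hN.hs hN.hd (by omega) hN.h2 hN.h3 hN.hb ih')
        (chd_ok (i := 4 - (u + 1)) _ (by omega) hN.hs hN.hd (by omega) hN.h2 hN.h3 hN.hb ih')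

theorem lvs_ok (h : T6OK) {o : ℕ} (n : ℕ) (hn : n ≤ 4) : ∀ {s d x p2 p3 b lam : ℕ},
    Node (8 - n) s d x p2 p3 b →
    LfOK o n 0 s d x p2 p3 b lam (lvs (pat 14 14) (Nat.mul 8388608 (pat 14 14)) o (gtab o 24) n s d x p2 p3 b lam) :=
  lvs_gen (fun hN => leaf_ok h hN) n hn

theorem kvs_ok (h : T6OK) {o : ℕ} (u : ℕ) (hu : u ≤ 4) : ∀ {s d x p2 p3 b lam : ℕ},
    Node (4 - u) s d x p2 p3 b →
    LfOK o 4 u s d x p2 p3 b lam (kvs (pat 14 14) (Nat.mul 8388608 (pat 14 14)) o (gtab o 24) u s d x p2 p3 b lam) :=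
  kvs_gen (fun hN => lvs_ok h 4 (le_refl 4) hN) u hu

/-- The root. -/
theorem root_ok (h : T6OK) (o : ℕ) :
    LfOK o 4 4 0 0 0 1 1 0 0 (kvs (pat 14 14) (Nat.mul 8388608 (pat 14 14)) o (gtab o 24) 4 0 0 0 1 1 0 0) :=
  kvs_ok h 4 (le_refl 4) ⟨by norm_num, le_refl 0, by norm_num, by norm_num, by norm_num, by norm_num⟩

end H86C
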