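import Pool.Agent.H86.C.BcInst

/-! # Module BcVal: the values `Vv` and the transport of thresholds

* `Vv_mod` : induction on `k` (`z ≡ z' mod 2^(k+1)` : same parity, halves congruent mod `2^k`, likewise `(3z+1)/2`).
* `Vv_bd` : `max` with `kv s ≥ 257`, remainders modulo `2^23`.
* `K_ge_Vv` : induction on `k`. `K ≥ m (kap ..) ≥ 2048 kv s` (`kv_le`). Even: `2 K ≥ 2048 * 2 Vv ≥ 2048 * (2 Vv % 2^23)`.
  Odd: `T x = (3x+1)/2`; `(K k (T x) - 524289)/al ≥ (2048 v - 524289)/al` and `2048 * phv v ≤ (2048 v - 524289)/al`: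
  `phv v ≤ (87380 v - 22412970)/131072` (real, `v ≥ 257` so that the natural subtraction is exact) and
  `2048 (87380 v - 22412970)/131072 * al ≤ 2048 v - 524289` (`nlinarith`/`linarith` after `unfold al`).
* `tr_even`, `tr_odd` : from `2 K k (x/2) ≤ K (k+1) x`, `(K k (T x) - 524289)/al ≤ K (k+1) x`; in the odd case
  `K k (T x) * 2 p2 ≤ 2 al p2 K (k+1) x + 1048578 p2 < 2 al * 2048 (p3 τ + b) + 1048578 p2`, `2 al = 3 + 2^(-29)`, and
  `2048 * 2^(-29) (p3 τ + b) ≤ 2048 p2` by `hq`; `2048 * 514 - 1048578 = 4094 ≥ 2048`.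
* `tr_stop` : `K ≥ 2048 kv s`. -/

namespace H86C

private theorem half_even {z z' k : ℕ} (h : z ≡ z' [MOD 2 ^ (k + 1)]) (hz : z % 2 = 0)
    (hz' : z' % 2 = 0) : z / 2 ≡ z' / 2 [MOD 2 ^ k] := by
  have h1 : 2 * (z / 2) ≡ 2 * (z' / 2) [MOD 2 * 2 ^ k] := by
    rw [show 2 * (z / 2) = z by omega, show 2 * (z' / 2) = z' by omega, ← pow_succ']
    exact h
  exact Nat.ModEq.mul_left_cancel' (by norm_num) h1

private theorem half_odd {z z' k : ℕ} (h : z ≡ z' [MOD 2 ^ (k + 1)]) (hz : z % 2 = 1)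
    (hz' : z' % 2 = 1) : (3 * z + 1) / 2 ≡ (3 * z' + 1) / 2 [MOD 2 ^ k] := by
  have h1 : 2 * ((3 * z + 1) / 2) ≡ 2 * ((3 * z' + 1) / 2) [MOD 2 * 2 ^ k] := by
    rw [show 2 * ((3 * z + 1) / 2) = 3 * z + 1 by omega,
      show 2 * ((3 * z' + 1) / 2) = 3 * z' + 1 by omega, ← pow_succ']
    exact (h.mul_left 3).add_right 1
  exact Nat.ModEq.mul_left_cancel' (by norm_num) h1

private theorem par {z z' k : ℕ} (h : z ≡ z' [MOD 2 ^ (k + 1)]) : z % 2 = z' % 2 :=
  h.of_dvd (dvd_pow_self 2 (Nat.succ_ne_zero k))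

theorem Vv_mod {k s z z' : ℕ} (h : z ≡ z' [MOD 2 ^ k]) : Vv k s z = Vv k s z' := by
  induction k generalizing s z z' with
  | zero => rfl
  | succ k ih =>
      have hp := par h
      rw [Vv, Vv]
      rcases Nat.mod_two_eq_zero_or_one z with e | e
      · rw [if_pos e, if_pos (hp ▸ e), ih (half_even h e (hp ▸ e))]
      · rw [if_neg (by omega), if_neg (by omega), ih (half_odd h e (hp ▸ e))]

theorem Vv_bd {k s z : ℕ} (hs : s < 243) : 257 ≤ Vv k s z ∧ Vv k s z < 8388608 := by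
  have hk := kv_bd s hs
  cases k with
  | zero =>
      rw [Vv]
      omega
  | succ k =>
      rw [Vv]
      refine ⟨le_trans hk.1 (le_max_left _ _), max_lt (by omega) ?_⟩
      split_ifs
      · exact Nat.mod_lt _ (by norm_num)
      · unfold phv
        exact Nat.mod_lt _ (by norm_num)

private theorem K_step_even {k x : ℕ} (hx : x % 2 = 0) : 2 * K k (x / 2) ≤ K (k + 1) x := by
  rw [K, if_pos hx]
  exact le_max_right _ _

private theorem K_step_odd {k x : ℕ} (hx : x % 2 = 1) :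
    (K k (H1Col.T x) - 524289) / al ≤ K (k + 1) x := by
  rw [K, if_neg (by omega)]
  exact le_max_right _ _

private theorem kv_real {k s x : ℕ} (hs : s < 243) (h : Inst s x) : 2048 * (kv s : ℝ) ≤ K k x := by
  have h1 : ((2048 * kv s : ℕ) : ℝ) ≤ (m (kap (x % 243)) : ℝ) := by exact_mod_cast kv_le hs h
  push_cast at h1
  exact le_trans h1 (K_ge k x)

private theorem phv_real {v : ℕ} (h : 257 ≤ v) : (phv v : ℝ) ≤ (87380 * (v : ℝ) - 22412970) / 131072 := by
  have h1 : phv v ≤ (87380 * v - 22412970) / 131072 := by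
    unfold phv
    exact Nat.mod_le _ _
  have h2 : phv v * 131072 ≤ 87380 * v - 22412970 :=
    (Nat.le_div_iff_mul_le (by norm_num)).mp h1
  have h0 : 22412970 ≤ 87380 * v :=
    le_trans (by norm_num : 22412970 ≤ 87380 * 257) (Nat.mul_le_mul_left _ h)
  have h3 : phv v * 131072 + 22412970 ≤ 87380 * v := Nat.add_le_of_le_sub h0 h2
  have h4 : ((phv v : ℝ)) * 131072 + 22412970 ≤ 87380 * (v : ℝ) := by exact_mod_cast h3
  rw [le_div_iff₀ (by norm_num)]
  linarith

theorem K_ge_Vv {k s x : ℕ} (hs : s < 243) (h : Inst s x) : 2048 * (Vv k s x : ℝ) ≤ K k x := by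
  induction k generalizing s x with
  | zero =>
      have h1 := kv_real (k := 0) hs h
      rw [Vv]
      exact h1
  | succ k ih =>
      have h0 := kv_real (k := k + 1) hs h
      rw [Vv, Nat.cast_max, mul_max_of_nonneg _ _ (by norm_num)]
      apply max_le h0
      rcases Nat.mod_two_eq_zero_or_one x with e | e
      · rw [if_pos e]
        have h1 := ih (en_lt s hs) (inst_even hs h e)
        have h2 := K_step_even (k := k) e
        have h3 : (((2 * Vv k (en s) (x / 2)) % 8388608 : ℕ) : ℝ) ≤ ((2 * Vv k (en s) (x / 2) : ℕ) : ℝ) := by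
          exact_mod_cast Nat.mod_le _ _
        push_cast at h3 ⊢
        linarith
      · rw [if_neg (by omega)]
        have hT : (3 * x + 1) / 2 = H1Col.T x := by
          have := H1Col.two_T_odd e
          omega
        rw [hT]
        have h1 := ih (on_lt s hs) (inst_odd hs h e)
        have h2 := K_step_odd (k := k) e
        have h3 := phv_real (Vv_bd (k := k) (z := H1Col.T x) (on_lt s hs)).1
        refine le_trans ?_ h2
        rw [le_div_iff₀ al_pos]
        have h4 : (0 : ℝ) ≤ (Vv k (on s) (H1Col.T x) : ℝ) := Nat.cast_nonneg _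
        have h5 : 2048 * (phv (Vv k (on s) (H1Col.T x)) : ℝ) * al ≤
            2048 * ((87380 * (Vv k (on s) (H1Col.T x) : ℝ) - 22412970) / 131072) * al := by
          apply mul_le_mul_of_nonneg_right _ al_pos.le
          linarith
        refine le_trans h5 ?_
        unfold al
        linarith

theorem tr_even {k x p2 p3 b τ : ℕ} (hx : x % 2 = 0)
    (h : K (k + 1) x * p2 < 2048 * ((p3 : ℝ) * τ + b)) :
    K k (x / 2) * (2 * p2 : ℕ) < 2048 * ((p3 : ℝ) * τ + b) := by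
  have h1 := mul_le_mul_of_nonneg_right (K_step_even (k := k) hx) (Nat.cast_nonneg (α := ℝ) p2)
  push_cast
  linarith

theorem tr_odd {k x p2 p3 b τ : ℕ} (hx : x % 2 = 1) (hq : p3 * τ + b ≤ p2 * 2 ^ 29)
    (h : K (k + 1) x * p2 < 2048 * ((p3 : ℝ) * τ + b)) :
    K k (H1Col.T x) * (2 * p2 : ℕ) < 2048 * (((3 * p3 : ℕ) : ℝ) * τ + (3 * b + 514 * p2 : ℕ)) := by
  have h1 := K_step_odd (k := k) hx
  rw [div_le_iff₀ al_pos] at h1
  have hp : (0 : ℝ) ≤ (p2 : ℝ) := Nat.cast_nonneg _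
  have h2 := mul_le_mul_of_nonneg_right h1 hp
  have h3 : K (k + 1) x * p2 * al < 2048 * ((p3 : ℝ) * τ + b) * al :=
    mul_lt_mul_of_pos_right h al_pos
  have hq' : (p3 : ℝ) * τ + b ≤ p2 * 536870912 := by
    have : ((p3 * τ + b : ℕ) : ℝ) ≤ ((p2 * 2 ^ 29 : ℕ) : ℝ) := by exact_mod_cast hq
    push_cast at this
    linarith
  have h4 : K (k + 1) x * al * p2 = K (k + 1) x * p2 * al := by ring
  push_cast
  rw [h4] at h2
  generalize hQ : (p3 : ℝ) * τ + b = Q at *
  have h5 : 2048 * (3 * (p3 : ℝ) * τ + (3 * b + 514 * p2)) = 6144 * Q + 1052672 * p2 := by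
    rw [← hQ]; ring
  rw [h5]
  unfold al at h2 h3
  generalize hY : K (k + 1) x * (p2 : ℝ) * (1610612737 / 1073741824) = Y at *
  linarith

/-- Thresholds up to `(kv s * p2 - b) / p3` are not reached. -/
theorem tr_stop {k s x p2 p3 b τ : ℕ} (hs : s < 243) (h : Inst s x) (h3 : 0 < p3) (hτ : 0 < τ)
    (ht : τ ≤ (kv s * p2 - b) / p3) : ¬ K k x * p2 < 2048 * ((p3 : ℝ) * τ + b) := by
  rw [Nat.le_div_iff_mul_le h3] at ht
  have hpos : 0 < τ * p3 := Nat.mul_pos hτ h3
  have h4 : p3 * τ + b ≤ kv s * p2 := by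
    rw [Nat.mul_comm p3 τ]
    omega
  have h5 : (p3 : ℝ) * τ + b ≤ kv s * p2 := by exact_mod_cast h4
  have h6 := mul_le_mul_of_nonneg_right (kv_real (k := k) hs h) (Nat.cast_nonneg (α := ℝ) p2)
  intro hc
  linarith

end H86C
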