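import Pool.Agent.H86.C.PotA

/-! # Module Cnt: the price in terms of levels

Model: `Pool/Agent/H1/Col/Block.lean` (`layer_cake`, `Wt_nonneg`, `Aur_le`, `T_mod27`, `wp_le`).

* `wp_even` : for even `x` prime to 3, `r = x mod 243`: `Au x = m (kap r) ≤ m (kap (T0 r) + 400) = 2 m (kap (T0 r))
  ≤ 2 K (..) (x/2) = De`, because `(x/2) mod 243 = T0 r` (`kap_T0`, `m_mono`, `m_add`, `K_ge`); so the `max` is `0`.
* `wp_odd` : for odd `x` prime to 3 with `r = x mod 243`: `Au x = Ar r`, `De n x = K n (T x)/al`,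
  `(T x) mod 243 = T1 r`, `K n (T x) ≥ m (kap (T1 r))` so `g (kap (T1 r)) ≤ De`; `layer_cake` (copy it) with the
  monotone `g`, from `s = kap (T1 r)` to `2436`, and `min (Ar r) (g 2436) = Ar r` (`A_top` divided by
  `3 * 2^30 * al`...: `g 2436 = m 2436 * 2^30 / 1610612737`). The condition `De < g (i+1)` is
  `K n (T x) < m (i+1)`. The depth `n` may be any number `≤ nx x - 1` (`K_mono`). -/

namespace H86C

open Finset

private theorem cnt_layer {g : ℕ → ℝ} (hg : Monotone g) {A X : ℝ} {s : ℕ} (hs : g s ≤ X) :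
    ∀ t, s ≤ t → min A (g t) - X ≤
      ∑ i ∈ Ico s t, (min A (g (i + 1)) - min A (g i)) * (if X < g (i + 1) then 1 else 0) := by
  intro t ht
  induction t, ht using Nat.le_induction with
  | base =>
      simp only [Ico_self, sum_empty]
      have := min_le_right A (g s)
      linarith
  | succ t ht ih =>
      rw [sum_Ico_succ_top ht]
      have hnn : ∀ i, 0 ≤ (min A (g (i + 1)) - min A (g i)) := by
        intro i
        have := min_le_min_left A (hg (Nat.le_succ i))
        simp only [Nat.succ_eq_add_one] at this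
        linarith
      by_cases h : X < g (t + 1)
      · rw [if_pos h]; linarith
      · rw [if_neg h]
        have h1 := min_le_right A (g (t + 1))
        have h2 : 0 ≤ ∑ i ∈ Ico s t, (min A (g (i + 1)) - min A (g i)) *
            (if X < g (i + 1) then (1 : ℝ) else 0) := by
          apply sum_nonneg
          intro i _
          apply mul_nonneg (hnn i)
          split_ifs <;> norm_num
        linarith

theorem g_mono : Monotone g := by
  intro i j h
  have h1 : (m i : ℝ) ≤ m j := by exact_mod_cast m_mono h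
  unfold g
  exact div_le_div_of_nonneg_right h1 al_pos.le

theorem Wt_nonneg (r i : ℕ) : 0 ≤ Wt r i := by
  have := min_le_min_left (Ar r) (g_mono (Nat.le_succ i))
  simp only [Nat.succ_eq_add_one] at this
  unfold Wt
  linarith

theorem T_mod_odd {x : ℕ} (h : x % 2 = 1) : H1Col.T x % 243 = T1 (x % 243) := by
  have h1 := H1Col.two_T_odd h
  unfold T1
  omega

theorem T_mod_even {x : ℕ} (h : x % 2 = 0) : H1Col.T x % 243 = T0 (x % 243) := by
  have h1 := H1Col.two_T_even h
  unfold T0
  omega

theorem wp_nonneg (x : ℕ) : 0 ≤ wp x := le_max_left _ _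

theorem wp_even {x : ℕ} (hu : x % 3 ≠ 0) (h : x % 2 = 0) : wp x = 0 := by
  have hr : x % 243 < 243 := Nat.mod_lt _ (by norm_num)
  have hru : (x % 243) % 3 ≠ 0 := by omega
  have h1 : m (kap (x % 243)) ≤ 2 * m (kap (T0 (x % 243))) := by
    rw [← m_add]
    exact m_mono (kap_T0 _ hr hru)
  have h2 := K_ge (nx x - 1) (x / 2)
  have h3 : (x / 2) % 243 = T0 (x % 243) := by
    rw [← T_mod_even h, H1Col.T_even h]
  rw [h3] at h2
  have h4 : (m (kap (x % 243)) : ℝ) ≤ 2 * m (kap (T0 (x % 243))) := by exact_mod_cast h1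
  unfold wp
  apply max_eq_left
  unfold Au De
  rw [if_pos h, if_pos h]
  linarith

theorem wp_odd {x n : ℕ} (hu : x % 3 ≠ 0) (h : x % 2 = 1) (hn : n ≤ nx x - 1) :
    wp x ≤ ∑ i ∈ Ico (kap (T1 (x % 243))) 2436,
      Wt (x % 243) i * (if K n (H1Col.T x) < m (i + 1) then 1 else 0) := by
  have hr : x % 243 < 243 := Nat.mod_lt _ (by norm_num)
  have hru : (x % 243) % 3 ≠ 0 := by omega
  have h2 : ¬ x % 2 = 0 := by omega
  have hA : Au x = Ar (x % 243) := by
    unfold Au Ar
    rw [if_neg h2]
  have hD : K n (H1Col.T x) / al ≤ De (nx x - 1) x := by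
    unfold De
    rw [if_neg h2]
    exact div_le_div_of_nonneg_right (K_mono hn _) al_pos.le
  have hKge := K_ge n (H1Col.T x)
  rw [T_mod_odd h] at hKge
  have hs : g (kap (T1 (x % 243))) ≤ K n (H1Col.T x) / al := by
    unfold g
    exact div_le_div_of_nonneg_right hKge al_pos.le
  have hkb := (kap_bd (T1 (x % 243)) (T1_lt _) (T1_unit _)).2
  have hlc := cnt_layer g_mono (A := Ar (x % 243)) hs 2436 (by omega)
  have htop : Ar (x % 243) ≤ g 2436 := by
    have h3 := A_top (x % 243) hr hru
    have h4 : (1610612737 : ℝ) * (3 * m (kap (x % 243)) + 1048576) ≤ 3221225472 * m 2436 := by exact_mod_cast h3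
    unfold Ar g
    rw [le_div_iff₀ al_pos]
    unfold al
    linarith
  rw [min_eq_left htop] at hlc
  have hcond : ∀ i, (K n (H1Col.T x) / al < g (i + 1)) ↔ K n (H1Col.T x) < m (i + 1) := by
    intro i
    unfold g
    exact div_lt_div_iff_of_pos_right al_pos
  unfold wp
  rw [hA]
  apply max_le
  · apply sum_nonneg
    intro i _
    apply mul_nonneg (Wt_nonneg _ _)
    split_ifs <;> norm_num
  · refine le_trans (by linarith) (le_trans hlc (le_of_eq ?_))
    apply sum_congr rfl
    intro i _
    unfold Wt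
    congr 1
    by_cases h5 : K n (H1Col.T x) / al < g (i + 1)
    · rw [if_pos h5, if_pos ((hcond i).mp h5)]
    · rw [if_neg h5, if_neg (fun hc => h5 ((hcond i).mpr hc))]

end H86C
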