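import Pool.Agent.H86.C.Cnt

/-! # Module CostS: the cost as an integer sum

`rk k = 122^k mod 243`, `k < 162`, runs over the 162 residues prime to 3 (each once). With
`AN = 1610612737`, `3 AN Wt r i = Wi (kap r) i` (`Wi` of `DpD.lean`, natural subtraction, fine since
`min (A) (G (i+1)) ≥ min A (G i)`): `3 AN Ar r = AN (3 m (kap r) + 1048576)`, `3 AN g i = 3221225472 m i`.

Kernel checks (over `k < 162`; `allB`): `nth KL k = kap (rk k)`; `nth KL (nth JX (k % 54)) = kap (T1 (rk k))`;
`kap (T1 (rk k)) + nth CT k ≤ 2436`; `AN (3 m (kap (rk k)) + 1048576) ≤ 3221225472 * m (kap (T1 (rk k)) + nth CT k)`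
(so `Wt` vanishes from there on: both minima are `Ar`). -/

namespace H86C

open Finset

def rk (k : ℕ) : ℕ := 122 ^ k % 243

private theorem kmin_eq (a b : ℕ) : kmin a b = min a b := by
  unfold kmin
  by_cases h : a ≤ b
  · rw [Nat.ble_eq.mpr h, min_eq_left h]
  · have h' : Nat.ble a b = false := by
      rw [Bool.eq_false_iff]
      intro hh
      exact h (Nat.ble_eq.mp hh)
    rw [h', min_eq_right (by omega)]

private theorem scale_Ar (r : ℕ) :
    3 * 1610612737 * Ar r = ((1610612737 * (3 * m (kap r) + 1048576) : ℕ) : ℝ) := by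
  unfold Ar
  push_cast
  ring

private theorem scale_g (i : ℕ) :
    3 * 1610612737 * g i = ((3221225472 * m i : ℕ) : ℝ) := by
  unfold g al
  push_cast
  field_simp
  ring

private theorem scale_min (r i : ℕ) :
    3 * 1610612737 * min (Ar r) (g i) =
      ((min (1610612737 * (3 * m (kap r) + 1048576)) (3221225472 * m i) : ℕ) : ℝ) := by
  rw [Nat.cast_min, ← scale_Ar, ← scale_g, mul_min_of_nonneg _ _ (by norm_num)]

theorem Wi_eq (r i : ℕ) : (Wi (kap r) i : ℝ) = 3 * 1610612737 * Wt r i := by
  have hle : min (1610612737 * (3 * m (kap r) + 1048576)) (3221225472 * m i) ≤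
      min (1610612737 * (3 * m (kap r) + 1048576)) (3221225472 * m (i + 1)) :=
    min_le_min le_rfl (Nat.mul_le_mul_left _ (m_mono (Nat.le_succ i)))
  have e : Wi (kap r) i = min (1610612737 * (3 * m (kap r) + 1048576)) (3221225472 * m (i + 1)) -
      min (1610612737 * (3 * m (kap r) + 1048576)) (3221225472 * m i) := by
    rw [← kmin_eq, ← kmin_eq]
    rfl
  rw [e, Nat.cast_sub hle, ← scale_min, ← scale_min]
  unfold Wt
  ring

theorem rk_unit {k : ℕ} (h : k < 162) : rk k < 243 ∧ rk k % 3 ≠ 0 := by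
  have hk : allB (fun k => Nat.ble (rk k + 1) 243 && Nat.ble 1 (rk k % 3)) 162 = true := by
    decide +kernel
  have := allB_spec hk k h
  rw [Bool.and_eq_true] at this
  have h1 := Nat.ble_eq.mp this.1
  have h2 := Nat.ble_eq.mp this.2
  constructor <;> omega

private theorem rk_ne : ∀ k < 162, ∀ l < k, rk l ≠ rk k := by
  have hk : allB (fun k => allB (fun l => !Nat.beq (rk l) (rk k)) k) 162 = true := by
    decide +kernel
  intro k h l hl e
  have := allB_spec (allB_spec hk k h) l hl
  rw [e] at this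
  have h2 : Nat.beq (rk k) (rk k) = true := Nat.beq_refl _
  rw [h2] at this
  exact absurd this (by decide)

private theorem rk_inj : ∀ k ∈ range 162, ∀ l ∈ range 162, rk k = rk l → k = l := by
  intro k hk l hl e
  rw [mem_range] at hk hl
  rcases lt_trichotomy k l with h | h | h
  · exact absurd e (rk_ne l hl k h)
  · exact h
  · exact absurd e.symm (rk_ne k hk l h)

private theorem rk_image :
    (range 162).image rk = (range 243).filter (fun r => r % 3 ≠ 0) := by
  apply eq_of_subset_of_card_le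
  · intro x hx
    rw [mem_image] at hx
    obtain ⟨k, hk, rfl⟩ := hx
    rw [mem_range] at hk
    rw [mem_filter, mem_range]
    exact rk_unit hk
  · rw [card_image_of_injOn (fun k hk l hl => rk_inj k (by simpa using hk) l (by simpa using hl)),
      card_range]
    have : ((range 243).filter (fun r => r % 3 ≠ 0)).card = 162 := by decide +kernel
    exact this.le

private theorem KL_ok : ∀ k < 162, nth KL k = kap (rk k) := by
  have hk : allB (fun k => Nat.beq (nth KL k) (kap (rk k))) 162 = true := by decide +kernel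
  intro k h
  exact Nat.eq_of_beq_eq_true (allB_spec hk k h)

private theorem JX_ok : ∀ k < 162, nth KL (nth JX (k % 54)) = kap (T1 (rk k)) := by
  have hk : allB (fun k => Nat.beq (nth KL (nth JX (k % 54))) (kap (T1 (rk k)))) 162 = true := by
    decide +kernel
  intro k h
  exact Nat.eq_of_beq_eq_true (allB_spec hk k h)

private theorem CT_ok : ∀ k < 162, kap (T1 (rk k)) + nth CT k ≤ 2436 := by
  have hk : allB (fun k => Nat.ble (kap (T1 (rk k)) + nth CT k) 2436) 162 = true := by
    decide +kernel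
  intro k h
  exact Nat.ble_eq.mp (allB_spec hk k h)

private theorem CT_top : ∀ k < 162, 1610612737 * (3 * m (kap (rk k)) + 1048576) ≤
    3221225472 * m (kap (T1 (rk k)) + nth CT k) := by
  have hk : allB (fun k => Nat.ble (1610612737 * (3 * m (kap (rk k)) + 1048576))
      (3221225472 * m (kap (T1 (rk k)) + nth CT k))) 162 = true := by
    decide +kernel
  intro k h
  exact Nat.ble_eq.mp (allB_spec hk k h)

private theorem Wt_zero {k : ℕ} (hk : k < 162) {i : ℕ} (hi : kap (T1 (rk k)) + nth CT k ≤ i) :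
    Wt (rk k) i = 0 := by
  have h0 : ∀ j, kap (T1 (rk k)) + nth CT k ≤ j → Ar (rk k) ≤ g j := by
    intro j hj
    have h1 := (CT_top k hk).trans (Nat.mul_le_mul_left _ (m_mono hj))
    have h2 : ((1610612737 * (3 * m (kap (rk k)) + 1048576) : ℕ) : ℝ) ≤
        ((3221225472 * m j : ℕ) : ℝ) := by exact_mod_cast h1
    rw [← scale_Ar, ← scale_g] at h2
    linarith
  unfold Wt
  rw [min_eq_left (h0 i hi), min_eq_left (h0 (i + 1) (by omega)), sub_self]

private theorem inner_eq (b : ℕ → ℕ → ℝ) {k : ℕ} (hk : k < 162) :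
    3 * 1610612737 * ∑ i ∈ Ico (kap (T1 (rk k))) 2436, Wt (rk k) i * b (T1 (rk k)) (i + 1) =
      ∑ i ∈ range (nth CT k),
        (Wi (nth KL k) (nth KL (nth JX (k % 54)) + i) : ℝ) *
          b (T1 (rk k)) (nth KL (nth JX (k % 54)) + i + 1) := by
  have hc := CT_ok k hk
  rw [KL_ok k hk, JX_ok k hk]
  have hs : ∑ i ∈ Ico (kap (T1 (rk k))) 2436, Wt (rk k) i * b (T1 (rk k)) (i + 1) =
      ∑ i ∈ Ico (kap (T1 (rk k))) (kap (T1 (rk k)) + nth CT k),
        Wt (rk k) i * b (T1 (rk k)) (i + 1) := by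
    symm
    apply sum_subset
    · intro x hx
      rw [mem_Ico] at hx ⊢
      omega
    · intro x hx hx'
      rw [mem_Ico] at hx hx'
      rw [Wt_zero hk (by omega), zero_mul]
  rw [hs, sum_Ico_eq_sum_range, Nat.add_sub_cancel_left, mul_sum]
  apply sum_congr rfl
  intro i _
  rw [Wi_eq]
  ring

theorem Cst_eq (b : ℕ → ℕ → ℝ) : 3 * 1610612737 * Cst b =
    ∑ k ∈ range 162, ∑ i ∈ range (nth CT k),
      (Wi (nth KL k) (nth KL (nth JX (k % 54)) + i) : ℝ) *
        b (T1 (rk k)) (nth KL (nth JX (k % 54)) + i + 1) := by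
  unfold Cst
  rw [← rk_image, sum_image (fun k hk l hl => rk_inj k (by simpa using hk) l (by simpa using hl)),
    mul_sum]
  apply sum_congr rfl
  intro k hk
  exact inner_eq b (mem_range.mp hk)

/-- Monotonicity of the cost. -/
theorem Cst_le {b b' : ℕ → ℕ → ℝ}
    (h : ∀ q < 243, q % 3 ≠ 0 → ∀ i, 953 ≤ i → i ≤ 2436 → b q i ≤ b' q i) : Cst b ≤ Cst b' := by
  unfold Cst
  apply sum_le_sum
  intro r _
  apply sum_le_sum
  intro i hi
  rw [mem_Ico] at hi
  have h1 := (kap_bd (T1 r) (T1_lt r) (T1_unit r)).1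
  exact mul_le_mul_of_nonneg_left
    (h (T1 r) (T1_lt r) (T1_unit r) (i + 1) (by omega) (by omega)) (Wt_nonneg r i)

end H86C
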