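import Pool.Agent.H86.C.PotA

/-! # Module DRec: the recursion for the plain counts

COPY `DE`, `DO`, `DE_le`, `DO_le`, `D_zero_le`, `D_succ_le` of `Pool/Agent/H1/Col/Count.lean`
(27 becomes 243, `14 r` becomes `122 r`, 147 becomes 400, `338` becomes `952/953`). -/

namespace H86C

open Finset
open scoped Classical

/-- Even members of the class. -/
noncomputable def DE (n r i : ℕ) : ℕ :=
  ((range (243 * 2 ^ (n + 1))).filter (fun x => x % 243 = r ∧ x % 2 = 0 ∧ K n (H1Col.T x) < m i)).card

/-- Odd members of the class. -/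
noncomputable def DO (n r i : ℕ) : ℕ :=
  ((range (243 * 2 ^ (n + 1))).filter (fun x => x % 243 = r ∧ x % 2 = 1 ∧ K n (H1Col.T x) < m i)).card

theorem DE_le (n r i : ℕ) : DE n r i ≤ D n (T0 r) i := by
  unfold DE D
  apply card_le_card_of_injOn (fun x => x / 2)
  · intro x hx
    simp only [coe_filter, mem_range, Set.mem_setOf_eq] at hx ⊢
    obtain ⟨h1, h2, h3, h4⟩ := hx
    rw [pow_succ] at h1
    refine ⟨by omega, ?_, ?_⟩
    · unfold T0; omega
    · rw [H1Col.T_even h3] at h4; exact h4
  · intro x hx y hy hxy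
    simp only [coe_filter, mem_range, Set.mem_setOf_eq] at hx hy hxy
    omega

theorem DO_le (n r i : ℕ) : DO n r i ≤ D n (T1 r) i := by
  unfold DO D
  apply card_le_card_of_injOn (fun x => (H1Col.T x) % (243 * 2 ^ n))
  · intro x hx
    simp only [coe_filter, mem_range, Set.mem_setOf_eq] at hx ⊢
    obtain ⟨h1, h2, h3, h4⟩ := hx
    refine ⟨Nat.mod_lt _ (by positivity), ?_, ?_⟩
    · rw [Nat.mod_mul_right_mod]
      have := H1Col.two_T_odd h3
      unfold T1
      omega
    · rw [K_period (Nat.mod_modEq (H1Col.T x) (243 * 2 ^ n))]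
      exact h4
  · intro x hx y hy hxy
    simp only [coe_filter, mem_range, Set.mem_setOf_eq] at hx hy hxy
    obtain ⟨h1, h2, h3, h4⟩ := hx
    obtain ⟨g1, g2, g3, g4⟩ := hy
    have e1 : H1Col.T x ≡ H1Col.T y [MOD 243 * 2 ^ n] := hxy
    have e2 : H1Col.T x ≡ H1Col.T y [MOD 2 ^ n] := e1.of_mul_left 243
    have e3 : 2 * H1Col.T x ≡ 2 * H1Col.T y [MOD 2 * 2 ^ n] := e2.mul_left' 2
    rw [H1Col.two_T_odd h3, H1Col.two_T_odd g3] at e3
    have e4 : 3 * x ≡ 3 * y [MOD 2 * 2 ^ n] := Nat.ModEq.add_right_cancel' 1 e3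
    have e5 : x ≡ y [MOD 2 * 2 ^ n] := by
      apply Nat.ModEq.cancel_left_of_coprime _ e4
      have : Nat.Coprime (2 * 2 ^ n) 3 := by
        rw [← pow_succ']
        exact Nat.Coprime.pow_left _ (by norm_num)
      exact this
    have e6 : x ≡ y [MOD 243] := by
      show x % 243 = y % 243
      rw [h2, g2]
    have e7 : x ≡ y [MOD 243 * (2 * 2 ^ n)] := by
      apply (Nat.modEq_and_modEq_iff_modEq_mul ?_).mp ⟨e6, e5⟩
      rw [← pow_succ']
      exact Nat.Coprime.pow_right _ (by norm_num)
    rw [← pow_succ'] at e7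
    have e8 : x % (243 * 2 ^ (n + 1)) = y % (243 * 2 ^ (n + 1)) := e7
    rwa [Nat.mod_eq_of_lt h1, Nat.mod_eq_of_lt g1] at e8

theorem D_zero_le {r i : ℕ} : D 0 r i ≤ if kap r < i then 1 else 0 := by
  unfold D
  split_ifs with h
  · apply card_le_one.mpr
    intro x hx y hy
    simp only [mem_filter, mem_range] at hx hy
    omega
  · rw [Nat.le_zero, card_eq_zero, filter_eq_empty_iff]
    intro x _ hc
    obtain ⟨h1, h2⟩ := hc
    have : (m i : ℝ) ≤ m (kap r) := by exact_mod_cast m_mono (by omega)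
    change (m (kap (x % 243)) : ℝ) < m i at h2
    rw [h1] at h2
    linarith

theorem D_succ_le {n r i : ℕ} (hr : r < 243) (hu : r % 3 ≠ 0) :
    D (n + 1) r i ≤ if kap r < i then D n (T0 r) (i - 400) + D n (T1 r) (J i) else 0 := by
  split_ifs with h
  · have hk := (kap_bd r hr hu).1
    refine le_trans ?_ (Nat.add_le_add (DE_le n r (i - 400)) (DO_le n r (J i)))
    unfold D DE DO
    refine le_trans (card_le_card ?_) (card_union_le _ _)
    intro x hx
    simp only [mem_filter, mem_range, mem_union] at hx ⊢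
    obtain ⟨h1, h2, h3⟩ := hx
    have h4 := lt_of_le_of_lt (le_max_right (m (kap (x % 243)) : ℝ)
      (if x % 2 = 0 then 2 * K n (x / 2) else (K n (H1Col.T x) - 524289) / al)) h3
    rcases Nat.mod_two_eq_zero_or_one x with e | e
    · left
      refine ⟨h1, h2, e, ?_⟩
      rw [if_pos e, ← H1Col.T_even e] at h4
      have h5 : m i = 2 * m (i - 400) := by
        conv_lhs => rw [show i = (i - 400) + 400 by omega]
        rw [m_add]
      rw [h5] at h4
      push_cast at h4
      linarith
    · right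
      refine ⟨h1, h2, e, ?_⟩
      rw [if_neg (by omega), div_lt_iff₀ al_pos] at h4
      have h5 := J_ok i (by omega)
      have h6 : (1610612737 : ℝ) * m i + 524289 * 1073741824 ≤ 1073741824 * m (J i) := by
        exact_mod_cast h5
      unfold al at h4
      linarith
  · unfold D
    rw [Nat.le_zero, card_eq_zero, filter_eq_empty_iff]
    intro x _ hc
    obtain ⟨h1, h2⟩ := hc
    have : (m i : ℝ) ≤ m (kap r) := by exact_mod_cast m_mono (by omega)
    have h3 := K_ge (n + 1) x
    rw [h1] at h3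
    linarith

end H86C
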