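import Pool.Agent.H86.C.DRec

/-! # Module DVD: the plain counts are bounded by the recursion `VD`

Induction on `n` with `D_zero_le`, `D_succ_le`. `kd (r mod 27) ≤ kap r` for `r < 243` prime to 3 (kernel or
`decide`; `kd` is a list lookup), so `i ≤ kd (r mod 27)` gives count zero. `T0 r mod 27 = 14 (r mod 27) mod 27`,
`T1 r mod 27 = 14 (3 (r mod 27) + 1) mod 27` (omega). For `i ≥ 10400` the trivial bound `D n r i ≤ 2^n`
(`D_le_pow` in `Pool/Agent/H1/Col/DP.lean`). Floors: `u + v ≤ 2 ((u+v)/2) + 1`. -/

namespace H86C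

private def dvChk (r : ℕ) : Bool := or (Nat.beq (Nat.mod r 3) 0) (Nat.ble (kd (Nat.mod r 27)) (kap r))

private theorem dvChk_all : allB dvChk 243 = true := by decide +kernel

private theorem kd_le {r : ℕ} (hr : r < 243) (hu : r % 3 ≠ 0) : kd (r % 27) ≤ kap r := by
  have h := allB_spec dvChk_all r hr
  unfold dvChk at h
  rw [Bool.or_eq_true] at h
  rcases h with h | h
  · exact absurd (Nat.eq_of_beq_eq_true h) hu
  · exact Nat.le_of_ble_eq_true h

private theorem dv_pow (n : ℕ) : ∀ r < 243, r % 3 ≠ 0 → ∀ i, D n r i ≤ 2 ^ n := by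
  induction n with
  | zero =>
    intro r _ _ i
    have h := D_zero_le (r := r) (i := i)
    rw [pow_zero]
    split_ifs at h with h1
    · exact h
    · omega
  | succ n ih =>
    intro r hr hu i
    have h := D_succ_le (n := n) (i := i) hr hu
    have h1 := ih (T0 r) (T0_lt r) (T0_unit hu) (i - 400)
    have h2 := ih (T1 r) (T1_lt r) (T1_unit r) (J i)
    rw [pow_succ]
    split_ifs at h with h3
    · omega
    · omega

theorem D_le_VD (n : ℕ) : ∀ r < 243, r % 3 ≠ 0 → ∀ i,
    D n r i * 1073741824 ≤ 2 ^ n * (VD n (r % 27) i + n) := by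
  induction n with
  | zero =>
    intro r hr hu i
    have h := D_zero_le (r := r) (i := i)
    have hk := kd_le hr hu
    rw [pow_zero, one_mul, add_zero]
    unfold VD
    split_ifs at h ⊢ with h1 h2 h3
    · omega
    · omega
    · omega
    · omega
    · omega
    · omega
  | succ n ih =>
    intro r hr hu i
    have hk := kd_le hr hu
    have hp := dv_pow (n + 1) r hr hu i
    have h := D_succ_le (n := n) (i := i) hr hu
    have h1 := ih (T0 r) (T0_lt r) (T0_unit hu) (i - 400)
    have h2 := ih (T1 r) (T1_lt r) (T1_unit r) (J i)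
    have e0 : T0 r % 27 = (14 * (r % 27)) % 27 := by unfold T0; omega
    have e1 : T1 r % 27 = (14 * (3 * (r % 27) + 1)) % 27 := by unfold T1; omega
    rw [e0] at h1
    rw [e1] at h2
    have hV : VD (n + 1) (r % 27) i = if 10400 ≤ i then 1073741824 else if i ≤ kd (r % 27) then 0 else
      (VD n ((14 * (r % 27)) % 27) (i - 400) + VD n ((14 * (3 * (r % 27) + 1)) % 27) (J i)) / 2 := rfl
    rw [hV]
    by_cases c1 : 10400 ≤ i
    · rw [if_pos c1]
      calc D (n + 1) r i * 1073741824 ≤ 2 ^ (n + 1) * 1073741824 := Nat.mul_le_mul_right _ hp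
        _ ≤ 2 ^ (n + 1) * (1073741824 + (n + 1)) := Nat.mul_le_mul_left _ (by omega)
    · rw [if_neg c1]
      by_cases c2 : i ≤ kd (r % 27)
      · have h3 : D (n + 1) r i = 0 := by
          rw [if_neg (by omega)] at h
          omega
        rw [h3, zero_mul]
        exact Nat.zero_le _
      · rw [if_neg c2]
        generalize VD n ((14 * (r % 27)) % 27) (i - 400) = u at h1 ⊢
        generalize VD n ((14 * (3 * (r % 27) + 1)) % 27) (J i) = v at h2 ⊢
        have h3 : D (n + 1) r i ≤ D n (T0 r) (i - 400) + D n (T1 r) (J i) := by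
          split_ifs at h with h4
          · exact h
          · omega
        have h4 : u + v + 2 * n ≤ 2 * ((u + v) / 2 + (n + 1)) := by omega
        calc D (n + 1) r i * 1073741824
            ≤ (D n (T0 r) (i - 400) + D n (T1 r) (J i)) * 1073741824 := Nat.mul_le_mul_right _ h3
          _ = D n (T0 r) (i - 400) * 1073741824 + D n (T1 r) (J i) * 1073741824 := Nat.add_mul _ _ _
          _ ≤ 2 ^ n * (u + n) + 2 ^ n * (v + n) := Nat.add_le_add h1 h2
          _ = 2 ^ n * (u + v + 2 * n) := by ring
          _ ≤ 2 ^ n * (2 * ((u + v) / 2 + (n + 1))) := Nat.mul_le_mul_left _ h4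
          _ = 2 ^ (n + 1) * ((u + v) / 2 + (n + 1)) := by ring

end H86C
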