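import Pool.Agent.H86.C.Tab

/-! The two transfer recursions, packed (40 bits per field): definitions (no Mathlib). -/

namespace H86C

/-- Trees of thresholds. -/
inductive Tr : Type
  | nil : Tr
  | lf : Nat → Tr
  | nd : Nat → Nat → Nat → Tr → Tr → Tr

/-- The gathering of a tree: node `(p, h, w)`: the first `p` fields come from `w` fields starting at
field `h`, the others from the fields starting at field `p`; leaf `lf n`: the first `n` fields. -/
noncomputable def gath (t : Tr) : Nat → Nat :=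
  @Tr.rec (fun _ => Nat → Nat) (fun X => X) (fun n X => Nat.land X (allo (Nat.mul 40 n)))
    (fun p h w _ _ ihl ihr X =>
      Nat.add (ihl (Nat.shiftRight (Nat.land X (allo (Nat.mul 40 (Nat.add h w)))) (Nat.mul 40 h)))
        (Nat.shiftLeft (ihr (Nat.shiftRight X (Nat.mul 40 p))) (Nat.mul 40 p))) t

/-- The tree for `TH`. -/
def TR : Tr := (Tr.nd 3827 2 3957 (Tr.nd 1838 30 1938 (Tr.nd 955 100 955 Tr.nil (Tr.nd 420 36 483 (Tr.nd 179 32 210 (Tr.nd 84 16 99 (Tr.nd 41 8 48 (Tr.nd 20 4 23 (Tr.nd 10 2 11 (Tr.nd 5 1 5 Tr.nil (Tr.lf 5)) (Tr.nd 5 1 5 Tr.nil (Tr.lf 5))) (Tr.nd 11 2 12 (Tr.nd 5 1 5 Tr.nil (Tr.lf 6)) (Tr.nd 5 1 5 Tr.nil (Tr.lf 5)))) (Tr.nd 21 4 24 (Tr.nd 10 2 11 (Tr.nd 5 1 5 Tr.nil (Tr.lf 5)) (Tr.nd 6 1 6 Tr.nil (Tr.lf 5))) (Tr.nd 11 2 12 (Tr.nd 5 1 5 Tr.nil (Tr.lf 6)) (Tr.nd 5 1 5 Tr.nil (Tr.lf 6))))) (Tr.nd 46 8 53 (Tr.nd 22 4 25 (Tr.nd 11 2 12 (Tr.nd 5 1 5 Tr.nil (Tr.lf 6)) (Tr.nd 6 1 6 Tr.nil (Tr.lf 5)))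 (Tr.nd 12 2 13 (Tr.nd 6 1 6 Tr.nil (Tr.lf 6)) (Tr.nd 6 1 6 Tr.nil (Tr.lf 6)))) (Tr.nd 24 4 27 (Tr.nd 11 2 12 (Tr.nd 5 1 5 Tr.nil (Tr.lf 6)) (Tr.nd 7 1 7 Tr.nil (Tr.lf 6))) (Tr.nd 12 2 13 (Tr.nd 6 1 6 Tr.nil (Tr.lf 6)) (Tr.nd 6 1 6 Tr.nil (Tr.lf 7)))))) (Tr.nd 109 16 124 (Tr.nd 52 8 59 (Tr.nd 25 4 28 (Tr.nd 12 2 13 (Tr.nd 6 1 6 Tr.nil (Tr.lf 6)) (Tr.nd 7 1 7 Tr.nil (Tr.lf 6))) (Tr.nd 14 2 15 (Tr.nd 7 1 7 Tr.nil (Tr.lf 7)) (Tr.nd 6 1 6 Tr.nil (Tr.lf 7)))) (Tr.nd 28 4 31 (Tr.nd 14 2 15 (Tr.nd 7 1 7 Tr.nil (Tr.lf 7)) (Tr.nd 7 1 7 Tr.nil (Tr.lf 7))) (Tr.nd 15 2 16 (Tr.nd 7 1 7 Tr.nil (Tr.lf 8)) (Tr.nd 7 1 7 Tr.nil (Tr.lf 7))))) (Tr.nd 63 8 70 (Tr.nd 31 4 34 (Tr.nd 16 2 17 (Tr.nd 8 1 8 Tr.nil (Tr.lf 8)) (Tr.nd 7 1 7 Tr.nil (Tr.lf 8))) (Tr.nd 16 2 17 (Tr.nd 8 1 8 Tr.nil (Tr.lf 8)) (Tr.nd 8 1 8 Tr.nil (Tr.lf 8)))) (Tr.nd 34 4 37 (Tr.nd 17 2 18 (Tr.nd 8 1 8 Tr.nil (Tr.lf 9)) (Tr.nd 8 1 8 Tr.nil (Tr.lf 9))) (Tr.nd 17 2 18 (Tr.nd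 8 1 8 Tr.nil (Tr.lf 9)) (Tr.nd 9 1 9 Tr.nil (Tr.lf 9))))))) (Tr.nd 215 16 234 (Tr.nd 99 10 108 (Tr.nd 47 5 51 (Tr.nd 19 3 20 (Tr.nd 9 1 9 Tr.nil (Tr.lf 10)) (Tr.nd 9 2 9 Tr.nil (Tr.nd 10 1 10 Tr.nil (Tr.lf 9)))) (Tr.nd 20 3 21 (Tr.nd 10 1 10 Tr.nil (Tr.lf 10)) (Tr.nd 11 2 11 Tr.nil (Tr.nd 10 1 10 Tr.nil (Tr.lf 11))))) (Tr.nd 55 5 59 (Tr.nd 21 3 22 (Tr.nd 10 1 10 Tr.nil (Tr.lf 11)) (Tr.nd 11 2 11 Tr.nil (Tr.nd 12 1 12 Tr.nil (Tr.lf 11)))) (Tr.nd 24 3 25 (Tr.nd 12 1 12 Tr.nil (Tr.lf 12)) (Tr.nd 12 2 12 Tr.nil (Tr.nd 12 1 12 Tr.nil (Tr.lf 13)))))) (Tr.nd 112 8 119 (Tr.nd 53 4 56 (Tr.nd 26 2 27 (Tr.nd 13 1 13 Tr.nil (Tr.lf 13)) (Tr.nd 13 1 13 Tr.nil (Tr.lf 14))) (Tr.nd 29 2 30 (Tr.nd 14 1 14 Tr.nil (Tr.lf 15)) (Tr.nd 14 1 14 Tr.nil (Tr.lf 16)))) (Tr.nd 64 4 67 (Tr.nd 31 2 32 (Tr.nd 15 1 15 Tr.nil (Tr.lf 16)) (Tr.nd 16 1 16 Tr.nil (Tr.lf 17))) (Tr.nd 35 2 36 (Tr.nd 17 1 17 Tr.nil (Tr.lf 18)) (Tr.nd 18 1 18 Tr.nil (Tr.lf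 19)))))))) (Tr.nd 870 6 893 (Tr.nd 427 8 442 (Tr.nd 176 8 183 (Tr.nd 82 4 85 (Tr.nd 40 2 41 (Tr.nd 19 1 19 Tr.nil (Tr.lf 21)) (Tr.nd 20 1 20 Tr.nil (Tr.lf 22))) (Tr.nd 45 2 46 (Tr.nd 22 1 22 Tr.nil (Tr.lf 23)) (Tr.nd 24 1 24 Tr.nil (Tr.lf 25)))) (Tr.nd 112 4 115 (Tr.nd 54 2 55 (Tr.nd 26 1 26 Tr.nil (Tr.lf 28)) (Tr.nd 28 1 28 Tr.nil (Tr.lf 30))) (Tr.nd 66 2 67 (Tr.nd 32 1 32 Tr.nil (Tr.lf 34)) (Tr.nd 35 1 35 Tr.nil (Tr.lf 38))))) (Tr.nd 180 4 183 (Tr.nd 83 2 84 (Tr.nd 40 1 40 Tr.nil (Tr.lf 43)) (Tr.nd 47 1 47 Tr.nil (Tr.lf 50))) (Tr.nd 117 2 118 (Tr.nd 56 1 56 Tr.nil (Tr.lf 61)) (Tr.nd 69 1 69 Tr.nil (Tr.lf 77))))) (Tr.nd 489 2 492 (Tr.nd 194 2 195 (Tr.nd 89 1 89 Tr.nil (Tr.lf 105)) (Tr.nd 130 1 130 Tr.nil (Tr.lf 165))) (Tr.nd 234 1 234 Tr.nil (Tr.lf 396))))) (Tr.nd 2492 1 2492 Tr.nil Tr.nil))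

/-- The same, unfolded. -/
def gE : Nat → Nat := (fun X => Nat.add ((fun X => Nat.add ((fun X => Nat.add (Nat.shiftRight (Nat.land X (allo 42200)) 4000) (Nat.shiftLeft ((fun X => Nat.add ((fun X => Nat.add ((fun X => Nat.add ((fun X => Nat.add ((fun X => Nat.add ((fun X => Nat.add ((fun X => Nat.add (Nat.shiftRight (Nat.land X (allo 240)) 40) (Nat.shiftLeft (Nat.land (Nat.shiftRight X 200) (allo 200)) 200)) (Nat.shiftRight (Nat.land X (allo 520)) 80)) (Nat.shiftLeft ((fun X => Nat.add (Nat.shiftRight (Nat.land X (allo 240)) 40) (Nat.shiftLeft (Nat.land (Nat.shiftRight X 200) (allo 200)) 200)) (Nat.shiftRight X 400)) 400)) (Nat.shiftRight (Nat.land X (allo 1080)) 160)) (Nat.shiftLeft ((fun X => Nat.add ((fun X => Nat.add (Nat.shiftRight (Nat.land X (allo 240)) 40) (Nat.shiftLeft (Nat.land (Nat.shiftRight X 200) (allo 240)) 200)) (Nat.shiftRight (Nat.land X (allo 560)) 80)) (Nat.shiftLeft ((fun X => Nat.add (Nat.shiftRight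 (Nat.land X (allo 240)) 40) (Nat.shiftLeft (Nat.land (Nat.shiftRight X 200) (allo 200)) 200)) (Nat.shiftRight X 440)) 440)) (Nat.shiftRight X 800)) 800)) (Nat.shiftRight (Nat.land X (allo 2240)) 320)) (Nat.shiftLeft ((fun X => Nat.add ((fun X => Nat.add ((fun X => Nat.add (Nat.shiftRight (Nat.land X (allo 240)) 40) (Nat.shiftLeft (Nat.land (Nat.shiftRight X 200) (allo 200)) 200)) (Nat.shiftRight (Nat.land X (allo 520)) 80)) (Nat.shiftLeft ((fun X => Nat.add (Nat.shiftRight (Nat.land X (allo 280)) 40) (Nat.shiftLeft (Nat.land (Nat.shiftRight X 240) (allo 200)) 240)) (Nat.shiftRight X 400)) 400)) (Nat.shiftRight (Nat.land X (allo 1120)) 160)) (Nat.shiftLeft ((fun X => Nat.add ((fun X => Nat.add (Nat.shiftRight (Nat.land X (allo 240)) 40) (Nat.shiftLeft (Nat.land (Nat.shiftRight X 200) (allo 240)) 200)) (Nat.shiftRight (Nat.land X (allo 560)) 80)) (Nat.shiftLeft ((fun X => Nat.add (Nat.shiftRight (Nat.land X (allo 240))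 40) (Nat.shiftLeft (Nat.land (Nat.shiftRight X 200) (allo 240)) 200)) (Nat.shiftRight X 440)) 440)) (Nat.shiftRight X 840)) 840)) (Nat.shiftRight X 1640)) 1640)) (Nat.shiftRight (Nat.land X (allo 4600)) 640)) (Nat.shiftLeft ((fun X => Nat.add ((fun X => Nat.add ((fun X => Nat.add ((fun X => Nat.add (Nat.shiftRight (Nat.land X (allo 240)) 40) (Nat.shiftLeft (Nat.land (Nat.shiftRight X 200) (allo 240)) 200)) (Nat.shiftRight (Nat.land X (allo 560)) 80)) (Nat.shiftLeft ((fun X => Nat.add (Nat.shiftRight (Nat.land X (allo 280)) 40) (Nat.shiftLeft (Nat.land (Nat.shiftRight X 240) (allo 200)) 240)) (Nat.shiftRight X 440)) 440)) (Nat.shiftRight (Nat.land X (allo 1160)) 160)) (Nat.shiftLeft ((fun X => Nat.add ((fun X => Nat.add (Nat.shiftRight (Nat.land X (allo 280)) 40) (Nat.shiftLeft (Nat.land (Nat.shiftRight X 240) (allo 240)) 240)) (Nat.shiftRight (Nat.land X (allo 600)) 80)) (Nat.shiftLeft ((fun X => Nat.add (Nat.shiftRight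 (Nat.land X (allo 280)) 40) (Nat.shiftLeft (Nat.land (Nat.shiftRight X 240) (allo 240)) 240)) (Nat.shiftRight X 480)) 480)) (Nat.shiftRight X 880)) 880)) (Nat.shiftRight (Nat.land X (allo 2440)) 320)) (Nat.shiftLeft ((fun X => Nat.add ((fun X => Nat.add ((fun X => Nat.add (Nat.shiftRight (Nat.land X (allo 240)) 40) (Nat.shiftLeft (Nat.land (Nat.shiftRight X 200) (allo 240)) 200)) (Nat.shiftRight (Nat.land X (allo 560)) 80)) (Nat.shiftLeft ((fun X => Nat.add (Nat.shiftRight (Nat.land X (allo 320)) 40) (Nat.shiftLeft (Nat.land (Nat.shiftRight X 280) (allo 240)) 280)) (Nat.shiftRight X 440)) 440)) (Nat.shiftRight (Nat.land X (allo 1240)) 160)) (Nat.shiftLeft ((fun X => Nat.add ((fun X => Nat.add (Nat.shiftRight (Nat.land X (allo 280)) 40) (Nat.shiftLeft (Nat.land (Nat.shiftRight X 240) (allo 240)) 240)) (Nat.shiftRight (Nat.land X (allo 600)) 80)) (Nat.shiftLeft ((fun X => Nat.add (Nat.shiftRight (Nat.land X (allo 280))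 40) (Nat.shiftLeft (Nat.land (Nat.shiftRight X 240) (allo 280)) 240)) (Nat.shiftRight X 480)) 480)) (Nat.shiftRight X 960)) 960)) (Nat.shiftRight X 1840)) 1840)) (Nat.shiftRight X 3360)) 3360)) (Nat.shiftRight (Nat.land X (allo 9680)) 1280)) (Nat.shiftLeft ((fun X => Nat.add ((fun X => Nat.add ((fun X => Nat.add ((fun X => Nat.add ((fun X => Nat.add (Nat.shiftRight (Nat.land X (allo 280)) 40) (Nat.shiftLeft (Nat.land (Nat.shiftRight X 240) (allo 240)) 240)) (Nat.shiftRight (Nat.land X (allo 600)) 80)) (Nat.shiftLeft ((fun X => Nat.add (Nat.shiftRight (Nat.land X (allo 320)) 40) (Nat.shiftLeft (Nat.land (Nat.shiftRight X 280) (allo 240)) 280)) (Nat.shiftRight X 480)) 480)) (Nat.shiftRight (Nat.land X (allo 1280)) 160)) (Nat.shiftLeft ((fun X => Nat.add ((fun X => Nat.add (Nat.shiftRight (Nat.land X (allo 320)) 40) (Nat.shiftLeft (Nat.land (Nat.shiftRight X 280) (allo 280)) 280)) (Nat.shiftRight (Nat.land X (allo 680))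 80)) (Nat.shiftLeft ((fun X => Nat.add (Nat.shiftRight (Nat.land X (allo 280)) 40) (Nat.shiftLeft (Nat.land (Nat.shiftRight X 240) (allo 280)) 240)) (Nat.shiftRight X 560)) 560)) (Nat.shiftRight X 1000)) 1000)) (Nat.shiftRight (Nat.land X (allo 2680)) 320)) (Nat.shiftLeft ((fun X => Nat.add ((fun X => Nat.add ((fun X => Nat.add (Nat.shiftRight (Nat.land X (allo 320)) 40) (Nat.shiftLeft (Nat.land (Nat.shiftRight X 280) (allo 280)) 280)) (Nat.shiftRight (Nat.land X (allo 680)) 80)) (Nat.shiftLeft ((fun X => Nat.add (Nat.shiftRight (Nat.land X (allo 320)) 40) (Nat.shiftLeft (Nat.land (Nat.shiftRight X 280) (allo 280)) 280)) (Nat.shiftRight X 560)) 560)) (Nat.shiftRight (Nat.land X (allo 1400)) 160)) (Nat.shiftLeft ((fun X => Nat.add ((fun X => Nat.add (Nat.shiftRight (Nat.land X (allo 320)) 40) (Nat.shiftLeft (Nat.land (Nat.shiftRight X 280) (allo 320)) 280)) (Nat.shiftRight (Nat.land X (allo 720)) 80)) (Nat.shiftLeft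 ((fun X => Nat.add (Nat.shiftRight (Nat.land X (allo 320)) 40) (Nat.shiftLeft (Nat.land (Nat.shiftRight X 280) (allo 280)) 280)) (Nat.shiftRight X 600)) 600)) (Nat.shiftRight X 1120)) 1120)) (Nat.shiftRight X 2080)) 2080)) (Nat.shiftRight (Nat.land X (allo 5600)) 640)) (Nat.shiftLeft ((fun X => Nat.add ((fun X => Nat.add ((fun X => Nat.add ((fun X => Nat.add (Nat.shiftRight (Nat.land X (allo 360)) 40) (Nat.shiftLeft (Nat.land (Nat.shiftRight X 320) (allo 320)) 320)) (Nat.shiftRight (Nat.land X (allo 760)) 80)) (Nat.shiftLeft ((fun X => Nat.add (Nat.shiftRight (Nat.land X (allo 320)) 40) (Nat.shiftLeft (Nat.land (Nat.shiftRight X 280) (allo 320)) 280)) (Nat.shiftRight X 640)) 640)) (Nat.shiftRight (Nat.land X (allo 1520)) 160)) (Nat.shiftLeft ((fun X => Nat.add ((fun X => Nat.add (Nat.shiftRight (Nat.land X (allo 360)) 40) (Nat.shiftLeft (Nat.land (Nat.shiftRight X 320) (allo 320)) 320)) (Nat.shiftRight (Nat.land X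 (allo 760)) 80)) (Nat.shiftLeft ((fun X => Nat.add (Nat.shiftRight (Nat.land X (allo 360)) 40) (Nat.shiftLeft (Nat.land (Nat.shiftRight X 320) (allo 320)) 320)) (Nat.shiftRight X 640)) 640)) (Nat.shiftRight X 1240)) 1240)) (Nat.shiftRight (Nat.land X (allo 3120)) 320)) (Nat.shiftLeft ((fun X => Nat.add ((fun X => Nat.add ((fun X => Nat.add (Nat.shiftRight (Nat.land X (allo 360)) 40) (Nat.shiftLeft (Nat.land (Nat.shiftRight X 320) (allo 360)) 320)) (Nat.shiftRight (Nat.land X (allo 800)) 80)) (Nat.shiftLeft ((fun X => Nat.add (Nat.shiftRight (Nat.land X (allo 360)) 40) (Nat.shiftLeft (Nat.land (Nat.shiftRight X 320) (allo 360)) 320)) (Nat.shiftRight X 680)) 680)) (Nat.shiftRight (Nat.land X (allo 1640)) 160)) (Nat.shiftLeft ((fun X => Nat.add ((fun X => Nat.add (Nat.shiftRight (Nat.land X (allo 360)) 40) (Nat.shiftLeft (Nat.land (Nat.shiftRight X 320) (allo 360)) 320)) (Nat.shiftRight (Nat.land X (allo 800)) 80)) (Nat.shiftLeft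 ((fun X => Nat.add (Nat.shiftRight (Nat.land X (allo 400)) 40) (Nat.shiftLeft (Nat.land (Nat.shiftRight X 360) (allo 360)) 360)) (Nat.shiftRight X 680)) 680)) (Nat.shiftRight X 1360)) 1360)) (Nat.shiftRight X 2520)) 2520)) (Nat.shiftRight X 4360)) 4360)) (Nat.shiftRight X 7160)) 7160)) (Nat.shiftRight (Nat.land X (allo 20760)) 1440)) (Nat.shiftLeft ((fun X => Nat.add ((fun X => Nat.add ((fun X => Nat.add ((fun X => Nat.add ((fun X => Nat.add (Nat.shiftRight (Nat.land X (allo 400)) 40) (Nat.shiftLeft (Nat.land (Nat.shiftRight X 360) (allo 400)) 360)) (Nat.shiftRight (Nat.land X (allo 920)) 120)) (Nat.shiftLeft ((fun X => Nat.add (Nat.shiftRight (Nat.land X (allo 440)) 80) (Nat.shiftLeft ((fun X => Nat.add (Nat.shiftRight (Nat.land X (allo 440)) 40) (Nat.shiftLeft (Nat.land (Nat.shiftRight X 400) (allo 360)) 400)) (Nat.shiftRight X 360)) 360)) (Nat.shiftRight X 760)) 760)) (Nat.shiftRight (Nat.land X (allo 2240)) 200))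 (Nat.shiftLeft ((fun X => Nat.add ((fun X => Nat.add (Nat.shiftRight (Nat.land X (allo 440)) 40) (Nat.shiftLeft (Nat.land (Nat.shiftRight X 400) (allo 400)) 400)) (Nat.shiftRight (Nat.land X (allo 960)) 120)) (Nat.shiftLeft ((fun X => Nat.add (Nat.shiftRight (Nat.land X (allo 520)) 80) (Nat.shiftLeft ((fun X => Nat.add (Nat.shiftRight (Nat.land X (allo 440)) 40) (Nat.shiftLeft (Nat.land (Nat.shiftRight X 400) (allo 440)) 400)) (Nat.shiftRight X 440)) 440)) (Nat.shiftRight X 800)) 800)) (Nat.shiftRight X 1880)) 1880)) (Nat.shiftRight (Nat.land X (allo 4720)) 400)) (Nat.shiftLeft ((fun X => Nat.add ((fun X => Nat.add ((fun X => Nat.add (Nat.shiftRight (Nat.land X (allo 440)) 40) (Nat.shiftLeft (Nat.land (Nat.shiftRight X 400) (allo 440)) 400)) (Nat.shiftRight (Nat.land X (allo 1000)) 120)) (Nat.shiftLeft ((fun X => Nat.add (Nat.shiftRight (Nat.land X (allo 520)) 80) (Nat.shiftLeft ((fun X => Nat.add (Nat.shiftRight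 (Nat.land X (allo 520)) 40) (Nat.shiftLeft (Nat.land (Nat.shiftRight X 480) (allo 440)) 480)) (Nat.shiftRight X 440)) 440)) (Nat.shiftRight X 840)) 840)) (Nat.shiftRight (Nat.land X (allo 2560)) 200)) (Nat.shiftLeft ((fun X => Nat.add ((fun X => Nat.add (Nat.shiftRight (Nat.land X (allo 520)) 40) (Nat.shiftLeft (Nat.land (Nat.shiftRight X 480) (allo 480)) 480)) (Nat.shiftRight (Nat.land X (allo 1120)) 120)) (Nat.shiftLeft ((fun X => Nat.add (Nat.shiftRight (Nat.land X (allo 560)) 80) (Nat.shiftLeft ((fun X => Nat.add (Nat.shiftRight (Nat.land X (allo 520)) 40) (Nat.shiftLeft (Nat.land (Nat.shiftRight X 480) (allo 520)) 480)) (Nat.shiftRight X 480)) 480)) (Nat.shiftRight X 960)) 960)) (Nat.shiftRight X 2200)) 2200)) (Nat.shiftRight X 3960)) 3960)) (Nat.shiftRight (Nat.land X (allo 10000)) 640)) (Nat.shiftLeft ((fun X => Nat.add ((fun X => Nat.add ((fun X => Nat.add ((fun X => Nat.add (Nat.shiftRight (Nat.land X (allo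 560)) 40) (Nat.shiftLeft (Nat.land (Nat.shiftRight X 520) (allo 520)) 520)) (Nat.shiftRight (Nat.land X (allo 1160)) 80)) (Nat.shiftLeft ((fun X => Nat.add (Nat.shiftRight (Nat.land X (allo 560)) 40) (Nat.shiftLeft (Nat.land (Nat.shiftRight X 520) (allo 560)) 520)) (Nat.shiftRight X 1040)) 1040)) (Nat.shiftRight (Nat.land X (allo 2400)) 160)) (Nat.shiftLeft ((fun X => Nat.add ((fun X => Nat.add (Nat.shiftRight (Nat.land X (allo 600)) 40) (Nat.shiftLeft (Nat.land (Nat.shiftRight X 560) (allo 600)) 560)) (Nat.shiftRight (Nat.land X (allo 1280)) 80)) (Nat.shiftLeft ((fun X => Nat.add (Nat.shiftRight (Nat.land X (allo 600)) 40) (Nat.shiftLeft (Nat.land (Nat.shiftRight X 560) (allo 640)) 560)) (Nat.shiftRight X 1160)) 1160)) (Nat.shiftRight X 2120)) 2120)) (Nat.shiftRight (Nat.land X (allo 5080)) 320)) (Nat.shiftLeft ((fun X => Nat.add ((fun X => Nat.add ((fun X => Nat.add (Nat.shiftRight (Nat.land X (allo 640)) 40) (Nat.shiftLeft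 (Nat.land (Nat.shiftRight X 600) (allo 640)) 600)) (Nat.shiftRight (Nat.land X (allo 1360)) 80)) (Nat.shiftLeft ((fun X => Nat.add (Nat.shiftRight (Nat.land X (allo 680)) 40) (Nat.shiftLeft (Nat.land (Nat.shiftRight X 640) (allo 680)) 640)) (Nat.shiftRight X 1240)) 1240)) (Nat.shiftRight (Nat.land X (allo 2840)) 160)) (Nat.shiftLeft ((fun X => Nat.add ((fun X => Nat.add (Nat.shiftRight (Nat.land X (allo 720)) 40) (Nat.shiftLeft (Nat.land (Nat.shiftRight X 680) (allo 720)) 680)) (Nat.shiftRight (Nat.land X (allo 1520)) 80)) (Nat.shiftLeft ((fun X => Nat.add (Nat.shiftRight (Nat.land X (allo 760)) 40) (Nat.shiftLeft (Nat.land (Nat.shiftRight X 720) (allo 760)) 720)) (Nat.shiftRight X 1400)) 1400)) (Nat.shiftRight X 2560)) 2560)) (Nat.shiftRight X 4480)) 4480)) (Nat.shiftRight X 8600)) 8600)) (Nat.shiftRight X 16800)) 16800)) (Nat.shiftRight X 38200)) 38200)) (Nat.shiftRight (Nat.land X (allo 78720)) 1200)) (Nat.shiftLeft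 ((fun X => Nat.add ((fun X => Nat.add ((fun X => Nat.add ((fun X => Nat.add ((fun X => Nat.add ((fun X => Nat.add (Nat.shiftRight (Nat.land X (allo 800)) 40) (Nat.shiftLeft (Nat.land (Nat.shiftRight X 760) (allo 840)) 760)) (Nat.shiftRight (Nat.land X (allo 1720)) 80)) (Nat.shiftLeft ((fun X => Nat.add (Nat.shiftRight (Nat.land X (allo 840)) 40) (Nat.shiftLeft (Nat.land (Nat.shiftRight X 800) (allo 880)) 800)) (Nat.shiftRight X 1600)) 1600)) (Nat.shiftRight (Nat.land X (allo 3560)) 160)) (Nat.shiftLeft ((fun X => Nat.add ((fun X => Nat.add (Nat.shiftRight (Nat.land X (allo 920)) 40) (Nat.shiftLeft (Nat.land (Nat.shiftRight X 880) (allo 920)) 880)) (Nat.shiftRight (Nat.land X (allo 1920)) 80)) (Nat.shiftLeft ((fun X => Nat.add (Nat.shiftRight (Nat.land X (allo 1000)) 40) (Nat.shiftLeft (Nat.land (Nat.shiftRight X 960) (allo 1000)) 960)) (Nat.shiftRight X 1800)) 1800)) (Nat.shiftRight X 3280)) 3280)) (Nat.shiftRight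 (Nat.land X (allo 7640)) 320)) (Nat.shiftLeft ((fun X => Nat.add ((fun X => Nat.add ((fun X => Nat.add (Nat.shiftRight (Nat.land X (allo 1080)) 40) (Nat.shiftLeft (Nat.land (Nat.shiftRight X 1040) (allo 1120)) 1040)) (Nat.shiftRight (Nat.land X (allo 2280)) 80)) (Nat.shiftLeft ((fun X => Nat.add (Nat.shiftRight (Nat.land X (allo 1160)) 40) (Nat.shiftLeft (Nat.land (Nat.shiftRight X 1120) (allo 1200)) 1120)) (Nat.shiftRight X 2160)) 2160)) (Nat.shiftRight (Nat.land X (allo 4760)) 160)) (Nat.shiftLeft ((fun X => Nat.add ((fun X => Nat.add (Nat.shiftRight (Nat.land X (allo 1320)) 40) (Nat.shiftLeft (Nat.land (Nat.shiftRight X 1280) (allo 1360)) 1280)) (Nat.shiftRight (Nat.land X (allo 2760)) 80)) (Nat.shiftLeft ((fun X => Nat.add (Nat.shiftRight (Nat.land X (allo 1440)) 40) (Nat.shiftLeft (Nat.land (Nat.shiftRight X 1400) (allo 1520)) 1400)) (Nat.shiftRight X 2640)) 2640)) (Nat.shiftRight X 4480)) 4480)) (Nat.shiftRight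 X 7040)) 7040)) (Nat.shiftRight (Nat.land X (allo 18000)) 320)) (Nat.shiftLeft ((fun X => Nat.add ((fun X => Nat.add ((fun X => Nat.add (Nat.shiftRight (Nat.land X (allo 1640)) 40) (Nat.shiftLeft (Nat.land (Nat.shiftRight X 1600) (allo 1720)) 1600)) (Nat.shiftRight (Nat.land X (allo 3440)) 80)) (Nat.shiftLeft ((fun X => Nat.add (Nat.shiftRight (Nat.land X (allo 1920)) 40) (Nat.shiftLeft (Nat.land (Nat.shiftRight X 1880) (allo 2000)) 1880)) (Nat.shiftRight X 3320)) 3320)) (Nat.shiftRight (Nat.land X (allo 7480)) 160)) (Nat.shiftLeft ((fun X => Nat.add ((fun X => Nat.add (Nat.shiftRight (Nat.land X (allo 2280)) 40) (Nat.shiftLeft (Nat.land (Nat.shiftRight X 2240) (allo 2440)) 2240)) (Nat.shiftRight (Nat.land X (allo 4800)) 80)) (Nat.shiftLeft ((fun X => Nat.add (Nat.shiftRight (Nat.land X (allo 2800)) 40) (Nat.shiftLeft (Nat.land (Nat.shiftRight X 2760) (allo 3080)) 2760)) (Nat.shiftRight X 4680)) 4680)) (Nat.shiftRight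 X 7200)) 7200)) (Nat.shiftRight X 17080)) 17080)) (Nat.shiftRight (Nat.land X (allo 35960)) 240)) (Nat.shiftLeft ((fun X => Nat.add ((fun X => Nat.add ((fun X => Nat.add (Nat.shiftRight (Nat.land X (allo 3600)) 40) (Nat.shiftLeft (Nat.land (Nat.shiftRight X 3560) (allo 4200)) 3560)) (Nat.shiftRight (Nat.land X (allo 7880)) 80)) (Nat.shiftLeft ((fun X => Nat.add (Nat.shiftRight (Nat.land X (allo 5240)) 40) (Nat.shiftLeft (Nat.land (Nat.shiftRight X 5200) (allo 6600)) 5200)) (Nat.shiftRight X 7760)) 7760)) (Nat.shiftRight (Nat.land X (allo 19760)) 80)) (Nat.shiftLeft ((fun X => Nat.add (Nat.shiftRight (Nat.land X (allo 9400)) 40) (Nat.shiftLeft (Nat.land (Nat.shiftRight X 9360) (allo 15840)) 9360)) (Nat.shiftRight X 19560)) 19560)) (Nat.shiftRight X 34800)) 34800)) (Nat.shiftRight X 73520)) 73520)) (Nat.shiftRight (Nat.land X (allo 158360)) 80)) (Nat.shiftLeft ((fun X => Nat.add (Nat.shiftRight (Nat.land X (allo 99720))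 40) (Nat.shiftLeft (Nat.shiftRight X 99680) 99680)) (Nat.shiftRight X 153080)) 153080))

/-- `n` fields equal to one. -/
def ons (n : Nat) : Nat := Nat.div (allo (Nat.mul 40 n)) 1099511627775

/-- `n` fields `c`, starting at field `a`. -/
def blk (c a n : Nat) : Nat := Nat.shiftLeft (Nat.mul c (ons n)) (Nat.mul 40 a)

/-- Half of the gathered vector (`P` : the upper fields). -/
noncomputable def gl (P V : Nat) : Nat := Nat.shiftRight (Nat.add (gE (Nat.shiftRight V 9360)) P) 1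

/-- Mask: 39 bits in the fields above `k`, below `F`. -/
def mk (F k : Nat) : Nat := blk 549755813887 (Nat.add k 1) (Nat.sub F (Nat.add k 1))

/-- New vector from the old one `a`, the half gathered one `g` and the mask `u`. -/
def val (a g u : Nat) : Nat := Nat.land (Nat.add (Nat.shiftLeft a 15999) g) u

/-- `f` applied to the elements of `A`, with continuation `k` (`B` : a large number). -/
noncomputable def mapK (B : Nat) (f : Nat → Nat) (A : List Nat) : (List Nat → Bool) → Bool :=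
  @List.rec Nat (fun _ => (List Nat → Bool) → Bool) (fun k => k [])
    (fun a _ ih k => ih (fun R => @Bool.rec (fun _ => Bool) false (k (List.cons (f a) R)) (Nat.ble (f a) B))) A

/-- The same with three lists. -/
noncomputable def zipK (B : Nat) (f : Nat → Nat → Nat → Nat) (A : List Nat) :
    List Nat → List Nat → (List Nat → Bool) → Bool :=
  @List.rec Nat (fun _ => List Nat → List Nat → (List Nat → Bool) → Bool) (fun _ _ k => k [])
    (fun a _ ih Y Z k => ih (tl Y) (tl Z) (fun R =>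
      @Bool.rec (fun _ => Bool) false (k (List.cons (f a (hd Y) (hd Z)) R)) (Nat.ble (f a (hd Y) (hd Z)) B))) A

noncomputable def rot (L : List Nat) : List Nat := app (tl L) [hd L]

/-- `[L, L without 18 elements, ..]`. -/
noncomputable def ptr (n : Nat) : List Nat → List (List Nat) :=
  @Nat.rec (fun _ => List Nat → List (List Nat)) (fun _ => []) (fun _ ih L => List.cons L (ih (dr 18 L))) n
noncomputable def nthL (L : List (List Nat)) : Nat → List Nat :=
  @List.rec (List Nat) (fun _ => Nat → List Nat) (fun _ => [])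
    (fun a _ ih i => @Nat.rec (fun _ => List Nat) a (fun j _ => ih j) i) L

/-- The elements of `L` with indices in `JL`. -/
noncomputable def sel (B : Nat) (JL L : List Nat) (k : List Nat → Bool) : Bool :=
  mapK B (fun j => nth (nthL (ptr 9 L) (Nat.div j 18)) (Nat.mod j 18)) JL k

/-- One step. `JL` : indices of the odd images, `P` : upper fields, `MK` : masks. -/
noncomputable def stepK (B P : Nat) (JL MK L : List Nat) (k : List Nat → List Nat → Bool) : Bool :=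
  sel B JL L (fun S => mapK B (gl P) S (fun G => zipK B val (rot L) (app G (app G G)) MK (k S)))

noncomputable def run1 (B P : Nat) (JL MK : List Nat) (f : List Nat → Bool) (n : Nat) : List Nat → Bool :=
  @Nat.rec (fun _ => List Nat → Bool) f (fun _ ih L => stepK B P JL MK L (fun _ L' => ih L')) n

/-- Add the low 2500 fields. -/
noncomputable def addK (B : Nat) (acc S : List Nat) (k : List Nat → Bool) : Bool :=
  zipK B (fun a s _ => Nat.add a (Nat.land s (allo 100000))) acc S [] k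

noncomputable def run2 (B P : Nat) (JL MK : List Nat) (f : List Nat → List Nat → Bool) (n : Nat) :
    List Nat → List Nat → Bool :=
  @Nat.rec (fun _ => List Nat → List Nat → Bool)
    (fun acc L => sel B JL L (fun S => addK B acc S (fun acc' => f acc' S)))
    (fun _ ih acc L => stepK B P JL MK L (fun S L' => addK B acc S (fun acc' => ih acc' L'))) n

def fld (V i : Nat) : Nat := Nat.land (Nat.shiftRight V (Nat.mul 40 i)) 1099511627775

noncomputable def kmin (a b : Nat) : Nat := @Bool.rec (fun _ => Nat) b a (Nat.ble a b)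

/-- Integer weight: `3 AN` times `Wt`. -/
noncomputable def Wi (k s : Nat) : Nat :=
  Nat.sub (kmin (Nat.mul 1610612737 (Nat.add (Nat.mul 3 (m k)) 1048576)) (Nat.mul 3221225472 (m (Nat.add s 1))))
    (kmin (Nat.mul 1610612737 (Nat.add (Nat.mul 3 (m k)) 1048576)) (Nat.mul 3221225472 (m s)))

/-- `∑_{i in [s, s+n)} Wi k i * h (i+1)`. -/
noncomputable def inn (k : Nat) (h : Nat → Nat) (n : Nat) : Nat → Nat → Nat :=
  @Nat.rec (fun _ => Nat → Nat → Nat) (fun _ acc => acc)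
    (fun _ ih s acc => ih (Nat.add s 1) (Nat.add acc (Nat.mul (Wi k s) (h (Nat.add s 1))))) n

/-- The powers of `1/2` modulo 243: `rk k = 122^k mod 243`, `k < 162`; indices of the odd images
(`k < 54`), table values, numbers of terms. -/
def JX : List Nat := [161, 141, 95, 45, 11, 75, 125, 15, 5, 135, 29, 57, 89, 51, 77, 63, 47, 39, 53, 87, 149, 153, 65, 21, 17, 123, 59, 81, 83, 3, 143, 159, 131, 9, 101, 147, 107, 33, 41, 99, 119, 129, 71, 69, 113, 27, 137, 111, 35, 105, 23, 117, 155, 93]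
def KL : List Nat := [1146, 952, 980, 2092, 1698, 1450, 1142, 954, 1114, 1626, 1540, 1756, 1400, 1154, 984, 1318, 1250, 1392, 1070, 952, 982, 1648, 1268, 1344, 1046, 952, 982, 2184, 1862, 1826, 1448, 1132, 994, 1334, 1248, 1550, 1186, 972, 982, 1690, 1322, 1342, 1042, 952, 986, 2110, 1724, 1566, 1232, 954, 984, 1324, 1250, 1406, 1144, 952, 980, 1858, 1494, 1344, 1046, 952, 1112, 1626, 1540, 1576, 1248, 966, 984, 1318, 1248, 1390, 1060, 952, 982, 1648, 1262, 1344, 1052, 952, 984, 2166, 1864, 2126, 1788, 1438, 1096, 1318, 1246, 1564, 1200, 1036, 982, 1702, 1324, 1340, 1042, 956, 986, 1964, 1572, 1564, 1232, 952, 984, 1318, 1250, 1510, 1180, 954, 980, 1846, 1464, 1346, 1046, 952, 1112, 1626, 1540, 1630, 1280, 960, 984, 1318, 1248, 1392, 1062, 952, 982, 1646, 1262, 1350, 1044, 952, 984, 1904, 1862, 1854, 1460, 1134, 1002, 1318, 1246, 1740, 1384, 1104, 982, 1834, 1438, 1342, 1042, 952, 986, 1924, 1572, 1566, 1232, 952,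 984, 1464, 1254, 1476]
def CT : List Nat := [1, 0, 0, 237, 216, 96, 82, 2, 1, 1, 0, 168, 135, 160, 0, 0, 1, 2, 8, 0, 0, 1, 6, 1, 2, 0, 0, 270, 0, 0, 2, 2, 2, 14, 1, 1, 1, 0, 0, 0, 0, 1, 1, 0, 0, 180, 142, 3, 1, 2, 0, 5, 1, 2, 0, 0, 0, 12, 28, 1, 2, 0, 0, 1, 0, 1, 1, 5, 0, 0, 0, 0, 0, 0, 0, 1, 1, 1, 7, 0, 0, 252, 2, 287, 316, 269, 85, 0, 0, 14, 13, 52, 0, 11, 1, 0, 1, 3, 0, 40, 1, 2, 1, 0, 0, 0, 1, 96, 30, 2, 0, 1, 0, 3, 2, 0, 0, 1, 0, 50, 29, 0, 0, 0, 0, 2, 1, 0, 0, 0, 1, 6, 0, 0, 0, 0, 0, 27, 13, 3, 8, 0, 0, 177, 174, 108, 0, 136, 103, 1, 1, 0, 0, 1, 1, 3, 1, 0, 0, 130, 4, 65]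

/-- The same modulo 27: `14^k mod 27`, `k < 18`. -/
def JY : List Nat := [17, 15, 5, 9, 11, 3]
def KY : List Nat := [1060, 952, 980, 1646, 1262, 1340, 1042, 952, 982, 1626, 1540, 1564, 1232, 952, 984, 1318, 1246, 1390]

/-- Thresholds and bounds of the base (units: windows). -/
def TU : List (Nat × Nat) := [(1170, 51669), (1344, 68862), (1420, 87671), (1544, 106594), (1644, 128476), (1720, 144382), (1770, 155623), (1820, 167638), (1896, 184055), (1944, 198988), (1996, 214955), (2044, 226481), (2096, 241529), (2144, 254526), (2196, 269301), (2244, 280507), (2296, 294979), (2370, 320283), (2420, 338222), (2470, 353144), (2544, 372115), (2596, 389482), (2644, 405626), (2696, 421369), (2744, 440463), (2796, 459606), (2844, 474009), (2896, 493391), (2944, 513082), (2996, 525712), (3044, 542818), (3096, 560047), (3144, 577496), (3196, 598728), (3270, 623501), (3320, 641001), (3370, 659031), (3446, 686124), (3520, 714962),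 (3570, 732083), (3646, 761866), (3746, 794948), (3820, 816112), (3920, 841602), (3996, 862767), (4096, 892233), (4220, 926594), (4370, 963301), (4496, 991901), (4620, 1016236), (4796, 1052221), (5070, 1099290), (5444, 1140625)]

/-- The base vector: fields from `s` on. -/
noncomputable def bas (T : List (Nat × Nat)) : Nat → Nat :=
  @List.rec (Nat × Nat) (fun _ => Nat → Nat) (fun s => blk 4828299264 s (Nat.sub 7600 s))
    (fun e _ ih s => Nat.add (blk (Nat.mul 4096 e.2) s (Nat.sub (Nat.add e.1 1) s)) (ih (Nat.add e.1 1))) T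

/-- The total for the windows: `acc` sum over the levels 38, .., 150, `S` level 150. -/
noncomputable def totW (acc S : List Nat) (C : List Nat) : Nat → Nat :=
  @List.rec Nat (fun _ => Nat → Nat) (fun _ => 0)
    (fun c _ ih k => Nat.add (inn (nth KL k) (fun i =>
        Nat.add (Nat.mul 10000 (Nat.add (fld (nth acc (Nat.mod k 54)) i) 8136))
          (Nat.mul 161764 (Nat.add (fld (nth S (Nat.mod k 54)) i) 128))) c (nth KL (nth JX (Nat.mod k 54))) 0)
      (ih (Nat.add k 1))) C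

/-- Windows: levels 22 to 150. -/
noncomputable def runW (a b c : Nat) : Bool :=
  mapK (Nat.shiftLeft 1 304000) (mk 7600) KL (fun MK =>
    mapK (Nat.shiftLeft 1 304000) (fun u => Nat.land (bas TU 0) u) MK (fun L0 =>
      run1 (Nat.shiftLeft 1 304000) (blk 4828299264 7366 234) JX MK (fun L =>
        mapK (Nat.shiftLeft 1 304000) (fun _ => 0) JX (fun acc =>
          run2 (Nat.shiftLeft 1 304000) (blk 4828299264 7366 234) JX MK
            (fun acc S => Nat.ble (totW acc S CT 0) c) b acc L)) a L0))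

/-- The total for the tail. -/
noncomputable def totD (acc : List Nat) (C : List Nat) : Nat → Nat :=
  @List.rec Nat (fun _ => Nat → Nat) (fun _ => 0)
    (fun c _ ih k => Nat.add (inn (nth KL k) (fun i =>
        Nat.add (fld (nth acc (Nat.mod k 6)) i) 68625) c (nth KL (nth JX (Nat.mod k 54))) 0)
      (ih (Nat.add k 1))) C

/-- Tail: levels 0 to 399. -/
noncomputable def runD (a b c : Nat) : Bool :=
  mapK (Nat.shiftLeft 1 416000) (mk 10400) KY (fun MK =>
    mapK (Nat.shiftLeft 1 416000) (fun u => Nat.land (blk 1073741824 0 10400) u) MK (fun L0 =>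
      run1 (Nat.shiftLeft 1 416000) (blk 1073741824 10166 234) JY MK (fun L =>
        mapK (Nat.shiftLeft 1 416000) (fun _ => 0) JY (fun acc =>
          run2 (Nat.shiftLeft 1 416000) (blk 1073741824 10166 234) JY MK
            (fun acc _ => Nat.ble (totD acc CT 0) c) b acc L)) a L0))

end H86C
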