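import Mathlib
import Pool.Agent.H1.Col.Basic
import Pool.Agent.H1.Col.Pack
import Pool.Agent.H86.C.DpD

/-! Mathematical definitions for the bound `R < 4/3` (plan in the headers of the modules).
`T`, `od`, `Sm` (accelerated Collatz map, odd steps, sum of `1/(3 y)` over the odd elements) are those of
`H1Col` (`Pool/Agent/H1/Col/Basic.lean`); `pk` is in `Pool/Agent/H1/Col/Pack.lean`. -/

namespace H86C

open Finset
open scoped Classical

/-- `B = 243 * 2^28`. -/
def BB : ℕ := 65229815808

/-- `3/2 + 2^(-30)`. -/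
noncomputable def al : ℝ := 1610612737 / 1073741824

/-- The potential with window `n` (scaled by `2^20`). -/
noncomputable def K : ℕ → ℕ → ℝ
  | 0, x => (m (kap (x % 243)) : ℝ)
  | n + 1, x => max (m (kap (x % 243)) : ℝ)
      (if x % 2 = 0 then 2 * K n (x / 2) else (K n (H1Col.T x) - 524289) / al)

/-- Length of the window of `x`. -/
def nx (x : ℕ) : ℕ := Nat.log 2 (x / 243) + 11

/-- What is needed at `x` (scaled): `K_0 (x) + [x odd] 2^20/3`. -/
noncomputable def Au (x : ℕ) : ℝ :=
  (m (kap (x % 243)) : ℝ) + (if x % 2 = 0 then 0 else 1048576 / 3)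

/-- What comes from the future, window `n`. -/
noncomputable def De (n x : ℕ) : ℝ := if x % 2 = 0 then 2 * K n (x / 2) else K n (H1Col.T x) / al

/-- The price of `x`. -/
noncomputable def wp (x : ℕ) : ℝ := max 0 (Au x - De (nx x - 1) x)

/-- Levels transported through an odd step. -/
noncomputable def g (i : ℕ) : ℝ := (m i : ℝ) / al

/-- What is needed at an odd `x` in the class `r` modulo `243`. -/
noncomputable def Ar (r : ℕ) : ℝ := (m (kap r) : ℝ) + 1048576 / 3

/-- The weights (class `r` of odd numbers, level `i`). -/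
noncomputable def Wt (r i : ℕ) : ℝ := min (Ar r) (g (i + 1)) - min (Ar r) (g i)

/-- The cost of the bounds `b q i` (class `q` of `T x`, level `i`). -/
noncomputable def Cst (b : ℕ → ℕ → ℝ) : ℝ :=
  ∑ r ∈ (range 243).filter (fun r => r % 3 ≠ 0), ∑ i ∈ Ico (kap (T1 r)) 2436, Wt r i * b (T1 r) (i + 1)

/-- The numbers prime to `3` in `[243 * 2^a, 243 * 2^(a+1))`. -/
def block (a : ℕ) : Finset ℕ := (Ico (243 * 2 ^ a) (243 * 2 ^ (a + 1))).filter (fun x => x % 3 ≠ 0)

/-- Weights of the windows (`k ≤ 128`). -/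
def Wd (k : ℕ) : ℕ := 416 + (10 - k) + (27 - k) + (44 - k) + (79 - k) + (126 - k) + (128 - k)

/-- Weight of the position `p < 2048`. -/
def wt (p : ℕ) : ℕ := Wd (p / 16 + 1)

/-- Weighted number of the `c + 3^o p`, `p < 2^(n-11)`, with `K n < m i` (`n ≥ 22`). -/
noncomputable def Nw (n o c i : ℕ) : ℕ :=
  ∑ p ∈ range (2 ^ (n - 11)), if K n (c + 3 ^ o * p) < m i then wt (p / 2 ^ (n - 22)) else 0

/-- Number of classes modulo `243 * 2^n` in the class `r` modulo `243` with `K n x < m i`. -/
noncomputable def D (n r i : ℕ) : ℕ :=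
  ((range (243 * 2 ^ n)).filter (fun x => x % 243 = r ∧ K n x < m i)).card

/-- The base value at the index `i` (scaled by `2^12`): bound of the first threshold which is at least `i`. -/
def bs (i : ℕ) : ℕ := TU.foldr (fun e y => if i ≤ e.1 then 4096 * e.2 else y) 4828299264

/-- The transfer recursion of the windows: level `22 + l`, class `r` modulo `243`, index `i`.
To be proved: `Nw (22+l) o c i * 2^12 ≤ 2^l * (VW l (c mod 243) i + l)` (for the needed `o`, `i`). -/
noncomputable def VW : ℕ → ℕ → ℕ → ℕ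
  | 0, r, i => if 7600 ≤ i then 4828299264 else if i ≤ kap r then 0 else bs i
  | l + 1, r, i => if 7600 ≤ i then 4828299264 else if i ≤ kap r then 0 else
      (VW l (T0 r) (i - 400) + VW l (T1 r) (J i)) / 2

/-- Minima of `kap` over the classes modulo `27`. -/
def kd (z : ℕ) : ℕ := [0, 1060, 1390, 0, 1246, 952, 0, 980, 1318, 0, 1232, 1340, 0, 1540, 952, 0, 984, 1646, 0, 1042, 1564, 0, 1262, 952, 0, 982, 1626].getD z 0

/-- The transfer recursion of the tail: level `n`, class `z` modulo `27`, index `i`.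
To be proved: `D n r i * 2^30 ≤ 2^n * (VD n (r mod 27) i + n)`. -/
noncomputable def VD : ℕ → ℕ → ℕ → ℕ
  | 0, z, i => if 10400 ≤ i then 1073741824 else if i ≤ kd z then 0 else 1073741824
  | n + 1, z, i => if 10400 ≤ i then 1073741824 else if i ≤ kd z then 0 else
      (VD n ((14 * z) % 27) (i - 400) + VD n ((14 * (3 * z + 1)) % 27) (J i)) / 2

/-- Result of the base check for the exponent `o`: windows of `2048` terms of the progression of step `3^o`. -/
def BaseOK (o t u : ℕ) : Prop := ∀ c : ℕ, c % 3 ≠ 0 →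
  (∑ p ∈ range 2048, if K 22 (c + 3 ^ o * p) < 2048 * (t : ℝ) then wt p else 0) ≤ u

/-- `∃ N, T^N x = 1 ∧ 2^N ≤ M * 3^od * x`. -/
def Good (M : ℝ) (x : ℕ) : Prop :=
  ∃ N, H1Col.T^[N] x = 1 ∧ (2 : ℝ) ^ N ≤ M * 3 ^ H1Col.od x N * x

end H86C
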