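import Pool.Agent.H1.Col.Basic

/-! # Module FinQ: from the bound for the residues to the differences of the total stopping times

The lemmas about the Collatz map and the accelerated map and `arith` are copies of those of
`Pool/Agent/H1/Col/Reduce.lean` (copied to keep the kernel computations of `Pool.Agent.H1.Col.Main` out of the imports). -/

namespace H86C.FinQ

open H1Col (T od T_even T_odd T_pos iter_pos iter_succ iter_succ_left iter_add od_add od_succ
  od_succ_left three_pow_le)


/-- The Collatz map. -/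
def collatz (n : ℕ) : ℕ := if n % 2 = 0 then n / 2 else 3 * n + 1

/-- The orbit of `n` reaches `1`. -/
def Reaches (n : ℕ) : Prop := ∃ k, collatz^[k] n = 1

/-- Total stopping time. -/
noncomputable def TT (n : ℕ) : ℕ := sInf {k | collatz^[k] n = 1}

theorem collatz_even {x : ℕ} (h : x % 2 = 0) : collatz x = T x := by
  unfold collatz T; rw [if_pos h, if_pos h]

theorem collatz_odd {x : ℕ} (h : x % 2 = 1) : collatz (collatz x) = T x := by
  have h1 : collatz x = 3 * x + 1 := by unfold collatz; rw [if_neg (by omega)]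
  have h2 : collatz (3 * x + 1) = (3 * x + 1) / 2 := by unfold collatz; rw [if_pos (by omega)]
  rw [h1, h2, T_odd h]

theorem collatz_iter (x N : ℕ) : collatz^[N + od x N] x = T^[N] x := by
  induction N with
  | zero => rfl
  | succ n ih =>
      rw [od_succ, iter_succ]
      rcases Nat.mod_two_eq_zero_or_one (T^[n] x) with e | e
      · rw [e, show n + 1 + (od x n + 0) = 1 + (n + od x n) by ring,
          Function.iterate_add_apply, ih]
        exact collatz_even e
      · rw [e, show n + 1 + (od x n + 1) = 2 + (n + od x n) by ring,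
          Function.iterate_add_apply, ih]
        exact collatz_odd e

theorem collatz_ne_one : ∀ (N x : ℕ), 0 < x → (∀ i < N, T^[i] x ≠ 1) →
    ∀ k < N + od x N, collatz^[k] x ≠ 1 := by
  intro N
  induction N with
  | zero => intro x _ _ k hk; simp at hk
  | succ n ih =>
      intro x hx hmin k hk
      have hx1 : x ≠ 1 := by simpa using hmin 0 (by omega)
      have hmin' : ∀ i < n, T^[i] (T x) ≠ 1 := by
        intro i hi
        rw [← iter_succ_left]
        exact hmin (i + 1) (by omega)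
      have IH := ih (T x) (T_pos hx) hmin'
      rw [od_succ_left] at hk
      rcases Nat.mod_two_eq_zero_or_one x with e | e
      · cases k with
        | zero => simpa using hx1
        | succ k =>
            rw [Function.iterate_succ_apply, collatz_even e]
            exact IH k (by omega)
      · cases k with
        | zero => simpa using hx1
        | succ k =>
            cases k with
            | zero =>
                show collatz x ≠ 1
                unfold collatz
                rw [if_neg (by omega)]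
                omega
            | succ k =>
                rw [Function.iterate_succ_apply, Function.iterate_succ_apply, collatz_odd e]
                exact IH k (by omega)

theorem exists_T_of_collatz : ∀ (k x : ℕ), collatz^[k] x = 1 → ∃ N, T^[N] x = 1 := by
  intro k
  induction k using Nat.strong_induction_on with
  | _ k ih =>
    intro x h
    cases k with
    | zero => exact ⟨0, by simpa using h⟩
    | succ k =>
        rw [Function.iterate_succ_apply] at h
        rcases Nat.mod_two_eq_zero_or_one x with e | e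
        · rw [collatz_even e] at h
          obtain ⟨N, hN⟩ := ih k (by omega) _ h
          exact ⟨N + 1, by rw [iter_succ_left]; exact hN⟩
        · cases k with
          | zero =>
              exfalso
              have h' : collatz x = 1 := by simpa using h
              unfold collatz at h'
              rw [if_neg (by omega)] at h'
              omega
          | succ k =>
              rw [Function.iterate_succ_apply, collatz_odd e] at h
              obtain ⟨N, hN⟩ := ih k (by omega) _ h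
              exact ⟨N + 1, by rw [iter_succ_left]; exact hN⟩

/-- The stopping time in terms of the accelerated map. -/
theorem TT_spec {x : ℕ} (hx : 0 < x) (h : Reaches x) :
    ∃ N, T^[N] x = 1 ∧ (∀ i < N, T^[i] x ≠ 1) ∧ TT x = N + od x N := by
  classical
  obtain ⟨k, hk⟩ := h
  have hex := exists_T_of_collatz k x hk
  refine ⟨Nat.find hex, Nat.find_spec hex, fun i hi => Nat.find_min hex hi, ?_⟩
  set N := Nat.find hex with hN
  have h1 : collatz^[N + od x N] x = 1 := by rw [collatz_iter]; exact Nat.find_spec hex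
  have h2 := collatz_ne_one N x hx (fun i hi => Nat.find_min hex hi)
  apply le_antisymm
  · exact Nat.sInf_le h1
  · by_contra hc
    push Not at hc
    have h3 : TT x ∈ {k | collatz^[k] x = 1} := Nat.sInf_mem ⟨_, h1⟩
    exact h2 _ hc h3

theorem TT_eq {x k : ℕ} (h1 : collatz^[k] x = 1) (h2 : ∀ j < k, collatz^[j] x ≠ 1) : TT x = k := by
  apply le_antisymm
  · exact Nat.sInf_le h1
  · by_contra hc
    push Not at hc
    have h3 : TT x ∈ {k | collatz^[k] x = 1} := Nat.sInf_mem ⟨_, h1⟩
    exact h2 _ hc h3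

/-- `5 X + 8 Y` with `X, Y` the lattice coordinates of the pair of differences. -/
theorem arith {n N p N' p' : ℕ} (hn : 0 < n)
    (hlow : (3 : ℝ) ^ p * n ≤ 2 ^ N) (hup : (2 : ℝ) ^ N < 3 / 2 * (3 ^ p * n))
    (hlow' : (3 : ℝ) ^ p' * (n + 1) ≤ 2 ^ N') (hup' : (2 : ℝ) ^ N' < 3 / 2 * (3 ^ p' * n)) :
    (∃ x y : ℕ, ((N' : ℤ) + p' - (N + p)).natAbs = 5 * x + 8 * y) ∨
    ((N' : ℤ) + p' - (N + p) = 3) ∨
    ((N' : ℤ) + p' - (N + p) = -3 ∧ (4 / 3 : ℝ) * (3 ^ p * n) ≤ 2 ^ N) := by
  have hn' : (0 : ℝ) < n := by exact_mod_cast hn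
  set dp : ℤ := (p' : ℤ) - p with hdp
  set dq : ℤ := (N' : ℤ) - N with hdq
  set X : ℤ := 5 * dp - 3 * dq with hX
  set Y : ℤ := 2 * dq - 3 * dp with hY
  have ha : (N' : ℤ) + p' - (N + p) = 5 * X + 8 * Y := by rw [hX, hY, hdp, hdq]; ring
  -- the ratio
  set ρ : ℝ := (2 : ℝ) ^ dq / (3 : ℝ) ^ dp with hρ
  have hρ1 : ρ = (2 ^ N' / 3 ^ p') / (2 ^ N / 3 ^ p) := by
    rw [hρ, hdq, hdp, zpow_sub₀ (by norm_num), zpow_sub₀ (by norm_num)]
    simp only [zpow_natCast]
    field_simp
  have hρ2 : ρ = (8 / 9 : ℝ) ^ X * (32 / 27 : ℝ) ^ Y := by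
    have e1 : dq = 3 * X + 5 * Y := by rw [hX, hY]; ring
    have e2 : dp = 2 * X + 3 * Y := by rw [hX, hY]; ring
    rw [hρ, e1, e2, zpow_add₀ (by norm_num), zpow_add₀ (by norm_num), zpow_mul, zpow_mul,
      zpow_mul, zpow_mul, div_zpow, div_zpow]
    have e8 : (2 : ℝ) ^ (3 : ℤ) = 8 := by norm_num
    have e9 : (3 : ℝ) ^ (2 : ℤ) = 9 := by norm_num
    have e32 : (2 : ℝ) ^ (5 : ℤ) = 32 := by norm_num
    have e27 : (3 : ℝ) ^ (3 : ℤ) = 27 := by norm_num
    rw [e8, e9, e32, e27]
    have h9 : (9 : ℝ) ^ X ≠ 0 := zpow_ne_zero _ (by norm_num)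
    have h27 : (27 : ℝ) ^ Y ≠ 0 := zpow_ne_zero _ (by norm_num)
    field_simp
  have hA : 0 < (2 : ℝ) ^ N / 3 ^ p := by positivity
  have hAlow : (n : ℝ) ≤ 2 ^ N / 3 ^ p := by rw [le_div_iff₀ (by positivity)]; linarith
  have hAup : (2 : ℝ) ^ N / 3 ^ p < 3 / 2 * n := by rw [div_lt_iff₀ (by positivity)]; linarith
  have hAlow' : (n : ℝ) + 1 ≤ 2 ^ N' / 3 ^ p' := by rw [le_div_iff₀ (by positivity)]; linarith
  have hAup' : (2 : ℝ) ^ N' / 3 ^ p' < 3 / 2 * n := by
    rw [div_lt_iff₀ (by positivity)]; linarith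
  have hρlow : 2 / 3 < ρ := by
    rw [hρ1, lt_div_iff₀ hA]; linarith
  have hρup : ρ < 3 / 2 := by
    rw [hρ1, div_lt_iff₀ hA]; linarith
  rw [ha]
  rcases le_or_gt 0 X with hX0 | hX0
  · rcases le_or_gt 0 Y with hY0 | hY0
    · left
      refine ⟨X.toNat, Y.toNat, ?_⟩
      omega
    · rcases eq_or_lt_of_le hX0 with hX1 | hX1
      · left
        refine ⟨0, (-Y).toNat, ?_⟩
        omega
      · -- X ≥ 1, Y ≤ -1
        right; right
        obtain ⟨i, hi⟩ : ∃ i : ℕ, X = i + 1 := ⟨(X - 1).toNat, by omega⟩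
        obtain ⟨j, hj⟩ : ∃ j : ℕ, Y = -((j : ℤ) + 1) := ⟨(-Y - 1).toNat, by omega⟩
        have hr : ρ = 3 / 4 * ((8 / 9 : ℝ) ^ i * (27 / 32 : ℝ) ^ j) := by
          rw [hρ2, hi, hj, zpow_neg, ← inv_zpow, zpow_add₀ (by norm_num), zpow_add₀ (by norm_num)]
          simp only [zpow_natCast, zpow_one]
          rw [show ((32 / 27 : ℝ))⁻¹ = 27 / 32 by norm_num]
          ring
        have hij : i = 0 ∧ j = 0 := by
          by_contra hc
          have h1 : (8 / 9 : ℝ) ^ i ≤ 1 := pow_le_one₀ (by norm_num) (by norm_num)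
          have h2 : (27 / 32 : ℝ) ^ j ≤ 1 := pow_le_one₀ (by norm_num) (by norm_num)
          have h10 : 0 ≤ (8 / 9 : ℝ) ^ i := by positivity
          have h20 : 0 ≤ (27 / 32 : ℝ) ^ j := by positivity
          have hc' : 1 ≤ i ∨ 1 ≤ j := by omega
          have h3 : (8 / 9 : ℝ) ^ i * (27 / 32 : ℝ) ^ j ≤ 8 / 9 := by
            rcases hc' with hc' | hc'
            · have : (8 / 9 : ℝ) ^ i ≤ (8 / 9) ^ 1 :=
                pow_le_pow_of_le_one (by norm_num) (by norm_num) hc'
              nlinarith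
            · have : (27 / 32 : ℝ) ^ j ≤ (27 / 32) ^ 1 :=
                pow_le_pow_of_le_one (by norm_num) (by norm_num) hc'
              nlinarith
          rw [hr] at hρlow
          linarith
        obtain ⟨rfl, rfl⟩ := hij
        refine ⟨by omega, ?_⟩
        have h34 : ρ = 3 / 4 := by rw [hr]; norm_num
        rw [hρ1, div_eq_iff hA.ne'] at h34
        have h5 : (4 / 3 : ℝ) * n ≤ 2 ^ N / 3 ^ p := by linarith
        rw [le_div_iff₀ (by positivity)] at h5
        linarith
  · rcases le_or_gt Y 0 with hY0 | hY0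
    · left
      refine ⟨(-X).toNat, (-Y).toNat, ?_⟩
      omega
    · -- X ≤ -1, Y ≥ 1
      right; left
      obtain ⟨i, hi⟩ : ∃ i : ℕ, X = -((i : ℤ) + 1) := ⟨(-X - 1).toNat, by omega⟩
      obtain ⟨j, hj⟩ : ∃ j : ℕ, Y = j + 1 := ⟨(Y - 1).toNat, by omega⟩
      have hr : ρ = 4 / 3 * ((9 / 8 : ℝ) ^ i * (32 / 27 : ℝ) ^ j) := by
        rw [hρ2, hi, hj, zpow_neg, ← inv_zpow, zpow_add₀ (by norm_num), zpow_add₀ (by norm_num)]
        simp only [zpow_natCast, zpow_one]
        rw [show ((8 / 9 : ℝ))⁻¹ = 9 / 8 by norm_num]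
        ring
      have hij : i = 0 ∧ j = 0 := by
        by_contra hc
        have h1 : 1 ≤ (9 / 8 : ℝ) ^ i := one_le_pow₀ (by norm_num)
        have h2 : 1 ≤ (32 / 27 : ℝ) ^ j := one_le_pow₀ (by norm_num)
        have hc' : 1 ≤ i ∨ 1 ≤ j := by omega
        have h3 : 9 / 8 ≤ (9 / 8 : ℝ) ^ i * (32 / 27 : ℝ) ^ j := by
          rcases hc' with hc' | hc'
          · have : (9 / 8 : ℝ) ^ 1 ≤ (9 / 8 : ℝ) ^ i := pow_le_pow_right₀ (by norm_num) hc'
            nlinarith
          · have : (32 / 27 : ℝ) ^ 1 ≤ (32 / 27 : ℝ) ^ j := pow_le_pow_right₀ (by norm_num) hc'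
            nlinarith
        rw [hr] at hρup
        linarith
      obtain ⟨rfl, rfl⟩ := hij
      omega


theorem TT_vals : TT 1 = 0 ∧ TT 2 = 1 ∧ TT 3 = 7 ∧ TT 4 = 2 ∧ TT 5 = 5 ∧ TT 6 = 8 ∧ TT 7 = 16 ∧
    TT 8 = 3 := by
  refine ⟨?_, ?_, ?_, ?_, ?_, ?_, ?_, ?_⟩ <;> apply TT_eq <;> decide

/-- The full statement on the differences of consecutive total stopping times, from the bound
`2 ^ N < 4 / 3 * 3 ^ od x N * x` for every `x` reaching `1`. -/
theorem full
    (hres : ∀ x N : ℕ, 0 < x → T^[N] x = 1 → (∀ i < N, T^[i] x ≠ 1) →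
      (2 : ℝ) ^ N < 4 / 3 * (3 ^ od x N * x))
    {n : ℕ} (hn : 1 ≤ n) (hr1 : Reaches n) (hr2 : Reaches (n + 1))
    (ha1 : (TT (n + 1) : ℤ) - TT n ≠ 1) (ha3 : (TT (n + 1) : ℤ) - TT n ≠ 3)
    (ha6 : (TT (n + 1) : ℤ) - TT n ≠ 6) :
    ∃ x y : ℕ, ((TT (n + 1) : ℤ) - TT n).natAbs = 5 * x + 8 * y := by
  obtain ⟨t1, t2, t3, t4, t5, t6, t7, t8⟩ := TT_vals
  by_cases hsmall : n ≤ 7
  · have : n = 1 ∨ n = 2 ∨ n = 3 ∨ n = 4 ∨ n = 5 ∨ n = 6 ∨ n = 7 := by omega
    rcases this with rfl | rfl | rfl | rfl | rfl | rfl | rfl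
    · rw [show (1 + 1 : ℕ) = 2 by norm_num, t1, t2] at ha1; norm_num at ha1
    · rw [show (2 + 1 : ℕ) = 3 by norm_num, t2, t3] at ha6; norm_num at ha6
    · rw [show (3 + 1 : ℕ) = 4 by norm_num, t3, t4]
      exact ⟨1, 0, by norm_num⟩
    · rw [show (4 + 1 : ℕ) = 5 by norm_num, t4, t5] at ha3; norm_num at ha3
    · rw [show (5 + 1 : ℕ) = 6 by norm_num, t5, t6] at ha3; norm_num at ha3
    · rw [show (6 + 1 : ℕ) = 7 by norm_num, t6, t7]
      exact ⟨0, 1, by norm_num⟩
    · rw [show (7 + 1 : ℕ) = 8 by norm_num, t7, t8]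
      exact ⟨1, 1, by norm_num⟩
  · push Not at hsmall
    obtain ⟨N, h1, h2, h3⟩ := TT_spec (x := n) (by omega) hr1
    obtain ⟨N', g1, g2, g3⟩ := TT_spec (x := n + 1) (by omega) hr2
    have hlow : (3 : ℝ) ^ od n N * n ≤ 2 ^ N := by
      have h4 := three_pow_le n N
      rw [h1, mul_one] at h4
      exact_mod_cast h4
    have hlow' : (3 : ℝ) ^ od (n + 1) N' * (n + 1) ≤ 2 ^ N' := by
      have h4 := three_pow_le (n + 1) N'
      rw [g1, mul_one] at h4
      exact_mod_cast h4
    have h43 := hres n N (by omega) h1 h2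
    have g43 := hres (n + 1) N' (by omega) g1 g2
    have hn' : (8 : ℝ) ≤ n := by exact_mod_cast hsmall
    have hp : (0 : ℝ) < 3 ^ od n N := by positivity
    have hp' : (0 : ℝ) < 3 ^ od (n + 1) N' := by positivity
    push_cast at g43
    have hup : (2 : ℝ) ^ N < 3 / 2 * (3 ^ od n N * n) := by
      have : (0 : ℝ) < 3 ^ od n N * n := by positivity
      nlinarith
    have hup' : (2 : ℝ) ^ N' < 3 / 2 * (3 ^ od (n + 1) N' * n) := by
      have h8 : (4 / 3 : ℝ) * (n + 1) ≤ 3 / 2 * n := by linarith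
      have h9 := mul_le_mul_of_nonneg_left h8 hp'.le
      linarith
    have hmain := arith (n := n) (N := N) (p := od n N) (N' := N') (p' := od (n + 1) N')
      (by omega) hlow hup hlow' hup'
    have e : (TT (n + 1) : ℤ) - TT n = (N' : ℤ) + (od (n + 1) N' : ℕ) - (N + (od n N : ℕ)) := by
      rw [h3, g3]; push_cast; ring
    rw [e]
    rcases hmain with h | h | ⟨_, h⟩
    · exact h
    · exact absurd (by rw [e]; exact h) ha3
    · exact absurd h43 (not_lt.mpr h)

end H86C.FinQ
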