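import Pool.Agent.H86.C.Lane
import Pool.Agent.H86.C.Grid

/-! # Module Gath: gathering by the index map

`sh t i` is the shift that the tree `t` applies to the position `i`; `wf t n len` says that from `n` fields it produces
`len` fields correctly.

* `gath_eq` by induction on `t` for all `n, len, f`: `nil` clear; `lf k` : `low_eq`; node `(p, h, w)`:
  `X & allo (40 (h+w))` are the fields `< h+w` (`low_eq`), `>> 40 h` leaves `w` fields `f (· + h)` (`high_eq`),
  induction gives `p` fields `f (i + sh l i + h)`; `X >> 40 p` gives `n - p` fields `f (· + p)`, induction gives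
  `len - p` fields, shifted up by `p` (`up_eq`) and added (`pk_add` after extending the first one by zeros, `pk_extend` of
  `Pool/Agent/H1/Col/DP.lean`).
* `gE = gath TR` is `rfl`.
* `sh_TR` : kernel check (`allB`) for `i < 6400` of `Nat.beq (sh TR i) (cnt TH i)` and for `i ≥ 6319` both are `0`
  (`cnt`: all thresholds are `≤ 6319`; `sh`: the right spine of the tree; or check all `i < 10166`, about 2 s).
  If the definition by `match` is slow in the kernel, use a version with `Tr.rec`.
* `wf_TR` : unfold (`decide` or `simp`, `norm_num`); perhaps make a Boolean version and `decide +kernel`.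
* `gl_eq` : `V >> 9360 = V >> 40 * 234` (`high_eq`), gather, add the upper fields `P` (`blk_eq`), halve. -/

namespace H86C

open H1Col (pk)

/-- Shift applied at the position `i`. -/
def sh : Tr → ℕ → ℕ
  | Tr.nil, _ => 0
  | Tr.lf _, _ => 0
  | Tr.nd p h _ l r, i => if i < p then h + sh l i else sh r (i - p)

/-- The tree produces `len` fields from `n`. -/
def wf : Tr → ℕ → ℕ → Prop
  | Tr.nil, n, len => n = len
  | Tr.lf k, n, len => k ≤ n ∧ len = k
  | Tr.nd p h w l r, n, len => h + w ≤ n ∧ p ≤ n ∧ p ≤ len ∧ wf l w p ∧ wf r (n - p) (len - p)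

private theorem pk_ext {n k : ℕ} {f : ℕ → ℕ} :
    pk 40 f n = pk 40 (fun i => if i < n then f i else 0) (n + k) := by
  rw [H1Col.pk_append]
  have z : pk 40 (fun i => if i + n < n then f (i + n) else 0) k = 0 := by
    unfold pk
    apply Finset.sum_eq_zero
    intro i _
    simp
  rw [z, mul_zero, add_zero]
  apply H1Col.pk_congr
  intro i hi
  rw [if_pos hi]

theorem gath_eq (t : Tr) : ∀ (n len : ℕ) (f : ℕ → ℕ), wf t n len → (∀ i, f i < 2 ^ 40) →
    gath t (pk 40 f n) = pk 40 (fun i => f (i + sh t i)) len := by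
  induction t with
  | nil =>
      intro n len f h hf
      have h' : n = len := h
      subst h'
      show pk 40 f n = pk 40 (fun i => f (i + 0)) n
      rfl
  | lf k =>
      intro n len f h hf
      have h' : k ≤ n ∧ len = k := h
      obtain ⟨h1, h2⟩ := h'
      subst h2
      show Nat.land (pk 40 f n) (allo (Nat.mul 40 len)) = pk 40 (fun i => f (i + 0)) len
      exact low_eq h1 (fun i _ => hf i)
  | nd p h w l r ihl ihr =>
      intro n len f hw hf
      have hw' : h + w ≤ n ∧ p ≤ n ∧ p ≤ len ∧ wf l w p ∧ wf r (n - p) (len - p) := hw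
      obtain ⟨h1, h2, h3, h4, h5⟩ := hw'
      show Nat.add (gath l (Nat.shiftRight (Nat.land (pk 40 f n) (allo (Nat.mul 40 (Nat.add h w))))
          (Nat.mul 40 h)))
        (Nat.shiftLeft (gath r (Nat.shiftRight (pk 40 f n) (Nat.mul 40 p))) (Nat.mul 40 p)) = _
      have e1 : Nat.land (pk 40 f n) (allo (Nat.mul 40 (Nat.add h w))) = pk 40 f (h + w) :=
        low_eq (n := h + w) h1 (fun i _ => hf i)
      have e2 : Nat.shiftRight (pk 40 f (h + w)) (Nat.mul 40 h) =
          pk 40 (fun i => f (i + h)) w := by
        rw [high_eq (n := h) (Nat.le_add_right h w) (fun i _ => hf i), Nat.add_sub_cancel_left]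
      have e3 : Nat.shiftRight (pk 40 f n) (Nat.mul 40 p) = pk 40 (fun i => f (i + p)) (n - p) :=
        high_eq h2 (fun i _ => hf i)
      rw [e1, e2, e3, ihl w p (fun i => f (i + h)) h4 (fun i => hf _),
        ihr (n - p) (len - p) (fun i => f (i + p)) h5 (fun i => hf _), up_eq]
      show pk 40 _ p + pk 40 _ (p + (len - p)) = _
      rw [pk_ext (n := p) (k := len - p), H1Col.pk_add, Nat.add_sub_cancel' h3]
      apply H1Col.pk_congr
      intro i _
      show (if i < p then f (i + sh l i + h) else 0) +
        (if i < p then 0 else f (i - p + sh r (i - p) + p)) =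
          f (i + (if i < p then h + sh l i else sh r (i - p)))
      by_cases hi : i < p
      · rw [if_pos hi, if_pos hi, if_pos hi, add_zero]
        congr 1
        omega
      · rw [if_neg hi, if_neg hi, if_neg hi, zero_add]
        congr 1
        omega

private def lft : Tr → Tr
  | Tr.nil => Tr.nil
  | Tr.lf _ => Tr.nil
  | Tr.nd _ _ _ l _ => l

private theorem TR_split :
    TR = Tr.nd 3827 2 3957 (lft TR) (Tr.nd 2492 1 2492 Tr.nil Tr.nil) := rfl

private def wfB : Tr → ℕ → ℕ → Bool
  | Tr.nil, n, len => Nat.beq n len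
  | Tr.lf k, n, len => Nat.ble k n && Nat.beq len k
  | Tr.nd p h w l r, n, len => Nat.ble (h + w) n && (Nat.ble p n && (Nat.ble p len &&
      (wfB l w p && wfB r (n - p) (len - p))))

private theorem wfB_spec (t : Tr) : ∀ (n len : ℕ), wfB t n len = true → wf t n len := by
  induction t with
  | nil =>
      intro n len h
      exact Nat.eq_of_beq_eq_true h
  | lf k =>
      intro n len h
      have h' : (Nat.ble k n && Nat.beq len k) = true := h
      rw [Bool.and_eq_true] at h'
      exact ⟨Nat.ble_eq.mp h'.1, Nat.eq_of_beq_eq_true h'.2⟩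
  | nd p h w l r ihl ihr =>
      intro n len hb
      have h' : (Nat.ble (h + w) n && (Nat.ble p n && (Nat.ble p len &&
        (wfB l w p && wfB r (n - p) (len - p))))) = true := hb
      rw [Bool.and_eq_true, Bool.and_eq_true, Bool.and_eq_true, Bool.and_eq_true] at h'
      exact ⟨Nat.ble_eq.mp h'.1, Nat.ble_eq.mp h'.2.1, Nat.ble_eq.mp h'.2.2.1,
        ihl _ _ h'.2.2.2.1, ihr _ _ h'.2.2.2.2⟩

theorem wf_TR {n : ℕ} (h : 6400 ≤ n) : wf TR n n := by
  have h0 : wfB (lft TR) 3957 3827 = true := by decide +kernel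
  rw [TR_split]
  show 2 + 3957 ≤ n ∧ 3827 ≤ n ∧ 3827 ≤ n ∧ wf (lft TR) 3957 3827 ∧
    (1 + 2492 ≤ n - 3827 ∧ 2492 ≤ n - 3827 ∧ 2492 ≤ n - 3827 ∧ 2492 = 2492 ∧
      n - 3827 - 2492 = n - 3827 - 2492)
  exact ⟨by omega, by omega, by omega, wfB_spec _ _ _ h0, by omega, by omega, by omega, rfl, rfl⟩

private noncomputable def shR (t : Tr) : Nat → Nat :=
  @Tr.rec (fun _ => Nat → Nat) (fun _ => 0) (fun _ _ => 0)
    (fun p h _ _ _ ihl ihr i => bif Nat.ble (i + 1) p then h + ihl i else ihr (i - p)) t

private theorem sh_eq_shR (t : Tr) : ∀ i, sh t i = shR t i := by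
  induction t with
  | nil => intro i; rfl
  | lf k => intro i; rfl
  | nd p h w l r ihl ihr =>
      intro i
      show (if i < p then h + sh l i else sh r (i - p)) =
        (bif Nat.ble (i + 1) p then h + shR l i else shR r (i - p))
      rw [ihl, ihr]
      by_cases hi : i < p
      · have : Nat.ble (i + 1) p = true := Nat.ble_eq.mpr hi
        rw [if_pos hi, this]
        rfl
      · have : Nat.ble (i + 1) p = false := by
          rw [Bool.eq_false_iff]
          intro hh
          exact hi (Nat.ble_eq.mp hh)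
        rw [if_neg hi, this]
        rfl

private theorem cnt_zero {l : List ℕ} {i : ℕ} (h : ∀ t ∈ l, t ≤ i) : cnt l i = 0 := by
  induction l with
  | nil => rfl
  | cons t l ih =>
      rw [cnt_cons, if_neg (by have := h t (by simp); omega)]
      exact ih (fun t ht => h t (by simp [ht]))

private theorem sh_small : ∀ i < 6400, sh TR i = cnt TH i := by
  have hk : allB (fun i => Nat.beq (shR TR i) (cnt TH i)) 6400 = true := by decide +kernel
  intro i hi
  rw [sh_eq_shR]
  exact Nat.eq_of_beq_eq_true (allB_spec hk i hi)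

theorem sh_TR (i : ℕ) : sh TR i = cnt TH i := by
  by_cases hi : i < 6400
  · exact sh_small i hi
  · have h1 : cnt TH i = 0 := by
      apply cnt_zero
      have : ∀ t ∈ TH, t ≤ 6319 := by decide +kernel
      intro t ht
      have := this t ht
      omega
    rw [h1, TR_split]
    show (if i < 3827 then 2 + sh (lft TR) i else
      (if i - 3827 < 2492 then 1 + 0 else 0)) = 0
    rw [if_neg (by omega), if_neg (by omega)]

theorem gE_eq : gE = gath TR := rfl

theorem gl_eq {F top : ℕ} {f : ℕ → ℕ} (hF : 7000 ≤ F) (hf : ∀ i, f i ≤ 2 ^ 38) (ht : top ≤ 2 ^ 38) :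
    gl (blk top (F - 234) 234) (pk 40 f F) =
      Nat.shiftRight (pk 40 (fun i => if F - 234 ≤ i then top else f (J i)) F) 1 := by
  have hf' : ∀ i, f i < 2 ^ 40 := fun i => lt_of_le_of_lt (hf i) (by norm_num)
  have e1 : Nat.shiftRight (pk 40 f F) 9360 = pk 40 (fun i => f (i + 234)) (F - 234) :=
    high_eq (n := 234) (by omega) (fun i _ => hf' i)
  have e2 : gE (Nat.shiftRight (pk 40 f F) 9360) =
      pk 40 (fun i => f (i + sh TR i + 234)) (F - 234) := by
    rw [gE_eq, e1]
    exact gath_eq TR _ _ (fun i => f (i + 234)) (wf_TR (by omega)) (fun i => hf' _)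
  show Nat.shiftRight (gE (Nat.shiftRight (pk 40 f F) 9360) + blk top (F - 234) 234) 1 = _
  rw [e2, blk_eq, pk_ext (n := F - 234) (k := 234), H1Col.pk_add,
    Nat.sub_add_cancel (show 234 ≤ F by omega)]
  refine congrArg (fun z => Nat.shiftRight z 1) ?_
  apply H1Col.pk_congr
  intro i _
  have e : i + sh TR i + 234 = J i := by
    have hJ : J i = i + 234 + cnt TH i := rfl
    rw [sh_TR, hJ, Nat.add_right_comm]
  rw [e]
  by_cases hi : i < F - 234
  · have h2 : ¬ F - 234 ≤ i := by omega
    simp only [if_pos hi, if_neg h2, add_zero]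
  · have h2 : F - 234 ≤ i := by omega
    simp only [if_neg hi, if_pos h2, zero_add]

end H86C
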