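import Pool.Agent.H86.C.Def

/-! # Module Lane: packed vectors with 40 bits per field

Model: `Pool/Agent/H1/Col/DP.lean` (there 48 bits): `pk_ones`, `onesOf_eq`, `padOf_eq`, `cutLow_eq`, `drop_eq`,
`upBy_eq`, `lowF_eq`, `pk_extend`, and `Pool/Agent/H1/Col/Pack.lean` (`pk_mod`, `pk_div`, `pk_shift`, `pk_land`,
`pk_add`, `pk_half`, `pk_testBit`, ..). Open `H1Col` for `pk`; beware that `Nat.shiftLeft` etc. in `DpD.lean` are written
as functions: start with `show` or `simp only [Nat.shiftLeft_eq', ..]`.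

`val_eq` is the main point. Let `s i = (if i < 400 then 0 else f (i - 400)) + h i` (`< 2^39`), as fields up to `F + 400`
(`h` extended by zero). `a <<< 15999 + (b >>> 1) = (a <<< 16000 + b) >>> 1` (the first summand is even), and
`a <<< 16000 + b = pk 40 s (F + 400)`. Half of it: `∑ s_i 2^(40 i) / 2`; write `s_i = 2 q_i + t_i` (`t_i ≤ 1`):
the half is `∑ q_i 2^(40 i) + ∑_{i ≥ 1} t_i 2^(40 i - 1)`, i.e. the fields are `q_i + 2^39 t_(i+1)` (with `q_i < 2^39`,
so they are `< 2^40`). The mask has `2^39 - 1` in the fields `k < i < F` and `0` elsewhere: the result is `q_i` there. -/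

namespace H86C

open H1Col (pk)

private theorem lane_ones (w n : ℕ) : pk w (fun _ => 1) n * (2 ^ w - 1) + 1 = 2 ^ (w * n) := by
  induction n with
  | zero => simp
  | succ n ih =>
      rw [H1Col.pk_succ, Nat.mul_succ, pow_add]
      have h1 : 1 ≤ 2 ^ w := Nat.one_le_two_pow
      obtain ⟨c, hc⟩ : ∃ c, 2 ^ w = c + 1 := ⟨2 ^ w - 1, by omega⟩
      rw [hc] at ih ⊢
      simp only [Nat.add_sub_cancel] at ih ⊢
      nlinarith

private theorem lane_extend {w n k : ℕ} {f : ℕ → ℕ} :
    pk w f n = pk w (fun i => if i < n then f i else 0) (n + k) := by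
  rw [H1Col.pk_append]
  have z : pk w (fun i => if i + n < n then f (i + n) else 0) k = 0 := by
    unfold pk
    apply Finset.sum_eq_zero
    intro i _
    simp
  rw [z, mul_zero, add_zero]
  apply H1Col.pk_congr
  intro i hi
  rw [if_pos hi]

theorem allo_eq (n : ℕ) : allo n = 2 ^ n - 1 := by
  show (1 <<< n) - 1 = 2 ^ n - 1
  rw [Nat.shiftLeft_eq, one_mul]

theorem ons_eq (n : ℕ) : ons n = pk 40 (fun _ => 1) n := by
  show allo (40 * n) / 1099511627775 = _
  have h := lane_ones 40 n
  rw [allo_eq, ← h, Nat.add_sub_cancel]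
  exact Nat.mul_div_cancel _ (by norm_num)

theorem blk_eq (c a n : ℕ) : blk c a n = pk 40 (fun i => if i < a then 0 else c) (a + n) := by
  show (c * ons n) <<< (40 * a) = _
  rw [Nat.shiftLeft_eq, ons_eq, Nat.mul_comm c, H1Col.pk_mul, H1Col.pk_shift]
  apply H1Col.pk_congr
  intro i _
  rw [one_mul]

theorem mk_eq {F k : ℕ} (h : k < F) :
    mk F k = pk 40 (fun i => if i ≤ k then 0 else 549755813887) F := by
  show blk 549755813887 (k + 1) (F - (k + 1)) = _
  rw [blk_eq, show k + 1 + (F - (k + 1)) = F by omega]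
  apply H1Col.pk_congr
  intro i _
  by_cases hi : i ≤ k
  · rw [if_pos hi, if_pos (by omega)]
  · rw [if_neg hi, if_neg (by omega)]

/-- `X & allo (40 n)` keeps the fields below `n`. -/
theorem low_eq {n N : ℕ} {f : ℕ → ℕ} (h : n ≤ N) (hf : ∀ i < N, f i < 2 ^ 40) :
    Nat.land (pk 40 f N) (allo (Nat.mul 40 n)) = pk 40 f n := by
  show pk 40 f N &&& allo (40 * n) = _
  rw [allo_eq, Nat.and_two_pow_sub_one_eq_mod, H1Col.pk_mod h (fun i hi => hf i (by omega))]

/-- `X >> 40 n` drops the fields below `n`. -/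
theorem high_eq {n N : ℕ} {f : ℕ → ℕ} (h : n ≤ N) (hf : ∀ i < N, f i < 2 ^ 40) :
    Nat.shiftRight (pk 40 f N) (Nat.mul 40 n) = pk 40 (fun i => f (i + n)) (N - n) := by
  show pk 40 f N >>> (40 * n) = _
  rw [Nat.shiftRight_eq_div_pow, H1Col.pk_div h (fun i hi => hf i (by omega))]

theorem up_eq {n N : ℕ} {f : ℕ → ℕ} :
    Nat.shiftLeft (pk 40 f N) (Nat.mul 40 n) = pk 40 (fun i => if i < n then 0 else f (i - n)) (n + N) := by
  show pk 40 f N <<< (40 * n) = _
  rw [Nat.shiftLeft_eq, H1Col.pk_shift]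

private theorem lane_split (n : ℕ) : ∀ s : ℕ → ℕ, pk 40 s n = (if n = 0 then 0 else s 0 % 2) +
    2 * pk 40 (fun i => s i / 2 + 549755813888 * (if i + 1 < n then s (i + 1) % 2 else 0)) n := by
  induction n with
  | zero => intro s; simp
  | succ n ih =>
      intro s
      rw [H1Col.pk_succ', ih (fun i => s (i + 1)), H1Col.pk_succ', if_neg (Nat.succ_ne_zero n)]
      have e : pk 40 (fun i => s (i + 1) / 2 + 549755813888 *
          (if i + 1 + 1 < n + 1 then s (i + 1 + 1) % 2 else 0)) n =
          pk 40 (fun i => s (i + 1) / 2 + 549755813888 * (if i + 1 < n then s (i + 1 + 1) % 2 else 0)) n := by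
        apply H1Col.pk_congr
        intro i _
        by_cases hi : i + 1 < n
        · rw [if_pos hi, if_pos (by omega)]
        · rw [if_neg hi, if_neg (by omega)]
      rw [e]
      generalize pk 40 (fun i => s (i + 1) / 2 + 549755813888 * (if i + 1 < n then s (i + 1 + 1) % 2 else 0)) n = P
      by_cases hn : n = 0
      · subst hn
        norm_num
        omega
      · rw [if_neg hn, if_pos (show 0 + 1 < n + 1 by omega)]
        norm_num
        omega

private theorem lane_mask {q t : ℕ} (hq : q < 549755813888) :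
    (q + 549755813888 * t) &&& 549755813887 = q := by
  have h := Nat.and_two_pow_sub_one_eq_mod (q + 549755813888 * t) 39
  norm_num at h
  rw [h]
  omega

private theorem lane_shift (A B : ℕ) : (A <<< 15999) + (B >>> 1) = (A * 2 ^ (40 * 400) + B) / 2 := by
  rw [Nat.shiftLeft_eq, Nat.shiftRight_eq_div_pow, pow_one, show 40 * 400 = 15999 + 1 from rfl, pow_succ,
    ← mul_assoc]
  generalize A * 2 ^ 15999 = A'
  omega

private theorem lane_sum (F : ℕ) (f h : ℕ → ℕ) : pk 40 f F * 2 ^ (40 * 400) + pk 40 h F =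
    pk 40 (fun i => (if i < 400 then 0 else f (i - 400)) + (if i < F then h i else 0)) (F + 400) := by
  rw [H1Col.pk_shift, lane_extend (w := 40) (f := h) (n := F) (k := 400), Nat.add_comm 400 F, H1Col.pk_add]

private theorem lane_land {F k : ℕ} {s : ℕ → ℕ} (hsl : ∀ i, s i ≤ 549755813888) :
    (pk 40 s (F + 400) / 2) &&& pk 40 (fun i => if i ≤ k then 0 else 549755813887) F =
      pk 40 (fun i => if i ≤ k then 0 else s i / 2) F := by
  by_cases h0 : F + 400 = 0
  · omega
  rw [lane_split, if_neg h0]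
  have e3 : ∀ Q : ℕ, (s 0 % 2 + 2 * Q) / 2 = Q := by intro Q; omega
  rw [e3, lane_extend (w := 40) (n := F) (k := 400)
    (f := fun i => if i ≤ k then 0 else 549755813887), H1Col.pk_land]
  · rw [lane_extend (w := 40) (n := F) (k := 400) (f := fun i => if i ≤ k then 0 else s i / 2)]
    apply H1Col.pk_congr
    intro i _
    show ((s i / 2 + 549755813888 * (if i + 1 < F + 400 then s (i + 1) % 2 else 0)) &&&
      (if i < F then (if i ≤ k then 0 else 549755813887) else 0)) =
      (if i < F then (if i ≤ k then 0 else s i / 2) else 0)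
    by_cases hi : i < F
    · rw [if_pos hi, if_pos hi]
      by_cases hik : i ≤ k
      · rw [if_pos hik, if_pos hik, Nat.and_zero]
      · rw [if_neg hik, if_neg hik, lane_mask (by have := hsl i; omega)]
    · rw [if_neg hi, if_neg hi, Nat.and_zero]
  · intro i _
    have h1 := hsl i
    show s i / 2 + 549755813888 * (if i + 1 < F + 400 then s (i + 1) % 2 else 0) < 2 ^ 40
    have h2 : (if i + 1 < F + 400 then s (i + 1) % 2 else 0) ≤ 1 := by split_ifs <;> omega
    have h3 : (2:ℕ) ^ 40 = 1099511627776 := by norm_num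
    rw [h3]
    generalize (if i + 1 < F + 400 then s (i + 1) % 2 else 0) = t at h2 ⊢
    omega
  · intro i _
    show (if i < F then (if i ≤ k then 0 else 549755813887) else 0) < 2 ^ 40
    split_ifs <;> norm_num

theorem val_eq {F k : ℕ} {f h : ℕ → ℕ} (hk : k < F) (hf : ∀ i, f i ≤ 2 ^ 38) (hh : ∀ i, h i ≤ 2 ^ 38) :
    val (pk 40 f F) (Nat.shiftRight (pk 40 h F) 1) (mk F k) =
      pk 40 (fun i => if i ≤ k then 0 else ((if i < 400 then 0 else f (i - 400)) + h i) / 2) F := by
  have e0 : val (pk 40 f F) (Nat.shiftRight (pk 40 h F) 1) (mk F k) =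
      ((pk 40 f F <<< 15999) + (pk 40 h F >>> 1)) &&& mk F k := rfl
  rw [e0, lane_shift, lane_sum, mk_eq hk, lane_land]
  · apply H1Col.pk_congr
    intro i hi
    show (if i ≤ k then 0 else ((if i < 400 then 0 else f (i - 400)) + (if i < F then h i else 0)) / 2) =
      (if i ≤ k then 0 else ((if i < 400 then 0 else f (i - 400)) + h i) / 2)
    rw [if_pos hi]
  · intro i
    have h1 := hf (i - 400)
    have h2 := hh i
    norm_num at h1 h2
    show (if i < 400 then 0 else f (i - 400)) + (if i < F then h i else 0) ≤ 549755813888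
    split_ifs <;> omega

theorem fld_eq {F i : ℕ} {f : ℕ → ℕ} (hi : i < F) (hf : ∀ i < F, f i < 2 ^ 40) :
    fld (pk 40 f F) i = f i := by
  have h1 : Nat.shiftRight (pk 40 f F) (Nat.mul 40 i) = pk 40 (fun j => f (j + i)) (F - i) :=
    high_eq (by omega) hf
  have h2 := low_eq (n := 1) (N := F - i) (f := fun j => f (j + i)) (by omega) (fun j hj => hf _ (by omega))
  have h3 : allo (Nat.mul 40 1) = 1099511627775 := by
    rw [allo_eq]; norm_num
  rw [h3] at h2
  show Nat.land (Nat.shiftRight (pk 40 f F) (Nat.mul 40 i)) 1099511627775 = f i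
  rw [h1, h2, H1Col.pk_succ, H1Col.pk_zero]
  simp

end H86C
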