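import Pool.Agent.H86.C.PotA

/-! # Module PotC: windows above `BB`, short descents

COPY `K_div_le` and `short_descent` of `Pool/Agent/H1/Col/Potential.lean` and adapt (`566231040` becomes
`BB = 65229815808 = 243 * 2^28`, `m 605` becomes `m 2184`, `524290` becomes `524289`).
For `short_descent`: `3^od x ≤ 2^t T^t x < 2^t BB`, `x ≥ 243 * 2^a` with `t ≤ nx x = a + 11`, hence
`3^od < 2^39`, `od ≤ 24` (`3^25 > 2^39`), and each term of `Sm` is at most `1/(3 BB)`. -/

namespace H86C

theorem K_div_le {n x : ℕ} (hu : x % 3 ≠ 0) (h : ∀ i ≤ n, 65229815808 ≤ H1Col.T^[i] x) :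
    K n x / x ≤ (m 2184 : ℝ) / 65229815808 := by
  induction n generalizing x with
  | zero =>
      have h0 := h 0 (le_refl _)
      simp only [Function.iterate_zero, id_eq] at h0
      have h0' : (65229815808 : ℝ) ≤ x := by exact_mod_cast h0
      have hk : (m (kap (x % 243)) : ℝ) ≤ m 2184 := by
        exact_mod_cast m_mono (kap_bd (x % 243) (Nat.mod_lt _ (by norm_num)) (by omega)).2
      show (m (kap (x % 243)) : ℝ) / x ≤ _
      calc (m (kap (x % 243)) : ℝ) / x ≤ (m 2184 : ℝ) / x :=
            div_le_div_of_nonneg_right hk (by positivity)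
        _ ≤ _ := div_le_div_of_nonneg_left (by positivity) (by norm_num) h0'
  | succ n ih =>
      have h0 := h 0 (by omega)
      simp only [Function.iterate_zero, id_eq] at h0
      have h0' : (65229815808 : ℝ) ≤ x := by exact_mod_cast h0
      have hxp : (0 : ℝ) < x := by linarith
      have hk : (m (kap (x % 243)) : ℝ) ≤ m 2184 := by
        exact_mod_cast m_mono (kap_bd (x % 243) (Nat.mod_lt _ (by norm_num)) (by omega)).2
      have hT : ∀ i ≤ n, 65229815808 ≤ H1Col.T^[i] (H1Col.T x) := by
        intro i hi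
        rw [← H1Col.iter_succ_left]
        exact h (i + 1) (by omega)
      have huT : H1Col.T x % 3 ≠ 0 := by
        rcases Nat.mod_two_eq_zero_or_one x with e | e
        · rw [H1Col.T_even e]; omega
        · rw [H1Col.T_odd e]; omega
      have h1 := ih huT hT
      have hb : (m (kap (x % 243)) : ℝ) / x ≤ (m 2184 : ℝ) / 65229815808 := by
        calc (m (kap (x % 243)) : ℝ) / x ≤ (m 2184 : ℝ) / x :=
              div_le_div_of_nonneg_right hk (by positivity)
          _ ≤ _ := div_le_div_of_nonneg_left (by positivity) (by norm_num) h0'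
      rw [div_le_iff₀ hxp] at hb ⊢
      show max _ _ ≤ _
      apply max_le hb
      rcases Nat.mod_two_eq_zero_or_one x with e | e
      · rw [if_pos e, ← H1Col.T_even e]
        have e2 : ((H1Col.T x : ℕ) : ℝ) * 2 = x := by
          have := H1Col.two_T_even e
          have h' : H1Col.T x * 2 = x := by omega
          exact_mod_cast h'
        have hTp : (0 : ℝ) < ((H1Col.T x : ℕ) : ℝ) := by linarith
        rw [div_le_iff₀ hTp] at h1
        nlinarith
      · rw [if_neg (by omega)]
        have e2 : ((H1Col.T x : ℕ) : ℝ) * 2 = 3 * x + 1 := by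
          have := H1Col.two_T_odd e
          have h' : H1Col.T x * 2 = 3 * x + 1 := by omega
          exact_mod_cast h'
        have hTp : (0 : ℝ) < ((H1Col.T x : ℕ) : ℝ) := by nlinarith
        rw [div_le_iff₀ hTp] at h1
        rw [div_le_iff₀ al_pos]
        have hM : (0 : ℝ) ≤ (m 2184 : ℝ) / 65229815808 := by positivity
        have h3 : (m 2184 : ℝ) / 65229815808 * ((H1Col.T x : ℕ) : ℝ) ≤
            (m 2184 : ℝ) / 65229815808 * x * al := by
          rw [mul_assoc]
          apply mul_le_mul_of_nonneg_left _ hM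
          unfold al
          nlinarith
        linarith

theorem short_descent {x t : ℕ} (hx : 65229815808 ≤ x) (ht : t ≤ nx x)
    (h : ∀ i < t, 65229815808 ≤ H1Col.T^[i] x) (hlast : H1Col.T^[t] x < 65229815808) :
    H1Col.Sm x t ≤ 25 / (3 * 65229815808) := by
  have h1 := H1Col.three_pow_le x t
  obtain ⟨a, ha, h2, -⟩ := nx_spec (x := x) (by omega)
  have h3 : 3 ^ H1Col.od x t < 2 ^ 39 := by
    have h4 : 3 ^ H1Col.od x t * (243 * 2 ^ t) ≤ 3 ^ H1Col.od x t * x * 2 ^ 11 := by
      rw [mul_assoc]
      apply Nat.mul_le_mul_left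
      calc 243 * 2 ^ t ≤ 243 * 2 ^ (a + 11) :=
            Nat.mul_le_mul_left _ (Nat.pow_le_pow_right (by norm_num) (by omega))
        _ = 243 * 2 ^ a * 2 ^ 11 := by ring
        _ ≤ x * 2 ^ 11 := Nat.mul_le_mul_right _ h2
    have h5 : 2 ^ t * H1Col.T^[t] x < 2 ^ t * (243 * 2 ^ 28) :=
      Nat.mul_lt_mul_of_pos_left (by norm_num; exact hlast) (by positivity)
    have h6 : (243 * 2 ^ t) * 3 ^ H1Col.od x t < (243 * 2 ^ t) * 2 ^ 39 := by
      calc (243 * 2 ^ t) * 3 ^ H1Col.od x t = 3 ^ H1Col.od x t * (243 * 2 ^ t) := by ring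
        _ ≤ 3 ^ H1Col.od x t * x * 2 ^ 11 := h4
        _ ≤ 2 ^ t * H1Col.T^[t] x * 2 ^ 11 := Nat.mul_le_mul_right _ h1
        _ < 2 ^ t * (243 * 2 ^ 28) * 2 ^ 11 := Nat.mul_lt_mul_of_pos_right h5 (by positivity)
        _ = (243 * 2 ^ t) * 2 ^ 39 := by ring
    exact lt_of_mul_lt_mul_left h6 (by positivity)
  have h4 : H1Col.od x t ≤ 24 := by
    by_contra hc
    push Not at hc
    have : 3 ^ 25 ≤ 3 ^ H1Col.od x t := Nat.pow_le_pow_right (by norm_num) hc
    norm_num at this h3
    omega
  have h5 : ∀ s ≤ t, H1Col.Sm x s ≤ (H1Col.od x s : ℝ) / (3 * 65229815808) := by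
    intro s
    induction s with
    | zero => intro _; simp [H1Col.Sm]
    | succ n ih =>
        intro hs
        have h6 := ih (by omega)
        have h7 := h n (by omega)
        have h7' : (65229815808 : ℝ) ≤ ((H1Col.T^[n] x : ℕ) : ℝ) := by exact_mod_cast h7
        rw [H1Col.Sm_succ, H1Col.od_succ]
        rcases Nat.mod_two_eq_zero_or_one (H1Col.T^[n] x) with e | e
        · rw [e, if_neg (by norm_num)]
          simpa using h6
        · rw [e, if_pos rfl]
          push_cast
          have h8 : 1 / (3 * ((H1Col.T^[n] x : ℕ) : ℝ)) ≤ 1 / (3 * 65229815808) := by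
            apply one_div_le_one_div_of_le (by norm_num)
            linarith
          rw [add_div]
          linarith
  have h6 := h5 t (le_refl _)
  have h7 : (H1Col.od x t : ℝ) ≤ 24 := by exact_mod_cast h4
  have h8 : (H1Col.od x t : ℝ) / (3 * 65229815808) ≤ 25 / (3 * 65229815808) := by
    apply div_le_div_of_nonneg_right _ (by norm_num)
    linarith
  linarith

end H86C
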