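import Pool.Agent.H86.C.PotB
import Pool.Agent.H86.C.PotC
import Pool.Agent.H86.C.Cnt

/-! # Module MainC: from the total price to the bound for orbits

COPY `Pool/Agent/H1/Col/Main.lean` (`sum_blocks`, `unit_iter`, `orbit_cost`, `Sm_add`, `term_le`, `Sm_unit`,
`Sm_all`, `iter_inj`, `residue_core`, `residue_bound`) and adapt: `566231040 = 135 * 2^22` becomes
`65229815808 = 243 * 2^28`, `0.1772` becomes `0.0616656`, `m 605` becomes `m 2184` (`m 2184 ≤ 12000000`, kernel), and the
total price is the hypothesis `hb`. Lemmas of `H1Col` that do not mention the constants (`unit_iter`, `Sm_add`, `iter_inj`)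
may be copied or proved again here (do not import `Pool.Agent.H1.Col.Main`).
`nx x ≥ 39 > 22` is not needed; in `Sm_unit` the last index `i0` with `i0 + nx (T^[i0] x) < N` is used in the same way.
Numbers: `0.0616656 + 12000000/65229815808/1048576 + (1 + 25)/(3 * 65229815808) ≤ 0.06167`;
`exp 0.06168 ≤ 1.06363` (`Real.exp_bound'`); `1.2535 * 1.06363 = 1.33326.. < 4/3`. -/

namespace H86C

open Finset
open H1Col (T od Sm T_even T_odd iter_pos iter_succ iter_succ_left iter_add od_add od_succ
  three_pow_le Sm_succ two_pow_le_exp)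

private theorem sum_blocks (f : ℕ → ℝ) : ∀ A, 28 ≤ A →
    ∑ y ∈ (Ico (243 * 2 ^ 28) (243 * 2 ^ A)).filter (fun x => x % 3 ≠ 0), f y =
      ∑ a ∈ Ico 28 A, ∑ y ∈ block a, f y := by
  intro A hA
  induction A, hA using Nat.le_induction with
  | base => simp
  | succ A hA ih =>
      rw [sum_Ico_succ_top hA, ← ih]
      unfold block
      rw [sum_filter, sum_filter, sum_filter]
      rw [sum_Ico_consecutive]
      · exact Nat.mul_le_mul_left _ (Nat.pow_le_pow_right (by norm_num) hA)
      · exact Nat.mul_le_mul_left _ (Nat.pow_le_pow_right (by norm_num) (by omega))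

private theorem unit_iter {x : ℕ} (h : x % 3 ≠ 0) (n : ℕ) : T^[n] x % 3 ≠ 0 := by
  induction n with
  | zero => simpa using h
  | succ n ih =>
      rw [iter_succ]
      rcases Nat.mod_two_eq_zero_or_one (T^[n] x) with e | e
      · rw [T_even e]; omega
      · rw [T_odd e]; omega

private theorem orbit_cost (hb : ∀ A, ∑ a ∈ Ico 28 A, ∑ y ∈ block a, wp y / y ≤ 0.0616656 * 1048576)
    {x N : ℕ} (hu : x % 3 ≠ 0) (hB : ∀ i < N, 65229815808 ≤ T^[i] x)
    (hinj : ∀ i < N, ∀ j < N, T^[i] x = T^[j] x → i = j) :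
    ∑ i ∈ range N, wp (T^[i] x) / (T^[i] x : ℕ) ≤ 0.0616656 * 1048576 := by
  set M := ∑ i ∈ range N, T^[i] x + 28 with hM
  have hlt : ∀ i < N, T^[i] x < 243 * 2 ^ M := by
    intro i hi
    have h1 : T^[i] x ≤ ∑ i ∈ range N, T^[i] x :=
      single_le_sum (f := fun i => T^[i] x) (fun _ _ => Nat.zero_le _) (mem_range.mpr hi)
    have h2 : M < 2 ^ M := Nat.lt_two_pow_self
    omega
  have h1 : ∑ i ∈ range N, wp (T^[i] x) / (T^[i] x : ℕ) =
      ∑ y ∈ (range N).image (fun i => T^[i] x), wp y / (y : ℕ) := by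
    rw [sum_image]
    intro i hi j hj hij
    simp only [coe_range, Set.mem_Iio] at hi hj
    exact hinj i hi j hj hij
  rw [h1]
  have hsub : (range N).image (fun i => T^[i] x) ⊆
      (Ico (243 * 2 ^ 28) (243 * 2 ^ M)).filter (fun x => x % 3 ≠ 0) := by
    intro y hy
    simp only [mem_image, mem_range] at hy
    obtain ⟨i, hi, rfl⟩ := hy
    simp only [mem_filter, mem_Ico]
    refine ⟨⟨?_, hlt i hi⟩, unit_iter hu i⟩
    have := hB i hi
    norm_num
    exact this
  refine le_trans (sum_le_sum_of_subset_of_nonneg hsub ?_) ?_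
  · intro y _ _
    exact div_nonneg (wp_nonneg y) (by positivity)
  · rw [sum_blocks _ M (by omega)]
    exact hb M

private theorem Sm_add (x m n : ℕ) : Sm x (m + n) = Sm x m + Sm (T^[m] x) n := by
  induction n with
  | zero => simp [Sm]
  | succ n ih =>
      rw [← Nat.add_assoc, Sm_succ, Sm_succ, ih, Nat.add_comm m n, iter_add]
      ring

private theorem term_le {y : ℕ} (h : 65229815808 ≤ y) :
    (if y % 2 = 1 then 1 / (3 * (y : ℝ)) else 0) ≤ 1 / (3 * 65229815808) := by
  have h' : (65229815808 : ℝ) ≤ y := by exact_mod_cast h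
  split_ifs
  · apply one_div_le_one_div_of_le (by norm_num)
    linarith
  · norm_num

private theorem m2184 : m 2184 ≤ 12000000 := by decide +kernel

/-- The sum over a descent below `B` for a starting point prime to `3`. -/
private theorem Sm_unit (hb : ∀ A, ∑ a ∈ Ico 28 A, ∑ y ∈ block a, wp y / y ≤ 0.0616656 * 1048576)
    {x N : ℕ} (hu : x % 3 ≠ 0) (hB : ∀ i < N, 65229815808 ≤ T^[i] x)
    (hlast : T^[N] x < 65229815808)
    (hinj : ∀ i < N, ∀ j < N, T^[i] x = T^[j] x → i = j) : Sm x N ≤ 0.06167 := by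
  rcases Nat.eq_zero_or_pos N with rfl | hN
  · simp [Sm]; norm_num
  classical
  by_cases hex : ∃ i, i < N ∧ i + nx (T^[i] x) < N
  · -- the last such index
    set P : ℕ → Prop := fun i => i < N ∧ i + nx (T^[i] x) < N with hP
    obtain ⟨i, hi⟩ := hex
    set i0 := Nat.findGreatest P N with hi0
    have hPi0 : P i0 := Nat.findGreatest_spec (P := P) (m := i) (by omega) hi
    have hmax : ¬ P (i0 + 1) := by
      intro hc
      have h1 : i0 + 1 ≤ Nat.findGreatest P N := Nat.le_findGreatest (by have := hc.1; omega) hc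
      omega
    obtain ⟨h1, h2⟩ := hPi0
    -- telescoping up to i0
    have ht := telescope x i0 (fun i hi => hB i (by omega))
    have hK : K (nx (T^[i0] x)) (T^[i0] x) / (T^[i0] x : ℕ) ≤ (m 2184 : ℝ) / 65229815808 := by
      apply K_div_le (unit_iter hu i0)
      intro j hj
      rw [← iter_add, Nat.add_comm]
      exact hB (i0 + j) (by omega)
    have hc := orbit_cost hb (x := x) (N := i0) hu (fun i hi => hB i (by omega))
      (fun i hi j hj => hinj i (by omega) j (by omega))
    have hK0 : 0 ≤ K (nx x) x / x := div_nonneg (K_nonneg _ _) (by positivity)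
    have hm : (m 2184 : ℝ) ≤ 12000000 := by exact_mod_cast m2184
    have hS1 : Sm x i0 ≤ 0.061666 := by
      have h3 : (m 2184 : ℝ) / 65229815808 ≤ 12000000 / 65229815808 :=
        div_le_div_of_nonneg_right hm (by norm_num)
      have h4 : (1048576 : ℝ) * Sm x i0 ≤ 1048576 * 0.061666 := by
        norm_num at h3 hc ⊢
        linarith
      linarith
    have hsplit : Sm x N = Sm x i0 + (if (T^[i0] x) % 2 = 1 then 1 / (3 * ((T^[i0] x : ℕ) : ℝ)) else 0)
        + Sm (T^[i0 + 1] x) (N - (i0 + 1)) := by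
      have e : N = (i0 + 1) + (N - (i0 + 1)) := by omega
      conv_lhs => rw [e]
      rw [Sm_add, Sm_succ]
    have ht1 := term_le (hB i0 h1)
    have hrest : Sm (T^[i0 + 1] x) (N - (i0 + 1)) ≤ 25 / (3 * 65229815808) := by
      rcases Nat.lt_or_ge (i0 + 1) N with h3 | h3
      · have h4 : N ≤ i0 + 1 + nx (T^[i0 + 1] x) := by
          by_contra hcc
          exact hmax ⟨h3, by omega⟩
        apply short_descent (hB _ h3) (by omega)
        · intro j hj
          rw [← iter_add, Nat.add_comm]
          exact hB _ (by omega)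
        · rw [← iter_add, Nat.sub_add_cancel (by omega)]
          exact hlast
      · rw [Nat.sub_eq_zero_of_le h3]
        simp [Sm]
        norm_num
    rw [hsplit]
    norm_num at ht1 hrest hS1 ⊢
    linarith
  · push Not at hex
    have h0 := hex 0 hN
    simp only [Function.iterate_zero, id_eq, zero_add] at h0
    have hx : 65229815808 ≤ x := by simpa using hB 0 hN
    have := short_descent hx h0 hB hlast
    norm_num at this ⊢
    linarith

/-- The same for every starting point. -/
theorem Sm_all (hb : ∀ A, ∑ a ∈ Ico 28 A, ∑ y ∈ block a, wp y / y ≤ 0.0616656 * 1048576) :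
    ∀ (N x : ℕ), (∀ i < N, 65229815808 ≤ H1Col.T^[i] x) → H1Col.T^[N] x < 65229815808 →
    (∀ i < N, ∀ j < N, H1Col.T^[i] x = H1Col.T^[j] x → i = j) → H1Col.Sm x N ≤ 0.06168 := by
  intro N
  induction N with
  | zero => intro x _ _ _; simp [Sm]; norm_num
  | succ N ih =>
      intro x hB hlast hinj
      by_cases h3 : x % 3 = 0
      · have hx : 65229815808 ≤ x := by simpa using hB 0 (by omega)
        have hs : Sm x (N + 1) = (if x % 2 = 1 then 1 / (3 * (x : ℝ)) else 0) + Sm (T x) N := by
          rw [Nat.add_comm N 1, Sm_add]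
          congr 1
          unfold Sm
          rw [sum_range_one]
          rfl
        have hB' : ∀ i < N, 65229815808 ≤ T^[i] (T x) := by
          intro i hi
          rw [← iter_succ_left]
          exact hB (i + 1) (by omega)
        have hlast' : T^[N] (T x) < 65229815808 := by
          rw [← iter_succ_left]; exact hlast
        have hinj' : ∀ i < N, ∀ j < N, T^[i] (T x) = T^[j] (T x) → i = j := by
          intro i hi j hj h
          rw [← iter_succ_left, ← iter_succ_left] at h
          have := hinj (i + 1) (by omega) (j + 1) (by omega) h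
          omega
        rcases Nat.mod_two_eq_zero_or_one x with e | e
        · rw [hs, if_neg (by omega), zero_add]
          exact ih (T x) hB' hlast' hinj'
        · have huT : T x % 3 ≠ 0 := by rw [T_odd e]; omega
          have h4 := Sm_unit hb huT hB' hlast' hinj'
          have h5 := term_le hx
          rw [hs]
          norm_num at h4 h5 ⊢
          linarith
      · have := Sm_unit hb h3 hB hlast hinj
        norm_num at this ⊢
        linarith

/-- Minimality of the hitting time gives distinctness. -/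
private theorem iter_inj {x N : ℕ} (h1 : T^[N] x = 1) (hmin : ∀ i < N, T^[i] x ≠ 1) :
    ∀ i < N, ∀ j < N, T^[i] x = T^[j] x → i = j := by
  have key : ∀ i j, i < j → j < N → T^[i] x ≠ T^[j] x := by
    intro i j hij hj he
    have h2 : T^[N - j] (T^[j] x) = 1 := by rw [← iter_add, Nat.sub_add_cancel hj.le]; exact h1
    rw [← he, ← iter_add] at h2
    exact hmin _ (by omega) h2
  intro i hi j hj he
  rcases Nat.lt_trichotomy i j with h | h | h
  · exact absurd he (key i j h hj)
  · exact h
  · exact absurd he.symm (key j i h hi)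

private theorem exp_bound : Real.exp 0.06168 ≤ 1.06363 := by
  have h := Real.exp_bound' (x := 0.06168) (by norm_num) (by norm_num) (n := 5) (by norm_num)
  refine le_trans h ?_
  simp only [sum_range_succ, sum_range_zero, Nat.factorial]
  norm_num

/-- The common part: the bound in terms of `Sm` above `B`. -/
theorem residue_core
    (verified : ∀ x : ℕ, 0 < x → x < 65229815808 → Good 1.2535 x)
    {x N : ℕ} (hx : 0 < x) (h1 : T^[N] x = 1) (hmin : ∀ i < N, T^[i] x ≠ 1) :
    ∃ k ≤ N, (∀ i < k, 65229815808 ≤ T^[i] x) ∧ T^[k] x < 65229815808 ∧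
      (2 : ℝ) ^ N ≤ 1.2535 * 3 ^ od x N * x * Real.exp (Sm x k) := by
  classical
  have hex : ∃ k, T^[k] x < 65229815808 := ⟨N, by rw [h1]; norm_num⟩
  set k := Nat.find hex with hk
  have hk1 : T^[k] x < 65229815808 := Nat.find_spec hex
  have hkN : k ≤ N := Nat.find_min' hex (by rw [h1]; norm_num)
  have hkB : ∀ i < k, 65229815808 ≤ T^[i] x := by
    intro i hi
    have := Nat.find_min hex hi
    omega
  refine ⟨k, hkN, hkB, hk1, ?_⟩
  set y := T^[k] x with hy
  have hyp : 0 < y := iter_pos hx k
  obtain ⟨N', h2, h3⟩ := verified y hyp hk1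
  set M := N - k with hM
  have hyM : T^[M] y = 1 := by
    rw [hy, ← iter_add, Nat.sub_add_cancel hkN]; exact h1
  have hMN' : M ≤ N' := by
    by_contra hc
    push Not at hc
    have : T^[N' + k] x = 1 := by rw [iter_add]; exact h2
    exact hmin (N' + k) (by omega) this
  have hyb : (2 : ℝ) ^ M ≤ 1.2535 * 3 ^ od y M * y := by
    obtain ⟨j, hj⟩ : ∃ j, N' = M + j := ⟨N' - M, by omega⟩
    have h4 : T^[j] 1 = 1 := by
      have : T^[j] (T^[M] y) = 1 := by rw [← iter_add, Nat.add_comm, ← hj]; exact h2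
      rwa [hyM] at this
    have h5 := three_pow_le 1 j
    rw [h4, mul_one, mul_one] at h5
    have h5' : (3 : ℝ) ^ od 1 j ≤ 2 ^ j := by exact_mod_cast h5
    rw [hj, od_add, hyM, pow_add, pow_add] at h3
    have h6 : (0 : ℝ) < 3 ^ od 1 j := by positivity
    have h7 : (2 : ℝ) ^ M * 3 ^ od 1 j ≤ (1.2535 * 3 ^ od y M * y) * 3 ^ od 1 j := by
      calc (2 : ℝ) ^ M * 3 ^ od 1 j ≤ 2 ^ M * 2 ^ j := mul_le_mul_of_nonneg_left h5' (by positivity)
        _ ≤ 1.2535 * (3 ^ od y M * 3 ^ od 1 j) * y := h3
        _ = _ := by ring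
    exact le_of_mul_le_mul_right h7 h6
  have h8 := two_pow_le_exp hx k
  rw [← hy] at h8
  have hod : od x N = od x k + od y M := by
    have e : N = k + M := by omega
    conv_lhs => rw [e]
    rw [od_add]
  have hNe : (2 : ℝ) ^ N = 2 ^ k * 2 ^ M := by
    rw [← pow_add]; congr 1; omega
  rw [hod, pow_add, hNe]
  calc (2 : ℝ) ^ k * 2 ^ M ≤ 2 ^ k * (1.2535 * 3 ^ od y M * y) :=
        mul_le_mul_of_nonneg_left hyb (by positivity)
    _ = 1.2535 * 3 ^ od y M * (2 ^ k * y) := by ring
    _ ≤ 1.2535 * 3 ^ od y M * (3 ^ od x k * x * Real.exp (Sm x k)) :=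
        mul_le_mul_of_nonneg_left h8 (by positivity)
    _ = _ := by ring

theorem res_bound (hb : ∀ A, ∑ a ∈ Ico 28 A, ∑ y ∈ block a, wp y / y ≤ 0.0616656 * 1048576)
    (verified : ∀ x : ℕ, 0 < x → x < 65229815808 → Good 1.2535 x)
    {x N : ℕ} (hx : 0 < x) (h1 : H1Col.T^[N] x = 1) (hmin : ∀ i < N, H1Col.T^[i] x ≠ 1) :
    (2 : ℝ) ^ N < 4 / 3 * (3 ^ H1Col.od x N * x) := by
  obtain ⟨k, hkN, hkB, hk1, h⟩ := residue_core verified hx h1 hmin
  have hS : Sm x k ≤ 0.06168 := by
    apply Sm_all hb k x hkB hk1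
    intro i hi j hj
    exact iter_inj h1 hmin i (by omega) j (by omega)
  have h9 : Real.exp (Sm x k) ≤ 1.06363 := le_trans (Real.exp_le_exp.mpr hS) exp_bound
  have hp : (0 : ℝ) < 3 ^ od x N * x := by
    have : (0 : ℝ) < x := by exact_mod_cast hx
    positivity
  calc (2 : ℝ) ^ N ≤ 1.2535 * 3 ^ od x N * x * Real.exp (Sm x k) := h
    _ ≤ 1.2535 * 3 ^ od x N * x * 1.06363 := mul_le_mul_of_nonneg_left h9 (by positivity)
    _ = (1.2535 * 1.06363) * (3 ^ od x N * x) := by ring
    _ < 4 / 3 * (3 ^ od x N * x) := by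
        apply mul_lt_mul_of_pos_right (by norm_num) hp

end H86C
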