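import Pool.Agent.H86.C.MainC

/-! # Module MainU: the bound for orbits, with the verified range known only for numbers prime to 3

Variant of `res_bound` (module MainC). `res_unit` : `x` prime to 3, so the whole orbit is prime to 3 and `verified` is used only
for `T^k x` (first element below `65229815808`); `Sm x k ≤ 0.06168` (`Sm_all`), `exp 0.06168 ≤ 1.06363`,
`1.2535 * 1.06363 ≤ 1.33327`. (Copy `residue_core` of `Pool/Agent/H1/Col/Main.lean`.)
`res_all` : `x = 2^a x'`, `x'` odd: `R x = R x'` (induction on `x`: even `x`: `x/2`, `N ≥ 1`). `x'` prime to 3: `res_unit`. `x'` divisible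
by 3: if `x' < 1048576`: `small` (and minimality: `2^N ≤ ..` for the minimal `N`, as in `residue_core`, since going round the
cycle `1 → 2 → 1` only increases `2^N/3^od`). Else `T x'` is prime to 3, `N = N' + 1`, `2^N = 2 * 2^N'
≤ 2 * 1.33327 * 3^od' * T x' = 1.33327 * 3^od' * (3 x' + 1)`, `(3x'+1) ≤ 3 x' (1 + 1/(3 * 1048576))`. -/

namespace H86C

open Finset
open H1Col (T od Sm T_even T_odd iter_pos iter_succ iter_succ_left iter_add od_add od_succ od_succ_left
  three_pow_le Sm_succ two_pow_le_exp two_T_odd two_T_even)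

private theorem mu_iter {x : ℕ} (h : x % 3 ≠ 0) (n : ℕ) : T^[n] x % 3 ≠ 0 := by
  induction n with
  | zero => simpa using h
  | succ n ih =>
      rw [iter_succ]
      rcases Nat.mod_two_eq_zero_or_one (T^[n] x) with e | e
      · rw [T_even e]; omega
      · rw [T_odd e]; omega

private theorem mu_inj {x N : ℕ} (h1 : T^[N] x = 1) (hmin : ∀ i < N, T^[i] x ≠ 1) :
    ∀ i < N, ∀ j < N, T^[i] x = T^[j] x → i = j := by
  have key : ∀ i j, i < j → j < N → T^[i] x ≠ T^[j] x := by
    intro i j hij hj he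
    have h2 : T^[N - j] (T^[j] x) = 1 := by rw [← iter_add, Nat.sub_add_cancel hj.le]; exact h1
    rw [← he, ← iter_add] at h2
    exact hmin _ (by omega) h2
  intro i hi j hj he
  rcases Nat.lt_trichotomy i j with h | h | h
  · exact absurd he (key i j h hj)
  · exact h
  · exact absurd he.symm (key j i h hi)

private theorem mu_exp : Real.exp 0.06168 ≤ 1.06363 := by
  have h := Real.exp_bound' (x := 0.06168) (by norm_num) (by norm_num) (n := 5) (by norm_num)
  refine le_trans h ?_
  simp only [sum_range_succ, sum_range_zero, Nat.factorial]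
  norm_num

/-- The bound for the minimal exponent. -/
private theorem mu_min {c : ℝ} {y M : ℕ} (hg : Good c y) (hyM : T^[M] y = 1) (hmin : ∀ i < M, T^[i] y ≠ 1) :
    (2 : ℝ) ^ M ≤ c * 3 ^ od y M * y := by
  obtain ⟨N', h2, h3⟩ := hg
  have hMN' : M ≤ N' := by
    by_contra hc
    push Not at hc
    exact hmin N' hc h2
  obtain ⟨j, hj⟩ : ∃ j, N' = M + j := ⟨N' - M, by omega⟩
  have h4 : T^[j] 1 = 1 := by
    have : T^[j] (T^[M] y) = 1 := by rw [← iter_add, Nat.add_comm, ← hj]; exact h2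
    rwa [hyM] at this
  have h5 := three_pow_le 1 j
  rw [h4, mul_one, mul_one] at h5
  have h5' : (3 : ℝ) ^ od 1 j ≤ 2 ^ j := by exact_mod_cast h5
  rw [hj, od_add, hyM, pow_add, pow_add] at h3
  have h6 : (0 : ℝ) < 3 ^ od 1 j := by positivity
  have h7 : (2 : ℝ) ^ M * 3 ^ od 1 j ≤ (c * 3 ^ od y M * y) * 3 ^ od 1 j := by
    calc (2 : ℝ) ^ M * 3 ^ od 1 j ≤ 2 ^ M * 2 ^ j := mul_le_mul_of_nonneg_left h5' (by positivity)
      _ ≤ c * (3 ^ od y M * 3 ^ od 1 j) * y := h3
      _ = _ := by ring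
  exact le_of_mul_le_mul_right h7 h6

private theorem mu_core
    (verified : ∀ x : ℕ, x % 3 ≠ 0 → x < 65229815808 → Good 1.2535 x)
    {x N : ℕ} (hu : x % 3 ≠ 0) (h1 : T^[N] x = 1) (hmin : ∀ i < N, T^[i] x ≠ 1) :
    ∃ k ≤ N, (∀ i < k, 65229815808 ≤ T^[i] x) ∧ T^[k] x < 65229815808 ∧
      (2 : ℝ) ^ N ≤ 1.2535 * 3 ^ od x N * x * Real.exp (Sm x k) := by
  classical
  have hx : 0 < x := by omega
  have hex : ∃ k, T^[k] x < 65229815808 := ⟨N, by rw [h1]; norm_num⟩
  set k := Nat.find hex with hk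
  have hk1 : T^[k] x < 65229815808 := Nat.find_spec hex
  have hkN : k ≤ N := Nat.find_min' hex (by rw [h1]; norm_num)
  have hkB : ∀ i < k, 65229815808 ≤ T^[i] x := by
    intro i hi
    have := Nat.find_min hex hi
    omega
  refine ⟨k, hkN, hkB, hk1, ?_⟩
  set y := T^[k] x with hy
  set M := N - k with hM
  have hyM : T^[M] y = 1 := by
    rw [hy, ← iter_add, Nat.sub_add_cancel hkN]; exact h1
  have hminy : ∀ i < M, T^[i] y ≠ 1 := by
    intro i hi
    rw [hy, ← iter_add]
    exact hmin _ (by omega)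
  have hyb : (2 : ℝ) ^ M ≤ 1.2535 * 3 ^ od y M * y := mu_min (verified y (mu_iter hu k) hk1) hyM hminy
  have h8 := two_pow_le_exp hx k
  rw [← hy] at h8
  have hod : od x N = od x k + od y M := by
    have e : N = k + M := by omega
    conv_lhs => rw [e]
    rw [od_add]
  have hNe : (2 : ℝ) ^ N = 2 ^ k * 2 ^ M := by
    rw [← pow_add]; congr 1; omega
  rw [hod, pow_add, hNe]
  calc (2 : ℝ) ^ k * 2 ^ M ≤ 2 ^ k * (1.2535 * 3 ^ od y M * y) :=
        mul_le_mul_of_nonneg_left hyb (by positivity)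
    _ = 1.2535 * 3 ^ od y M * (2 ^ k * y) := by ring
    _ ≤ 1.2535 * 3 ^ od y M * (3 ^ od x k * x * Real.exp (Sm x k)) :=
        mul_le_mul_of_nonneg_left h8 (by positivity)
    _ = _ := by ring

theorem res_unit (hb : ∀ A, ∑ a ∈ Ico 28 A, ∑ y ∈ block a, wp y / y ≤ 0.0616656 * 1048576)
    (verified : ∀ x : ℕ, x % 3 ≠ 0 → x < 65229815808 → Good 1.2535 x)
    {x N : ℕ} (hu : x % 3 ≠ 0) (h1 : H1Col.T^[N] x = 1) (hmin : ∀ i < N, H1Col.T^[i] x ≠ 1) :
    (2 : ℝ) ^ N ≤ 1.33327 * (3 ^ H1Col.od x N * x) := by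
  obtain ⟨k, hkN, hkB, hk1, h⟩ := mu_core verified hu h1 hmin
  have hS : Sm x k ≤ 0.06168 := by
    apply Sm_all hb k x hkB hk1
    intro i hi j hj
    exact mu_inj h1 hmin i (by omega) j (by omega)
  have h9 : Real.exp (Sm x k) ≤ 1.06363 := le_trans (Real.exp_le_exp.mpr hS) mu_exp
  have hp : (0 : ℝ) ≤ 3 ^ od x N * x := by positivity
  calc (2 : ℝ) ^ N ≤ 1.2535 * 3 ^ od x N * x * Real.exp (Sm x k) := h
    _ ≤ 1.2535 * 3 ^ od x N * x * 1.06363 := mul_le_mul_of_nonneg_left h9 (by positivity)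
    _ = (1.2535 * 1.06363) * (3 ^ od x N * x) := by ring
    _ ≤ 1.33327 * (3 ^ od x N * x) := by
        apply mul_le_mul_of_nonneg_right (by norm_num) hp

theorem res_all (hb : ∀ A, ∑ a ∈ Ico 28 A, ∑ y ∈ block a, wp y / y ≤ 0.0616656 * 1048576)
    (verified : ∀ x : ℕ, x % 3 ≠ 0 → x < 65229815808 → Good 1.2535 x)
    (small : ∀ x : ℕ, 0 < x → x < 1048576 → Good 1.2535 x)
    {x N : ℕ} (hx : 0 < x) (h1 : H1Col.T^[N] x = 1) (hmin : ∀ i < N, H1Col.T^[i] x ≠ 1) :
    (2 : ℝ) ^ N < 4 / 3 * (3 ^ H1Col.od x N * x) := by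
  induction x using Nat.strong_induction_on generalizing N with
  | _ x ih =>
    have hxp : (0 : ℝ) < x := by exact_mod_cast hx
    have hp : (0 : ℝ) < 3 ^ od x N * x := by positivity
    by_cases hx1 : x = 1
    · have h2 := res_unit hb verified (x := x) (by omega) h1 hmin
      refine lt_of_le_of_lt h2 (mul_lt_mul_of_pos_right (by norm_num) hp)
    have hN : N ≠ 0 := by
      rintro rfl
      exact hx1 (by simpa using h1)
    obtain ⟨N', rfl⟩ : ∃ N', N = N' + 1 := ⟨N - 1, by omega⟩
    have h1' : T^[N'] (T x) = 1 := by rw [← iter_succ_left]; exact h1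
    have hmin' : ∀ i < N', T^[i] (T x) ≠ 1 := by
      intro i hi
      rw [← iter_succ_left]
      exact hmin (i + 1) (by omega)
    have hod := od_succ_left x N'
    rcases Nat.mod_two_eq_zero_or_one x with e | e
    · have h2 := ih (T x) (by rw [T_even e]; omega) (by rw [T_even e]; omega) h1' hmin'
      rw [e, zero_add] at hod
      have h3 : (2 : ℝ) * (T x : ℕ) = x := by exact_mod_cast two_T_even e
      rw [hod, pow_succ]
      calc (2 : ℝ) ^ N' * 2 < (4 / 3 * (3 ^ od (T x) N' * (T x : ℕ))) * 2 :=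
            mul_lt_mul_of_pos_right h2 (by norm_num)
        _ = 4 / 3 * (3 ^ od (T x) N' * (2 * (T x : ℕ))) := by ring
        _ = _ := by rw [h3]
    · by_cases h3 : x % 3 = 0
      · by_cases hs : x < 1048576
        · have h2 := mu_min (small x hx hs) h1 hmin
          calc (2 : ℝ) ^ (N' + 1) ≤ 1.2535 * 3 ^ od x (N' + 1) * x := h2
            _ = 1.2535 * (3 ^ od x (N' + 1) * x) := by ring
            _ < 4 / 3 * (3 ^ od x (N' + 1) * x) := mul_lt_mul_of_pos_right (by norm_num) hp
        · have huT : T x % 3 ≠ 0 := by rw [T_odd e]; omega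
          have h2 := res_unit hb verified huT h1' hmin'
          have h4 : (2 : ℝ) * (T x : ℕ) = 3 * x + 1 := by exact_mod_cast two_T_odd e
          have h5 : (1048576 : ℝ) ≤ x := by
            have : 1048576 ≤ x := by omega
            exact_mod_cast this
          rw [e] at hod
          rw [hod, pow_succ, pow_add, pow_one]
          have hq : (0 : ℝ) < 3 ^ od (T x) N' := by positivity
          calc (2 : ℝ) ^ N' * 2 ≤ (1.33327 * (3 ^ od (T x) N' * (T x : ℕ))) * 2 :=
                mul_le_mul_of_nonneg_right h2 (by norm_num)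
            _ = 3 ^ od (T x) N' * (1.33327 * (2 * (T x : ℕ))) := by ring
            _ = 3 ^ od (T x) N' * (1.33327 * (3 * x + 1)) := by rw [h4]
            _ < 3 ^ od (T x) N' * (4 * x) := by
                apply mul_lt_mul_of_pos_left _ hq
                norm_num
                linarith
            _ = _ := by ring
      · have h2 := res_unit hb verified (x := x) h3 h1 hmin
        refine lt_of_le_of_lt h2 (mul_lt_mul_of_pos_right (by norm_num) hp)

end H86C
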