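import Pool.Agent.H86.C.PotA

/-! # Module PotB: the telescoping inequality

COPY `pointwise` and `telescope` of `Pool/Agent/H1/Col/Potential.lean` and adapt the constants:
`566231040` becomes `BB = 65229815808`, `524290` becomes `524289`, `27` becomes `243`.
The three numerical facts used: `1048576/3 ≤ 524289/al`; for `x ≥ BB` (even for `x ≥ 2^29`)
`T x = (3x+1)/2 ≤ al x`; `nx x ≥ 39` for `x ≥ BB`. -/

namespace H86C

open Finset

theorem pointwise {x : ℕ} (hx : 65229815808 ≤ x) :
    K (nx x) x / x + 1048576 * (if x % 2 = 1 then 1 / (3 * (x : ℝ)) else 0)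
      ≤ K (nx (H1Col.T x)) (H1Col.T x) / (H1Col.T x : ℕ) + wp x / x := by
  have ha : 28 + 11 ≤ nx x := le_nx (by norm_num; exact hx)
  obtain ⟨a, ha'⟩ : ∃ a, nx x = a + 1 := ⟨nx x - 1, by omega⟩
  have hn : a ≤ nx (H1Col.T x) := by
    have := nx_T (x := x) (by omega)
    omega
  have hK := K_mono hn (H1Col.T x)
  have hxp : (0 : ℝ) < x := by exact_mod_cast (by omega : 0 < x)
  have hw1 := le_max_left 0 (Au x - De (nx x - 1) x)
  have hw2 := le_max_right 0 (Au x - De (nx x - 1) x)
  change 0 ≤ wp x at hw1
  change Au x - De (nx x - 1) x ≤ wp x at hw2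
  rw [ha'] at hw2 ⊢
  simp only [Nat.add_sub_cancel] at hw2
  rcases Nat.mod_two_eq_zero_or_one x with h | h
  · -- even
    have e2 : ((H1Col.T x : ℕ) : ℝ) * 2 = x := by
      have := H1Col.two_T_even h
      have h' : H1Col.T x * 2 = x := by omega
      exact_mod_cast h'
    have hT : ((H1Col.T x : ℕ) : ℝ) = x / 2 := by linarith
    have hTx : H1Col.T x = x / 2 := H1Col.T_even h
    rw [if_neg (by omega), mul_zero, add_zero, hT]
    have key : K (a + 1) x ≤ 2 * K (nx (H1Col.T x)) (H1Col.T x) + wp x := by
      show max _ _ ≤ _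
      rw [if_pos h, ← hTx]
      apply max_le
      · simp only [Au, De, if_pos h, add_zero] at hw2
        rw [← hTx] at hw2
        linarith
      · linarith
    have : K (nx (H1Col.T x)) (H1Col.T x) / (x / 2) = (2 * K (nx (H1Col.T x)) (H1Col.T x)) / x := by
      field_simp
    rw [this, ← add_div]
    exact div_le_div_of_nonneg_right key hxp.le
  · -- odd
    have e2 : ((H1Col.T x : ℕ) : ℝ) * 2 = 3 * x + 1 := by
      have := H1Col.two_T_odd h
      have h' : H1Col.T x * 2 = 3 * x + 1 := by omega
      exact_mod_cast h'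
    have hTp : (0 : ℝ) < ((H1Col.T x : ℕ) : ℝ) := by nlinarith
    have hne : ¬ x % 2 = 0 := by omega
    rw [if_pos h]
    have key : K (a + 1) x + 1048576 / 3 ≤ K (nx (H1Col.T x)) (H1Col.T x) / al + wp x := by
      have h1 : K (a + 1) x ≤ max (m (kap (x % 243)) : ℝ) ((K a (H1Col.T x) - 524289) / al) := by
        show max _ _ ≤ _
        rw [if_neg hne]
      have hdiv : K a (H1Col.T x) / al ≤ K (nx (H1Col.T x)) (H1Col.T x) / al :=
        div_le_div_of_nonneg_right hK al_pos.le
      have h2 : max (m (kap (x % 243)) : ℝ) ((K a (H1Col.T x) - 524289) / al) + 1048576 / 3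
          ≤ K (nx (H1Col.T x)) (H1Col.T x) / al + wp x := by
        rw [← le_sub_iff_add_le]
        apply max_le
        · simp only [Au, De, if_neg hne] at hw2
          linarith
        · have : (K a (H1Col.T x) - 524289) / al = K a (H1Col.T x) / al - 524289 / al := by ring
          rw [this]
          have h3 : (1048576 : ℝ) / 3 ≤ 524289 / al := by unfold al; norm_num
          linarith
      linarith
    have hle : K (nx (H1Col.T x)) (H1Col.T x) / al / x ≤
        K (nx (H1Col.T x)) (H1Col.T x) / (H1Col.T x : ℕ) := by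
      rw [div_div]
      apply div_le_div_of_nonneg_left (K_nonneg _ _) hTp
      have hx' : (65229815808 : ℝ) ≤ x := by exact_mod_cast hx
      unfold al
      nlinarith
    have e3 : (1048576 : ℝ) * (1 / (3 * x)) = (1048576 / 3) / x := by
      field_simp
    rw [e3, ← add_div]
    calc (K (a + 1) x + 1048576 / 3) / x ≤ (K (nx (H1Col.T x)) (H1Col.T x) / al + wp x) / x :=
          div_le_div_of_nonneg_right key hxp.le
      _ = K (nx (H1Col.T x)) (H1Col.T x) / al / x + wp x / x := by rw [add_div]
      _ ≤ _ := by linarith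

theorem telescope (x N : ℕ) (h : ∀ i < N, 65229815808 ≤ H1Col.T^[i] x) :
    K (nx x) x / x + 1048576 * H1Col.Sm x N
      ≤ K (nx (H1Col.T^[N] x)) (H1Col.T^[N] x) / (H1Col.T^[N] x : ℕ)
        + ∑ i ∈ range N, wp (H1Col.T^[i] x) / (H1Col.T^[i] x : ℕ) := by
  induction N with
  | zero => simp [H1Col.Sm]
  | succ n ih =>
      have h1 := ih (fun i hi => h i (by omega))
      have h2 := pointwise (h n (by omega))
      rw [H1Col.Sm_succ, sum_range_succ, H1Col.iter_succ]
      linarith

end H86C
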