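import Pool.Agent.H86.C.StepS
import Pool.Agent.H86.C.CostS

/-! # Module RunD: what `runD` proves

Instance `q = 6`, `F = 10400`, `top = 2^30`, `JL = JY`, `kp k = nth KY k = kd (14^k mod 27)`, base
`f k i = VD 0 (14^k mod 27) i`, and `(Gs ..)^[n] f k i = VD n (14^k mod 27) i` for `k < 18`, `i < 10400` (induction;
`14^(k+1) = 14 * 14^k`, period 18; `14^(nth JY (k % 6)) ≡ 14 (3 * 14^k + 1)` modulo 27: kernel check; for
`i ≥ F - 234 = 10166`, `J i = i + 234`, for `i < 10166` `J i < 10400`).
Relation with `totD`, where the class of `T1 (rk k)` modulo 27 is needed: `nth JY (k % 6)` is the index of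
`T1 (rk k) mod 27`: `14^(nth JY (k % 6)) mod 27 = T1 (rk k) mod 27` for `k < 162` (kernel check).
`250 * 2^30 < 2^40`. See the header of RunW for `inn_eq` (module RunW; you may import it or prove it again under
another name). -/

namespace H86C

open Finset

private theorem rd_rec (W h : ℕ → ℕ) (n : ℕ) : ∀ s acc,
    @Nat.rec (fun _ => ℕ → ℕ → ℕ) (fun _ acc => acc)
      (fun _ ih s acc => ih (Nat.add s 1) (Nat.add acc (Nat.mul (W s) (h (Nat.add s 1))))) n s acc =
    acc + ∑ i ∈ range n, W (s + i) * h (s + i + 1) := by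
  induction n with
  | zero =>
    intro s acc
    rw [Finset.range_zero, Finset.sum_empty, add_zero]
    rfl
  | succ n ih =>
    intro s acc
    have h0 := ih (s + 1) (acc + W s * h (s + 1))
    refine Eq.trans h0 ?_
    rw [Finset.sum_range_succ', add_zero, add_assoc, add_comm (W s * h (s + 1))]
    congr 2
    apply Finset.sum_congr rfl
    intro i _
    rw [show s + 1 + i = s + (i + 1) by ring]

private theorem rd_inn (k : ℕ) (h : ℕ → ℕ) (n : ℕ) : ∀ s acc,
    inn k h n s acc = acc + ∑ i ∈ range n, Wi k (s + i) * h (s + i + 1) :=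
  rd_rec (Wi k) h n

private theorem rd_lrec (B : ℕ → ℕ → ℕ) (C : List ℕ) : ∀ k,
    @List.rec ℕ (fun _ => ℕ → ℕ) (fun _ => 0) (fun c _ ih k => Nat.add (B c k) (ih (Nat.add k 1))) C k =
    ∑ j ∈ range C.length, B (nth C j) (k + j) := by
  induction C with
  | nil =>
    intro k
    rw [List.length_nil, Finset.range_zero, Finset.sum_empty]
  | cons c C ih =>
    intro k
    rw [List.length_cons, Finset.sum_range_succ', add_zero, add_comm]
    have h1 : nth (c :: C) 0 = c := rfl
    rw [h1]
    have h2 : ∑ j ∈ range C.length, B (nth (c :: C) (j + 1)) (k + (j + 1)) =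
        ∑ j ∈ range C.length, B (nth C j) (k + 1 + j) := by
      apply Finset.sum_congr rfl
      intro j _
      have h3 : nth (c :: C) (j + 1) = nth C j := rfl
      rw [h3, show k + 1 + j = k + (j + 1) by ring]
    rw [h2, ← ih (k + 1)]
    rfl

private noncomputable def rdBd (acc : List ℕ) (c k : ℕ) : ℕ :=
  inn (nth KL k) (fun i => Nat.add (fld (nth acc (Nat.mod k 6)) i) 68625) c (nth KL (nth JX (Nat.mod k 54))) 0

private theorem rd_tot0 (acc C : List ℕ) (k : ℕ) : totD acc C k =
    ∑ j ∈ range C.length, rdBd acc (nth C j) (k + j) := rd_lrec (rdBd acc) C k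

private theorem rd_tot (acc C : List ℕ) (k : ℕ) : totD acc C k =
    ∑ j ∈ range C.length, ∑ i ∈ range (nth C j), Wi (nth KL (k + j)) (nth KL (nth JX ((k + j) % 54)) + i) *
      (fld (nth acc ((k + j) % 6)) (nth KL (nth JX ((k + j) % 54)) + i + 1) + 68625) := by
  rw [rd_tot0]
  apply Finset.sum_congr rfl
  intro j _
  unfold rdBd
  rw [rd_inn, zero_add]
  rfl

private theorem rd_cnt (i : ℕ) : ∀ l : List ℕ, (∀ t ∈ l, t ≤ i) → cnt l i = 0 := by
  intro l
  induction l with
  | nil => intro _; rfl
  | cons t l ih =>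
      intro h
      rw [cnt_cons, if_neg (not_lt.mpr (h t (List.mem_cons_self)))]
      exact ih fun u hu => h u (List.mem_cons_of_mem _ hu)

private theorem rd_TH : ∀ t ∈ TH, t ≤ 6319 := by decide +kernel

private theorem rd_J {i : ℕ} (h : i < 10166) : J i < 10400 := by
  by_cases h1 : i < 6319
  · have := (J_bd i).2
    omega
  · have h2 : cnt TH i = 0 := rd_cnt i TH fun t ht => le_trans (rd_TH t ht) (by omega)
    unfold J
    rw [h2]
    omega

private theorem rd_k1 : ∀ k < 18, nth KY k = kd (14 ^ k % 27) ∧ nth KY k < 10400 ∧ 400 ≤ nth KY k ∧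
    14 ^ ((k + 1) % 18) % 27 = (14 * (14 ^ k % 27)) % 27 ∧
    14 ^ (nth JY (k % 6)) % 27 = (14 * (3 * (14 ^ k % 27) + 1)) % 27 := by
  intro k hk
  interval_cases k <;> refine ⟨by rfl, ?_, ?_, by norm_num, ?_⟩ <;> decide

private theorem rd_JY : ∀ i < 6, nth JY i < 18 := by
  intro i hi
  interval_cases i <;> decide

private theorem rd_top (n z i : ℕ) (h : 10400 ≤ i) : VD n z i = 1073741824 := by
  cases n with
  | zero => rw [VD, if_pos h]
  | succ n => rw [VD, if_pos h]

private noncomputable def rdf (k i : ℕ) : ℕ := VD 0 (14 ^ k % 27) i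

private theorem rd_iter (n : ℕ) : ∀ k < 18, ∀ i < 10400,
    (Gs 6 10400 1073741824 JY (fun k => nth KY k))^[n] rdf k i = VD n (14 ^ k % 27) i := by
  induction n with
  | zero => intro k _ i _; rfl
  | succ n ih =>
      intro k hk i hi
      rw [Function.iterate_succ_apply']
      obtain ⟨h1, -, h2, h3, h4⟩ := rd_k1 k hk
      rw [Gs, VD, if_neg (not_le.mpr hi), ← h1]
      by_cases hik : i ≤ nth KY k
      · rw [if_pos hik, if_pos hik]
      · rw [if_neg hik, if_neg hik, if_neg (by omega : ¬ i < 400)]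
        rw [ih ((k + 1) % (3 * 6)) (Nat.mod_lt _ (by norm_num)) (i - 400) (by omega)]
        have e1 : (k + 1) % (3 * 6) = (k + 1) % 18 := rfl
        rw [e1, h3]
        congr 2
        by_cases h5 : 10400 - 234 ≤ i
        · rw [if_pos h5, rd_top _ _ _ (by have := (J_bd i).1; omega)]
        · rw [if_neg h5, ih (nth JY (k % 6)) (rd_JY _ (Nat.mod_lt _ (by norm_num))) (J i)
            (rd_J (by omega)), h4]

private theorem rd_allA : allB (fun k => Nat.beq (14 ^ (nth JY (k % 6)) % 27) (T1 (122 ^ k % 243) % 27) &&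
    Nat.ble (nth KL (nth JX (k % 54)) + nth CT k) 2436) 162 = true := by decide +kernel

private theorem rd_CT : CT.length = 162 := by decide +kernel

theorem runD_spec {c : ℕ} (h : runD 150 249 c = true) :
    ∑ k ∈ range 162, ∑ i ∈ range (nth CT k),
      Wi (nth KL k) (nth KL (nth JX (k % 54)) + i) *
        ((∑ n ∈ Ico 150 400, VD n (T1 (rk k) % 27) (nth KL (nth JX (k % 54)) + i + 1)) + 68625) ≤ c := by
  unfold runD at h
  obtain ⟨MK, hM1, hM2, h⟩ := mapK_sound h
  obtain ⟨L0, hL1, hL2, h⟩ := mapK_sound h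
  have hKY : KY.length = 18 := by decide +kernel
  have hJY : JY.length = 6 := by decide +kernel
  rw [hKY] at hM1 hM2
  rw [hM1] at hL1 hL2
  have hD : Dat 6 10400 1073741824 (Nat.shiftLeft 1 416000) (blk 1073741824 10166 234) JY MK
      (fun k => nth KY k) := by
    refine ⟨by norm_num, by norm_num, by norm_num, by norm_num, hJY, ?_, hM1, ?_⟩
    · intro i hi
      have := rd_JY i hi
      exact ⟨by omega, by omega⟩
    · intro k hk
      exact ⟨hM2 k (by omega), (rd_k1 k (by omega)).2.1⟩
  have hf40 : ∀ i < 10400, (fun _ : ℕ => 1073741824) i < 2 ^ 40 := fun _ _ => by norm_num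
  have hSt : St 6 10400 1073741824 L0 rdf := by
    refine ⟨by omega, ?_, ?_⟩
    · intro k hk
      obtain ⟨h1, h2, h3, -, -⟩ := rd_k1 k (by omega)
      rw [hL2 k (by omega), hM2 k (by omega), mk_eq h2, blk_eq]
      have e0 : H1Col.pk 40 (fun i => if i < 0 then 0 else 1073741824) (0 + 10400) =
          H1Col.pk 40 (fun _ => 1073741824) 10400 := by
        rw [Nat.zero_add]
        exact H1Col.pk_congr fun i _ => by simp
      rw [e0]
      have e1 : Nat.land (H1Col.pk 40 (fun _ => 1073741824) 10400)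
          (H1Col.pk 40 (fun i => if i ≤ nth KY k then 0 else 549755813887) 10400) =
          H1Col.pk 40 (fun _ => 1073741824) 10400 &&&
          (H1Col.pk 40 (fun i => if i ≤ nth KY k then 0 else 549755813887) 10400) := rfl
      rw [e1, H1Col.pk_land hf40 (fun i _ => by split_ifs <;> norm_num)]
      refine H1Col.pk_congr fun i hi => ?_
      rw [rdf, VD, if_neg (not_le.mpr hi), ← h1]
      by_cases hik : i ≤ nth KY k
      · rw [if_pos hik, if_pos hik]; rfl
      · rw [if_neg hik, if_neg hik]; rfl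
    · intro k i
      rw [rdf, VD]
      split_ifs <;> norm_num
  obtain ⟨L', hL', h⟩ := run1_sound hD hSt h
  obtain ⟨acc, ha1, ha2, h⟩ := mapK_sound h
  rw [hJY] at ha1 ha2
  obtain ⟨acc', S, hacc, -, h⟩ := run2_sound hD hL' ha1 ha2 (by norm_num) h
  have hle : totD acc' CT 0 ≤ c := Nat.le_of_ble_eq_true h
  refine le_trans (le_of_eq ?_) hle
  rw [rd_tot, rd_CT]
  refine Finset.sum_congr rfl fun k hk => ?_
  have hk' : k < 162 := Finset.mem_range.mp hk
  have hA := allB_spec rd_allA k hk'
  simp only [Bool.and_eq_true] at hA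
  have hA1 : 14 ^ (nth JY (k % 6)) % 27 = T1 (122 ^ k % 243) % 27 := Nat.eq_of_beq_eq_true hA.1
  have hA2 : nth KL (nth JX (k % 54)) + nth CT k ≤ 2436 := Nat.le_of_ble_eq_true hA.2
  rw [Nat.zero_add]
  refine Finset.sum_congr rfl fun i hi => ?_
  have hi' : i < nth CT k := Finset.mem_range.mp hi
  have hj : nth KL (nth JX (k % 54)) + i + 1 < 2500 := by omega
  have hj6 : k % 6 < 6 := Nat.mod_lt _ (by norm_num)
  have hterm : ∀ l, ∀ i < 10400, (Gs 6 10400 1073741824 JY (fun k => nth KY k))^[l]
      ((Gs 6 10400 1073741824 JY (fun k => nth KY k))^[150] rdf) (nth JY (k % 6)) i =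
      VD (l + 150) (T1 (122 ^ k % 243) % 27) i := by
    intro l i hi
    rw [← Function.iterate_add_apply, rd_iter _ _ (rd_JY _ hj6) _ hi, hA1]
  have hVle : ∀ n z i, VD n z i ≤ 1073741824 := by
    intro n
    induction n with
    | zero => intro z i; rw [VD]; split_ifs <;> norm_num
    | succ n ih =>
        intro z i
        rw [VD]
        split_ifs
        · exact le_refl _
        · norm_num
        · have h1 := ih ((14 * z) % 27) (i - 400)
          have h2 := ih ((14 * (3 * z + 1)) % 27) (J i)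
          omega
  have e1 : fld (nth acc' (k % 6)) (nth KL (nth JX (k % 54)) + i + 1) =
      ∑ n ∈ Ico 150 400, VD n (T1 (rk k) % 27) (nth KL (nth JX (k % 54)) + i + 1) := by
    rw [hacc (k % 6) hj6, fld_eq hj]
    · rw [Finset.sum_Ico_eq_sum_range]
      refine Finset.sum_congr rfl fun l _ => ?_
      rw [hterm l _ (by omega), Nat.add_comm 150 l]
      rfl
    · intro i hi
      have h1 : ∑ l ∈ range (249 + 1), (Gs 6 10400 1073741824 JY (fun k => nth KY k))^[l]
          ((Gs 6 10400 1073741824 JY (fun k => nth KY k))^[150] rdf) (nth JY (k % 6)) i ≤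
          ∑ l ∈ range (249 + 1), 1073741824 := by
        refine Finset.sum_le_sum fun l _ => ?_
        rw [hterm l i (by omega)]
        exact hVle _ _ _
      refine lt_of_le_of_lt h1 ?_
      rw [Finset.sum_const, Finset.card_range]
      norm_num
  rw [e1]

end H86C
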