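import Pool.Agent.H86.C.StepS
import Pool.Agent.H86.C.CostS

/-! # Module RunW: what `runW` proves

Instance `q = 54`, `F = 7600`, `top = 4828299264 = 1178784 * 4096`, `JL = JX`, `kp k = kap (rk k)` (`nth KL k`), base
`f k i = VW 0 (rk k) i`, and `(Gs ..)^[l] f k i = VW l (rk k) i` for `k < 162`, `i < 7600` (induction; `rk (k+1) = T0 (rk k)`,
period 162; `rk (nth JX (k % 54)) = T1 (rk k)` kernel check; `i ≥ 400` whenever `i > kap`; for `i ≥ F - 234 = 7366`,
`J i = i + 234 ≥ 7600` where `VW` is `top`, and for `i < 7366` `J i < 7600`: `cnt TH i = 0` for `i ≥ 6319`, `J_bd` below).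
Base vector: `bas TU 0 = pk 40 bs 7600`-like: the thresholds of `TU` increase; `bas T s` (for the part `T` of the
list with all thresholds `≥ s`) `= pk 40 (fun i => if i < s then 0 else bs' T i) 7600` (`blk_eq`, `pk_add`), `bs = bs' TU`;
then `land` with the mask `mk 7600 (kap r)` (`pk_land`; values `< 2^39`).
`113 * top < 2^40`: `113 * 4828299264 = 545597816832 < 1099511627776`.
`totW`: `inn_eq` : `inn k h n s acc = acc + ∑ i < n, Wi k (s+i) * h (s+i+1)`; fields by `fld_eq`. -/

namespace H86C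

open Finset
open H1Col (pk)

private theorem rw_rec (W h : ℕ → ℕ) (n : ℕ) : ∀ s acc,
    @Nat.rec (fun _ => ℕ → ℕ → ℕ) (fun _ acc => acc)
      (fun _ ih s acc => ih (Nat.add s 1) (Nat.add acc (Nat.mul (W s) (h (Nat.add s 1))))) n s acc =
    acc + ∑ i ∈ range n, W (s + i) * h (s + i + 1) := by
  induction n with
  | zero =>
    intro s acc
    rw [Finset.range_zero, Finset.sum_empty, add_zero]
    rfl
  | succ n ih =>
    intro s acc
    have h0 := ih (s + 1) (acc + W s * h (s + 1))
    refine Eq.trans h0 ?_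
    rw [Finset.sum_range_succ', add_zero, add_assoc, add_comm (W s * h (s + 1))]
    congr 2
    apply Finset.sum_congr rfl
    intro i _
    rw [show s + 1 + i = s + (i + 1) by ring]

theorem inn_eq (k : ℕ) (h : ℕ → ℕ) (n : ℕ) : ∀ s acc,
    inn k h n s acc = acc + ∑ i ∈ range n, Wi k (s + i) * h (s + i + 1) :=
  rw_rec (Wi k) h n

/-! ### The base vector -/

private def rwBs (T : List (ℕ × ℕ)) (i : ℕ) : ℕ :=
  T.foldr (fun e y => if i ≤ e.1 then 4096 * e.2 else y) 4828299264

private theorem rwBs_cons (e : ℕ × ℕ) (T : List (ℕ × ℕ)) (i : ℕ) :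
    rwBs (e :: T) i = if i ≤ e.1 then 4096 * e.2 else rwBs T i := rfl

private def rwChk : List (ℕ × ℕ) → ℕ → Bool
  | [], s => Nat.ble s 7600
  | e :: T, s => Nat.ble s (e.1 + 1) && (Nat.ble (e.1 + 1) 7600 && (Nat.ble (4096 * e.2) 4828299264 &&
      rwChk T (e.1 + 1)))

private theorem rwBs_le (T : List (ℕ × ℕ)) : ∀ s, rwChk T s = true → ∀ i, rwBs T i ≤ 4828299264 := by
  induction T with
  | nil => intro s _ i; exact le_refl _
  | cons e T ih =>
    intro s h i
    have h' : (Nat.ble s (e.1 + 1) && (Nat.ble (e.1 + 1) 7600 && (Nat.ble (4096 * e.2) 4828299264 &&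
      rwChk T (e.1 + 1)))) = true := h
    rw [Bool.and_eq_true, Bool.and_eq_true, Bool.and_eq_true] at h'
    rw [rwBs_cons]
    split_ifs
    · exact Nat.ble_eq.mp h'.2.2.1
    · exact ih _ h'.2.2.2 i

private theorem rw_extend {w n k : ℕ} {f : ℕ → ℕ} :
    pk w f n = pk w (fun i => if i < n then f i else 0) (n + k) := by
  rw [H1Col.pk_append]
  have z : pk w (fun i => if i + n < n then f (i + n) else 0) k = 0 := by
    unfold pk
    apply sum_eq_zero
    intro i _
    simp
  rw [z, mul_zero, add_zero]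
  apply H1Col.pk_congr
  intro i hi
  rw [if_pos hi]

private theorem rw_bas (T : List (ℕ × ℕ)) : ∀ s, rwChk T s = true →
    bas T s = pk 40 (fun i => if i < s then 0 else rwBs T i) 7600 := by
  induction T with
  | nil =>
    intro s h
    have h1 : s ≤ 7600 := Nat.ble_eq.mp h
    have h2 : bas [] s = blk 4828299264 s (7600 - s) := rfl
    rw [h2, blk_eq, show s + (7600 - s) = 7600 by omega]
    rfl
  | cons e T ih =>
    intro s h
    have h' : (Nat.ble s (e.1 + 1) && (Nat.ble (e.1 + 1) 7600 && (Nat.ble (4096 * e.2) 4828299264 &&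
      rwChk T (e.1 + 1)))) = true := h
    rw [Bool.and_eq_true, Bool.and_eq_true, Bool.and_eq_true] at h'
    have h1 : s ≤ e.1 + 1 := Nat.ble_eq.mp h'.1
    have h2 : e.1 + 1 ≤ 7600 := Nat.ble_eq.mp h'.2.1
    have h3 : bas (e :: T) s = blk (4096 * e.2) s (e.1 + 1 - s) + bas T (e.1 + 1) := rfl
    rw [h3, ih _ h'.2.2.2, blk_eq, show s + (e.1 + 1 - s) = e.1 + 1 by omega,
      rw_extend (k := 7600 - (e.1 + 1)), show e.1 + 1 + (7600 - (e.1 + 1)) = 7600 by omega, H1Col.pk_add]
    apply H1Col.pk_congr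
    intro i _
    show (if i < e.1 + 1 then (if i < s then 0 else 4096 * e.2) else 0) +
      (if i < e.1 + 1 then 0 else rwBs T i) = if i < s then 0 else rwBs (e :: T) i
    rw [rwBs_cons]
    by_cases h4 : i < s
    · rw [if_pos h4, if_pos h4, if_pos (by omega), if_pos (by omega)]
    · rw [if_neg h4, if_neg h4]
      by_cases h5 : i < e.1 + 1
      · rw [if_pos h5, if_pos h5, if_pos (by omega), add_zero]
      · rw [if_neg h5, if_neg h5, if_neg (by omega), zero_add]

private theorem rw_chk : rwChk TU 0 = true := by decide +kernel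

private theorem bs_eq (i : ℕ) : bs i = rwBs TU i := rfl

private theorem bs_le (i : ℕ) : bs i ≤ 4828299264 := by
  rw [bs_eq]
  exact rwBs_le TU 0 rw_chk i

private theorem bas_bs : bas TU 0 = pk 40 bs 7600 := by
  rw [rw_bas TU 0 rw_chk]
  apply H1Col.pk_congr
  intro i _
  rw [if_neg (Nat.not_lt_zero i), bs_eq]

private theorem rw_land (k : ℕ) (hk : k < 7600) : Nat.land (bas TU 0) (mk 7600 k) =
    pk 40 (fun i => if i ≤ k then 0 else bs i) 7600 := by
  rw [bas_bs, mk_eq hk]
  have h1 : ∀ i < 7600, bs i < 2 ^ 40 := fun i _ => lt_of_le_of_lt (bs_le i) (by norm_num)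
  have h2 : ∀ i < 7600, (fun i => if i ≤ k then 0 else 549755813887) i < 2 ^ 40 := by
    intro i _
    show (if i ≤ k then 0 else 549755813887) < 2 ^ 40
    split_ifs <;> norm_num
  have h3 : pk 40 bs 7600 &&& pk 40 (fun i => if i ≤ k then 0 else 549755813887) 7600 =
    pk 40 (fun i => bs i &&& (fun i => if i ≤ k then 0 else 549755813887) i) 7600 := H1Col.pk_land h1 h2
  refine Eq.trans h3 ?_
  apply H1Col.pk_congr
  intro i _
  show bs i &&& (if i ≤ k then 0 else 549755813887) = if i ≤ k then 0 else bs i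
  by_cases h4 : i ≤ k
  · rw [if_pos h4, if_pos h4, Nat.and_zero]
  · rw [if_neg h4, if_neg h4]
    have h5 : bs i < 2 ^ 39 := lt_of_le_of_lt (bs_le i) (by norm_num)
    rw [show (549755813887 : ℕ) = 2 ^ 39 - 1 by norm_num, Nat.and_two_pow_sub_one_eq_mod,
      Nat.mod_eq_of_lt h5]

/-! ### Kernel checks -/

private theorem rw_c1 : ∀ k < 162, nth KL k = kap (rk k) ∧ nth KL k < 7600 ∧ 952 ≤ nth KL k := by
  have h : allB (fun k => Nat.beq (nth KL k) (kap (rk k)) && (Nat.ble (nth KL k + 1) 7600 &&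
      Nat.ble 952 (nth KL k))) 162 = true := by decide +kernel
  intro k hk
  have h1 := allB_spec h k hk
  rw [Bool.and_eq_true, Bool.and_eq_true] at h1
  exact ⟨Nat.eq_of_beq_eq_true h1.1, Nat.ble_eq.mp h1.2.1, Nat.ble_eq.mp h1.2.2⟩

private theorem rw_c2 : ∀ k < 162, rk ((k + 1) % 162) = T0 (rk k) ∧ rk (nth JX (k % 54)) = T1 (rk k) ∧
    nth KL (nth JX (k % 54)) + nth CT k ≤ 2436 := by
  have h : allB (fun k => Nat.beq (rk ((k + 1) % 162)) (T0 (rk k)) &&
      (Nat.beq (rk (nth JX (k % 54))) (T1 (rk k)) &&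
      Nat.ble (nth KL (nth JX (k % 54)) + nth CT k) 2436)) 162 = true := by decide +kernel
  intro k hk
  have h1 := allB_spec h k hk
  rw [Bool.and_eq_true, Bool.and_eq_true] at h1
  exact ⟨Nat.eq_of_beq_eq_true h1.1, Nat.eq_of_beq_eq_true h1.2.1, Nat.ble_eq.mp h1.2.2⟩

private theorem rw_c3 : ∀ k < 54, nth JX k < 162 := by
  have h : allB (fun k => Nat.ble (nth JX k + 1) 162) 54 = true := by decide +kernel
  intro k hk
  exact Nat.ble_eq.mp (allB_spec h k hk)

private theorem rw_KL : KL.length = 162 := by decide +kernel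
private theorem rw_JX : JX.length = 54 := by decide +kernel
private theorem rw_CT : CT.length = 162 := by decide +kernel

/-! ### The recursion -/

private theorem rw_cnt0 {l : List ℕ} {i : ℕ} (h : ∀ t ∈ l, t ≤ i) : cnt l i = 0 := by
  induction l with
  | nil => rfl
  | cons t l ih =>
      rw [cnt_cons, if_neg (by have := h t (by simp); omega)]
      exact ih (fun t ht => h t (by simp [ht]))

private theorem rw_cntTH {i : ℕ} (h : 6319 ≤ i) : cnt TH i = 0 := by
  apply rw_cnt0
  have : ∀ t ∈ TH, t ≤ 6319 := by decide +kernel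
  intro t ht
  exact le_trans (this t ht) h

private theorem rw_J1 {i : ℕ} (h : i < 7366) : J i < 7600 := by
  by_cases h1 : 6319 ≤ i
  · have h2 : J i = i + 234 + cnt TH i := rfl
    rw [h2, rw_cntTH h1]
    omega
  · have := (J_bd i).2
    omega

private theorem rw_top (l q i : ℕ) (h : 7600 ≤ i) : VW l q i = 4828299264 := by
  cases l with
  | zero => show (if 7600 ≤ i then 4828299264 else if i ≤ kap q then 0 else bs i) = _; rw [if_pos h]
  | succ l =>
    show (if 7600 ≤ i then 4828299264 else if i ≤ kap q then 0 else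
      (VW l (T0 q) (i - 400) + VW l (T1 q) (J i)) / 2) = _
    rw [if_pos h]

private noncomputable def rwF (k i : ℕ) : ℕ := if i ≤ nth KL k then 0 else bs i

private theorem rwF_le (k i : ℕ) : rwF k i ≤ 4828299264 := by
  unfold rwF
  split_ifs
  · omega
  · exact bs_le i

private noncomputable def rwG (f : ℕ → ℕ → ℕ) : ℕ → ℕ → ℕ := Gs 54 7600 4828299264 JX (fun k => nth KL k) f

private theorem rwG_def (f : ℕ → ℕ → ℕ) (k i : ℕ) : rwG f k i = if i ≤ nth KL k then 0 else
    ((if i < 400 then 0 else f ((k + 1) % 162) (i - 400)) +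
      (if 7366 ≤ i then 4828299264 else f (nth JX (k % 54)) (J i))) / 2 := rfl

private theorem rw_VW (l : ℕ) : ∀ k < 162, ∀ i < 7600, (rwG^[l] rwF) k i = VW l (rk k) i := by
  induction l with
  | zero =>
    intro k hk i hi
    show (if i ≤ nth KL k then 0 else bs i) = (if 7600 ≤ i then 4828299264 else if i ≤ kap (rk k) then 0 else bs i)
    rw [if_neg (not_le.mpr hi), (rw_c1 k hk).1]
  | succ l ih =>
    intro k hk i hi
    rw [Function.iterate_succ_apply', rwG_def]
    show _ = (if 7600 ≤ i then 4828299264 else if i ≤ kap (rk k) then 0 else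
      (VW l (T0 (rk k)) (i - 400) + VW l (T1 (rk k)) (J i)) / 2)
    rw [if_neg (not_le.mpr hi)]
    obtain ⟨c1, c2, c3⟩ := rw_c1 k hk
    obtain ⟨c4, c5, _⟩ := rw_c2 k hk
    rw [← c1]
    by_cases h1 : i ≤ nth KL k
    · rw [if_pos h1, if_pos h1]
    · rw [if_neg h1, if_neg h1, if_neg (by omega), ih _ (Nat.mod_lt _ (by norm_num)) _ (by omega), c4]
      by_cases h2 : 7366 ≤ i
      · rw [if_pos h2, rw_top l (T1 (rk k)) (J i) (by have := (J_bd i).1; omega)]
      · rw [if_neg h2, ih _ (rw_c3 _ (Nat.mod_lt _ (by norm_num))) _ (rw_J1 (by omega)), c5]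

private theorem rw_le (l : ℕ) : ∀ k i, (rwG^[l] rwF) k i ≤ 4828299264 := by
  induction l with
  | zero => exact rwF_le
  | succ l ih =>
    intro k i
    rw [Function.iterate_succ_apply']
    exact Gs_le ih k i

/-! ### The total -/

private theorem rw_lrec (B : ℕ → ℕ → ℕ) (C : List ℕ) : ∀ k,
    @List.rec ℕ (fun _ => ℕ → ℕ) (fun _ => 0) (fun c _ ih k => Nat.add (B c k) (ih (Nat.add k 1))) C k =
    ∑ j ∈ range C.length, B (nth C j) (k + j) := by
  induction C with
  | nil =>
    intro k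
    rw [List.length_nil, Finset.range_zero, Finset.sum_empty]
  | cons c C ih =>
    intro k
    rw [List.length_cons, Finset.sum_range_succ', add_zero, add_comm]
    have h1 : nth (c :: C) 0 = c := rfl
    rw [h1]
    have h2 : ∑ j ∈ range C.length, B (nth (c :: C) (j + 1)) (k + (j + 1)) =
        ∑ j ∈ range C.length, B (nth C j) (k + 1 + j) := by
      apply Finset.sum_congr rfl
      intro j _
      have h3 : nth (c :: C) (j + 1) = nth C j := rfl
      rw [h3, show k + 1 + j = k + (j + 1) by ring]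
    rw [h2, ← ih (k + 1)]
    rfl

private noncomputable def rwBd (acc S : List ℕ) (c k : ℕ) : ℕ :=
  inn (nth KL k) (fun i =>
        Nat.add (Nat.mul 10000 (Nat.add (fld (nth acc (Nat.mod k 54)) i) 8136))
          (Nat.mul 161764 (Nat.add (fld (nth S (Nat.mod k 54)) i) 128))) c (nth KL (nth JX (Nat.mod k 54))) 0

private theorem totW_eq0 (acc S C : List ℕ) (k : ℕ) : totW acc S C k =
    ∑ j ∈ range C.length, rwBd acc S (nth C j) (k + j) := rw_lrec (rwBd acc S) C k

private theorem totW_eq (acc S C : List ℕ) (k : ℕ) : totW acc S C k =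
    ∑ j ∈ range C.length, ∑ i ∈ range (nth C j), Wi (nth KL (k + j)) (nth KL (nth JX ((k + j) % 54)) + i) *
      (10000 * (fld (nth acc ((k + j) % 54)) (nth KL (nth JX ((k + j) % 54)) + i + 1) + 8136) +
        161764 * (fld (nth S ((k + j) % 54)) (nth KL (nth JX ((k + j) % 54)) + i + 1) + 128)) := by
  rw [totW_eq0]
  apply Finset.sum_congr rfl
  intro j _
  unfold rwBd
  rw [inn_eq, zero_add]
  rfl

theorem runW_spec {c : ℕ} (h : runW 16 112 c = true) :
    ∑ k ∈ range 162, ∑ i ∈ range (nth CT k),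
      Wi (nth KL k) (nth KL (nth JX (k % 54)) + i) *
        (10000 * ((∑ l ∈ Ico 16 129, VW l (T1 (rk k)) (nth KL (nth JX (k % 54)) + i + 1)) + 8136)
          + 161764 * (VW 128 (T1 (rk k)) (nth KL (nth JX (k % 54)) + i + 1) + 128)) ≤ c := by
  have h0 : mapK (Nat.shiftLeft 1 304000) (mk 7600) KL (fun MK =>
    mapK (Nat.shiftLeft 1 304000) (fun u => Nat.land (bas TU 0) u) MK (fun L0 =>
      run1 (Nat.shiftLeft 1 304000) (blk 4828299264 7366 234) JX MK (fun L =>
        mapK (Nat.shiftLeft 1 304000) (fun _ => 0) JX (fun acc =>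
          run2 (Nat.shiftLeft 1 304000) (blk 4828299264 7366 234) JX MK
            (fun acc S => Nat.ble (totW acc S CT 0) c) 112 acc L)) 16 L0)) = true := h
  obtain ⟨MK, hM1, hM2, h1⟩ := mapK_sound h0
  obtain ⟨L0, hL1, hL2, h2⟩ := mapK_sound h1
  rw [rw_KL] at hM1 hM2
  rw [hM1] at hL1 hL2
  have hD : Dat 54 7600 4828299264 (Nat.shiftLeft 1 304000) (blk 4828299264 7366 234) JX MK (fun k => nth KL k) :=
    { q1 := by norm_num
      F1 := by norm_num
      top1 := by norm_num
      P1 := rfl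
      JL1 := rw_JX
      JL2 := fun i hi => ⟨rw_c3 i hi, rw_c3 i hi⟩
      MK1 := hM1
      MK2 := fun k hk => ⟨hM2 k hk, (rw_c1 k hk).2.1⟩ }
  have hL : St 54 7600 4828299264 L0 rwF :=
    { len := hL1
      nth_eq := by
        intro k hk
        rw [hL2 k hk, hM2 k hk, rw_land _ (rw_c1 k hk).2.1]
        rfl
      le := rwF_le }
  obtain ⟨L, hL3, h3⟩ := run1_sound hD hL h2
  obtain ⟨acc, hA1, hA2, h4⟩ := mapK_sound h3
  rw [rw_JX] at hA1 hA2
  obtain ⟨acc', S, hB1, hB2, h5⟩ := run2_sound hD hL3 hA1 hA2 (by norm_num) h4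
  have h6 : totW acc' S CT 0 ≤ c := Nat.ble_eq.mp h5
  refine le_trans (le_of_eq ?_) h6
  rw [totW_eq, rw_CT]
  apply Finset.sum_congr rfl
  intro k hk
  rw [zero_add]
  apply Finset.sum_congr rfl
  intro i hi
  have hk' := Finset.mem_range.mp hk
  have hi' := Finset.mem_range.mp hi
  have hq : k % 54 < 54 := Nat.mod_lt _ (by norm_num)
  obtain ⟨_, c5, c6⟩ := rw_c2 k hk'
  have hidx : nth KL (nth JX (k % 54)) + i + 1 < 2500 := by omega
  have hG : ∀ l, (Gs 54 7600 4828299264 JX (fun k => nth KL k))^[l]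
      ((Gs 54 7600 4828299264 JX (fun k => nth KL k))^[16] rwF) = rwG^[l + 16] rwF := by
    intro l
    rw [Function.iterate_add_apply]
    rfl
  have e1 : fld (nth acc' (k % 54)) (nth KL (nth JX (k % 54)) + i + 1) =
      ∑ l ∈ Ico 16 129, VW l (T1 (rk k)) (nth KL (nth JX (k % 54)) + i + 1) := by
    rw [hB1 _ hq, fld_eq hidx]
    · rw [Finset.sum_Ico_eq_sum_range]
      apply Finset.sum_congr rfl
      intro l _
      rw [hG, rw_VW (l + 16) _ (rw_c3 _ hq) _ (by omega), c5, add_comm l 16]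
    · intro j _
      have : ∑ l ∈ range (112 + 1), (Gs 54 7600 4828299264 JX (fun k => nth KL k))^[l]
          ((Gs 54 7600 4828299264 JX (fun k => nth KL k))^[16] rwF) (nth JX (k % 54)) j
          ≤ ∑ l ∈ range (112 + 1), 4828299264 := by
        apply Finset.sum_le_sum
        intro l _
        rw [hG]
        exact rw_le _ _ _
      rw [Finset.sum_const, Finset.card_range, smul_eq_mul] at this
      exact lt_of_le_of_lt this (by norm_num)
  have e2 : fld (nth S (k % 54)) (nth KL (nth JX (k % 54)) + i + 1) =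
      VW 128 (T1 (rk k)) (nth KL (nth JX (k % 54)) + i + 1) := by
    rw [hB2 _ hq, fld_eq (by omega)]
    · rw [hG, rw_VW (112 + 16) _ (rw_c3 _ hq) _ (by omega), c5]
    · intro j _
      rw [hG]
      exact lt_of_le_of_lt (rw_le _ _ _) (by norm_num)
  rw [e1, e2]

end H86C
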