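import Pool.Agent.H86.C.Gath
import Pool.Agent.H86.C.ListS

/-! # Module StepS: one step of the packed recursion, and the two runs

A state is a list of `3 q` packed vectors with `F` fields: `St q F L f` says `nth L k = pk 40 (f k) F`.
`kp k` : last zero index of the vector `k` (the masks are `mk F (kp k)`), `JL` : the `q` indices of the odd images.

* `step_sound` : `sel_sound`, `mapK_sound` with `gl_eq`, `zipK_sound` with `val_eq`, `rot_spec`, `app_three`.
* `run1_sound` : induction on the number of steps.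
* `addK` adds the low 2500 fields (`low_eq`: `100000 = 40 * 2500`): the accumulated fields are sums of at most
  `n ≤ 400` fields `≤ top`, `n * top < 2^40` (hypothesis `hn`), so the representation `pk 40 _ 2500` is kept by
  `pk_add`.
* `run2_sound` : induction; the sum over the levels `l, .., l + n` inclusive. -/

namespace H86C

open Finset
open H1Col (pk)

structure St (q F top : ℕ) (L : List ℕ) (f : ℕ → ℕ → ℕ) : Prop where
  len : L.length = 3 * q
  nth_eq : ∀ k < 3 * q, nth L k = pk 40 (f k) F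
  le : ∀ k i, f k i ≤ top

/-- One step of the recursion (fields `i < F`; the value `top` stands for the fields beyond). -/
noncomputable def Gs (q F top : ℕ) (JL : List ℕ) (kp : ℕ → ℕ) (f : ℕ → ℕ → ℕ) (k i : ℕ) : ℕ :=
  if i ≤ kp k then 0 else
    ((if i < 400 then 0 else f ((k + 1) % (3 * q)) (i - 400)) +
      (if F - 234 ≤ i then top else f (nth JL (k % q)) (J i))) / 2

/-- Data of a run. -/
structure Dat (q F top B P : ℕ) (JL MK : List ℕ) (kp : ℕ → ℕ) : Prop where
  q1 : 0 < q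
  F1 : 7000 ≤ F
  top1 : top ≤ 2 ^ 38
  P1 : P = blk top (F - 234) 234
  JL1 : JL.length = q
  JL2 : ∀ i < q, nth JL i < 3 * q ∧ nth JL i < 162
  MK1 : MK.length = 3 * q
  MK2 : ∀ k < 3 * q, nth MK k = mk F (kp k) ∧ kp k < F

theorem Gs_le {q F top : ℕ} {JL : List ℕ} {kp : ℕ → ℕ} {f : ℕ → ℕ → ℕ} (hf : ∀ k i, f k i ≤ top) (k i : ℕ) :
    Gs q F top JL kp f k i ≤ top := by
  unfold Gs
  split_ifs with h1 h2 h3 h3
  · omega
  · omega
  · have := hf (nth JL (k % q)) (J i)
    omega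
  · have := hf ((k + 1) % (3 * q)) (i - 400)
    omega
  · have := hf ((k + 1) % (3 * q)) (i - 400)
    have := hf (nth JL (k % q)) (J i)
    omega

theorem step_sound {q F top B P : ℕ} {JL MK L : List ℕ} {kp : ℕ → ℕ} (hD : Dat q F top B P JL MK kp)
    {f : ℕ → ℕ → ℕ} (hL : St q F top L f) {k : List ℕ → List ℕ → Bool} (h : stepK B P JL MK L k = true) :
    ∃ S L' : List ℕ, S.length = q ∧ (∀ i < q, nth S i = pk 40 (f (nth JL i)) F) ∧
      St q F top L' (Gs q F top JL kp f) ∧ k S L' = true := by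
  have hq := hD.q1
  have hF := hD.F1
  have ht := hD.top1
  have h0 : sel B JL L (fun S => mapK B (gl P) S (fun G => zipK B val (rot L) (app G (app G G)) MK (k S))) = true := h
  obtain ⟨S, hS1, hS2, h1⟩ := sel_sound (fun i hi => (hD.JL2 i (by rw [← hD.JL1]; exact hi)).2) h0
  obtain ⟨G, hG1, hG2, h2⟩ := mapK_sound h1
  obtain ⟨L', hL1, hL2, h3⟩ := zipK_sound h2
  rw [hD.JL1] at hS1 hS2
  rw [hS1] at hG1 hG2
  have hlen : 0 < L.length := by rw [hL.len]; omega
  obtain ⟨hr1, hr2⟩ := rot_spec hlen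
  rw [hL.len] at hr1 hr2
  rw [hr1] at hL1 hL2
  have hS : ∀ i < q, nth S i = pk 40 (f (nth JL i)) F := by
    intro i hi
    rw [hS2 i hi, hL.nth_eq _ (hD.JL2 i hi).1]
  have hf38 : ∀ k i, f k i ≤ 2 ^ 38 := fun k i => le_trans (hL.le k i) ht
  refine ⟨S, L', hS1, hS, ⟨hL1, ?_, Gs_le hL.le⟩, h3⟩
  intro j hj
  have hjq : j % q < q := Nat.mod_lt _ hq
  obtain ⟨hm1, hm2⟩ := hD.MK2 j hj
  rw [hL2 j hj, hr2 j hj, hL.nth_eq _ (Nat.mod_lt _ (by omega)), app_three hG1 j hj, hG2 _ hjq, hS _ hjq, hD.P1,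
    gl_eq hF (hf38 _) ht, hm1]
  rw [val_eq (h := fun i => if F - 234 ≤ i then top else f (nth JL (j % q)) (J i)) hm2 (hf38 _) ?_]
  · apply H1Col.pk_congr
    intro i _
    rfl
  · intro i
    show (if F - 234 ≤ i then top else f (nth JL (j % q)) (J i)) ≤ 2 ^ 38
    split_ifs
    · exact ht
    · exact hf38 _ _

theorem run1_sound {q F top B P : ℕ} {JL MK L : List ℕ} {kp : ℕ → ℕ} (hD : Dat q F top B P JL MK kp)
    {f : ℕ → ℕ → ℕ} (hL : St q F top L f) {n : ℕ} {k : List ℕ → Bool} (h : run1 B P JL MK k n L = true) :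
    ∃ L' : List ℕ, St q F top L' ((Gs q F top JL kp)^[n] f) ∧ k L' = true := by
  induction n generalizing L f with
  | zero => exact ⟨L, hL, h⟩
  | succ n ih =>
    have h0 : stepK B P JL MK L (fun _ L' => run1 B P JL MK k n L') = true := h
    obtain ⟨S, L', _, _, h3, h4⟩ := step_sound hD hL h0
    obtain ⟨L2, h5, h6⟩ := ih h3 h4
    refine ⟨L2, ?_, h6⟩
    rw [Function.iterate_succ_apply]
    exact h5

/-- One accumulation. -/
theorem addK_sound {F B : ℕ} {acc S : List ℕ} {a f : ℕ → ℕ → ℕ} {q : ℕ} (hF : 7000 ≤ F)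
    (ha : acc.length = q) (ha0 : ∀ j < q, nth acc j = pk 40 (a j) 2500)
    (hS : ∀ j < q, nth S j = pk 40 (f j) F) (hf : ∀ j i, f j i < 2 ^ 40) {k : List ℕ → Bool}
    (h : addK B acc S k = true) :
    ∃ acc' : List ℕ, acc'.length = q ∧ (∀ j < q, nth acc' j = pk 40 (fun i => a j i + f j i) 2500) ∧ k acc' = true := by
  have h0 : zipK B (fun a s _ => Nat.add a (Nat.land s (allo 100000))) acc S [] k = true := h
  obtain ⟨R, hR1, hR2, h1⟩ := zipK_sound h0
  rw [ha] at hR1 hR2
  refine ⟨R, hR1, ?_, h1⟩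
  intro j hj
  have e : Nat.land (pk 40 (f j) F) (allo 100000) = pk 40 (f j) 2500 := by
    have := low_eq (n := 2500) (N := F) (f := f j) (by omega) (fun i _ => hf j i)
    rw [show Nat.mul 40 2500 = 100000 from rfl] at this
    exact this
  have h2 : nth R j = Nat.add (nth acc j) (Nat.land (nth S j) (allo 100000)) := hR2 j hj
  rw [h2, ha0 j hj, hS j hj, e]
  exact H1Col.pk_add 40 (a j) (f j) 2500

theorem run2_aux {q F top B P : ℕ} {JL MK : List ℕ} {kp : ℕ → ℕ} (hD : Dat q F top B P JL MK kp)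
    (n : ℕ) {k : List ℕ → List ℕ → Bool} : ∀ (L acc : List ℕ) (f a : ℕ → ℕ → ℕ), St q F top L f →
    acc.length = q → (∀ j < q, nth acc j = pk 40 (a j) 2500) → run2 B P JL MK k n acc L = true →
    ∃ acc' S : List ℕ, (∀ j < q, nth acc' j =
        pk 40 (fun i => a j i + ∑ l ∈ range (n + 1), (Gs q F top JL kp)^[l] f (nth JL j) i) 2500) ∧
      (∀ j < q, nth S j = pk 40 ((Gs q F top JL kp)^[n] f (nth JL j)) F) ∧ k acc' S = true := by
  have ht : top < 2 ^ 40 := lt_of_le_of_lt hD.top1 (by norm_num)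
  induction n with
  | zero =>
    intro L acc f a hL ha ha0 h
    have h0 : sel B JL L (fun S => addK B acc S (fun acc' => k acc' S)) = true := h
    obtain ⟨S, hS1, hS2, h1⟩ := sel_sound (fun i hi => (hD.JL2 i (by rw [← hD.JL1]; exact hi)).2) h0
    rw [hD.JL1] at hS1 hS2
    have hS : ∀ i < q, nth S i = pk 40 (f (nth JL i)) F := by
      intro i hi
      rw [hS2 i hi, hL.nth_eq _ (hD.JL2 i hi).1]
    obtain ⟨acc', _, hb, h2⟩ := addK_sound (f := fun j => f (nth JL j)) hD.F1 ha ha0 hS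
      (fun j i => lt_of_le_of_lt (hL.le _ _) ht) h1
    refine ⟨acc', S, ?_, hS, h2⟩
    intro j hj
    rw [hb j hj]
    apply H1Col.pk_congr
    intro i _
    simp
  | succ n ih =>
    intro L acc f a hL ha ha0 h
    have h0 : stepK B P JL MK L (fun S L' => addK B acc S (fun acc' => run2 B P JL MK k n acc' L')) = true := h
    obtain ⟨S, L', _, hS, h3, h4⟩ := step_sound hD hL h0
    obtain ⟨acc', hc, hb, h2⟩ := addK_sound (f := fun j => f (nth JL j)) hD.F1 ha ha0 hS
      (fun j i => lt_of_le_of_lt (hL.le _ _) ht) h4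
    obtain ⟨acc2, S2, h5, h6, h7⟩ := ih L' acc' _ _ h3 hc hb h2
    refine ⟨acc2, S2, ?_, ?_, h7⟩
    · intro j hj
      rw [h5 j hj]
      apply H1Col.pk_congr
      intro i _
      rw [Finset.sum_range_succ' _ (n + 1), Function.iterate_zero, add_assoc, add_comm (f (nth JL j) i)]
      rfl
    · intro j hj
      rw [h6 j hj, Function.iterate_succ_apply]

theorem run2_sound {q F top B P : ℕ} {JL MK L acc : List ℕ} {kp : ℕ → ℕ} (hD : Dat q F top B P JL MK kp)
    {f : ℕ → ℕ → ℕ} (hL : St q F top L f) (ha : acc.length = q) (ha0 : ∀ i < q, nth acc i = 0)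
    {n : ℕ} (hn : (n + 1) * top < 2 ^ 40) {k : List ℕ → List ℕ → Bool} (h : run2 B P JL MK k n acc L = true) :
    ∃ acc' S : List ℕ, (∀ j < q, nth acc' j =
        pk 40 (fun i => ∑ l ∈ range (n + 1), (Gs q F top JL kp)^[l] f (nth JL j) i) 2500) ∧
      (∀ j < q, nth S j = pk 40 ((Gs q F top JL kp)^[n] f (nth JL j)) F) ∧ k acc' S = true := by
  obtain ⟨acc', S, h1, h2, h3⟩ := run2_aux hD n L acc f (fun _ _ => 0) hL ha
    (fun j hj => by rw [ha0 j hj]; simp [pk]) h
  refine ⟨acc', S, ?_, h2, h3⟩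
  intro j hj
  rw [h1 j hj]
  apply H1Col.pk_congr
  intro i _
  simp

end H86C
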