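import Pool.Agent.H86.C.Cnt
import Pool.Agent.H86.C.DRec
import Pool.Agent.H1.Col.Count

/-! # Module TailB: the price of one block, plain counts

Model: `periodic_sum` (`Pool/Agent/H1/Col/Count.lean`), `PP`, `PP_periodic`, `PP_count_le`, `block_bound`
(`Pool/Agent/H1/Col/Block.lean`).
`a = n + 3 ≥ 28`. The predicate `PP r i x : x % 243 = r ∧ x % 2 = 1 ∧ K n (T x) < m i` is periodic with period
`P = 243 * 2^(n+1)`; in `range P` it has at most `D n (T1 r) i` elements (`DO_le` of the model: the map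
`x ↦ T x mod 243 * 2^n` is injective on it; if the module DRec is done you can import it). The block is
`[4 P, 8 P)`, so the sum of `1/x` over it is at most `D n (T1 r) i * (1/(4P) + 1/(5P) + 1/(6P) + 1/(7P))`.
Even numbers cost nothing (`wp_even`), odd ones by `wp_odd` with depth `n ≤ nx x - 1 = n + 13`. -/

namespace H86C

open Finset
open scoped Classical

/-- The predicate counted. -/
private def PQ (n r i : ℕ) (x : ℕ) : Prop := x % 243 = r ∧ x % 2 = 1 ∧ K n (H1Col.T x) < m i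

private theorem PQ_periodic (n r i : ℕ) : Function.Periodic (PQ n r i) (243 * 2 ^ (n + 1)) := by
  intro x
  have e1 : 243 * 2 ^ (n + 1) = 2 * (243 * 2 ^ n) := by rw [pow_succ]; ring
  have h1 : (x + 243 * 2 ^ (n + 1)) % 243 = x % 243 := by rw [Nat.add_mul_mod_self_left]
  have h2 : (x + 243 * 2 ^ (n + 1)) % 2 = x % 2 := by rw [e1]; omega
  have h3 : K n (H1Col.T (x + 243 * 2 ^ (n + 1))) = K n (H1Col.T x) := by
    rw [e1, H1Col.T_add_mul]
    apply K_period
    split_ifs
    · show (H1Col.T x + 243 * 2 ^ n) % _ = H1Col.T x % _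
      rw [Nat.add_mod_right]
    · show (H1Col.T x + 3 * (243 * 2 ^ n)) % _ = H1Col.T x % _
      rw [Nat.add_mul_mod_self_right]
  unfold PQ
  rw [h1, h2, h3]

private theorem PQ_count_le {n r i : ℕ} :
    ((range (243 * 2 ^ (n + 1))).filter (PQ n r i)).card ≤ D n (T1 r) i := by
  refine le_trans (le_of_eq ?_) (DO_le n r i)
  unfold DO
  congr 1
  ext x
  simp only [mem_filter, PQ]

theorem block_D {n : ℕ} (hn : 25 ≤ n) :
    ∑ y ∈ block (n + 3), wp y / y ≤
      (1 / 4 + 1 / 5 + 1 / 6 + 1 / 7) / (243 * 2 ^ (n + 1)) * Cst (fun q i => (D n q i : ℝ)) := by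
  have hmap : ∀ x ∈ block (n + 3), x % 243 ∈ (range 243).filter (fun r => r % 3 ≠ 0) := by
    intro x hx
    simp only [block, mem_filter, mem_Ico] at hx
    simp only [mem_filter, mem_range]
    omega
  rw [← sum_fiberwise_of_maps_to hmap]
  unfold Cst
  rw [mul_sum]
  apply sum_le_sum
  intro r hp
  simp only [mem_filter, mem_range] at hp
  obtain ⟨hr, hru⟩ := hp
  -- bound each term
  have h1 : ∀ x ∈ (block (n + 3)).filter (fun x => x % 243 = r), wp x / x ≤
      ∑ i ∈ Ico (kap (T1 r)) 2436,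
        Wt r i * (if x % 2 = 1 ∧ K n (H1Col.T x) < m (i + 1) then 1 else 0) * (1 / x) := by
    intro x hx
    simp only [block, mem_filter, mem_Ico] at hx
    obtain ⟨⟨⟨hx1, hx2⟩, hx3⟩, hx4⟩ := hx
    have hnx : nx x = n + 3 + 11 := nx_eq hx1 hx2
    rw [div_eq_mul_one_div, ← sum_mul]
    apply mul_le_mul_of_nonneg_right _ (by positivity)
    rcases Nat.mod_two_eq_zero_or_one x with h | h
    · rw [wp_even hx3 h]
      apply sum_nonneg
      intro i _
      apply mul_nonneg (Wt_nonneg _ _)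
      split_ifs <;> norm_num
    · have h2 := wp_odd (n := n) hx3 h (by omega)
      rw [hx4] at h2
      refine le_trans h2 (le_of_eq ?_)
      apply sum_congr rfl
      intro i _
      congr 1
      simp only [h, true_and]
  refine le_trans (sum_le_sum h1) ?_
  rw [sum_comm, mul_sum]
  apply sum_le_sum
  intro i _
  have hX : 0 < 4 * (243 * 2 ^ (n + 1)) := by positivity
  have h3 := H1Col.periodic_sum (N := 243 * 2 ^ (n + 1)) (X := 4 * (243 * 2 ^ (n + 1)))
    (by positivity) hX (PQ_periodic n r (i + 1)) 4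
  have h4 : ∑ x ∈ (block (n + 3)).filter (fun x => x % 243 = r),
      Wt r i * (if x % 2 = 1 ∧ K n (H1Col.T x) < m (i + 1) then 1 else 0) * (1 / (x : ℝ)) ≤
      Wt r i * ∑ x ∈ (Ico (4 * (243 * 2 ^ (n + 1))) (4 * (243 * 2 ^ (n + 1)) +
        4 * (243 * 2 ^ (n + 1)))).filter (PQ n r (i + 1)), 1 / (x : ℝ) := by
    rw [mul_sum, sum_filter, sum_filter]
    unfold block
    rw [sum_filter]
    have e1 : 243 * 2 ^ (n + 3) = 4 * (243 * 2 ^ (n + 1)) := by ring
    have e2 : 243 * 2 ^ (n + 3 + 1) = 4 * (243 * 2 ^ (n + 1)) + 4 * (243 * 2 ^ (n + 1)) := by ring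
    rw [e1, e2]
    apply sum_le_sum
    intro x _
    have hw := Wt_nonneg r i
    by_cases c1 : x % 3 ≠ 0
    · by_cases c2 : x % 243 = r
      · by_cases c3 : x % 2 = 1 ∧ K n (H1Col.T x) < m (i + 1)
        · have c4 : PQ n r (i + 1) x := ⟨c2, c3.1, c3.2⟩
          rw [if_pos c1, if_pos c2, if_pos c3, if_pos c4, mul_one]
        · rw [if_pos c1, if_pos c2, if_neg c3, mul_zero, zero_mul]
          split_ifs <;> positivity
      · rw [if_pos c1, if_neg c2]
        split_ifs <;> positivity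
    · rw [if_neg c1]
      split_ifs <;> positivity
  refine le_trans h4 ?_
  have h5 : ((((range (243 * 2 ^ (n + 1))).filter (PQ n r (i + 1))).card : ℕ) : ℝ) ≤
      (D n (T1 r) (i + 1) : ℝ) := by exact_mod_cast PQ_count_le
  have h6 : ∑ t ∈ range 4, 1 / (((4 * (243 * 2 ^ (n + 1)) : ℕ) : ℝ) + t * ((243 * 2 ^ (n + 1) : ℕ) : ℝ))
      = (1 / 4 + 1 / 5 + 1 / 6 + 1 / 7) / (243 * 2 ^ (n + 1)) := by
    simp only [sum_range_succ, sum_range_zero]
    push_cast
    have hp : (0 : ℝ) < 2 ^ (n + 1) := by positivity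
    field_simp
    ring
  rw [h6] at h3
  calc Wt r i * ∑ x ∈ (Ico (4 * (243 * 2 ^ (n + 1))) (4 * (243 * 2 ^ (n + 1)) +
        4 * (243 * 2 ^ (n + 1)))).filter (PQ n r (i + 1)), 1 / (x : ℝ)
      ≤ Wt r i * ((D n (T1 r) (i + 1) : ℝ) *
          ((1 / 4 + 1 / 5 + 1 / 6 + 1 / 7) / (243 * 2 ^ (n + 1)))) := by
        apply mul_le_mul_of_nonneg_left _ (Wt_nonneg r i)
        exact le_trans h3 (mul_le_mul_of_nonneg_right h5 (by positivity))
    _ = _ := by ring

end H86C
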