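import Pool.Agent.H86.C.WinB
import Pool.Agent.H86.C.NwVW
import Pool.Agent.H86.C.TailB
import Pool.Agent.H86.C.DVD
import Pool.Agent.H86.C.HTl
import Pool.Agent.H86.C.RunW
import Pool.Agent.H86.C.RunD

/-! # Module SumA: the total price of all blocks

`cW = 10376108576284800833669186323120`, `cD = 2409076183203953401533140`, `AN = 1610612737`.

* `harm` : kernel check with integers (`∑_{C=2}^{8191} ⌈2 * 10^12 / (C+1)⌉ ≤ 16.1764 * 10^12`; true value
  16.17638010), or a telescoping comparison with `log`.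
* Blocks `28 ≤ a ≤ 140`: `n = a + 10`, `l = n - 22 = a - 12 ∈ [16, 128]`; `block_win` (the sum over `C ∈ Ico 1 2` is `1`)
  with `b q i = 2^l (VW l q i + l) / 4096` (`Nw_le_VW` with `k = 0`, `o = 6`, `953 ≤ i ≤ 2436`: `Inv 0 n 6 i`):
  the block costs at most `Cst (VW l + l) * 2^l / (4096 * 486 * 2^(l+11) * 824) = Cst (VW l + l) / (243 * 824 * 2^24)`.
* Blocks `141 ≤ a ≤ 152`: `n = 150`, `l = 128`, `M = 2^(a-140)`: the cost is
  `(∑_{C ∈ Ico M (2M)} 2/(C+1)) * Cst (VW 128 + 128) / (243 * 824 * 2^24)`; the sum over `a` of the factors is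
  `∑_{C ∈ Ico 2 8192} 2/(C+1) ≤ 16.1764`.
* `Cst_eq` and linearity: `3 AN * 10000 * (∑_{l=16}^{128} Cst (VW l + l) + 16.1764 Cst (VW 128 + 128))` is the sum of
  `runW_spec` (`∑_{l=16}^{128} l = 8136`), so it is `≤ cW`; and
  `cW / (3 AN * 10000 * 243 * 824 * 2^24) = 0.06096335.. * 2^20`.
* Blocks `153 ≤ a ≤ 402`: `n = a - 3 ∈ [150, 399]`; `block_D` with `D n q i ≤ 2^n (VD n (q%27) i + n) / 2^30` :
  `(1/4+1/5+1/6+1/7)/(486 * 2^30) * Cst (∑_n (VD n + n))`, `∑_{n=150}^{399} n = 68625`; `runD_spec`, value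
  `0.00069206 * 2^20`.
* Blocks `a ≥ 403`: `block_D` and `tail_large`. -/

namespace H86C

open Finset

private noncomputable def hs (d : ℕ) : ℕ → ℕ :=
  @Nat.rec (fun _ => ℕ → ℕ) (fun s => Nat.add (Nat.div 2000000000000 (Nat.add s 1)) 1)
    (fun k ih s => Nat.add (ih s) (ih (Nat.add s (Nat.pow 2 k)))) d

private theorem hs_ok : Nat.ble (hs 13 0) 19176400000000 = true := by decide +kernel

private theorem hs_bd : ∀ d s : ℕ, ∑ C ∈ range (2 ^ d), (2000000000000 : ℝ) / ((s : ℝ) + (C : ℝ) + 1) ≤ (hs d s : ℕ) := by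
  intro d
  induction d with
  | zero =>
    intro s
    rw [pow_zero, sum_range_one]
    have e : hs 0 s = 2000000000000 / (s + 1) + 1 := rfl
    rw [e, Nat.cast_zero, add_zero]
    have h := Nat.div_add_mod 2000000000000 (s + 1)
    have h2 := Nat.mod_lt 2000000000000 (show 0 < s + 1 by omega)
    have h3 : (2000000000000 : ℝ) = ((s : ℝ) + 1) * ((2000000000000 / (s + 1) : ℕ) : ℝ) + ((2000000000000 % (s + 1) : ℕ) : ℝ) := by
      exact_mod_cast h.symm
    have h4 : ((2000000000000 % (s + 1) : ℕ) : ℝ) ≤ (s : ℝ) + 1 := by exact_mod_cast h2.le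
    have hs1 : (0 : ℝ) < (s : ℝ) + 1 := by positivity
    rw [div_le_iff₀ hs1]
    push_cast
    nlinarith
  | succ k ih =>
    intro s
    have e : hs (k + 1) s = hs k s + hs k (s + 2 ^ k) := rfl
    rw [e, pow_succ, mul_two, sum_range_add]
    push_cast
    apply add_le_add (ih s)
    have := ih (s + 2 ^ k)
    push_cast at this
    refine le_trans (le_of_eq ?_) this
    apply sum_congr rfl
    intro C _
    congr 1
    ring

theorem harm : ∑ C ∈ (Ico 2 8192 : Finset ℕ), (2 : ℝ) / ((C : ℝ) + 1) ≤ 16.1764 := by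
  have h1 := hs_bd 13 0
  have h2 : ((hs 13 0 : ℕ) : ℝ) ≤ 19176400000000 := by exact_mod_cast Nat.le_of_ble_eq_true hs_ok
  have h3 : ∑ C ∈ range (2 ^ 13), (2000000000000 : ℝ) / (((0 : ℕ) : ℝ) + (C : ℝ) + 1) =
      3000000000000 + 1000000000000 * ∑ C ∈ (Ico 2 8192 : Finset ℕ), (2 : ℝ) / ((C : ℝ) + 1) := by
    rw [show (2:ℕ) ^ 13 = 8192 from rfl, range_eq_Ico, ← sum_Ico_consecutive _ (show 0 ≤ 2 by norm_num) (show 2 ≤ 8192 by norm_num), mul_sum]
    congr 1
    · rw [← range_eq_Ico, sum_range_succ, sum_range_one]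
      norm_num
    · apply sum_congr rfl
      intro C _
      push_cast
      ring
  rw [h3] at h1
  norm_num
  linarith


private theorem Cst_nonneg {b : ℕ → ℕ → ℝ} (h : ∀ q i, 0 ≤ b q i) : 0 ≤ Cst b := by
  unfold Cst
  apply sum_nonneg
  intro r _
  apply sum_nonneg
  intro i _
  exact mul_nonneg (Wt_nonneg r i) (h _ _)

private theorem Cst_smul (κ : ℝ) (b : ℕ → ℕ → ℝ) : Cst (fun q i => κ * b q i) = κ * Cst b := by
  unfold Cst
  rw [mul_sum]
  apply sum_congr rfl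
  intro r _
  rw [mul_sum]
  apply sum_congr rfl
  intro i _
  ring

private theorem Cst_add (b b' : ℕ → ℕ → ℝ) : Cst (fun q i => b q i + b' q i) = Cst b + Cst b' := by
  unfold Cst
  rw [← sum_add_distrib]
  apply sum_congr rfl
  intro r _
  rw [← sum_add_distrib]
  apply sum_congr rfl
  intro i _
  ring

private theorem Cst_sum (s : Finset ℕ) (b : ℕ → ℕ → ℕ → ℝ) :
    Cst (fun q i => ∑ l ∈ s, b l q i) = ∑ l ∈ s, Cst (b l) := by
  unfold Cst
  symm
  rw [sum_comm]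
  apply sum_congr rfl
  intro r _
  rw [sum_comm]
  apply sum_congr rfl
  intro i _
  rw [mul_sum]

/-- Cost of level `22 + l`. -/
private noncomputable def SW (l : ℕ) : ℝ := Cst (fun q i => ((VW l q i + l : ℕ) : ℝ))

private noncomputable def SD (n : ℕ) : ℝ := Cst (fun q i => ((VD n (q % 27) i + n : ℕ) : ℝ))

private theorem SW_nonneg (l : ℕ) : 0 ≤ SW l := Cst_nonneg (fun _ _ => Nat.cast_nonneg _)

private theorem blk_win (base : BaseAll) {a n l : ℕ} (ha : 28 ≤ a) (hn : n = 22 + l) (h16 : 16 ≤ l) (h128 : l ≤ 128)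
    (hna : n ≤ a + 10) :
    ∑ y ∈ block a, wp y / y ≤
      (∑ C ∈ (Ico (2 ^ (a + 10 - n)) (2 ^ (a + 11 - n)) : Finset ℕ), (2 : ℝ) / ((C : ℝ) + 1)) *
        (SW l / (243 * 824 * 2 ^ 24)) := by
  have hb : ∀ q < 243, q % 3 ≠ 0 → ∀ c, c % 243 = q → ∀ i, 953 ≤ i → i ≤ 2436 →
      (Nw n 6 c i : ℝ) ≤ (fun q i => (2 ^ l / 4096 : ℝ) * ((VW l q i + l : ℕ) : ℝ)) q i := by
    intro q hq hq3 c hc i h1 h2
    have hI : Inv 0 (22 + l) 6 i := by
      unfold Inv
      omega
    have h3 := Nw_le_VW base (c := c) (by omega) hI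
    rw [hc, ← hn] at h3
    have h4 : (Nw n 6 c i : ℝ) * 4096 ≤ 2 ^ l * ((VW l q i + l : ℕ) : ℝ) := by exact_mod_cast h3
    show (Nw n 6 c i : ℝ) ≤ (2 ^ l / 4096 : ℝ) * ((VW l q i + l : ℕ) : ℝ)
    have e : (2 ^ l / 4096 : ℝ) * ((VW l q i + l : ℕ) : ℝ) = 2 ^ l * ((VW l q i + l : ℕ) : ℝ) / 4096 := by ring
    rw [e, le_div_iff₀ (by norm_num)]
    exact h4
  have h := block_win ha (show 22 ≤ n by omega) hna hb
  rw [Cst_smul] at h
  refine le_trans h (le_of_eq ?_)
  have e1 : n - 11 = l + 11 := by omega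
  rw [e1]
  change _ * (2 ^ l / 4096 * SW l) = _
  generalize (∑ C ∈ (Ico (2 ^ (a + 10 - n)) (2 ^ (a + 11 - n)) : Finset ℕ), (2 : ℝ) / ((C : ℝ) + 1)) = S
  have h2 : (2 : ℝ) ^ l ≠ 0 := by positivity
  rw [pow_add]
  field_simp
  norm_num
  ring

private theorem dyad (f : ℕ → ℝ) (k : ℕ) :
    ∑ a ∈ Ico 141 (141 + k), ∑ C ∈ (Ico (2 ^ (a + 10 - 150)) (2 ^ (a + 11 - 150)) : Finset ℕ), f C =
      ∑ C ∈ (Ico 2 (2 ^ (k + 1)) : Finset ℕ), f C := by
  induction k with
  | zero => simp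
  | succ k ih =>
    rw [← add_assoc, sum_Ico_succ_top (by omega), ih]
    have e1 : 141 + k + 10 - 150 = k + 1 := by omega
    have e2 : 141 + k + 11 - 150 = k + 1 + 1 := by omega
    rw [e1, e2]
    apply sum_Ico_consecutive
    · have := Nat.one_le_two_pow (n := k)
      rw [pow_succ]
      omega
    · exact Nat.pow_le_pow_right (by norm_num) (by omega)

private theorem SW_total (hW : runW 16 112 10376108576284800833669186323120 = true) :
    3 * 1610612737 * (10000 * ∑ l ∈ Ico 16 129, SW l + 161764 * SW 128) ≤ 10376108576284800833669186323120 := by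
  have e1 : 10000 * ∑ l ∈ Ico 16 129, SW l + 161764 * SW 128 =
      Cst (fun q i => 10000 * (∑ l ∈ Ico 16 129, ((VW l q i + l : ℕ) : ℝ)) + 161764 * ((VW 128 q i + 128 : ℕ) : ℝ)) := by
    rw [Cst_add (fun q i => 10000 * (∑ l ∈ Ico 16 129, ((VW l q i + l : ℕ) : ℝ)))
      (fun q i => 161764 * ((VW 128 q i + 128 : ℕ) : ℝ)),
      Cst_smul 10000 (fun q i => ∑ l ∈ Ico 16 129, ((VW l q i + l : ℕ) : ℝ)),
      Cst_smul 161764 (fun q i => ((VW 128 q i + 128 : ℕ) : ℝ)),
      Cst_sum (Ico 16 129) (fun l q i => ((VW l q i + l : ℕ) : ℝ))]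
    rfl
  rw [e1, Cst_eq]
  have h := runW_spec hW
  have h' : ((∑ k ∈ range 162, ∑ i ∈ range (nth CT k),
      Wi (nth KL k) (nth KL (nth JX (k % 54)) + i) *
        (10000 * ((∑ l ∈ Ico 16 129, VW l (T1 (rk k)) (nth KL (nth JX (k % 54)) + i + 1)) + 8136)
          + 161764 * (VW 128 (T1 (rk k)) (nth KL (nth JX (k % 54)) + i + 1) + 128)) : ℕ) : ℝ) ≤
      10376108576284800833669186323120 := by exact_mod_cast h
  refine le_trans (le_of_eq ?_) h'
  rw [Nat.cast_sum]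
  apply sum_congr rfl
  intro k _
  rw [Nat.cast_sum]
  apply sum_congr rfl
  intro i _
  have e2 : ∑ l ∈ Ico 16 129, ((VW l (T1 (rk k)) (nth KL (nth JX (k % 54)) + i + 1) + l : ℕ) : ℝ) =
      (((∑ l ∈ Ico 16 129, VW l (T1 (rk k)) (nth KL (nth JX (k % 54)) + i + 1)) + 8136 : ℕ) : ℝ) := by
    rw [← Nat.cast_sum, sum_add_distrib]
    have : ∑ l ∈ Ico 16 129, l = 8136 := by decide +kernel
    rw [this]
  rw [e2]
  push_cast
  ring

theorem sum_win (base : BaseAll) (hW : runW 16 112 10376108576284800833669186323120 = true) :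
    ∑ a ∈ Ico 28 153, ∑ y ∈ block a, wp y / y ≤ 0.0609634 * 1048576 := by
  rw [← sum_Ico_consecutive _ (show 28 ≤ 141 by norm_num) (show 141 ≤ 153 by norm_num)]
  have hA : ∑ a ∈ Ico 28 141, ∑ y ∈ block a, wp y / y ≤ (∑ l ∈ Ico 16 129, SW l) / (243 * 824 * 2 ^ 24) := by
    rw [sum_div]
    have e : ∑ l ∈ Ico 16 129, SW l / (243 * 824 * 2 ^ 24) = ∑ a ∈ Ico 28 141, SW (a - 12) / (243 * 824 * 2 ^ 24) := by
      have := sum_Ico_add' (fun a => SW (a - 12) / (243 * 824 * 2 ^ 24)) 16 129 12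
      simpa using this
    rw [e]
    apply sum_le_sum
    intro a ha
    rw [mem_Ico] at ha
    have h := blk_win base (a := a) (n := a + 10) (l := a - 12) ha.1 (by omega) (by omega) (by omega) (le_refl _)
    refine le_trans h (le_of_eq ?_)
    rw [Nat.sub_self, show a + 11 - (a + 10) = 1 by omega, pow_zero, pow_one, sum_Ico_succ_top (by norm_num)]
    norm_num
  have hB : ∑ a ∈ Ico 141 153, ∑ y ∈ block a, wp y / y ≤ 16.1764 * (SW 128 / (243 * 824 * 2 ^ 24)) := by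
    have h1 : ∑ a ∈ Ico 141 153, ∑ y ∈ block a, wp y / y ≤
        ∑ a ∈ Ico 141 153, (∑ C ∈ (Ico (2 ^ (a + 10 - 150)) (2 ^ (a + 11 - 150)) : Finset ℕ), (2 : ℝ) / ((C : ℝ) + 1)) *
        (SW 128 / (243 * 824 * 2 ^ 24)) := by
      apply sum_le_sum
      intro a ha
      rw [mem_Ico] at ha
      exact blk_win base (a := a) (n := 150) (l := 128) (by omega) rfl (by norm_num) (le_refl _) (by omega)
    rw [← sum_mul, dyad (fun C => (2 : ℝ) / ((C : ℝ) + 1)) 12, show (2:ℕ) ^ (12 + 1) = 8192 from rfl] at h1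
    refine le_trans h1 ?_
    apply mul_le_mul_of_nonneg_right harm
    exact div_nonneg (SW_nonneg 128) (by norm_num)
  have hT := SW_total hW
  generalize (∑ l ∈ Ico 16 129, SW l) = X at hA hT
  generalize SW 128 = Y at hB hT
  have h1 : (∑ a ∈ Ico 28 141, ∑ y ∈ block a, wp y / y) + ∑ a ∈ Ico 141 153, ∑ y ∈ block a, wp y / y ≤
      (3 * 1610612737 * (10000 * X + 161764 * Y)) / (3 * 1610612737 * 10000 * (243 * 824 * 2 ^ 24)) := by
    refine le_trans (add_le_add hA hB) (le_of_eq ?_)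
    field_simp
    ring
  refine le_trans h1 ?_
  rw [div_le_iff₀ (by norm_num)]
  refine le_trans hT ?_
  norm_num

private theorem blk_D {n : ℕ} (hn : 25 ≤ n) :
    ∑ y ∈ block (n + 3), wp y / y ≤ 319 / (420 * 486 * 1073741824) * SD n := by
  have h := block_D hn
  have h2 : Cst (fun q i => (D n q i : ℝ)) ≤ Cst (fun q i => (2 ^ n / 1073741824 : ℝ) * ((VD n (q % 27) i + n : ℕ) : ℝ)) := by
    apply Cst_le
    intro q hq hq3 i _ _
    have h3 := D_le_VD n q hq hq3 i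
    have h4 : (D n q i : ℝ) * 1073741824 ≤ 2 ^ n * ((VD n (q % 27) i + n : ℕ) : ℝ) := by exact_mod_cast h3
    have e : (2 ^ n / 1073741824 : ℝ) * ((VD n (q % 27) i + n : ℕ) : ℝ) =
      2 ^ n * ((VD n (q % 27) i + n : ℕ) : ℝ) / 1073741824 := by ring
    show (D n q i : ℝ) ≤ (2 ^ n / 1073741824 : ℝ) * ((VD n (q % 27) i + n : ℕ) : ℝ)
    rw [e, le_div_iff₀ (by norm_num)]
    exact h4
  rw [Cst_smul] at h2
  change _ ≤ 2 ^ n / 1073741824 * SD n at h2
  refine le_trans h (le_trans (mul_le_mul_of_nonneg_left h2 (by positivity)) (le_of_eq ?_))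
  have h5 : (2 : ℝ) ^ n ≠ 0 := by positivity
  rw [pow_succ]
  field_simp
  norm_num
  ring

private theorem SD_total (hD : runD 150 249 2409076183203953401533140 = true) :
    3 * 1610612737 * ∑ n ∈ Ico 150 400, SD n ≤ 2409076183203953401533140 := by
  have e1 : ∑ n ∈ Ico 150 400, SD n =
      Cst (fun q i => ∑ n ∈ Ico 150 400, ((VD n (q % 27) i + n : ℕ) : ℝ)) := by
    rw [Cst_sum (Ico 150 400) (fun n q i => ((VD n (q % 27) i + n : ℕ) : ℝ))]
    rfl
  rw [e1, Cst_eq]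
  have h := runD_spec hD
  have h' : ((∑ k ∈ range 162, ∑ i ∈ range (nth CT k),
      Wi (nth KL k) (nth KL (nth JX (k % 54)) + i) *
        ((∑ n ∈ Ico 150 400, VD n (T1 (rk k) % 27) (nth KL (nth JX (k % 54)) + i + 1)) + 68625) : ℕ) : ℝ) ≤
      2409076183203953401533140 := by exact_mod_cast h
  refine le_trans (le_of_eq ?_) h'
  rw [Nat.cast_sum]
  apply sum_congr rfl
  intro k _
  rw [Nat.cast_sum]
  apply sum_congr rfl
  intro i _
  have e2 : ∑ n ∈ Ico 150 400, ((VD n (T1 (rk k) % 27) (nth KL (nth JX (k % 54)) + i + 1) + n : ℕ) : ℝ) =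
      (((∑ n ∈ Ico 150 400, VD n (T1 (rk k) % 27) (nth KL (nth JX (k % 54)) + i + 1)) + 68625 : ℕ) : ℝ) := by
    rw [← Nat.cast_sum, sum_add_distrib]
    have : ∑ n ∈ Ico 150 400, n = 68625 := by decide +kernel
    rw [this]
  rw [e2, ← Nat.cast_mul]

theorem sum_D (hD : runD 150 249 2409076183203953401533140 = true) :
    ∑ a ∈ Ico 153 403, ∑ y ∈ block a, wp y / y ≤ 0.0006921 * 1048576 := by
  have e : ∑ a ∈ Ico 153 403, ∑ y ∈ block a, wp y / y = ∑ n ∈ Ico 150 400, ∑ y ∈ block (n + 3), wp y / y := by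
    have := sum_Ico_add' (fun a => ∑ y ∈ block a, wp y / y) 150 400 3
    simpa using this.symm
  rw [e]
  have h1 : ∑ n ∈ Ico 150 400, ∑ y ∈ block (n + 3), wp y / y ≤
      ∑ n ∈ Ico 150 400, 319 / (420 * 486 * 1073741824) * SD n := by
    apply sum_le_sum
    intro n hn
    rw [mem_Ico] at hn
    exact blk_D (by omega)
  rw [← mul_sum] at h1
  have hT := SD_total hD
  generalize (∑ n ∈ Ico 150 400, SD n) = X at h1 hT
  refine le_trans h1 ?_
  have h2 : 319 / (420 * 486 * 1073741824) * X =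
      319 * (3 * 1610612737 * X) / (420 * 486 * 1073741824 * (3 * 1610612737)) := by
    field_simp
  rw [h2, div_le_iff₀ (by norm_num)]
  refine le_trans (mul_le_mul_of_nonneg_left hT (by norm_num)) ?_
  norm_num

theorem blocks_all (base : BaseAll) (hW : runW 16 112 10376108576284800833669186323120 = true)
    (hD : runD 150 249 2409076183203953401533140 = true) (A : ℕ) :
    ∑ a ∈ Ico 28 A, ∑ y ∈ block a, wp y / y ≤ 0.0616656 * 1048576 := by
  have h0 : ∀ a : ℕ, 0 ≤ ∑ y ∈ block a, wp y / y := by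
    intro a
    apply sum_nonneg
    intro y _
    exact div_nonneg (wp_nonneg y) (by positivity)
  have h1 : ∑ a ∈ Ico 28 A, ∑ y ∈ block a, wp y / y ≤ ∑ a ∈ Ico 28 (max A 403), ∑ y ∈ block a, wp y / y :=
    sum_le_sum_of_subset_of_nonneg (Ico_subset_Ico (le_refl _) (le_max_left _ _)) (fun a _ _ => h0 a)
  have hm : 403 ≤ max A 403 := le_max_right _ _
  have h2 : ∑ a ∈ Ico 403 (max A 403), ∑ y ∈ block a, wp y / y ≤ 0.00001 * 1048576 := by
    have e : ∑ a ∈ Ico 403 (max A 403), ∑ y ∈ block a, wp y / y =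
        ∑ n ∈ Ico 400 (max A 403 - 3), ∑ y ∈ block (n + 3), wp y / y := by
      have := sum_Ico_add' (fun a => ∑ y ∈ block a, wp y / y) 400 (max A 403 - 3) 3
      rw [show max A 403 - 3 + 3 = max A 403 by omega, show 400 + 3 = 403 from rfl] at this
      exact this.symm
    rw [e]
    refine le_trans (sum_le_sum fun n hn => ?_) (tail_large (max A 403 - 3))
    rw [mem_Ico] at hn
    exact block_D (by omega)
  have h3 := sum_win base hW
  have h4 := sum_D hD
  rw [← sum_Ico_consecutive _ (show 28 ≤ 403 by norm_num) hm,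
    ← sum_Ico_consecutive _ (show 28 ≤ 153 by norm_num) (show 153 ≤ 403 by norm_num)] at h1
  refine le_trans h1 ?_
  refine le_trans (add_le_add (add_le_add h3 h4) h2) ?_
  norm_num

end H86C
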