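import Pool.Agent.H86.C.PotA

/-! # Module Win: the recursion for windows

`Nw n o c i` is the weighted number of `p < 2^(n-11)` with `K n (c + 3^o p) < m i`, weight `wt (p / 2^(n-22))`.

Proof of `Nw_succ` (`n ≥ 22`, `o ≥ 5`, `c` prime to 3, so that all `c + 3^o p` are `≡ c` modulo 243):
if `i ≤ kap (c mod 243)` then `K ≥ m (kap ..) ≥ m i` and everything is zero. Otherwise `i ≥ 953` and split
`p < 2^(n+1-11) = 2 * 2^(n-11)` by parity, `p = 2p' + e` (`e = 0, 1`; `Finset.sum_range` over `2 N` terms split into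
even and odd ones: prove a small lemma by induction on `N`):
`wt ((2p'+e) / 2^(n+1-22)) = wt (p' / 2^(n-22))` since `(2p'+e)/(2 * 2^(n-22)) = p' / 2^(n-22)`.
Let `x = c + 3^o (2p'+e) = (c + 3^o e) + 2 * 3^o p'`; its parity is that of `c + e` (`3^o` odd), constant for given `e`.
* the `e` with `c + e` even: `x/2 = (c + 3^o e)/2 + 3^o p'`; `K (n+1) x < m i` implies `2 K n (x/2) < m i = 2 m (i-400)`.
  Take `c0 = (c + 3^o e)/2`; `2 c0 ≡ c` modulo 243, so `c0 mod 243 = T0 (c mod 243)`.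
* the other `e`: `T x = (3 (c + 3^o e) + 1)/2 + 3^(o+1) p'`; `K (n+1) x < m i` implies
  `(K n (T x) - 524289)/al < m i`, i.e. `K n (T x) < al m i + 524289 ≤ m (J i)` (`J_ok`, needs `i ≥ 953`).
  Take `c1 = (3 (c + 3^o e) + 1)/2`; `2 c1 ≡ 3c+1`, so `c1 mod 243 = T1 (c mod 243)`. -/

namespace H86C

open Finset
open scoped Classical

private theorem sum_even_odd (f : ℕ → ℕ) (N : ℕ) :
    ∑ p ∈ range (2 * N), f p = ∑ p ∈ range N, f (2 * p) + ∑ p ∈ range N, f (2 * p + 1) := by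
  induction N with
  | zero => simp
  | succ N ih =>
      rw [show 2 * (N + 1) = 2 * N + 1 + 1 by ring, sum_range_succ, sum_range_succ, ih, sum_range_succ,
        sum_range_succ]
      ring

private theorem sum_block (f : ℕ → ℕ) (M N : ℕ) (hM : 0 < M) :
    ∑ p ∈ range (N * M), f (p / M) = M * ∑ p ∈ range N, f p := by
  induction N with
  | zero => simp
  | succ N ih =>
      rw [Nat.succ_mul, sum_range_add, ih, sum_range_succ, Nat.mul_add]
      congr 1
      rw [sum_congr rfl (g := fun _ => f N), sum_const, card_range, smul_eq_mul]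
      intro x hx
      rw [mem_range] at hx
      congr 1
      rw [Nat.mul_comm, Nat.mul_add_div hM, Nat.div_eq_of_lt hx, Nat.add_zero]

private theorem div_pow_succ {n : ℕ} (hn : 22 ≤ n) (p e : ℕ) (he : e < 2) :
    (2 * p + e) / 2 ^ (n + 1 - 22) = p / 2 ^ (n - 22) := by
  rw [show n + 1 - 22 = (n - 22) + 1 by omega, pow_succ', ← Nat.div_div_eq_div_mul]
  congr 1
  omega

private theorem term_even {n o c i e p w : ℕ} (hi : 400 ≤ i) (he : (c + 3 ^ o * e) % 2 = 0) :
    (if K (n + 1) (c + 3 ^ o * (2 * p + e)) < m i then w else 0)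
      ≤ if K n ((c + 3 ^ o * e) / 2 + 3 ^ o * p) < m (i - 400) then w else 0 := by
  have hx : c + 3 ^ o * (2 * p + e) = (c + 3 ^ o * e) + 2 * (3 ^ o * p) := by ring
  rw [hx]
  generalize c + 3 ^ o * e = y at he ⊢
  generalize 3 ^ o * p = z
  have e1 : (y + 2 * z) % 2 = 0 := by omega
  have e2 : (y + 2 * z) / 2 = y / 2 + z := by omega
  by_cases h : K (n + 1) (y + 2 * z) < m i
  · have h4 := lt_of_le_of_lt (le_max_right (m (kap ((y + 2 * z) % 243)) : ℝ)
      (if (y + 2 * z) % 2 = 0 then 2 * K n ((y + 2 * z) / 2)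
        else (K n (H1Col.T (y + 2 * z)) - 524289) / al)) h
    rw [if_pos e1, e2] at h4
    have h5 : m i = 2 * m (i - 400) := by
      conv_lhs => rw [show i = (i - 400) + 400 by omega]
      rw [m_add]
    rw [h5] at h4
    push_cast at h4
    have h6 : K n (y / 2 + z) < m (i - 400) := by linarith
    rw [if_pos h, if_pos h6]
  · rw [if_neg h]
    exact Nat.zero_le _

private theorem term_odd {n o c i e p w : ℕ} (hi : 953 ≤ i) (he : (c + 3 ^ o * e) % 2 = 1) :
    (if K (n + 1) (c + 3 ^ o * (2 * p + e)) < m i then w else 0)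
      ≤ if K n ((3 * (c + 3 ^ o * e) + 1) / 2 + 3 ^ (o + 1) * p) < m (J i) then w else 0 := by
  have hx : c + 3 ^ o * (2 * p + e) = (c + 3 ^ o * e) + 2 * (3 ^ o * p) := by ring
  have hy : 3 ^ (o + 1) * p = 3 * (3 ^ o * p) := by ring
  rw [hx, hy]
  generalize c + 3 ^ o * e = y at he ⊢
  generalize 3 ^ o * p = z
  have e1 : (y + 2 * z) % 2 = 1 := by omega
  have e2 : H1Col.T (y + 2 * z) = (3 * y + 1) / 2 + 3 * z := by
    have := H1Col.two_T_odd e1
    omega
  by_cases h : K (n + 1) (y + 2 * z) < m i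
  · have h4 := lt_of_le_of_lt (le_max_right (m (kap ((y + 2 * z) % 243)) : ℝ)
      (if (y + 2 * z) % 2 = 0 then 2 * K n ((y + 2 * z) / 2)
        else (K n (H1Col.T (y + 2 * z)) - 524289) / al)) h
    rw [if_neg (by omega), div_lt_iff₀ al_pos, e2] at h4
    have h5 := J_ok i hi
    have h6 : (1610612737 : ℝ) * m i + 524289 * 1073741824 ≤ 1073741824 * m (J i) := by
      exact_mod_cast h5
    have h7 : K n ((3 * y + 1) / 2 + 3 * z) < m (J i) := by
      unfold al at h4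
      linarith
    rw [if_pos h, if_pos h7]
  · rw [if_neg h]
    exact Nat.zero_le _

private theorem pow_mod {o : ℕ} (ho : 5 ≤ o) : ∃ k, 3 ^ o = 243 * k ∧ k % 2 = 1 := by
  refine ⟨3 ^ (o - 5), ?_, ?_⟩
  · conv_lhs => rw [show o = 5 + (o - 5) by omega, pow_add]
    norm_num
  · exact Nat.odd_iff.mp (Odd.pow (by decide))

private theorem sum_even_le {n o c i e : ℕ} (hn : 22 ≤ n) (hi : 400 ≤ i) (h2 : e < 2)
    (he : (c + 3 ^ o * e) % 2 = 0) :
    (∑ p ∈ range (2 ^ (n - 11)), if K (n + 1) (c + 3 ^ o * (2 * p + e)) < m i then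
      wt ((2 * p + e) / 2 ^ (n + 1 - 22)) else 0) ≤ Nw n o ((c + 3 ^ o * e) / 2) (i - 400) := by
  unfold Nw
  apply sum_le_sum
  intro p _
  rw [div_pow_succ hn p e h2]
  exact term_even hi he

private theorem sum_odd_le {n o c i e : ℕ} (hn : 22 ≤ n) (hi : 953 ≤ i) (h2 : e < 2)
    (he : (c + 3 ^ o * e) % 2 = 1) :
    (∑ p ∈ range (2 ^ (n - 11)), if K (n + 1) (c + 3 ^ o * (2 * p + e)) < m i then
      wt ((2 * p + e) / 2 ^ (n + 1 - 22)) else 0) ≤
      Nw n (o + 1) ((3 * (c + 3 ^ o * e) + 1) / 2) (J i) := by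
  unfold Nw
  apply sum_le_sum
  intro p _
  rw [div_pow_succ hn p e h2]
  exact term_odd hi he

private theorem Nw_split {n o c i : ℕ} (hn : 22 ≤ n) : Nw (n + 1) o c i =
    (∑ p ∈ range (2 ^ (n - 11)), if K (n + 1) (c + 3 ^ o * (2 * p + 0)) < m i then
      wt ((2 * p + 0) / 2 ^ (n + 1 - 22)) else 0) +
    (∑ p ∈ range (2 ^ (n - 11)), if K (n + 1) (c + 3 ^ o * (2 * p + 1)) < m i then
      wt ((2 * p + 1) / 2 ^ (n + 1 - 22)) else 0) := by
  unfold Nw
  rw [show n + 1 - 11 = (n - 11) + 1 by omega, pow_succ', sum_even_odd]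
  rfl

theorem Nw_succ {n o c i : ℕ} (hn : 22 ≤ n) (ho : 5 ≤ o) (hc : c % 3 ≠ 0) :
    ∃ c0 c1 : ℕ, c0 % 243 = T0 (c % 243) ∧ c1 % 243 = T1 (c % 243) ∧
      Nw (n + 1) o c i ≤ if i ≤ kap (c % 243) then 0 else Nw n o c0 (i - 400) + Nw n (o + 1) c1 (J i) := by
  obtain ⟨k, hk, hk2⟩ := pow_mod ho
  have h0 : ∀ e, (c + 3 ^ o * e) % 2 = 0 → ((c + 3 ^ o * e) / 2) % 243 = T0 (c % 243) := by
    intro e he
    rw [hk, Nat.mul_assoc] at he ⊢
    generalize k * e = s at he ⊢
    unfold T0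
    omega
  have h1 : ∀ e, (c + 3 ^ o * e) % 2 = 1 → ((3 * (c + 3 ^ o * e) + 1) / 2) % 243 = T1 (c % 243) := by
    intro e he
    rw [hk, Nat.mul_assoc] at he ⊢
    generalize k * e = s at he ⊢
    unfold T1
    omega
  have hz : i ≤ kap (c % 243) → Nw (n + 1) o c i = 0 := by
    intro hi
    unfold Nw
    apply sum_eq_zero
    intro p _
    rw [if_neg]
    intro hlt
    have h3 := K_ge (n + 1) (c + 3 ^ o * p)
    have h4 : (c + 3 ^ o * p) % 243 = c % 243 := by
      rw [hk, Nat.mul_assoc]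
      omega
    rw [h4] at h3
    have h5 : (m i : ℝ) ≤ m (kap (c % 243)) := by exact_mod_cast m_mono hi
    linarith
  have hkb := (kap_bd (c % 243) (Nat.mod_lt _ (by norm_num)) (by omega)).1
  rcases Nat.mod_two_eq_zero_or_one c with hp | hp
  · have he0 : (c + 3 ^ o * 0) % 2 = 0 := by omega
    have he1 : (c + 3 ^ o * 1) % 2 = 1 := by rw [hk]; omega
    refine ⟨(c + 3 ^ o * 0) / 2, (3 * (c + 3 ^ o * 1) + 1) / 2, h0 0 he0, h1 1 he1, ?_⟩
    split_ifs with hi
    · exact (hz hi).le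
    · rw [Nw_split hn]
      exact Nat.add_le_add (sum_even_le hn (by omega) (by norm_num) he0)
        (sum_odd_le hn (by omega) (by norm_num) he1)
  · have he0 : (c + 3 ^ o * 0) % 2 = 1 := by omega
    have he1 : (c + 3 ^ o * 1) % 2 = 0 := by rw [hk]; omega
    refine ⟨(c + 3 ^ o * 1) / 2, (3 * (c + 3 ^ o * 0) + 1) / 2, h0 1 he1, h1 0 he0, ?_⟩
    split_ifs with hi
    · exact (hz hi).le
    · rw [Nw_split hn, Nat.add_comm]
      exact Nat.add_le_add (sum_even_le hn (by omega) (by norm_num) he1)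
        (sum_odd_le hn (by omega) (by norm_num) he0)

private theorem wt_total : ∑ p ∈ range 2048, wt p = 1178784 := by decide +kernel

/-- Trivial bound: total weight `1178784 = ∑_{p<2048} wt p`, times `2^(n-22)`
(`∑_{p < 2^(n-11)} wt (p/2^(n-22)) = 2^(n-22) ∑_{p<2048} wt p`). -/
theorem Nw_le {n o c i : ℕ} (hn : 22 ≤ n) : Nw n o c i ≤ 2 ^ (n - 22) * 1178784 := by
  rw [← wt_total, ← sum_block wt (2 ^ (n - 22)) 2048 (by positivity)]
  unfold Nw
  rw [show n - 11 = 11 + (n - 22) by omega, pow_add, show (2 : ℕ) ^ 11 = 2048 by norm_num]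
  apply sum_le_sum
  intro p _
  split_ifs
  · exact le_rfl
  · exact Nat.zero_le _

/-- Level 22 is the sum of `BaseOK`. -/
theorem Nw_base {o c i t u : ℕ} (hc : c % 3 ≠ 0) (h : BaseOK o t u) (hm : m i ≤ 2048 * t) :
    Nw 22 o c i ≤ u := by
  refine le_trans ?_ (h c hc)
  unfold Nw
  rw [show (2 : ℕ) ^ (22 - 11) = 2048 by norm_num]
  apply sum_le_sum
  intro p _
  have hm' : (m i : ℝ) ≤ 2048 * (t : ℝ) := by exact_mod_cast hm
  rw [Nat.sub_self, pow_zero, Nat.div_one]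
  by_cases h1 : K 22 (c + 3 ^ o * p) < m i
  · rw [if_pos h1, if_pos (lt_of_lt_of_le h1 hm')]
  · rw [if_neg h1]
    exact Nat.zero_le _

end H86C
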