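import Pool.Agent.H86.C.Cnt

/-! # Module WinB: the price of one block, windows

Let `a ≥ 28`, `22 ≤ n ≤ a + 10`, `L = 2^(n-11)` (window length), `M = 2^(a+10-n)`.
All `x` in `block a` have `nx x = a + 11` (`nx_eq`), so `n ≤ nx x - 1`. Even `x` cost nothing (`wp_even`).
Odd `x` in the class `r` modulo 243 (`r < 243`, prime to 3): `x = r + 243 t` with `2^a ≤ t < 2^(a+1)` and
`t = 2 t' + e`, `e = (r+1) mod 2`, `2^(a-1) ≤ t' < 2^a`; `t' = C L + p`, `M ≤ C < 2M`, `p < L` (as `M L = 2^(a-1)`).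
`T x = (3 (r + 243 e) + 1)/2 + 729 (C L + p) = c + 3^6 p`, `c = (3 (r+243e)+1)/2 + 729 C L`, `c mod 243 = T1 r`.
Weights: with `k = (p / 2^(n-22)) / 16 ≤ 127` one has `p < (k+1) 2^(n-18)`, `p ≥ k 2^(n-18)`, `L = 128 * 2^(n-18)` and
`Wd (k+1) * (128+k) ≥ 128 * 824` (decide, `k < 128`), so `824 * L ≤ wt (p / 2^(n-22)) * (L + p)`. Further
`(C+1) (L+p) ≤ 2 (C L + p)` (`C ≥ 1`). Hence
`1/x ≤ 1/(486 t') = 1/(486 (C L + p)) ≤ (2/(C+1)) * wt (p/2^(n-22)) / (486 * L * 824)`.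
`wp_odd` gives `wp x ≤ ∑ Wt r i [K n (T x) < m (i+1)]`; multiply, sum over `p` (this is `Nw n 6 c (i+1)`, bounded by
`b (T1 r) (i+1)`: note `953 ≤ kap (T1 r) + 1 ≤ i+1 ≤ 2436`), over `C` and over `r`.
Model for the organisation: `block_bound` in `Pool/Agent/H1/Col/Block.lean`. A convenient way: bound the sum over the
block by the sum over the image of the injective map `(r, C, p) ↦ x`. -/

namespace H86C

open Finset
open scoped Classical

theorem Wd_ok : ∀ k < 128, 128 * 824 ≤ Wd (k + 1) * (128 + k) := by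
  decide +kernel

private theorem wt_nat {n p : ℕ} (hn : 22 ≤ n) (hp : p < 2 ^ (n - 11)) :
    824 * 2 ^ (n - 11) ≤ wt (p / 2 ^ (n - 22)) * (2 ^ (n - 11) + p) := by
  have e1 : 2 ^ (n - 11) = 2048 * 2 ^ (n - 22) := by
    rw [show n - 11 = 11 + (n - 22) by omega, pow_add]
    norm_num
  have hq : 0 < 2 ^ (n - 22) := by positivity
  rw [e1] at hp ⊢
  generalize 2 ^ (n - 22) = q at hp hq ⊢
  have h1 : p / q < 2048 := Nat.div_lt_of_lt_mul (by rwa [mul_comm])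
  have h2 : p / q / 16 < 128 := by omega
  have h3 : p / q / 16 * 16 ≤ p / q := Nat.div_mul_le_self _ _
  have h4 : p / q * q ≤ p := Nat.div_mul_le_self _ _
  have h5 := Wd_ok _ h2
  have h6 : p / q / 16 * 16 * q ≤ p := (Nat.mul_le_mul_right q h3).trans h4
  unfold wt
  generalize p / q / 16 = k at h2 h5 h6 ⊢
  calc 824 * (2048 * q) = 128 * 824 * (16 * q) := by ring
    _ ≤ Wd (k + 1) * (128 + k) * (16 * q) := Nat.mul_le_mul_right _ h5
    _ = Wd (k + 1) * (2048 * q + k * 16 * q) := by ring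
    _ ≤ Wd (k + 1) * (2048 * q + p) := by gcongr

private theorem inv_bound {n C p x : ℕ} (hn : 22 ≤ n) (hC : 1 ≤ C) (hp : p < 2 ^ (n - 11))
    (hx : 486 * (C * 2 ^ (n - 11) + p) ≤ x) :
    (1 : ℝ) / x ≤ 2 / ((C : ℝ) + 1) * (wt (p / 2 ^ (n - 22)) : ℝ) / (486 * 2 ^ (n - 11) * 824) := by
  have h1 := wt_nat hn hp
  have hL : 0 < 2 ^ (n - 11) := by positivity
  have h2 : 486 * 824 * 2 ^ (n - 11) * (C + 1) ≤ 2 * wt (p / 2 ^ (n - 22)) * x := by
    generalize wt (p / 2 ^ (n - 22)) = w at h1 ⊢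
    generalize 2 ^ (n - 11) = L at h1 hp hx hL ⊢
    have h3 : (C + 1) * (L + p) ≤ 2 * (C * L + p) := by
      obtain ⟨c, rfl⟩ : ∃ c, C = c + 1 := ⟨C - 1, by omega⟩
      have h4 : c * p ≤ c * L := Nat.mul_le_mul_left _ hp.le
      nlinarith
    calc 486 * 824 * L * (C + 1) = 486 * (824 * L) * (C + 1) := by ring
      _ ≤ 486 * (w * (L + p)) * (C + 1) := by gcongr
      _ = 486 * w * ((C + 1) * (L + p)) := by ring
      _ ≤ 486 * w * (2 * (C * L + p)) := by gcongr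
      _ = 2 * w * (486 * (C * L + p)) := by ring
      _ ≤ 2 * w * x := by gcongr
  have hx0 : 0 < x := by
    have : 0 < 486 * (C * 2 ^ (n - 11) + p) := by positivity
    omega
  have h5 : (486 * 824 * 2 ^ (n - 11) * ((C : ℝ) + 1)) ≤ 2 * (wt (p / 2 ^ (n - 22)) : ℝ) * x := by
    exact_mod_cast h2
  have hx1 : (0 : ℝ) < x := by exact_mod_cast hx0
  have hC1 : (0 : ℝ) < (C : ℝ) + 1 := by positivity
  rw [div_mul_eq_mul_div, div_div, div_le_div_iff₀ hx1 (by positivity)]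
  linarith

/-- the odd number with the coordinates `r`, `C`, `p` -/
private def xx (n r C p : ℕ) : ℕ := r + 243 * (2 * (C * 2 ^ (n - 11) + p) + (r + 1) % 2)

private theorem xx_T {n r C p : ℕ} : H1Col.T (xx n r C p) = H1Col.T (xx n r C 0) + 3 ^ 6 * p := by
  have h1 : xx n r C p % 2 = 1 := by unfold xx; omega
  have h2 : xx n r C 0 % 2 = 1 := by unfold xx; omega
  have h3 := H1Col.two_T_odd h1
  have h4 := H1Col.two_T_odd h2
  have h5 : xx n r C p = xx n r C 0 + 486 * p := by unfold xx; ring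
  omega

private theorem pair_bound {a n : ℕ} (ha : 28 ≤ a) (hn : 22 ≤ n) (hna : n ≤ a + 10) {b : ℕ → ℕ → ℝ}
    (hb : ∀ q < 243, q % 3 ≠ 0 → ∀ c, c % 243 = q → ∀ i, 953 ≤ i → i ≤ 2436 → (Nw n 6 c i : ℝ) ≤ b q i)
    {r C : ℕ} (hr : r < 243) (hr3 : r % 3 ≠ 0) (hC1 : 2 ^ (a + 10 - n) ≤ C) (hC2 : C < 2 ^ (a + 11 - n)) :
    ∑ p ∈ range (2 ^ (n - 11)), wp (xx n r C p) / (xx n r C p : ℝ) ≤
      2 / ((C : ℝ) + 1) / (486 * 2 ^ (n - 11) * 824) *
        ∑ i ∈ Ico (kap (T1 r)) 2436, Wt r i * b (T1 r) (i + 1) := by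
  have hM : 2 ^ (a + 10 - n) * 2 ^ (n - 11) = 2 ^ (a - 1) := by
    rw [← pow_add]
    congr 1
    omega
  have hM2 : 2 ^ (a + 11 - n) * 2 ^ (n - 11) = 2 ^ a := by
    rw [← pow_add]
    congr 1
    omega
  have hCpos : 1 ≤ C := le_trans Nat.one_le_two_pow hC1
  have ha1 : 2 ^ a = 2 * 2 ^ (a - 1) := by
    rw [← pow_succ']
    congr 1
    omega
  have hC0 : (0 : ℝ) < (C : ℝ) + 1 := by positivity
  have hmod : ∀ p, xx n r C p % 243 = r := by
    intro p
    unfold xx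
    omega
  have hodd : ∀ p, xx n r C p % 2 = 1 := by
    intro p
    unfold xx
    omega
  have hc : H1Col.T (xx n r C 0) % 243 = T1 r := by
    rw [T_mod_odd (hodd 0), hmod]
  -- one term
  have h1 : ∀ p ∈ range (2 ^ (n - 11)), wp (xx n r C p) / (xx n r C p : ℝ) ≤
      ∑ i ∈ Ico (kap (T1 r)) 2436, Wt r i * (2 / ((C : ℝ) + 1) / (486 * 2 ^ (n - 11) * 824)) *
        (if K n (H1Col.T (xx n r C 0) + 3 ^ 6 * p) < m (i + 1) then (wt (p / 2 ^ (n - 22)) : ℝ) else 0) := by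
    intro p hp
    have hp' := mem_range.1 hp
    have hlow : 2 ^ (a - 1) ≤ C * 2 ^ (n - 11) + p := by
      rw [← hM]
      have := Nat.mul_le_mul_right (2 ^ (n - 11)) hC1
      omega
    have hup : C * 2 ^ (n - 11) + p < 2 ^ a := by
      have h3 : (C + 1) * 2 ^ (n - 11) ≤ 2 ^ a := by
        rw [← hM2]
        exact Nat.mul_le_mul_right _ hC2
      rw [add_mul, one_mul] at h3
      omega
    have hx1 : 243 * 2 ^ a ≤ xx n r C p := by
      unfold xx
      generalize C * 2 ^ (n - 11) + p = t at hlow hup ⊢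
      rw [ha1]
      omega
    have hx2 : xx n r C p < 243 * 2 ^ (a + 1) := by
      unfold xx
      rw [pow_succ]
      generalize C * 2 ^ (n - 11) + p = t at hlow hup ⊢
      omega
    have hnx : nx (xx n r C p) = a + 11 := nx_eq hx1 hx2
    have hu : xx n r C p % 3 ≠ 0 := by
      have := hmod p
      omega
    have h2 := wp_odd (n := n) hu (hodd p) (by rw [hnx]; omega)
    rw [hmod, xx_T] at h2
    have h3 := inv_bound (x := xx n r C p) hn hCpos hp' (by unfold xx; omega)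
    have hnn : 0 ≤ ∑ i ∈ Ico (kap (T1 r)) 2436,
        Wt r i * (if K n (H1Col.T (xx n r C 0) + 3 ^ 6 * p) < m (i + 1) then (1 : ℝ) else 0) := by
      apply sum_nonneg
      intro i _
      apply mul_nonneg (Wt_nonneg _ _)
      split_ifs <;> norm_num
    rw [div_eq_mul_one_div]
    calc wp (xx n r C p) * (1 / (xx n r C p : ℝ))
        ≤ (∑ i ∈ Ico (kap (T1 r)) 2436,
            Wt r i * (if K n (H1Col.T (xx n r C 0) + 3 ^ 6 * p) < m (i + 1) then (1 : ℝ) else 0)) *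
            (2 / ((C : ℝ) + 1) * (wt (p / 2 ^ (n - 22)) : ℝ) / (486 * 2 ^ (n - 11) * 824)) := by
          apply mul_le_mul h2 h3 (by positivity) hnn
      _ = _ := by
          rw [sum_mul]
          apply sum_congr rfl
          intro i _
          split_ifs
          · ring
          · ring
  refine (sum_le_sum h1).trans ?_
  rw [sum_comm, mul_sum]
  apply sum_le_sum
  intro i hi
  rw [mem_Ico] at hi
  rw [← mul_sum]
  have h4 : (∑ p ∈ range (2 ^ (n - 11)),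
      if K n (H1Col.T (xx n r C 0) + 3 ^ 6 * p) < m (i + 1) then (wt (p / 2 ^ (n - 22)) : ℝ) else 0) =
      (Nw n 6 (H1Col.T (xx n r C 0)) (i + 1) : ℝ) := by
    unfold Nw
    push_cast
    rfl
  have hk := (kap_bd (T1 r) (T1_lt _) (T1_unit _)).1
  have h5 := hb (T1 r) (T1_lt _) (T1_unit _) _ hc (i + 1) (by omega) (by omega)
  rw [h4]
  have hw := Wt_nonneg r i
  have hcc : (0 : ℝ) ≤ 2 / ((C : ℝ) + 1) / (486 * 2 ^ (n - 11) * 824) := by positivity
  calc Wt r i * (2 / ((C : ℝ) + 1) / (486 * 2 ^ (n - 11) * 824)) * (Nw n 6 (H1Col.T (xx n r C 0)) (i + 1) : ℝ)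
      ≤ Wt r i * (2 / ((C : ℝ) + 1) / (486 * 2 ^ (n - 11) * 824)) * b (T1 r) (i + 1) := by
        apply mul_le_mul_of_nonneg_left h5 (mul_nonneg hw hcc)
    _ = _ := by ring

theorem block_win {a n : ℕ} (ha : 28 ≤ a) (hn : 22 ≤ n) (hna : n ≤ a + 10) {b : ℕ → ℕ → ℝ}
    (hb : ∀ q < 243, q % 3 ≠ 0 → ∀ c, c % 243 = q → ∀ i, 953 ≤ i → i ≤ 2436 → (Nw n 6 c i : ℝ) ≤ b q i) :
    ∑ y ∈ block a, wp y / y ≤
      (∑ C ∈ (Ico (2 ^ (a + 10 - n)) (2 ^ (a + 11 - n)) : Finset ℕ), (2 : ℝ) / ((C : ℝ) + 1)) / (486 * 2 ^ (n - 11) * 824) * Cst b := by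
  have hM2 : 2 ^ (a + 11 - n) * 2 ^ (n - 11) = 2 ^ a := by
    rw [← pow_add]
    congr 1
    omega
  have hM : 2 ^ (a + 10 - n) * 2 ^ (n - 11) = 2 ^ (a - 1) := by
    rw [← pow_add]
    congr 1
    omega
  have ha1 : 2 ^ a = 2 * 2 ^ (a - 1) := by
    rw [← pow_succ']
    congr 1
    omega
  have hLpos : 0 < 2 ^ (n - 11) := by positivity
  -- the even numbers cost nothing
  have e1 : ∑ y ∈ block a, wp y / (y : ℝ) = ∑ y ∈ (block a).filter (fun y => y % 2 = 1), wp y / (y : ℝ) := by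
    rw [sum_filter]
    apply sum_congr rfl
    intro y hy
    split_ifs with h
    · rfl
    · unfold block at hy
      rw [mem_filter] at hy
      rw [wp_even hy.2 (by omega), zero_div]
  -- coordinates
  let io : ℕ → ℕ × ℕ × ℕ := fun y => (y % 243, y / 243 / 2 / 2 ^ (n - 11), y / 243 / 2 % 2 ^ (n - 11))
  have hxx : ∀ y ∈ (block a).filter (fun y => y % 2 = 1), xx n (io y).1 (io y).2.1 (io y).2.2 = y := by
    intro y hy
    rw [mem_filter] at hy
    have h1 : y / 243 / 2 / 2 ^ (n - 11) * 2 ^ (n - 11) + y / 243 / 2 % 2 ^ (n - 11) = y / 243 / 2 :=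
      Nat.div_add_mod' _ _
    change xx n (y % 243) (y / 243 / 2 / 2 ^ (n - 11)) (y / 243 / 2 % 2 ^ (n - 11)) = y
    unfold xx
    rw [h1]
    omega
  have hinj : Set.InjOn io ((block a).filter (fun y => y % 2 = 1) : Finset ℕ) := by
    intro y hy y' hy' h
    rw [← hxx y hy, ← hxx y' hy', h]
  have hmem : ((block a).filter (fun y => y % 2 = 1)).image io ⊆
      ((range 243).filter (fun r => r % 3 ≠ 0)) ×ˢ (Ico (2 ^ (a + 10 - n)) (2 ^ (a + 11 - n)) ×ˢ range (2 ^ (n - 11))) := by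
    intro q hq
    rw [mem_image] at hq
    obtain ⟨y, hy, rfl⟩ := hq
    unfold block at hy
    simp only [mem_filter, mem_Ico] at hy
    obtain ⟨⟨⟨hy1, hy2⟩, hy3⟩, hy4⟩ := hy
    have ht1 : 2 ^ (a - 1) ≤ y / 243 / 2 := by
      rw [ha1] at hy1
      generalize 2 ^ (a - 1) = A at hy1 ⊢
      omega
    have ht2 : y / 243 / 2 < 2 ^ a := by
      rw [pow_succ] at hy2
      generalize 2 ^ a = A at hy2 ⊢
      omega
    simp only [io, mem_product, mem_filter, mem_range, mem_Ico]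
    refine ⟨⟨Nat.mod_lt _ (by norm_num), by omega⟩, ⟨?_, ?_⟩, Nat.mod_lt _ hLpos⟩
    · rw [Nat.le_div_iff_mul_le hLpos, hM]
      exact ht1
    · rw [Nat.div_lt_iff_lt_mul hLpos, hM2]
      exact ht2
  have e2 : ∑ y ∈ (block a).filter (fun y => y % 2 = 1), wp y / (y : ℝ) =
      ∑ q ∈ ((block a).filter (fun y => y % 2 = 1)).image io,
        wp (xx n q.1 q.2.1 q.2.2) / (xx n q.1 q.2.1 q.2.2 : ℝ) := by
    rw [sum_image hinj]
    apply sum_congr rfl
    intro y hy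
    rw [hxx y hy]
  rw [e1, e2]
  refine (sum_le_sum_of_subset_of_nonneg hmem ?_).trans ?_
  · intro q _ _
    exact div_nonneg (wp_nonneg _) (Nat.cast_nonneg _)
  rw [sum_product]
  have h1 : ∀ r ∈ (range 243).filter (fun r => r % 3 ≠ 0),
      ∑ z ∈ Ico (2 ^ (a + 10 - n)) (2 ^ (a + 11 - n)) ×ˢ range (2 ^ (n - 11)),
        wp (xx n r z.1 z.2) / (xx n r z.1 z.2 : ℝ) ≤
      (∑ C ∈ (Ico (2 ^ (a + 10 - n)) (2 ^ (a + 11 - n)) : Finset ℕ), (2 : ℝ) / ((C : ℝ) + 1)) /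
        (486 * 2 ^ (n - 11) * 824) * ∑ i ∈ Ico (kap (T1 r)) 2436, Wt r i * b (T1 r) (i + 1) := by
    intro r hr
    rw [mem_filter, mem_range] at hr
    rw [sum_product, sum_div, sum_mul]
    apply sum_le_sum
    intro C hC
    rw [mem_Ico] at hC
    exact pair_bound ha hn hna hb hr.1 hr.2 hC.1 hC.2
  refine (sum_le_sum h1).trans (le_of_eq ?_)
  unfold Cst
  rw [mul_sum]

end H86C
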